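import Mathlib

/-!
# The Bloch–Kato order formula for a family of `p`-adic representations
-/

set_option autoImplicit false

namespace Pool.Agent.K4H36.BK

open NumberField Polynomial
open scoped Pointwise TensorProduct

section rep

variable {k G : Type} [Field k] [Group G] {V : Type} [AddCommGroup V] [Module k V]

/-- the subspace of the vectors fixed by a subgroup -/
def inv (H : Subgroup G) (ρ : Representation k G V) : Submodule k V where
  carrier := {x | ∀ g ∈ H, ρ g x = x}
  zero_mem' := fun g _ => map_zero _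
  add_mem' := fun {a b} ha hb g hg => by rw [map_add, ha g hg, hb g hg]
  smul_mem' := fun c x hx g hg => by rw [map_smul, hx g hg]

/-- the dimension of the space of the vectors fixed by a subgroup -/
noncomputable def invDim (H : Subgroup G) (ρ : Representation k G V) : ℕ :=
  Module.finrank k (inv H ρ)

/-- `(g - 1) ^ n = 0` for all elements of the subgroup `H` -/
def Unipotent (n : ℕ) (H : Subgroup G) (ρ : Representation k G V) : Prop :=
  ∀ g ∈ H, (ρ g - 1) ^ n = 0

/-- the representation `V ⊗ k[X]` on the functions `X → V`, for a `G`-set `X` -/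
def ext (X : Type) [MulAction G X] (ρ : Representation k G V) : Representation k G (X → V) where
  toFun g :=
    { toFun := fun f x => ρ g (f (g⁻¹ • x))
      map_add' := fun f f' => by
        funext x
        exact map_add _ _ _
      map_smul' := fun c f => by
        funext x
        exact map_smul _ _ _ }
  map_one' := by
    ext f x
    simp
  map_mul' := fun g h => by
    ext f x
    simp [mul_smul]

end rep

section setup

variable (K : Type) [Field K]

/-- an algebraic closure -/
abbrev Kb := AlgebraicClosure K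

/-- the absolute Galois group -/
abbrev GK := AlgebraicClosure K ≃ₐ[K] AlgebraicClosure K

variable {K}

/-- the elements of the subgroup `H` of the absolute Galois group in the inertia group of the
prime `W` of the ring of all algebraic integers -/
def inert (H : Subgroup Gal(AlgebraicClosure K/K)) (W : Ideal (𝓞 (AlgebraicClosure K))) :
    Subgroup Gal(AlgebraicClosure K/K) where
  carrier := {g | g ∈ H ∧ ∀ x : 𝓞 (AlgebraicClosure K), g • x - x ∈ W}
  one_mem' := ⟨one_mem H, fun x => by rw [one_smul, sub_self]; exact zero_mem W⟩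
  mul_mem' := by
    rintro a b ⟨ha, ha'⟩ ⟨hb, hb'⟩
    refine ⟨mul_mem ha hb, fun x => ?_⟩
    have h : (a * b) • x - x = (a • (b • x) - b • x) + (b • x - x) := by
      rw [mul_smul]
      ring
    rw [h]
    exact add_mem (ha' _) (hb' _)
  inv_mem' := by
    rintro a ⟨ha, ha'⟩
    refine ⟨inv_mem ha, fun x => ?_⟩
    have h := ha' (a⁻¹ • x)
    rw [smul_inv_smul] at h
    have h2 := neg_mem h
    rwa [neg_sub] at h2

/-- `φ` is a (arithmetic) Frobenius automorphism at `W` for the field fixed by `H`, where `q` is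
the order of its residue field -/
def IsFrob (H : Subgroup Gal(AlgebraicClosure K/K)) (W : Ideal (𝓞 (AlgebraicClosure K)))
    (q : ℕ) (φ : Gal(AlgebraicClosure K/K)) : Prop :=
  φ ∈ H ∧ φ • W = W ∧ ∀ x : 𝓞 (AlgebraicClosure K), φ • x - x ^ q ∈ W

/-- The modules playing the role of `B_crys` at the places above `p`: a representation `B` of the
absolute Galois group (the product of the `B_crys` of the completions at the primes `W` above
`p`), a fixed vector `1`, and for every `W` a subspace `N W` (the kernel of the projection to the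
factor at `W`), such that `g (N W) = N (g W)`. The module of the place `W` is `B / N W`. -/
structure Period (K : Type) [Field K] (k : Type) [Field k] where
  /-- the space -/
  B : Type
  [grp : AddCommGroup B]
  [mod : Module k B]
  /-- the action -/
  act : Representation k Gal(AlgebraicClosure K/K) B
  /-- the unit -/
  one : B
  act_one : ∀ g, act g one = one
  /-- the kernels of the projections -/
  N : Ideal (𝓞 (AlgebraicClosure K)) → Submodule k B
  N_smul : ∀ (g : Gal(AlgebraicClosure K/K)) (W : Ideal (𝓞 (AlgebraicClosure K))) (b : B),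
    b ∈ N W → act g b ∈ N (g • W)

attribute [instance] Period.grp Period.mod

section selmer

section cond

variable {k : Type} [Field k] [TopologicalSpace k] (p : ℕ) (H : Subgroup Gal(AlgebraicClosure K/K))
  {V B : Type} [AddCommGroup V] [Module k V] [AddCommGroup B] [Module k B]
  (act : Representation k Gal(AlgebraicClosure K/K) B) (one : B)
  (N : Ideal (𝓞 (AlgebraicClosure K)) → Submodule k B)
  (ρ : Representation k Gal(AlgebraicClosure K/K) V)

/-- The map `c` from the subgroup `H` to `V` is a continuous cocycle which is unramified at all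
primes `W` not above `p`, and becomes trivial with values in `V ⊗ B` modulo `V ⊗ N W` on the
decomposition groups of the primes `W` above `p`. -/
def IsSelmer (c : H → V) : Prop :=
  (∀ g h : H, c (g * h) = c g + ρ g (c h)) ∧
    (∀ l : Module.Dual k V, Continuous fun g : H => l (c g)) ∧
    (∀ W : Ideal (𝓞 (AlgebraicClosure K)), W.IsMaximal → (p : 𝓞 (AlgebraicClosure K)) ∉ W →
      ∃ x : V, ∀ g : H, (g : Gal(AlgebraicClosure K/K)) ∈ inert H W → c g = ρ g x - x) ∧
    ∀ W : Ideal (𝓞 (AlgebraicClosure K)), W.IsMaximal → (p : 𝓞 (AlgebraicClosure K)) ∈ W →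
      ∃ y : V ⊗[k] B, ∀ g : H, (g : Gal(AlgebraicClosure K/K)) • W = W →
        c g ⊗ₜ[k] one - (TensorProduct.map (ρ g) (act g) y - y) ∈
          LinearMap.range ((N W).subtype.lTensor V)

end cond

/-- The Bloch–Kato Selmer group `H¹_f` (the cocycles which satisfy the conditions, modulo the
coboundaries) of the field fixed by `H` has dimension `n`: there are `n` cocycles whose classes are
a basis, so that every cocycle is, up to a coboundary, a unique combination of them. -/
def SelmerDim {k : Type} [Field k] [TopologicalSpace k] (p : ℕ)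
    (H : Subgroup Gal(AlgebraicClosure K/K)) (𝔅 : Period K k) {V : Type} [AddCommGroup V]
    [Module k V] (ρ : Representation k Gal(AlgebraicClosure K/K) V) (n : ℕ) : Prop :=
  ∃ e : Fin n → H → V, (∀ i, IsSelmer p H 𝔅.act 𝔅.one 𝔅.N ρ (e i)) ∧
    ∀ c : H → V, IsSelmer p H 𝔅.act 𝔅.one 𝔅.N ρ c →
      ∃! a : Fin n → k, ∃ x : V, ∀ g : H, c g = ∑ i, a i • e i g + (ρ g x - x)

variable {k : Type} [Field k] [TopologicalSpace k] [IsTopologicalRing k] (p : ℕ)
  (H : Subgroup Gal(AlgebraicClosure K/K)) (𝔅 : Period K k)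
  {V : Type} [AddCommGroup V] [Module k V] (ρ : Representation k Gal(AlgebraicClosure K/K) V)

/-- the continuous cocycles of the subgroup `H` which are unramified at all primes not above `p`,
and become trivial with values in `V ⊗ B` at the primes above `p` -/
def cocycles : Submodule k (H → V) where
  carrier := {c | IsSelmer p H 𝔅.act 𝔅.one 𝔅.N ρ c}
  zero_mem' := by
    refine ⟨fun g h => ?_, fun l => ?_, fun W _ _ => ⟨0, fun g _ => ?_⟩,
      fun W _ _ => ⟨0, fun g _ => ?_⟩⟩
    · simp
    · simpa using continuous_const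
    · simp
    · simp
  add_mem' := by
    rintro a b ⟨ha1, ha2, ha3, ha4⟩ ⟨hb1, hb2, hb3, hb4⟩
    refine ⟨fun g h => ?_, fun l => ?_, fun W hW hp => ?_, fun W hW hp => ?_⟩
    · simp only [Pi.add_apply, ha1 g h, hb1 g h, map_add]
      abel
    · simp only [Pi.add_apply, map_add]
      exact (ha2 l).add (hb2 l)
    · obtain ⟨x, hx⟩ := ha3 W hW hp
      obtain ⟨y, hy⟩ := hb3 W hW hp
      refine ⟨x + y, fun g hg => ?_⟩
      rw [Pi.add_apply, hx g hg, hy g hg, map_add]
      abel
    · obtain ⟨x, hx⟩ := ha4 W hW hp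
      obtain ⟨y, hy⟩ := hb4 W hW hp
      refine ⟨x + y, fun g hg => ?_⟩
      have h := add_mem (hx g hg) (hy g hg)
      convert h using 1
      rw [Pi.add_apply, TensorProduct.add_tmul, map_add]
      abel
  smul_mem' := by
    rintro r a ⟨ha1, ha2, ha3, ha4⟩
    refine ⟨fun g h => ?_, fun l => ?_, fun W hW hp => ?_, fun W hW hp => ?_⟩
    · simp only [Pi.smul_apply, ha1 g h, map_smul, smul_add]
    · simp only [Pi.smul_apply, map_smul]
      exact (ha2 l).const_smul r
    · obtain ⟨x, hx⟩ := ha3 W hW hp
      refine ⟨r • x, fun g hg => ?_⟩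
      rw [Pi.smul_apply, hx g hg, map_smul, smul_sub]
    · obtain ⟨x, hx⟩ := ha4 W hW hp
      refine ⟨r • x, fun g hg => ?_⟩
      have h := Submodule.smul_mem _ r (hx g hg)
      convert h using 1
      rw [Pi.smul_apply, ← TensorProduct.smul_tmul', map_smul, smul_sub, smul_sub]

/-- the coboundaries -/
def coboundaries : Submodule k (H → V) where
  carrier := {c | ∃ x : V, ∀ g : H, c g = ρ g x - x}
  zero_mem' := ⟨0, fun g => by simp⟩
  add_mem' := by
    rintro a b ⟨x, hx⟩ ⟨y, hy⟩
    refine ⟨x + y, fun g => ?_⟩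
    rw [Pi.add_apply, hx g, hy g, map_add]
    abel
  smul_mem' := by
    rintro r a ⟨x, hx⟩
    refine ⟨r • x, fun g => ?_⟩
    rw [Pi.smul_apply, hx g, map_smul, smul_sub]

/-- the Bloch–Kato Selmer group `H¹_f` of the field fixed by `H` -/
abbrev H1f : Type := cocycles p H 𝔅 ρ ⧸ (coboundaries H ρ).comap (cocycles p H 𝔅 ρ).subtype

theorem selmerDim_iff (n : ℕ) : SelmerDim p H 𝔅 ρ n ↔
    FiniteDimensional k (H1f p H 𝔅 ρ) ∧ Module.finrank k (H1f p H 𝔅 ρ) = n := by
  have hval : ∀ (e : Fin n → cocycles p H 𝔅 ρ) (a : Fin n → k) (g : H),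
      (∑ i, a i • e i).1 g = ∑ i, a i • (e i).1 g := by
    intro e a g
    rw [AddSubmonoidClass.coe_finsetSum, Finset.sum_apply]
    rfl
  have hmk : ∀ (c : cocycles p H 𝔅 ρ) (e : Fin n → cocycles p H 𝔅 ρ) (a : Fin n → k),
      (Submodule.Quotient.mk c : H1f p H 𝔅 ρ) = ∑ i, a i • Submodule.Quotient.mk (e i) ↔
        ∃ x : V, ∀ g : H, c.1 g = ∑ i, a i • (e i).1 g + (ρ g x - x) := by
    intro c e a
    have h1 : (∑ i, a i • Submodule.Quotient.mk (e i) : H1f p H 𝔅 ρ)
        = Submodule.Quotient.mk (∑ i, a i • e i) := by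
      rw [← Submodule.mkQ_apply, map_sum]
      rfl
    rw [h1, Submodule.Quotient.eq]
    constructor
    · rintro ⟨x, hx⟩
      refine ⟨x, fun g => ?_⟩
      rw [← hx g, ← hval]
      change c.1 g = _ + (c.1 g - _)
      abel
    · rintro ⟨x, hx⟩
      refine ⟨x, fun g => ?_⟩
      change c.1 g - (∑ i, a i • e i).1 g = _
      rw [hx g, hval]
      abel
  constructor
  · rintro ⟨e, he, hb⟩
    let e' : Fin n → cocycles p H 𝔅 ρ := fun i => ⟨e i, he i⟩
    let Φ : (Fin n → k) →ₗ[k] H1f p H 𝔅 ρ :=
      { toFun := fun a => ∑ i, a i • Submodule.Quotient.mk (e' i)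
        map_add' := fun a b => by
          simp only [Pi.add_apply, add_smul, Finset.sum_add_distrib]
        map_smul' := fun r a => by
          simp only [Pi.smul_apply, smul_eq_mul, mul_smul, Finset.smul_sum, RingHom.id_apply] }
    have hΦ : Function.Bijective Φ := by
      constructor
      · intro a b hab
        have h1 : (Submodule.Quotient.mk (∑ i, a i • e' i) : H1f p H 𝔅 ρ)
            = ∑ i, a i • Submodule.Quotient.mk (e' i) := by
          rw [← Submodule.mkQ_apply, map_sum]
          rfl
        have h2 := (hmk _ e' a).mp h1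
        have h3 := (hmk _ e' b).mp (h1.trans hab)
        exact (hb _ (∑ i, a i • e' i).2).unique h2 h3
      · intro y
        induction y using Submodule.Quotient.induction_on with
        | _ c =>
          obtain ⟨a, ha, -⟩ := hb c.1 c.2
          exact ⟨a, ((hmk c e' a).mpr ha).symm⟩
    let E := LinearEquiv.ofBijective Φ hΦ
    refine ⟨E.finiteDimensional, ?_⟩
    rw [← E.finrank_eq, Module.finrank_fin_fun]
  · rintro ⟨h1, h2⟩
    let b : Module.Basis (Fin n) k (H1f p H 𝔅 ρ) := Module.finBasisOfFinrankEq k _ h2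
    have hlift : ∀ i, ∃ c : cocycles p H 𝔅 ρ, Submodule.Quotient.mk c = b i := fun i =>
      Submodule.Quotient.mk_surjective _ (b i)
    choose e he using hlift
    refine ⟨fun i => (e i).1, fun i => (e i).2, fun c hc => ?_⟩
    refine ⟨b.repr (Submodule.Quotient.mk ⟨c, hc⟩), ?_, ?_⟩
    · refine (hmk ⟨c, hc⟩ e _).mp ?_
      simp only [he]
      exact (b.sum_repr _).symm
    · intro a ha
      have h3 := (hmk ⟨c, hc⟩ e a).mpr ha
      simp only [he] at h3
      rw [h3]
      funext i
      have h4 := b.repr_sum_self a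
      exact (congrFun h4 i).symm

end selmer

lemma IsFrob.stable {H : Subgroup Gal(AlgebraicClosure K/K)}
    {W : Ideal (𝓞 (AlgebraicClosure K))} {q : ℕ} {φ : Gal(AlgebraicClosure K/K)}
    (h : IsFrob H W q φ) {k : Type} [Field k] {V : Type} [AddCommGroup V] [Module k V]
    (ρ : Representation k Gal(AlgebraicClosure K/K) V) :
    ∀ x ∈ inv (inert H W) ρ, ρ φ⁻¹ x ∈ inv (inert H W) ρ := by
  rintro x hx g ⟨hg, hgW⟩
  have h1 : φ * g * φ⁻¹ ∈ inert H W := by
    refine ⟨mul_mem (mul_mem h.1 hg) (inv_mem h.1), fun y => ?_⟩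
    have h2 := hgW (φ⁻¹ • y)
    have h3 : φ • (g • (φ⁻¹ • y) - φ⁻¹ • y) ∈ φ • W := Ideal.smul_mem_pointwise_smul _ _ _ h2
    rw [h.2.1, smul_sub, smul_inv_smul] at h3
    rw [mul_smul, mul_smul]
    exact h3
  have h4 := hx _ h1
  have h5 : ρ g (ρ φ⁻¹ x) = ρ φ⁻¹ (ρ (φ * g * φ⁻¹) x) := by
    rw [← Module.End.mul_apply, ← Module.End.mul_apply, ← map_mul, ← map_mul]
    congr 2
    group
  rw [h5, h4]

/-- the Euler polynomial `det (1 - φ⁻¹ T)` on the invariants of the inertia group (`φ⁻¹` is the
geometric Frobenius) -/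
noncomputable def eulerPoly {k : Type} [Field k] {H : Subgroup Gal(AlgebraicClosure K/K)}
    {V : Type} [AddCommGroup V] [Module k V] [FiniteDimensional k V]
    (ρ : Representation k Gal(AlgebraicClosure K/K) V) {W : Ideal (𝓞 (AlgebraicClosure K))}
    {q : ℕ} {φ : Gal(AlgebraicClosure K/K)} (h : IsFrob H W q φ) : k[X] :=
  (LinearMap.charpoly ((ρ φ⁻¹).restrict (h.stable ρ))).reverse

/-- The compositum `LF` is cyclic over `F`, and there is a prime `v` of `F` such that for all primes
`W` of the ring of all algebraic integers: if `W` is not above `v`, then the inertia group of `W`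
over `F` acts trivially on `L` (`LF / F` is unramified), and so does the decomposition group of `W`
over `F` if `W` divides `m` (`W` splits completely in `LF / F`); if `W` is above `v`, then the
decomposition group of `W` over `F` has the same image in `Gal(LF / F)` as the Galois group of `F`
(`v` is not decomposed in `LF`). -/
def NearlyGood (L F : IntermediateField K (AlgebraicClosure K)) (m : ℕ) : Prop :=
  (∃ c ∈ F.fixingSubgroup, ∀ g ∈ F.fixingSubgroup, ∃ k : ℤ, ∀ x ∈ L, g x = (c ^ k) x) ∧
  ∃ v : Ideal (𝓞 F), ∀ W : Ideal (𝓞 (AlgebraicClosure K)), W.IsMaximal →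
    (W.comap (algebraMap (𝓞 F) (𝓞 (AlgebraicClosure K))) ≠ v →
      (∀ g ∈ F.fixingSubgroup, (∀ y : 𝓞 (AlgebraicClosure K), g • y - y ∈ W) → ∀ x ∈ L, g x = x) ∧
      ((m : 𝓞 (AlgebraicClosure K)) ∈ W →
        ∀ g ∈ F.fixingSubgroup, g • W = W → ∀ x ∈ L, g x = x)) ∧
    (W.comap (algebraMap (𝓞 F) (𝓞 (AlgebraicClosure K))) = v →
      ∀ g ∈ F.fixingSubgroup, ∃ h ∈ F.fixingSubgroup, h • W = W ∧ ∀ x ∈ L, h x = g x)

/-- the number of cosets of the Galois group of `F` which are fixed by `g` -/
noncomputable def nco (F : IntermediateField K (AlgebraicClosure K))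
    (g : Gal(AlgebraicClosure K/K)) : ℕ :=
  Nat.card {x : Gal(AlgebraicClosure K/K) ⧸ F.fixingSubgroup // g • x = x}

end setup

end Pool.Agent.K4H36.BK
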