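import Mathlib
import Pool.Agent.K4H36.ST.LocB
import Pool.Agent.R389.Mono

/-!
# Invariants of number fields which satisfy the Brauer relations
-/

set_option autoImplicit false
set_option linter.unusedSectionVars false

namespace Pool.Agent.K4H36.BK

open NumberField Pool.Agent.R389 Pool.Agent.K4H74.ST Pool.Agent.K4H77.SL Pool.Agent.K4H36.ST
open scoped Pointwise

/-- the permutation character on the cosets of `H` -/
noncomputable abbrev one {G : Type} [Group G] (H : Subgroup G) : G → ℂ :=
  ind H (fun _ => (1 : ℂ))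

/-- An invariant of the extensions `K` of `K₀` with values in `M` which satisfies all the
relations between permutation characters. -/
structure BInv (K₀ : Type) [Field K₀] (M : Type) [AddCommGroup M] where
  /-- the value -/
  val : ∀ (K : Type) [Field K] [NumberField K], (K₀ →+* K) → M
  iso : ∀ (K K' : Type) [Field K] [NumberField K] [Field K'] [NumberField K'] (i : K₀ →+* K)
    (e : K ≃+* K'), val K' ((e : K →+* K').comp i) = val K i
  rel : ∀ (K N : Type) [Field K] [NumberField K] [Field N] [NumberField N] [Algebra K N]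
    [IsGalois K N] (i : K₀ →+* K) (n : Subgroup (N ≃ₐ[K] N) →₀ ℤ),
    (n.sum fun H k => k • one H) = 0 →
    (n.sum fun H k => k • val (IntermediateField.fixedField H)
      ((algebraMap K (IntermediateField.fixedField H)).comp i)) = 0

section inv

variable {K₀ : Type} [Field K₀] {M : Type} [AddCommGroup M] (B : BInv K₀ M)

variable (K N : Type) [Field K] [NumberField K] [Field N] [NumberField N] [Algebra K N]
  [IsGalois K N] (i : K₀ →+* K)

/-- the value of a subgroup -/
noncomputable def BInv.v (H : Subgroup (N ≃ₐ[K] N)) : M :=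
  B.val (IntermediateField.fixedField H) ((algebraMap K (IntermediateField.fixedField H)).comp i)

/-- the character of a formal combination of subgroups -/
noncomputable def chH : (Subgroup (N ≃ₐ[K] N) →₀ ℤ) →+ ((N ≃ₐ[K] N) → ℂ) :=
  Finsupp.liftAddHom (fun H => (zmultiplesHom _ (one H)))

/-- the value of a formal combination of subgroups -/
noncomputable def BInv.vH : (Subgroup (N ≃ₐ[K] N) →₀ ℤ) →+ M :=
  Finsupp.liftAddHom (fun H => (zmultiplesHom _ (B.v K N i H)))

variable {K N}

lemma BInv.ker {n : Subgroup (N ≃ₐ[K] N) →₀ ℤ} (h : chH K N n = 0) : B.vH K N i n = 0 := by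
  have h1 := B.rel K N i n (by
    rw [← h, chH, Finsupp.liftAddHom_apply]
    rfl)
  rw [← h1, BInv.vH, Finsupp.liftAddHom_apply]
  rfl

variable (K N)

/-- the functions of value zero -/
noncomputable def BInv.T : AddSubgroup ((N ≃ₐ[K] N) → ℂ) := ((B.vH K N i).ker).map (chH K N)

variable {K N}

lemma BInv.mem_one {U : Subgroup (N ≃ₐ[K] N)} (h : B.v K N i U = 0) : one U ∈ B.T K N i := by
  refine ⟨Finsupp.single U 1, ?_, ?_⟩
  · rw [SetLike.mem_coe, AddMonoidHom.mem_ker, BInv.vH, Finsupp.liftAddHom_apply_single]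
    simp [h]
  · rw [chH, Finsupp.liftAddHom_apply_single]
    simp

lemma BInv.zero_of {n : Subgroup (N ≃ₐ[K] N) →₀ ℤ} (h : chH K N n ∈ B.T K N i) :
    B.vH K N i n = 0 := by
  obtain ⟨m, hm, hmn⟩ := h
  have h1 : chH K N (m - n) = 0 := by rw [map_sub, hmn, sub_self]
  have h2 := B.ker i h1
  rw [map_sub, (AddMonoidHom.mem_ker.mp hm), zero_sub, neg_eq_zero] at h2
  exact h2

lemma chH_single (U : Subgroup (N ≃ₐ[K] N)) (k : ℤ) : chH K N (Finsupp.single U k) = k • one U := by
  rw [chH, Finsupp.liftAddHom_apply_single]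
  rfl

lemma BInv.vH_single (U : Subgroup (N ≃ₐ[K] N)) (k : ℤ) :
    B.vH K N i (Finsupp.single U k) = k • B.v K N i U := by
  rw [BInv.vH, Finsupp.liftAddHom_apply_single]
  rfl

lemma PP_range {φ : (N ≃ₐ[K] N) → ℂ} (h : φ ∈ PP (N ≃ₐ[K] N)) : ∃ n, chH K N n = φ := by
  have hfin : FiniteDimensional K N := Module.Finite.of_restrictScalars_finite ℚ K N
  have h1 : PP (N ≃ₐ[K] N) ≤ (chH K N).range := by
    rw [PP, AddSubgroup.closure_le]
    rintro _ ⟨X, _, _, rfl⟩
    have : Fintype (Quotient (MulAction.orbitRel (N ≃ₐ[K] N) X)) := Fintype.ofFinite _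
    rw [fixn_eq, SetLike.mem_coe]
    refine sum_mem fun ω _ => ?_
    exact ⟨Finsupp.single _ 1, by rw [chH_single, one_smul]⟩
  exact h1 h

/-- multiples -/
lemma BInv.of_nsmul (htf : ∀ (x : M) (n : ℕ), n ≠ 0 → n • x = 0 → x = 0)
    {n : Subgroup (N ≃ₐ[K] N) →₀ ℤ} {k : ℕ} (hk : k ≠ 0) (h : k • chH K N n ∈ B.T K N i) :
    chH K N n ∈ B.T K N i := by
  rw [← map_nsmul] at h
  have h1 := B.zero_of i h
  rw [map_nsmul] at h1
  exact ⟨n, htf _ k hk h1, rfl⟩

section infl

variable {N₁ : Type} [Field N₁] [NumberField N₁] [Algebra K N₁] [IsGalois K N₁] [Algebra N N₁]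
  [IsScalarTower K N N₁]

/-- the fixed field of the preimage of `H` is the fixed field of `H` -/
lemma BInv.v_comap (H : Subgroup (N ≃ₐ[K] N)) :
    B.v K N₁ i (H.comap (rs K N N₁)) = B.v K N i H := by
  let F := IntermediateField.fixedField H
  let F₁ := IntermediateField.fixedField (H.comap (rs K N N₁))
  have hfin1 : FiniteDimensional K N₁ := Module.Finite.of_restrictScalars_finite ℚ K N₁
  have hfinN : FiniteDimensional N N₁ := Module.Finite.of_restrictScalars_finite ℚ N N₁
  have hgal : IsGalois N N₁ := IsGalois.tower_top_of_isGalois K N N₁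
  have hmem : ∀ x : N, x ∈ F ↔ algebraMap N N₁ x ∈ F₁ := by
    intro x
    constructor
    · rintro hx ⟨g, hg⟩
      change g (algebraMap N N₁ x) = _
      rw [← rs_apply]
      exact congrArg _ (hx ⟨_, hg⟩)
    · rintro hx ⟨g, hg⟩
      change g x = x
      obtain ⟨g₁, rfl⟩ := rs_surjective (K := K) (N := N) (N₁ := N₁) g
      apply (algebraMap N N₁).injective
      rw [rs_apply]
      exact hx ⟨g₁, hg⟩
  have hsurj : ∀ y : N₁, y ∈ F₁ → ∃ x : N, algebraMap N N₁ x = y := by
    intro y hy
    have h1 : y ∈ (⊥ : IntermediateField N N₁) := by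
      rw [IsGalois.mem_bot_iff_fixed]
      intro τ
      have h2 : τ.restrictScalars K ∈ H.comap (rs K N N₁) := by
        rw [Subgroup.mem_comap]
        have h3 : rs K N N₁ (τ.restrictScalars K) = 1 := by
          ext x
          apply (algebraMap N N₁).injective
          rw [rs_apply]
          exact τ.commutes x
        rw [h3]
        exact one_mem H
      exact hy ⟨_, h2⟩
    obtain ⟨x, hx⟩ := IntermediateField.mem_bot.mp h1
    exact ⟨x, hx⟩
  let f : F →+* F₁ := ((algebraMap N N₁).comp (algebraMap F N)).codRestrict F₁.toSubfield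
    (fun x => (hmem x).mp x.2)
  have hf : ∀ x : F, ((f x : F₁) : N₁) = algebraMap N N₁ (x : N) := fun x => rfl
  have hbij : Function.Bijective f := by
    constructor
    · exact f.injective
    · rintro ⟨y, hy⟩
      obtain ⟨x, rfl⟩ := hsurj y hy
      exact ⟨⟨x, (hmem x).mpr hy⟩, Subtype.ext rfl⟩
  let e : F ≃+* F₁ := RingEquiv.ofBijective f hbij
  have h1 := B.iso F F₁ ((algebraMap K F).comp i) e
  rw [BInv.v, BInv.v]
  change B.val F₁ _ = B.val F _
  rw [← h1]
  congr 1
  ext x
  change algebraMap K N₁ (i x) = algebraMap N N₁ (algebraMap K N (i x))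
  rw [← IsScalarTower.algebraMap_apply K N N₁]

/-- inflation -/
noncomputable def inflH : (Subgroup (N ≃ₐ[K] N) →₀ ℤ) →+ (Subgroup (N₁ ≃ₐ[K] N₁) →₀ ℤ) :=
  Finsupp.mapDomain.addMonoidHom (fun H => H.comap (rs K N N₁))

lemma chH_infl (n : Subgroup (N ≃ₐ[K] N) →₀ ℤ) :
    chH K N₁ (inflH n) = fun g => chH K N n (rs K N N₁ g) := by
  have hfin1 : FiniteDimensional K N₁ := Module.Finite.of_restrictScalars_finite ℚ K N₁
  have hfin : FiniteDimensional K N := Module.Finite.of_restrictScalars_finite ℚ K N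
  let Φ : ((N ≃ₐ[K] N) → ℂ) →+ ((N₁ ≃ₐ[K] N₁) → ℂ) :=
    AddMonoidHom.mk' (fun φ g => φ (rs K N N₁ g)) (fun a b => rfl)
  have h : (chH K N₁).comp (inflH (N₁ := N₁)) = Φ.comp (chH K N) := by
    refine Finsupp.addHom_ext fun U k => ?_
    rw [AddMonoidHom.comp_apply, AddMonoidHom.comp_apply, chH_single]
    have h1 : inflH (N₁ := N₁) (Finsupp.single U k) = Finsupp.single (U.comap (rs K N N₁)) k :=
      Finsupp.mapDomain_single
    rw [h1, chH_single, map_zsmul]
    congr 1
    exact (ind_comap (rs_surjective (K := K) (N := N) (N₁ := N₁)) U (fun _ => (1 : ℂ))).symm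
  exact DFunLike.congr_fun h n

lemma BInv.vH_infl (n : Subgroup (N ≃ₐ[K] N) →₀ ℤ) :
    B.vH K N₁ i (inflH n) = B.vH K N i n := by
  have h : (B.vH K N₁ i).comp (inflH (N₁ := N₁)) = B.vH K N i := by
    refine Finsupp.addHom_ext fun U k => ?_
    have h1 : inflH (N₁ := N₁) (Finsupp.single U k) = Finsupp.single (U.comap (rs K N N₁)) k :=
      Finsupp.mapDomain_single
    rw [AddMonoidHom.comp_apply, h1, BInv.vH_single, BInv.vH_single, B.v_comap]
  exact DFunLike.congr_fun h n

/-- membership can be tested after inflation -/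
lemma BInv.of_infl {n : Subgroup (N ≃ₐ[K] N) →₀ ℤ}
    (h : (fun g => chH K N n (rs K N N₁ g)) ∈ B.T K N₁ i) : chH K N n ∈ B.T K N i := by
  rw [← chH_infl] at h
  have h1 := B.zero_of i h
  rw [B.vH_infl] at h1
  exact ⟨n, h1, rfl⟩

end infl

/-- the value of the base field -/
lemma BInv.v_top : B.v K N i ⊤ = B.val K i := by
  have hfin : FiniteDimensional K N := Module.Finite.of_restrictScalars_finite ℚ K N
  have h0 : IntermediateField.fixedField (⊤ : Subgroup (N ≃ₐ[K] N)) = ⊥ :=
    IsGalois.fixedField_top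
  let F := IntermediateField.fixedField (⊤ : Subgroup (N ≃ₐ[K] N))
  have hbij : Function.Bijective (algebraMap K F) := by
    constructor
    · exact (algebraMap K F).injective
    · rintro ⟨y, hy⟩
      have h1 : y ∈ (⊥ : IntermediateField K N) := by rw [← h0]; exact hy
      obtain ⟨x, hx⟩ := IntermediateField.mem_bot.mp h1
      exact ⟨x, Subtype.ext hx⟩
  exact B.iso K F i (RingEquiv.ofBijective _ hbij)

end inv

end Pool.Agent.K4H36.BK
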