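import Mathlib
import Pool.Agent.K4H36.BK.Inv
import Pool.Agent.K4H36.ST.Good

/-!
# Fields over which a given extension is cyclic with at most one non-split prime
-/

set_option autoImplicit false
set_option linter.unusedSectionVars false

namespace Pool.Agent.K4H36.BK

open NumberField Pool.Agent.R389 Pool.Agent.K4H74.ST Pool.Agent.K4H77.SL Pool.Agent.K4H36.ST
open scoped Pointwise

/-- `L` is the compositum of `K` and `L₀` (over `K₀`) -/
structure Cmp (K₀ L₀ K L : Type) [Field K₀] [Field L₀] [Algebra K₀ L₀] [Field K] [Field L]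
    [Algebra K L] (i : K₀ →+* K) (j : L₀ →+* L) : Prop where
  comm : (algebraMap K L).comp i = j.comp (algebraMap K₀ L₀)
  faith : ∀ g : L ≃ₐ[K] L, (∀ x, g (j x) = j x) → g = 1

/-- the invariant vanishes on the fields `K` for which the compositum `L` with `L₀` is cyclic over
`K`, unramified outside one prime `v`, such that the primes above `m` other than `v` split
completely and `v` is not decomposed -/
def Van {K₀ : Type} [Field K₀] {M : Type} [AddCommGroup M] (B : BInv K₀ M) (L₀ : Type) [Field L₀]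
    [Algebra K₀ L₀] (m : ℕ) : Prop :=
  ∀ (K L : Type) [Field K] [NumberField K] [Field L] [NumberField L] [Algebra K L] [IsGalois K L]
    (i : K₀ →+* K) (j : L₀ →+* L), Cmp K₀ L₀ K L i j → IsCyclic (L ≃ₐ[K] L) →
    ∀ v : Ideal (𝓞 K),
    (∀ P : Ideal (𝓞 L), P.IsMaximal → P.comap (algebraMap (𝓞 K) (𝓞 L)) ≠ v →
      ∀ g ∈ inertia K P, g = 1) →
    (∀ P : Ideal (𝓞 L), P.IsMaximal → P.comap (algebraMap (𝓞 K) (𝓞 L)) ≠ v → (m : 𝓞 L) ∈ P →
      ∀ g ∈ decomp K P, g = 1) →
    (∀ P : Ideal (𝓞 L), P.IsMaximal → P.comap (algebraMap (𝓞 K) (𝓞 L)) = v →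
      ∀ g, g ∈ decomp K P) → B.val K i = 0

/-- the invariant vanishes on the fields over which the compositum with `L₀` has degree less than
`n` -/
def SmallB {K₀ : Type} [Field K₀] {M : Type} [AddCommGroup M] (B : BInv K₀ M) (L₀ : Type)
    [Field L₀] [Algebra K₀ L₀] (n : ℕ) : Prop :=
  ∀ (K L : Type) [Field K] [NumberField K] [Field L] [NumberField L] [Algebra K L] [IsGalois K L]
    (i : K₀ →+* K) (j : L₀ →+* L), Cmp K₀ L₀ K L i j → Nat.card (L ≃ₐ[K] L) < n → B.val K i = 0

section split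

variable {K₀ L₀ : Type} [Field K₀] [Field L₀] [Algebra K₀ L₀] {M : Type} [AddCommGroup M]
  {B : BInv K₀ M} {m : ℕ}

variable {K L N : Type} [Field K] [NumberField K] [Field L] [NumberField L] [Field N]
  [NumberField N] [Algebra K L] [Algebra L N] [Algebra K N] [IsScalarTower K L N] [IsGalois K L]
  [IsGalois K N]

/-- the compositum over the fixed field of `U` -/
theorem gen_cmp {i : K₀ →+* K} {j : L₀ →+* L} (hc : Cmp K₀ L₀ K L i j)
    (U : Subgroup (N ≃ₐ[K] N)) :
    ∃ (E : IntermediateField (IntermediateField.fixedField U) N)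
      (_ : IsGalois (IntermediateField.fixedField U) E)
      (ρ' : (E ≃ₐ[IntermediateField.fixedField U] E) →* (L ≃ₐ[K] L)) (jE : L₀ →+* E),
      Function.Injective ρ' ∧ (∀ u : U, ∀ g : N ≃ₐ[IntermediateField.fixedField U] N,
        (u : N ≃ₐ[K] N) = g.restrictScalars K →
        ρ' (AlgEquiv.restrictNormalHom E g) = AlgEquiv.restrictNormalHom L (u : N ≃ₐ[K] N)) ∧
      Cmp K₀ L₀ (IntermediateField.fixedField U) E
        ((algebraMap K (IntermediateField.fixedField U)).comp i) jE := by
  classical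
  have hfin : FiniteDimensional K N := Module.Finite.of_restrictScalars_finite ℚ K N
  have hfinL : FiniteDimensional K L := Module.Finite.of_restrictScalars_finite ℚ K L
  let F := IntermediateField.fixedField U
  let e : U ≃* (N ≃ₐ[F] N) := IntermediateField.subgroupEquivAlgEquiv U
  have he : ∀ h : N ≃ₐ[F] N, (e.symm h : N ≃ₐ[K] N) = h.restrictScalars K := by
    intro h
    obtain ⟨u, rfl⟩ := e.surjective h
    rw [MulEquiv.symm_apply_apply]
    ext x
    rfl
  let res : (N ≃ₐ[K] N) →* (L ≃ₐ[K] L) := AlgEquiv.restrictNormalHom L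
  let ρ : (N ≃ₐ[F] N) →* (L ≃ₐ[K] L) := res.comp (U.subtype.comp e.symm.toMonoidHom)
  have hρ : ∀ (h : N ≃ₐ[F] N) (x : L), algebraMap L N (ρ h x) = h (algebraMap L N x) := by
    intro h x
    change algebraMap L N (res (e.symm h : N ≃ₐ[K] N) x) = _
    rw [he]
    exact res_apply _ x
  -- the field `E`
  let E : IntermediateField F N := IntermediateField.fixedField ρ.ker
  have hE : IsGalois F E := IsGalois.of_fixedField_normal_subgroup ρ.ker
  let π : (N ≃ₐ[F] N) →* (E ≃ₐ[F] E) := AlgEquiv.restrictNormalHom E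
  have hπ : Function.Surjective π := AlgEquiv.restrictNormalHom_surjective N
  have hfinF : FiniteDimensional F N := Module.Finite.of_restrictScalars_finite ℚ F N
  have hker : ∀ g : N ≃ₐ[F] N, π g = 1 ↔ ρ g = 1 := by
    intro g
    constructor
    · intro h
      have h1 : g ∈ E.fixingSubgroup := by
        rw [IntermediateField.mem_fixingSubgroup_iff]
        intro x hx
        have h2 := res_apply (L := E) g ⟨x, hx⟩
        change algebraMap E N (π g ⟨x, hx⟩) = _ at h2
        rw [h] at h2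
        exact h2.symm
      rw [IntermediateField.fixingSubgroup_fixedField] at h1
      exact h1
    · intro h
      ext x
      have h2 := res_apply (L := E) g x
      change algebraMap E N (π g x) = _ at h2
      change ((π g x : E) : N) = (x : N)
      exact h2.trans (x.2 ⟨g, h⟩)
  have hle : π.ker ≤ ρ.ker := fun g hg => (hker g).mp hg
  let ρ' : (E ≃ₐ[F] E) →* (L ≃ₐ[K] L) := π.liftOfSurjective hπ ⟨ρ, hle⟩
  have hρ' : ∀ g, ρ' (π g) = ρ g := fun g => MonoidHom.liftOfRightInverse_comp_apply _ _ _ ⟨ρ, hle⟩ g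
  have hinj : Function.Injective ρ' := by
    rw [injective_iff_map_eq_one]
    intro a ha
    obtain ⟨g, rfl⟩ := hπ a
    rw [hρ'] at ha
    exact (hker g).mpr ha
  have hmem : ∀ x : L₀, algebraMap L N (j x) ∈ E := by
    rintro x ⟨g, hg⟩
    change g (algebraMap L N (j x)) = _
    rw [← hρ, MonoidHom.mem_ker.mp hg]
    rfl
  let jE : L₀ →+* E := ((algebraMap L N).comp j).codRestrict E.toSubfield hmem
  have hjE : ∀ x, ((jE x : E) : N) = algebraMap L N (j x) := fun x => rfl
  refine ⟨E, hE, ρ', jE, hinj, ?_, ?_, ?_⟩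
  · intro u g hug
    have h1 : ρ' (π g) = ρ g := hρ' g
    rw [hug, ← he]
    exact h1
  · ext x
    change algebraMap K N (i x) = algebraMap L N (j (algebraMap K₀ L₀ x))
    have h1 := RingHom.congr_fun hc.comm x
    change algebraMap K L (i x) = j (algebraMap K₀ L₀ x) at h1
    rw [← h1, ← IsScalarTower.algebraMap_apply K L N]
  · intro g hg
    obtain ⟨h, rfl⟩ := hπ g
    rw [hker]
    refine hc.faith _ fun x => ?_
    apply (algebraMap L N).injective
    rw [hρ]
    have h2 := res_apply (L := E) h (jE x)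
    change algebraMap E N (π h (jE x)) = h (algebraMap L N (j x)) at h2
    rw [← h2, hg]
    rfl

theorem v_one (hB : Van B L₀ m) {i : K₀ →+* K} {j : L₀ →+* L} (hc : Cmp K₀ L₀ K L i j)
    (hcyc : IsCyclic (L ≃ₐ[K] L)) (U : Subgroup (N ≃ₐ[K] N)) (Q₀ : Ideal (𝓞 N))
    (hQ₀ : Q₀ = ⊥ ∨ Q₀.IsMaximal)
    (hfull : ∀ u ∈ U, ∃ u' ∈ U, u' • Q₀ = Q₀ ∧
      AlgEquiv.restrictNormalHom L u' = AlgEquiv.restrictNormalHom L u)
    (hgood : ∀ u ∈ U, ∀ Q : Ideal (𝓞 N), Q.IsMaximal → u • Q = Q →
      Special K m (Q.comap (algebraMap (𝓞 L) (𝓞 N))) → AlgEquiv.restrictNormalHom L u = 1 ∨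
        ∃ v ∈ U, Q = v • Q₀) :
    B.v K N i U = 0 := by
  classical
  obtain ⟨E, hE, ρ', jE, hinj, hρ'', hcE⟩ := gen_cmp (N := N) hc U
  have hfin : FiniteDimensional K N := Module.Finite.of_restrictScalars_finite ℚ K N
  have hfinL : FiniteDimensional K L := Module.Finite.of_restrictScalars_finite ℚ K L
  let F := IntermediateField.fixedField U
  have hfinF : FiniteDimensional F N := Module.Finite.of_restrictScalars_finite ℚ F N
  let e : U ≃* (N ≃ₐ[F] N) := IntermediateField.subgroupEquivAlgEquiv U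
  have he : ∀ h : N ≃ₐ[F] N, (e.symm h : N ≃ₐ[K] N) = h.restrictScalars K := by
    intro h
    obtain ⟨u, rfl⟩ := e.surjective h
    rw [MulEquiv.symm_apply_apply]
    ext x
    rfl
  have he' : ∀ u : U, (e u).restrictScalars K = (u : N ≃ₐ[K] N) := by
    intro u
    ext x
    rfl
  let res : (N ≃ₐ[K] N) →* (L ≃ₐ[K] L) := AlgEquiv.restrictNormalHom L
  let ρ : (N ≃ₐ[F] N) →* (L ≃ₐ[K] L) := res.comp (U.subtype.comp e.symm.toMonoidHom)
  have hρ : ∀ (h : N ≃ₐ[F] N) (x : L), algebraMap L N (ρ h x) = h (algebraMap L N x) := by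
    intro h x
    change algebraMap L N (res (e.symm h : N ≃ₐ[K] N) x) = _
    rw [he]
    exact res_apply _ x
  let π : (N ≃ₐ[F] N) →* (E ≃ₐ[F] E) := AlgEquiv.restrictNormalHom E
  have hπ : Function.Surjective π := AlgEquiv.restrictNormalHom_surjective N
  have hρ' : ∀ g, ρ' (π g) = ρ g := fun g => hρ'' (e.symm g) g (he g)
  have hker : ∀ g : N ≃ₐ[F] N, ρ g = 1 → π g = 1 := by
    intro g h
    apply hinj
    rw [hρ', h, map_one]
  have hUmem : ∀ h : N ≃ₐ[F] N, (e.symm h : N ≃ₐ[K] N) ∈ U := fun h => (e.symm h).2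
  have hdec : ∀ (h : N ≃ₐ[F] N) (Q : Ideal (𝓞 N)), h ∈ decomp F Q →
      (e.symm h : N ≃ₐ[K] N) ∈ decomp K Q := by
    intro h Q hh x
    have h1 : gi (e.symm h : N ≃ₐ[K] N) x = gi h x := by
      apply RingOfIntegers.ext
      rw [he]
      rfl
    rw [h1]
    exact hh x
  let v : Ideal (𝓞 F) := Q₀.comap (algebraMap (𝓞 F) (𝓞 N))
  have hUF : ∀ u ∈ U, ∀ x : 𝓞 F, u • algebraMap (𝓞 F) (𝓞 N) x = algebraMap (𝓞 F) (𝓞 N) x := by
    intro u hu x
    apply RingOfIntegers.ext
    exact (x : F).2 ⟨u, hu⟩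
  have hFEN : algebraMap (𝓞 F) (𝓞 N) = (algebraMap (𝓞 E) (𝓞 N)).comp (algebraMap (𝓞 F) (𝓞 E)) := by
    apply RingHom.ext
    intro x
    apply RingOfIntegers.ext
    rfl
  -- the triviality of the decomposition groups
  have hone : ∀ (P : Ideal (𝓞 E)), P.IsMaximal → P.comap (algebraMap (𝓞 F) (𝓞 E)) ≠ v →
      ∀ g ∈ decomp F P, ((m : 𝓞 E) ∈ P ∨ g ∈ inertia F P) → g = 1 := by
    intro P hP hPv g hg hcase
    obtain ⟨h, Q, hhg, hQ, hQP, hhQ⟩ := lift_decomp (N := N) hP hg
    let w := Q.comap (algebraMap (𝓞 L) (𝓞 N))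
    have hmain : Special K m w → g = 1 := by
      intro hsp
      rcases hgood _ (hUmem h) Q hQ (mem_decomp_iff.mp (hdec h Q hhQ)) hsp with h1 | ⟨u, hu, hQu⟩
      · have h3 : π h = 1 := hker h h1
        rw [← hhg]
        exact h3
      · exfalso
        apply hPv
        rw [← hQP, Ideal.comap_comap, ← hFEN]
        ext x
        rw [Ideal.mem_comap, Ideal.mem_comap, hQu, Ideal.mem_pointwise_smul_iff_inv_smul_mem,
          hUF _ (inv_mem hu)]
    rcases hcase with hm | hi
    · apply hmain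
      left
      rw [Ideal.mem_comap, map_natCast]
      have h1 : algebraMap (𝓞 E) (𝓞 N) (m : 𝓞 E) ∈ Q := by
        rw [← Ideal.mem_comap, hQP]
        exact hm
      rwa [map_natCast] at h1
    · by_cases hsp : Special K m w
      · exact hmain hsp
      have h2 : ρ h = 1 := by
        by_contra hne
        refine hsp (Or.inr ⟨ρ h, fun x => ?_, hne⟩)
        rw [Ideal.mem_comap, map_sub]
        have h7 : algebraMap (𝓞 L) (𝓞 N) (gi (ρ h) x) = gi h (algebraMap (𝓞 L) (𝓞 N) x) := by
          apply RingOfIntegers.ext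
          change algebraMap L N (ρ h (x : L)) = h (algebraMap L N (x : L))
          rw [hρ]
        have hxE : algebraMap L N (x : L) ∈ E := by
          have h0 : algebraMap L N (x : L) ∈ IntermediateField.fixedField E.fixingSubgroup := by
            rintro ⟨r, hr⟩
            change r (algebraMap L N (x : L)) = _
            have hπr : π r = 1 := by
              ext y
              have h8 := res_apply (L := E) r y
              change algebraMap E N (π r y) = r (y : N) at h8
              rw [(IntermediateField.mem_fixingSubgroup_iff _ _).mp hr _ y.2] at h8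
              exact h8
            have hρr : ρ r = 1 := by rw [← hρ', hπr, map_one]
            rw [← hρ, hρr]
            rfl
          rwa [IsGalois.fixedField_fixingSubgroup] at h0
        have hyi : IsIntegral ℤ (⟨algebraMap L N (x : L), hxE⟩ : E) := by
          have h4 : Function.Injective (algebraMap E N) := (algebraMap E N).injective
          rw [← isIntegral_algebraMap_iff (R := ℤ) h4]
          exact (RingOfIntegers.isIntegral_coe (algebraMap (𝓞 L) (𝓞 N) x))
        let y : 𝓞 E := ⟨⟨algebraMap L N (x : L), hxE⟩, hyi⟩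
        have h3 : algebraMap (𝓞 E) (𝓞 N) (gi g y - y) ∈ Q := by
          rw [← Ideal.mem_comap, hQP]
          exact hi y
        have h6 : algebraMap (𝓞 L) (𝓞 N) x = algebraMap (𝓞 E) (𝓞 N) y := by
          apply RingOfIntegers.ext
          rfl
        have h8 : gi h (algebraMap (𝓞 L) (𝓞 N) x) = algebraMap (𝓞 E) (𝓞 N) (gi g y) := by
          apply RingOfIntegers.ext
          change h (algebraMap L N (x : L)) = algebraMap E N (g ((y : 𝓞 E) : E))
          rw [← hhg, res_apply]
          rfl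
        rw [h7, h8, h6, ← map_sub]
        exact h3
      have h3 : π h = 1 := hker h h2
      rw [← hhg]
      exact h3
  have hcycE : IsCyclic (E ≃ₐ[F] E) := isCyclic_of_injective ρ' hinj
  refine hB F E _ jE hcE hcycE v ?_ ?_ ?_
  · intro P hP hPv g hg
    exact hone P hP hPv g (inertia_sub P hg) (Or.inr hg)
  · intro P hP hPv hm g hg
    exact hone P hP hPv g hg (Or.inl hm)
  · intro P hP hPv g
    rcases hQ₀ with hbot | hmax
    · exfalso
      have h1 : P.comap (algebraMap (𝓞 F) (𝓞 E)) = ⊥ := by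
        rw [hPv]
        change Q₀.comap (algebraMap (𝓞 F) (𝓞 N)) = ⊥
        rw [hbot]
        have hinj' : Function.Injective (algebraMap (𝓞 F) (𝓞 N)) :=
          FaithfulSMul.algebraMap_injective _ _
        rw [← RingHom.ker_eq_comap_bot]
        exact (RingHom.injective_iff_ker_eq_bot _).mp hinj'
      have h2 : P = ⊥ := Ideal.eq_bot_of_comap_eq_bot h1
      exact Ring.ne_bot_of_isMaximal_of_not_isField hP (RingOfIntegers.not_isField E) h2
    · let P' : Ideal (𝓞 E) := Q₀.comap (algebraMap (𝓞 E) (𝓞 N))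
      have hP'p : P'.IsPrime := Ideal.IsPrime.comap _
      have hP'v : P'.comap (algebraMap (𝓞 F) (𝓞 E)) = v := by
        rw [Ideal.comap_comap, ← hFEN]
      have hfix : ∀ g : E ≃ₐ[F] E, g ∈ decomp F P' := by
        intro g
        obtain ⟨h, rfl⟩ := hπ g
        obtain ⟨u', hu', hu'Q, hu'r⟩ := hfull _ (hUmem h)
        let h' := e ⟨u', hu'⟩
        have h1 : ρ h' = ρ h := by
          change res (e.symm (e ⟨u', hu'⟩) : N ≃ₐ[K] N) = res (e.symm h : N ≃ₐ[K] N)
          rw [MulEquiv.symm_apply_apply]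
          exact hu'r
        have h2 : π h' = π h := hinj (by rw [hρ', hρ', h1])
        rw [← h2]
        intro x
        have h3 : algebraMap (𝓞 E) (𝓞 N) (gi (π h') x) = gi u' (algebraMap (𝓞 E) (𝓞 N) x) := by
          apply RingOfIntegers.ext
          change algebraMap E N (π h' (x : E)) = u' (algebraMap E N (x : E))
          exact res_apply (L := E) h' (x : E)
        rw [Ideal.mem_comap, Ideal.mem_comap, h3]
        exact mem_decomp_iff.mpr hu'Q _
      have hfinE : FiniteDimensional F E := Module.Finite.of_restrictScalars_finite ℚ F E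
      have hPp : P.IsPrime := hP.isPrime
      obtain ⟨τ, hτ⟩ := Algebra.IsInvariant.exists_smul_of_under_eq (𝓞 F) (𝓞 E) (E ≃ₐ[F] E)
        P' P (by
          change P'.comap (algebraMap (𝓞 F) (𝓞 E)) = P.comap (algebraMap (𝓞 F) (𝓞 E))
          rw [hP'v, hPv])
      have h4 : τ • P' = P' := mem_decomp_iff.mp (hfix τ)
      rw [hτ, h4]
      exact hfix g

/-- small subgroups -/
theorem v_small {n : ℕ} (hB : SmallB B L₀ n) (hn : Nat.card (L ≃ₐ[K] L) ≤ n) {i : K₀ →+* K}
    {j : L₀ →+* L} (hc : Cmp K₀ L₀ K L i j) (U : Subgroup (N ≃ₐ[K] N))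
    (hU : U.map (AlgEquiv.restrictNormalHom L) ≠ ⊤) : B.v K N i U = 0 := by
  classical
  obtain ⟨E, hE, ρ', jE, hinj, hρ', hcE⟩ := gen_cmp (N := N) hc U
  refine hB _ E _ jE hcE ?_
  have hfin : FiniteDimensional K N := Module.Finite.of_restrictScalars_finite ℚ K N
  have hfinL : FiniteDimensional K L := Module.Finite.of_restrictScalars_finite ℚ K L
  let F := IntermediateField.fixedField U
  have hfinF : FiniteDimensional F N := Module.Finite.of_restrictScalars_finite ℚ F N
  let e : U ≃* (N ≃ₐ[F] N) := IntermediateField.subgroupEquivAlgEquiv U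
  have he : ∀ h : N ≃ₐ[F] N, (e.symm h : N ≃ₐ[K] N) = h.restrictScalars K := by
    intro h
    obtain ⟨u, rfl⟩ := e.surjective h
    rw [MulEquiv.symm_apply_apply]
    ext x
    rfl
  have hπ : Function.Surjective (AlgEquiv.restrictNormalHom (F := F) (K₁ := N) E) :=
    AlgEquiv.restrictNormalHom_surjective N
  have h1 : ρ'.range ≤ U.map (AlgEquiv.restrictNormalHom L) := by
    rintro _ ⟨x, rfl⟩
    obtain ⟨h, rfl⟩ := hπ x
    rw [hρ' (e.symm h) h (he h)]
    exact Subgroup.mem_map_of_mem _ (e.symm h).2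
  have h2 : Nat.card (E ≃ₐ[F] E) = Nat.card ρ'.range :=
    Nat.card_congr (MonoidHom.ofInjective hinj).toEquiv
  have h3 : ρ'.range < ⊤ := lt_of_le_of_lt h1 (lt_top_iff_ne_top.mpr hU)
  have h4 : Nat.card ρ'.range < Nat.card (L ≃ₐ[K] L) := by
    by_contra h5
    exact h3.ne (Subgroup.eq_top_of_le_card _ (not_lt.mp h5))
  change Nat.card (E ≃ₐ[F] E) < n
  omega

end split

end Pool.Agent.K4H36.BK
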