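import Mathlib
import Pool.Agent.K4H36.BK.Good
import Pool.Agent.K4H36.ST.Fin

/-!
# Permutation characters which vanish on the full elements of the decomposition groups
-/

set_option autoImplicit false
set_option linter.unusedSectionVars false

namespace Pool.Agent.K4H36.BK

open NumberField Pool.Agent.R389 Pool.Agent.K4H74.ST Pool.Agent.K4H77.SL Pool.Agent.K4H36.ST
open scoped Pointwise
open MulAction Polynomial

variable {K₀ L₀ : Type} [Field K₀] [Field L₀] [Algebra K₀ L₀] {M : Type} [AddCommGroup M]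
  {B : BInv K₀ M} {m : ℕ}

variable {K L N : Type} [Field K] [NumberField K] [Field L] [NumberField L] [Field N]
  [NumberField N] [Algebra K L] [Algebra L N] [Algebra K N] [IsScalarTower K L N] [IsGalois K L]
  [IsGalois K N]

theorem loc_c (hB : Van B L₀ m) (htf : ∀ (x : M) (n : ℕ), n ≠ 0 → n • x = 0 → x = 0)
    (hS : SmallB B L₀ (Nat.card (L ≃ₐ[K] L))) {i : K₀ →+* K} {j : L₀ →+* L}
    (hc : Cmp K₀ L₀ K L i j) {t : ℕ}
    (ht : t ≠ 0) (hsp : ∀ P : Ideal (𝓞 L), Special K m P → (t : 𝓞 L) ∈ P)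
    (φ : (N ≃ₐ[K] N) → ℂ) (hφ : φ ∈ PP (N ≃ₐ[K] N))
    (hint : ∀ w : Ideal (𝓞 N), w.IsPrime → (t : 𝓞 N) ∈ w → ∀ s : N ≃ₐ[K] N, s • w = w →
      Subgroup.zpowers (rs K L N s) = ⊤ → φ s = 0) :
    φ ∈ B.T K N i := by
  classical
  obtain ⟨N₁, i1, i2, i3, i4, i5, i6, hN⟩ := neukirch K N t ht
  have hfin : FiniteDimensional K N := Module.Finite.of_restrictScalars_finite ℚ K N
  have hfin1 : FiniteDimensional K N₁ := Module.Finite.of_restrictScalars_finite ℚ K N₁
  have hfinL : FiniteDimensional K L := Module.Finite.of_restrictScalars_finite ℚ K L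
  let iLN : L →+* N₁ := (algebraMap N N₁).comp (algebraMap L N)
  let _ : Algebra L N₁ := iLN.toAlgebra
  have hLN : ∀ x, algebraMap L N₁ x = algebraMap N N₁ (algebraMap L N x) := fun x => rfl
  have hKLN : IsScalarTower K L N₁ := by
    refine IsScalarTower.of_algebraMap_eq fun x => ?_
    rw [hLN, ← IsScalarTower.algebraMap_apply K L N, ← IsScalarTower.algebraMap_apply K N N₁]
  have hres : ∀ g : N₁ ≃ₐ[K] N₁, rs K L N (rs K N N₁ g) = rs K L N₁ g := by
    intro g
    ext x
    apply (algebraMap L N₁).injective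
    rw [rs_apply, hLN, hLN]
    have h1 := rs_apply (K := K) (N := L) (N₁ := N) (rs K N N₁ g) x
    rw [h1, rs_apply]
  let lam : (N₁ ≃ₐ[K] N₁) → ℂ := fun _ => 1
  have hlam : ∀ g x, lam (x * g * x⁻¹) = lam g := fun g x => rfl
  let F : (N₁ ≃ₐ[K] N₁) → ℂ := fun g => lam g * φ (rs K N N₁ g)
  have hFf : F = fun g => φ (rs K N N₁ g) := by
    funext g
    exact one_mul _
  have hF : ∀ g x, F (x * g * x⁻¹) = F g := by
    intro g x
    change lam (x * g * x⁻¹) * φ (rs K N N₁ (x * g * x⁻¹)) = lam g * φ (rs K N N₁ g)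
    rw [hlam g x, map_mul, map_mul, map_inv, PP.conj hφ]
  -- the contribution of a cyclic subgroup
  have hEE : ∀ x : N₁ ≃ₐ[K] N₁, EE F (Subgroup.zpowers x) ∈ B.T K N₁ i := by
    intro x
    by_cases hfull : Subgroup.zpowers (rs K L N₁ x) = ⊤
    · have hcyc : IsCyclic (L ≃ₐ[K] L) := ⟨rs K L N₁ x, fun y => by
        have h : y ∈ Subgroup.zpowers (rs K L N₁ x) := by
          rw [hfull]
          exact Subgroup.mem_top _
        exact h⟩
      by_cases hx : ∃ u ∈ Subgroup.zpowers x, ∃ Q : Ideal (𝓞 N₁), Q.IsPrime ∧ (t : 𝓞 N₁) ∈ Q ∧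
          u • Q = Q ∧ rs K L N₁ u ≠ 1
      · obtain ⟨u, hu, Q, hQ, htQ, huQ, hu1⟩ := hx
        have hcomm : u * x = x * u := by
          obtain ⟨k, rfl⟩ := Subgroup.mem_zpowers_iff.mp hu
          exact (Commute.zpow_self x k).eq
        have htx : (t : 𝓞 N₁) ∈ x • Q := by
          rw [Ideal.mem_pointwise_smul_iff_inv_smul_mem]
          have h1 : x⁻¹ • (t : 𝓞 N₁) = (t : 𝓞 N₁) :=
            map_natCast (MulSemiringAction.toRingHom (N₁ ≃ₐ[K] N₁) (𝓞 N₁) x⁻¹) t
          rw [h1]
          exact htQ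
        have hdn : dn N Q = dn N (x • Q) := by
          by_contra hne
          have h1 := hN Q (x • Q) hQ (Ideal.IsPrime.smul x) htQ htx hne u huQ (by
            rw [← mul_smul, hcomm, mul_smul, huQ])
          apply hu1
          rw [← hres, h1, map_one]
        rw [dn_smul] at hdn
        rw [EE_const (f := F) hF (n := 0)]
        · rw [zero_smul]
          exact zero_mem _
        · intro c hc
          have h2 : rs K N N₁ c • dn N Q = dn N Q := by
            have h3 : Subgroup.zpowers (rs K N N₁ x) ≤ stabilizer (N ≃ₐ[K] N) (dn N Q) := by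
              rw [Subgroup.zpowers_le]
              exact hdn.symm
            have h4 : rs K N N₁ c ∈ Subgroup.zpowers (rs K N N₁ x) := by
              rw [← MonoidHom.map_zpowers, ← hc]
              exact Subgroup.mem_map_of_mem _ (Subgroup.mem_zpowers c)
            exact h3 h4
          have h5 := hint (dn N Q) (Ideal.IsPrime.comap _) (by
            rw [Ideal.mem_comap, map_natCast]
            exact htQ) (rs K N N₁ c) h2 (by
              rw [hres, ← MonoidHom.map_zpowers, hc, MonoidHom.map_zpowers]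
              exact hfull)
          change lam c * φ (rs K N N₁ c) = _
          rw [h5, mul_zero, Int.cast_zero]
      · push Not at hx
        refine EE_mem hF _ _ fun C hC => ?_
        refine ind_mul_perm hlam _ C (fun D hD => ?_) (rs K N N₁) hφ
        have hU : ∀ u ∈ D, ∀ Q : Ideal (𝓞 N₁), Q.IsMaximal → u • Q = Q →
            Special K m (Q.comap (algebraMap (𝓞 L) (𝓞 N₁))) →
            AlgEquiv.restrictNormalHom L u = 1 ∨ ∃ v ∈ D, Q = v • (⊥ : Ideal (𝓞 N₁)) := by
          intro u hu Q hQ huQ hs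
          left
          refine hx u (hC (hD hu)) Q hQ.isPrime ?_ huQ
          have h1 := hsp _ hs
          rw [Ideal.mem_comap, map_natCast] at h1
          exact h1
        exact B.mem_one i (v_one hB hc hcyc D ⊥ (Or.inl rfl)
          (fun u hu => ⟨u, hu, smul_bot' u, rfl⟩) hU)
    · refine EE_mem hF _ _ fun C hC => ?_
      refine ind_mul_perm hlam _ C (fun D hD => ?_) (rs K N N₁) hφ
      refine B.mem_one i (v_small hS le_rfl hc D (fun h => hfull ?_))
      rw [eq_top_iff, ← h, ← MonoidHom.map_zpowers]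
      exact Subgroup.map_mono (hD.trans hC)
  have h1 := artin hF _ hEE
  -- the value of `φ`
  obtain ⟨n, rfl⟩ := PP_range hφ
  rw [hFf, ← chH_infl] at h1
  have h2 := B.of_nsmul i htf Nat.card_pos.ne' h1
  rw [chH_infl] at h2
  exact B.of_infl i h2

end Pool.Agent.K4H36.BK
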