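import Mathlib
import Pool.Agent.K4H36.BK.Main
import Pool.Agent.K4H36.BK.Def

/-!
# Embeddings into an algebraic closure satisfy the Brauer relations
-/

set_option autoImplicit false
set_option linter.unusedSectionVars false

namespace Pool.Agent.K4H36.BK

open NumberField Pool.Agent.R389 Pool.Agent.K4H74.ST Pool.Agent.K4H77.SL Pool.Agent.K4H36.ST
open scoped Pointwise

section emb

variable {K₀ Ω : Type} [Field K₀] [Field Ω] [Algebra K₀ Ω]

/-- the embeddings of an extension of `K₀` -/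
abbrev Em (K₀ Ω : Type) [Field K₀] [Field Ω] [Algebra K₀ Ω] {K : Type} [Field K] (i : K₀ →+* K) :
    Type := {σ : K →+* Ω // σ.comp i = algebraMap K₀ Ω}

/-- the number of embeddings which are fixed by `g` -/
noncomputable def nem {K : Type} [Field K] (i : K₀ →+* K) (g : Ω ≃ₐ[K₀] Ω) : ℕ :=
  Nat.card {σ : Em K₀ Ω i // ((g : Ω →+* Ω).comp σ.1 : K →+* Ω) = σ.1}

end emb

/-- two embeddings of a normal extension which agree on the base field -/
lemma exists_twist' {F N Ω : Type} [Field F] [Field N] [Field Ω] [Algebra F N] [Normal F N]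
    (σ τ : N →+* Ω) (h : ∀ x : F, σ (algebraMap F N x) = τ (algebraMap F N x)) :
    ∃ γ : N ≃ₐ[F] N, ∀ x, τ x = σ (γ x) := by
  let _ : Algebra F Ω := (σ.comp (algebraMap F N)).toAlgebra
  let _ : Algebra N Ω := σ.toAlgebra
  have hst : IsScalarTower F N Ω := IsScalarTower.of_algebraMap_eq fun x => rfl
  let ϕ : N →ₐ[F] Ω := { τ with commutes' := fun x => (h x).symm }
  let r : N →ₐ[F] N := ϕ.restrictNormal N
  have hr : ∀ x, σ (r x) = τ x := fun x => AlgHom.restrictNormal_commutes ϕ N x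
  have hbij : Function.Bijective r := Algebra.IsAlgebraic.algHom_bijective r
  exact ⟨AlgEquiv.ofBijective r hbij, fun x => (hr x).symm⟩

/-- embeddings extend to algebraic extensions -/
lemma exists_extend' {F N Ω : Type} [Field F] [Field N] [Field Ω] [Algebra F N]
    [Algebra.IsAlgebraic F N] [IsAlgClosed Ω] (σ : F →+* Ω) :
    ∃ τ : N →+* Ω, ∀ x, τ (algebraMap F N x) = σ x := by
  let _ : Algebra F Ω := σ.toAlgebra
  let ϕ : N →ₐ[F] Ω := IsAlgClosed.lift
  exact ⟨ϕ, fun x => ϕ.commutes x⟩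

section rel

variable {K₀ Ω : Type} [Field K₀] [Field Ω] [Algebra K₀ Ω] [CharZero Ω] [IsAlgClosed Ω]

variable {K N : Type} [Field K] [NumberField K] [Field N] [NumberField N] [Algebra K N]
  [IsGalois K N] (i : K₀ →+* K)

/-- two embeddings of `N` which agree on the fixed field of `H` differ by an element of `H` -/
lemma exists_twist (H : Subgroup (N ≃ₐ[K] N)) (σ τ : N →+* Ω)
    (h : ∀ x ∈ IntermediateField.fixedField H, σ x = τ x) :
    ∃ γ ∈ H, ∀ x, τ x = σ (γ x) := by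
  have hfin : FiniteDimensional K N := Module.Finite.of_restrictScalars_finite ℚ K N
  obtain ⟨γ, hγ⟩ := exists_twist' (F := IntermediateField.fixedField H) σ τ (fun x => h x x.2)
  refine ⟨γ.restrictScalars K, ?_, hγ⟩
  have h1 : γ.restrictScalars K ∈ (IntermediateField.fixedField H).fixingSubgroup := by
    rw [IntermediateField.mem_fixingSubgroup_iff]
    intro x hx
    exact γ.commutes ⟨x, hx⟩
  rwa [IntermediateField.fixingSubgroup_fixedField] at h1

/-- embeddings of the fixed field extend -/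
lemma exists_extend (H : Subgroup (N ≃ₐ[K] N)) (σ : IntermediateField.fixedField H →+* Ω) :
    ∃ τ : N →+* Ω, ∀ x : IntermediateField.fixedField H, τ (x : N) = σ x := by
  have hfin : FiniteDimensional K N := Module.Finite.of_restrictScalars_finite ℚ K N
  exact exists_extend' σ

/-- the number of the embeddings on which `g` acts as `γ` -/
noncomputable def cg (g : Ω ≃ₐ[K₀] Ω) (γ : N ≃ₐ[K] N) : ℕ :=
  Nat.card {σ : Em K₀ Ω ((algebraMap K N).comp i) // ∀ x, g (σ.1 x) = σ.1 (γ x)}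

instance finEm {F : Type} [Field F] [NumberField F] (j : K₀ →+* F) : Finite (Em K₀ Ω j) :=
  Subtype.finite

lemma cg_conj (g : Ω ≃ₐ[K₀] Ω) (γ x : N ≃ₐ[K] N) : cg i g (x * γ * x⁻¹) = cg i g γ := by
  refine Nat.card_congr ⟨fun σ => ⟨⟨σ.1.1.comp (x : N →+* N), ?_⟩, ?_⟩,
    fun σ => ⟨⟨σ.1.1.comp ((x⁻¹ : N ≃ₐ[K] N) : N →+* N), ?_⟩, ?_⟩, ?_, ?_⟩
  · refine Eq.trans ?_ σ.1.2
    ext y
    simp
  · intro y
    have h := σ.2 (x y)
    change g (σ.1.1 (x y)) = σ.1.1 (x (γ y))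
    rw [h]
    simp [AlgEquiv.mul_apply]
  · refine Eq.trans ?_ σ.1.2
    ext y
    simp
  · intro y
    have h := σ.2 (x⁻¹ y)
    change g (σ.1.1 (x⁻¹ y)) = σ.1.1 (x⁻¹ ((x * γ * x⁻¹) y))
    rw [h]
    simp [AlgEquiv.mul_apply]
  · intro σ
    apply Subtype.ext
    apply Subtype.ext
    ext y
    simp
  · intro σ
    apply Subtype.ext
    apply Subtype.ext
    ext y
    simp

/-- the embeddings of the fixed field of `H` which are fixed by `g` -/
lemma nem_eq (g : Ω ≃ₐ[K₀] Ω) (H : Subgroup (N ≃ₐ[K] N)) :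
    Nat.card H * nem (Ω := Ω) ((algebraMap K (IntermediateField.fixedField H)).comp i) g
      = ∑ᶠ h : H, cg i g (h : N ≃ₐ[K] N) := by
  classical
  let F := IntermediateField.fixedField H
  have : Fintype H := Fintype.ofFinite H
  rw [finsum_eq_sum_of_fintype]
  -- the embeddings of `N` whose restriction is fixed by `g`
  let A := {ρ : Em K₀ Ω ((algebraMap K N).comp i) // ∀ x : F, g (ρ.1 (x : N)) = ρ.1 (x : N)}
  have h1 : Nat.card A = ∑ h : H, cg i g (h : N ≃ₐ[K] N) := by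
    have e : A ≃ Σ h : H, {σ : Em K₀ Ω ((algebraMap K N).comp i) //
        ∀ x, g (σ.1 x) = σ.1 ((h : N ≃ₐ[K] N) x)} := by
      have hex : ∀ ρ : A, ∃ γ ∈ H, ∀ x, g (ρ.1.1 x) = ρ.1.1 (γ x) := by
        intro ρ
        exact exists_twist H ρ.1.1 ((g : Ω →+* Ω).comp ρ.1.1) (fun x hx => (ρ.2 ⟨x, hx⟩).symm)
      choose γ hγ hγ2 using hex
      refine ⟨fun ρ => ⟨⟨γ ρ, hγ ρ⟩, ⟨ρ.1, hγ2 ρ⟩⟩, fun s => ⟨s.2.1, ?_⟩, ?_, ?_⟩
      · intro x
        rw [s.2.2]
        congr 1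
        exact x.2 ⟨s.1.1, s.1.2⟩
      · intro ρ
        rfl
      · rintro ⟨⟨h, hh⟩, ⟨σ, hσ⟩⟩
        have h3 : ∀ pf, γ ⟨σ, pf⟩ = h := by
          intro pf
          ext x
          apply σ.1.injective
          rw [← hγ2 ⟨σ, pf⟩ x]
          exact hσ x
        have h2 := h3 (by
          intro x
          rw [hσ]
          congr 1
          exact x.2 ⟨h, hh⟩)
        refine Sigma.ext (Subtype.ext h2) ?_
        simp only
        refine (Subtype.heq_iff_coe_eq ?_).mpr rfl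
        intro z
        rw [h2]
    rw [Nat.card_congr e, Nat.card_sigma]
    rfl
  rw [← h1]
  -- the fibres of the restriction
  let r : A → {σ : Em K₀ Ω ((algebraMap K F).comp i) //
      ((g : Ω →+* Ω).comp σ.1 : F →+* Ω) = σ.1} := fun ρ =>
    ⟨⟨ρ.1.1.comp (algebraMap F N), Eq.trans rfl ρ.1.2⟩, by
      ext x
      exact ρ.2 x⟩
  have hfib : ∀ σ, Nat.card {ρ : A // r ρ = σ} = Nat.card H := by
    intro σ
    obtain ⟨τ, hτ⟩ := exists_extend H σ.1.1
    have hτK : τ.comp ((algebraMap K N).comp i) = algebraMap K₀ Ω := by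
      refine Eq.trans ?_ σ.1.2
      ext x
      exact hτ (algebraMap K F (i x))
    have hσg : ∀ x : F, g (σ.1.1 x) = σ.1.1 x := fun x => RingHom.congr_fun σ.2 x
    symm
    refine Nat.card_congr (Equiv.ofBijective (fun h : H =>
      (⟨⟨⟨τ.comp ((h : N ≃ₐ[K] N) : N →+* N), ?_⟩, ?_⟩, ?_⟩ : {ρ : A // r ρ = σ})) ⟨?_, ?_⟩)
    · refine Eq.trans ?_ hτK
      ext x
      simp
    · intro x
      have h2 : (h : N ≃ₐ[K] N) (x : N) = x := x.2 h
      change g (τ ((h : N ≃ₐ[K] N) (x : N))) = τ ((h : N ≃ₐ[K] N) (x : N))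
      rw [h2, hτ, hσg]
    · apply Subtype.ext
      apply Subtype.ext
      ext x
      have h2 : (h : N ≃ₐ[K] N) (x : N) = x := x.2 h
      change τ ((h : N ≃ₐ[K] N) (x : N)) = σ.1.1 x
      rw [h2, hτ]
    · intro h h' hh
      apply Subtype.ext
      ext x
      have h2 := congrArg (fun z : {ρ : A // r ρ = σ} => z.1.1.1 x) hh
      exact τ.injective h2
    · rintro ⟨ρ, hρ⟩
      obtain ⟨γ, hγ, hγ2⟩ := exists_twist H τ ρ.1.1 (by
        intro x hx
        have h2 := congrArg (fun z => z.1.1 ⟨x, hx⟩) hρ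
        change ρ.1.1 x = σ.1.1 ⟨x, hx⟩ at h2
        rw [h2]
        exact hτ ⟨x, hx⟩)
      refine ⟨⟨γ, hγ⟩, ?_⟩
      apply Subtype.ext
      apply Subtype.ext
      apply Subtype.ext
      ext x
      exact (hγ2 x).symm
  have hfinA : Finite A := inferInstance
  have hcard : Nat.card A = Nat.card {σ : Em K₀ Ω ((algebraMap K F).comp i) //
      ((g : Ω →+* Ω).comp σ.1 : F →+* Ω) = σ.1} * Nat.card H := by
    have : Fintype {σ : Em K₀ Ω ((algebraMap K F).comp i) //
      ((g : Ω →+* Ω).comp σ.1 : F →+* Ω) = σ.1} := Fintype.ofFinite _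
    rw [Nat.card_congr (Equiv.sigmaFiberEquiv r).symm, Nat.card_sigma,
      Finset.sum_congr rfl (fun σ _ => hfib σ), Finset.sum_const, Finset.card_univ,
      Nat.card_eq_fintype_card (α := {σ : Em K₀ Ω ((algebraMap K F).comp i) //
      ((g : Ω →+* Ω).comp σ.1 : F →+* Ω) = σ.1}), smul_eq_mul]
  rw [hcard, mul_comm]
  rfl

/-- Frobenius reciprocity for the permutation characters -/
lemma sum_one (H : Subgroup (N ≃ₐ[K] N)) (c : (N ≃ₐ[K] N) → ℂ)
    (hc : ∀ γ x, c (x * γ * x⁻¹) = c γ) [Fintype (N ≃ₐ[K] N)] [Fintype H] :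
    ∑ γ, one H γ * c γ
      = (Nat.card (N ≃ₐ[K] N) : ℂ) * ((Nat.card H : ℂ)⁻¹ * ∑ h : H, c (h : N ≃ₐ[K] N)) := by
  classical
  have h1 : ∀ γ, one H γ * c γ = (Nat.card H : ℂ)⁻¹ *
      ∑ x : N ≃ₐ[K] N, (if x⁻¹ * γ * x ∈ H then c γ else 0) := by
    intro γ
    rw [one, ind_eq, mul_assoc, Finset.sum_mul]
    congr 1
    refine Finset.sum_congr rfl fun x _ => ?_
    by_cases h : x⁻¹ * γ * x ∈ H
    · rw [ext_mem _ _ h, if_pos h, one_mul]
    · rw [ext_not _ _ h, if_neg h, zero_mul]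
  rw [Finset.sum_congr rfl (fun γ _ => h1 γ), ← Finset.mul_sum, Finset.sum_comm]
  have h2 : ∀ x : N ≃ₐ[K] N, ∑ γ : N ≃ₐ[K] N, (if x⁻¹ * γ * x ∈ H then c γ else 0)
      = ∑ h : H, c (h : N ≃ₐ[K] N) := by
    intro x
    rw [← Finset.sum_filter]
    symm
    refine Finset.sum_bij (fun h _ => x * (h : N ≃ₐ[K] N) * x⁻¹) ?_ ?_ ?_ ?_
    · intro h _
      rw [Finset.mem_filter]
      refine ⟨Finset.mem_univ _, ?_⟩
      have h3 : x⁻¹ * (x * (h : N ≃ₐ[K] N) * x⁻¹) * x = h := by group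
      rw [h3]
      exact h.2
    · intro h _ h' _ hh
      apply Subtype.ext
      exact mul_left_cancel (mul_right_cancel hh)
    · intro γ hγ
      rw [Finset.mem_filter] at hγ
      refine ⟨⟨_, hγ.2⟩, Finset.mem_univ _, ?_⟩
      simp only
      group
    · intro h _
      exact (hc _ _).symm
  rw [Finset.sum_congr rfl (fun x _ => h2 x), Finset.sum_const, Finset.card_univ, nsmul_eq_mul,
    Nat.card_eq_fintype_card (α := N ≃ₐ[K] N)]
  ring

/-- the relations between the permutation characters hold for the numbers of embeddings -/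
lemma nem_rel (g : Ω ≃ₐ[K₀] Ω) (n : Subgroup (N ≃ₐ[K] N) →₀ ℤ)
    (h : (n.sum fun H k => k • one H) = 0) :
    (n.sum fun H k => (k : ℂ) *
      (nem (Ω := Ω) ((algebraMap K (IntermediateField.fixedField H)).comp i) g : ℂ)) = 0 := by
  classical
  have : Fintype (N ≃ₐ[K] N) := Fintype.ofFinite _
  have hG : (Nat.card (N ≃ₐ[K] N) : ℂ) ≠ 0 := by exact_mod_cast Nat.card_pos.ne'
  let c : (N ≃ₐ[K] N) → ℂ := fun γ => (cg (Ω := Ω) i g γ : ℂ)
  have hc : ∀ γ x, c (x * γ * x⁻¹) = c γ := fun γ x => by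
    change ((cg i g (x * γ * x⁻¹) : ℕ) : ℂ) = _
    rw [cg_conj]
  have h1 : ∀ H : Subgroup (N ≃ₐ[K] N),
      (Nat.card (N ≃ₐ[K] N) : ℂ) *
      (nem (Ω := Ω) ((algebraMap K (IntermediateField.fixedField H)).comp i) g : ℂ)
        = ∑ γ, one H γ * c γ := by
    intro H
    have : Fintype H := Fintype.ofFinite H
    have hH : (Nat.card H : ℂ) ≠ 0 := by exact_mod_cast Nat.card_pos.ne'
    rw [sum_one H c hc]
    congr 1
    have h2 := nem_eq (Ω := Ω) i g H
    rw [finsum_eq_sum_of_fintype] at h2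
    have h3 : ∑ h : H, c (h : N ≃ₐ[K] N) = ((∑ h : H, cg (Ω := Ω) i g (h : N ≃ₐ[K] N) : ℕ) : ℂ) := by
      rw [Nat.cast_sum]
    rw [h3, ← h2, Nat.cast_mul, ← mul_assoc, inv_mul_cancel₀ hH, one_mul]
  have h4 : (Nat.card (N ≃ₐ[K] N) : ℂ) * (n.sum fun H k => (k : ℂ) *
      (nem (Ω := Ω) ((algebraMap K (IntermediateField.fixedField H)).comp i) g : ℂ))
      = ∑ γ, (n.sum fun H k => k • one H) γ * c γ := by
    rw [Finsupp.mul_sum, Finsupp.sum]
    have h5 : ∀ γ, (n.sum fun H k => k • one H) γ * c γ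
        = ∑ H ∈ n.support, (n H : ℂ) * (one H γ * c γ) := by
      intro γ
      rw [Finsupp.sum, Finset.sum_apply, Finset.sum_mul]
      refine Finset.sum_congr rfl fun H _ => ?_
      rw [Pi.smul_apply, zsmul_eq_mul, mul_assoc]
    rw [Finset.sum_congr rfl (fun γ _ => h5 γ), Finset.sum_comm]
    refine Finset.sum_congr rfl fun H _ => ?_
    rw [← Finset.mul_sum, ← h1]
    ring
  rw [h] at h4
  simp only [Pi.zero_apply, zero_mul, Finset.sum_const_zero] at h4
  exact (mul_eq_zero.mp h4).resolve_left hG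

end rel

end Pool.Agent.K4H36.BK
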