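import Mathlib
import Pool.Agent.K4H36.BK.Def
import Pool.Agent.K4H40.ST.Frob

/-!
# Primes of the ring of all algebraic integers: conjugacy, Frobenius automorphisms, existence
-/

set_option autoImplicit false

namespace Pool.Agent.K4H36.BK

open NumberField
open scoped Pointwise

/-- the primes of the ring of integers of an infinite Galois extension above one prime are
conjugate -/
theorem conj_primes (E Ω : Type) [Field E] [Field Ω] [Algebra E Ω] [IsGalois E Ω]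
    (P Q : Ideal (𝓞 Ω)) (hP : P.IsPrime) (hQ : Q.IsPrime)
    (h : P.comap (algebraMap (𝓞 E) (𝓞 Ω)) = Q.comap (algebraMap (𝓞 E) (𝓞 Ω))) :
    ∃ g : Ω ≃ₐ[E] Ω, Q = g • P := by
  have coe_smul : ∀ (σ : Ω ≃ₐ[E] Ω) (x : 𝓞 Ω), ((σ • x : 𝓞 Ω) : Ω) = σ (x : Ω) := fun _ _ => rfl
  have : SMulCommClass (Ω ≃ₐ[E] Ω) (𝓞 E) (𝓞 Ω) := by
    refine ⟨fun σ a x => ?_⟩
    apply RingOfIntegers.ext
    rw [coe_smul]
    simp only [Algebra.smul_def, map_mul]
    exact congrArg₂ (· * ·) (σ.commutes (a : E)) rfl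
  have : Algebra.IsInvariant (𝓞 E) (𝓞 Ω) (Ω ≃ₐ[E] Ω) := by
    refine ⟨fun x hx => ?_⟩
    have h : (x : Ω) ∈ Set.range (algebraMap E Ω) := by
      rw [InfiniteGalois.mem_range_algebraMap_iff_fixed]
      intro σ
      exact congrArg (fun y : 𝓞 Ω => (y : Ω)) (hx σ)
    obtain ⟨k, hk⟩ := h
    have hint : IsIntegral ℤ k := by
      have h1 : IsIntegral ℤ (x : Ω) := x.isIntegral_coe
      rw [← hk] at h1
      exact (isIntegral_algebraMap_iff (algebraMap E Ω).injective).mp h1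
    refine ⟨⟨k, hint⟩, ?_⟩
    apply RingOfIntegers.ext
    exact hk
  let : TopologicalSpace (𝓞 Ω) := ⊥
  have : DiscreteTopology (𝓞 Ω) := ⟨rfl⟩
  have : ContinuousSMul (Ω ≃ₐ[E] Ω) (𝓞 Ω) := by
    rw [continuousSMul_iff_stabilizer_isOpen]
    intro x
    have := stabilizer_isOpen_of_isIntegral (K := E) (L := Ω) (x : Ω)
    convert this using 1
    ext σ
    simp only [SetLike.mem_coe, MulAction.mem_stabilizer_iff]
    constructor
    · intro h
      exact congrArg (fun y : 𝓞 Ω => (y : Ω)) h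
    · intro h
      exact RingOfIntegers.ext h
  exact Algebra.IsInvariant.exists_smul_of_under_eq_of_profinite (A := 𝓞 E)
    (G := Ω ≃ₐ[E] Ω) P Q h

/-- there are primes above every prime -/
theorem exists_above (K : Type) [Field K] [NumberField K] (F : IntermediateField K (Kb K))
    (w : Ideal (𝓞 F)) (hw : w.IsMaximal) :
    ∃ W : Ideal (𝓞 (Kb K)), W.IsMaximal ∧ W.comap (algebraMap (𝓞 F) (𝓞 (Kb K))) = w := by
  have : Algebra.IsIntegral (𝓞 F) (𝓞 (Kb K)) := by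
    refine ⟨fun x => ?_⟩
    have h : IsIntegral ℤ x := RingOfIntegers.isIntegral x
    exact h.tower_top
  have hinj : Function.Injective (algebraMap (𝓞 F) (𝓞 (Kb K))) := by
    intro a b hab
    apply RingOfIntegers.ext
    exact (algebraMap F (Kb K)).injective (congrArg (fun y : 𝓞 (Kb K) => (y : Kb K)) hab)
  obtain ⟨Q, hQ, hQ2⟩ := Ideal.exists_ideal_over_maximal_of_isIntegral (S := 𝓞 (Kb K)) w (by
    rw [(RingHom.injective_iff_ker_eq_bot _).1 hinj]
    exact bot_le)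
  exact ⟨Q, hQ, hQ2⟩

/-- Frobenius automorphisms exist -/
theorem exists_frob (K : Type) [Field K] [NumberField K] (F : IntermediateField K (Kb K))
    [FiniteDimensional K F] (W : Ideal (𝓞 (Kb K))) (hW : W.IsMaximal) :
    ∃ φ : GK K, IsFrob F.fixingSubgroup W
      (Nat.card (𝓞 F ⧸ W.comap (algebraMap (𝓞 F) (𝓞 (Kb K))))) φ := by
  have : NumberField F := NumberField.of_module_finite K F
  have : Algebra.IsIntegral (𝓞 F) (𝓞 (Kb K)) := by
    refine ⟨fun x => ?_⟩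
    have h : IsIntegral ℤ x := RingOfIntegers.isIntegral x
    exact h.tower_top
  have hmax : (W.comap (algebraMap (𝓞 F) (𝓞 (Kb K)))).IsMaximal :=
    Ideal.isMaximal_comap_of_isIntegral_of_isMaximal W
  have hne : W.comap (algebraMap (𝓞 F) (𝓞 (Kb K))) ≠ ⊥ :=
    Ring.ne_bot_of_isMaximal_of_not_isField hmax (RingOfIntegers.not_isField F)
  have : IsAlgClosure F (Kb K) := ⟨inferInstance, Algebra.IsAlgebraic.tower_top (K := K) F⟩
  obtain ⟨σ, hσ⟩ := Pool.Agent.K4H40.ST.Frob.task_frob (F := F) (Ω := Kb K)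
    ⟨W.comap (algebraMap (𝓞 F) (𝓞 (Kb K))), hmax.isPrime, hne⟩ W rfl
  set φ : GK K := σ.restrictScalars K with hφ
  have hsm : ∀ x : 𝓞 (Kb K), φ • x = σ • x := fun x => RingOfIntegers.ext rfl
  have hcard : Nat.card (𝓞 F ⧸ W.comap (algebraMap (𝓞 F) (𝓞 (Kb K)))) =
      Ideal.absNorm (W.comap (algebraMap (𝓞 F) (𝓞 (Kb K)))) := by
    rw [Ideal.absNorm_apply, Submodule.cardQuot_apply]
  have hfrob : ∀ x : 𝓞 (Kb K), φ • x - x ^ (Nat.card (𝓞 F ⧸ W.comap (algebraMap (𝓞 F) (𝓞 (Kb K))))) ∈ W := by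
    intro x
    rw [hcard, hsm]
    exact hσ x
  have hq : Nat.card (𝓞 F ⧸ W.comap (algebraMap (𝓞 F) (𝓞 (Kb K)))) ≠ 0 := by
    rw [hcard]
    exact (Ideal.absNorm_eq_zero_iff).not.2 hne
  refine ⟨φ, ?_, ?_, hfrob⟩
  · intro x
    exact σ.commutes x
  · -- `φ W = W`
    have hle : φ • W ≤ W := by
      intro y hy
      rw [Ideal.mem_pointwise_smul_iff_inv_smul_mem] at hy
      have h1 := hfrob (φ⁻¹ • y)
      rw [smul_inv_smul] at h1
      have h2 : (φ⁻¹ • y) ^ (Nat.card (𝓞 F ⧸ W.comap (algebraMap (𝓞 F) (𝓞 (Kb K))))) ∈ W :=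
        Ideal.pow_mem_of_mem _ hy _ (Nat.pos_of_ne_zero hq)
      have h3 := add_mem h1 h2
      rwa [sub_add_cancel] at h3
    have hmaxφ : (φ • W).IsMaximal := by
      rw [Ideal.pointwise_smul_eq_comap]
      exact Ideal.comap_isMaximal_of_equiv _
    exact hmaxφ.eq_of_le hW.ne_top hle

end Pool.Agent.K4H36.BK
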