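import Mathlib
import Pool.Agent.K4H36.BK.Emb
import Pool.Agent.K4H36.BK.G

/-!
# Fields with at most one non-split prime inside an algebraic closure
-/

set_option autoImplicit false
set_option linter.unusedSectionVars false

namespace Pool.Agent.K4H36.BK

open NumberField Pool.Agent.R389 Pool.Agent.K4H74.ST Pool.Agent.K4H77.SL Pool.Agent.K4H36.ST
open scoped Pointwise

section near

variable {K₀ : Type} [Field K₀] [NumberField K₀] (L₀ : IntermediateField K₀ (Kb K₀)) {m : ℕ}

variable {K L : Type} [Field K] [NumberField K] [Field L] [NumberField L] [Algebra K L]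
  [IsGalois K L] {i : K₀ →+* K} {j : L₀ →+* L}

/-- the image of a field -/
noncomputable def img (τ : K →+* Kb K₀) (hτ : τ.comp i = algebraMap K₀ (Kb K₀)) :
    IntermediateField K₀ (Kb K₀) :=
  { τ.fieldRange with
    algebraMap_mem' := fun x => ⟨i x, RingHom.congr_fun hτ x⟩
    inv_mem' := fun x hx => inv_mem (show x ∈ τ.fieldRange from hx) }

lemma mem_img {τ : K →+* Kb K₀} (hτ : τ.comp i = algebraMap K₀ (Kb K₀)) {y : Kb K₀} :
    y ∈ img τ hτ ↔ ∃ x, τ x = y := Iff.rfl

lemma mem_fix_img {τ : K →+* Kb K₀} (hτ : τ.comp i = algebraMap K₀ (Kb K₀)) {g : GK K₀} :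
    g ∈ (img τ hτ).fixingSubgroup ↔ ∀ x, g (τ x) = τ x := by
  rw [IntermediateField.mem_fixingSubgroup_iff]
  constructor
  · intro h x
    exact h _ ⟨x, rfl⟩
  · rintro h _ ⟨x, rfl⟩
    exact h x

instance : IsGalois K₀ (Kb K₀) := inferInstance

/-- embeddings differ by automorphisms of the algebraic closure -/
lemma exists_auto {τ σ : K →+* Kb K₀} (hτ : τ.comp i = algebraMap K₀ (Kb K₀))
    (hσ : σ.comp i = algebraMap K₀ (Kb K₀)) : ∃ g : GK K₀, ∀ x, g (τ x) = σ x := by
  let _ : Algebra K₀ K := i.toAlgebra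
  let _ : Algebra K (Kb K₀) := τ.toAlgebra
  have hst : IsScalarTower K₀ K (Kb K₀) := IsScalarTower.of_algebraMap_eq fun x =>
    (RingHom.congr_fun hτ x).symm
  let ϕ : K →ₐ[K₀] Kb K₀ := { σ with commutes' := fun x => RingHom.congr_fun hσ x }
  let r : Kb K₀ →ₐ[K₀] Kb K₀ := ϕ.liftNormal (Kb K₀)
  have hr : ∀ x, r (τ x) = σ x := fun x => AlgHom.liftNormal_commutes ϕ (Kb K₀) x
  exact ⟨AlgEquiv.ofBijective r (Algebra.IsAlgebraic.algHom_bijective r), hr⟩

/-- the number of embeddings fixed by `g` is the number of cosets fixed by `g` -/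
lemma nem_img {τ : K →+* Kb K₀} (hτ : τ.comp i = algebraMap K₀ (Kb K₀)) (g : GK K₀) :
    nem (Ω := Kb K₀) i g
      = Nat.card {x : GK K₀ ⧸ (img τ hτ).fixingSubgroup // g • x = x} := by
  symm
  let f : GK K₀ ⧸ (img τ hτ).fixingSubgroup → Em K₀ (Kb K₀) i := fun x =>
    Quotient.liftOn' x (fun h => (⟨(h : Kb K₀ →+* Kb K₀).comp τ, by
      rw [RingHom.comp_assoc, hτ]
      ext x
      simp⟩ : Em K₀ (Kb K₀) i)) (by
        intro a b hab
        rw [QuotientGroup.leftRel_apply, mem_fix_img] at hab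
        apply Subtype.ext
        ext x
        change a (τ x) = b (τ x)
        have h1 := hab x
        rw [AlgEquiv.mul_apply] at h1
        have h2 := congrArg a h1
        rw [← AlgEquiv.mul_apply, mul_inv_cancel] at h2
        exact h2.symm)
  have hf : ∀ h : GK K₀, (f (h : GK K₀ ⧸ (img τ hτ).fixingSubgroup)).1
      = (h : Kb K₀ →+* Kb K₀).comp τ := fun h => rfl
  have hinj : Function.Injective f := by
    intro x y hxy
    induction x using QuotientGroup.induction_on with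
    | H a =>
      induction y using QuotientGroup.induction_on with
      | H b =>
        rw [QuotientGroup.eq, mem_fix_img]
        intro x
        have h1 := RingHom.congr_fun (congrArg Subtype.val hxy) x
        rw [hf, hf] at h1
        change a (τ x) = b (τ x) at h1
        rw [AlgEquiv.mul_apply, ← h1, ← AlgEquiv.mul_apply, inv_mul_cancel]
        rfl
  have hsurj : Function.Surjective f := by
    rintro ⟨σ, hσ⟩
    obtain ⟨h, hh⟩ := exists_auto hτ hσ
    refine ⟨(h : GK K₀ ⧸ (img τ hτ).fixingSubgroup), ?_⟩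
    apply Subtype.ext
    rw [hf]
    ext x
    exact hh x
  let e := Equiv.ofBijective f ⟨hinj, hsurj⟩
  refine Nat.card_congr (Equiv.subtypeEquiv e fun x => ?_)
  induction x using QuotientGroup.induction_on with
  | H a =>
    have h1 : f (g • (a : GK K₀ ⧸ (img τ hτ).fixingSubgroup))
        = ⟨(g : Kb K₀ →+* Kb K₀).comp (f a).1, by
          rw [RingHom.comp_assoc, (f a).2]
          ext x
          simp⟩ := by
      apply Subtype.ext
      apply RingHom.ext
      intro x
      rfl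
    rw [← hinj.eq_iff, h1]
    exact Subtype.ext_iff

/-- the action on the integers of an embedded field -/
noncomputable def intEmb (ε : L →+* Kb K₀) : 𝓞 L →+* 𝓞 (Kb K₀) :=
  RingOfIntegers.mapRingHom ε

lemma intEmb_coe (ε : L →+* Kb K₀) (x : 𝓞 L) : ((intEmb ε x : 𝓞 (Kb K₀)) : Kb K₀) = ε (x : L) :=
  rfl

/-- the field `K` is nearly good if the conditions hold in `L` -/
theorem nearlyGood_img [FiniteDimensional K₀ L₀] (hc : Cmp K₀ L₀ K L i j)
    (hcyc : IsCyclic (L ≃ₐ[K] L)) (v : Ideal (𝓞 K))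
    (h1 : ∀ P : Ideal (𝓞 L), P.IsMaximal → P.comap (algebraMap (𝓞 K) (𝓞 L)) ≠ v →
      ∀ g ∈ inertia K P, g = 1)
    (h2 : ∀ P : Ideal (𝓞 L), P.IsMaximal → P.comap (algebraMap (𝓞 K) (𝓞 L)) ≠ v →
      (m : 𝓞 L) ∈ P → ∀ g ∈ decomp K P, g = 1)
    (h3 : ∀ P : Ideal (𝓞 L), P.IsMaximal → P.comap (algebraMap (𝓞 K) (𝓞 L)) = v →
      ∀ g, g ∈ decomp K P) :
    ∃ (τ : K →+* Kb K₀) (hτ : τ.comp i = algebraMap K₀ (Kb K₀)),
      NearlyGood L₀ (img τ hτ) m := by
  classical
  have hfin : FiniteDimensional K L := Module.Finite.of_restrictScalars_finite ℚ K L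
  -- the embedding of `L`
  have hL₀ : NumberField L₀ := NumberField.of_module_finite K₀ L₀
  obtain ⟨ε, hε⟩ : ∃ ε : L →+* Kb K₀, ∀ x : L₀, ε (j x) = (x : Kb K₀) := by
    let _ : Algebra L₀ L := j.toAlgebra
    have hfin2 : FiniteDimensional L₀ L := Module.Finite.of_restrictScalars_finite ℚ L₀ L
    obtain ⟨ε, hε⟩ := exists_extend' (F := L₀) (N := L) (algebraMap L₀ (Kb K₀))
    exact ⟨ε, hε⟩
  let τ : K →+* Kb K₀ := ε.comp (algebraMap K L)
  have hτ : τ.comp i = algebraMap K₀ (Kb K₀) := by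
    ext x
    change ε (algebraMap K L (i x)) = _
    have h := RingHom.congr_fun hc.comm x
    change algebraMap K L (i x) = j (algebraMap K₀ L₀ x) at h
    rw [h, hε]
    rfl
  let F := img τ hτ
  refine ⟨τ, hτ, ?_⟩
  -- restriction to `L`
  have hr : ∀ g ∈ F.fixingSubgroup, ∃ γ : L ≃ₐ[K] L, ∀ x, g (ε x) = ε (γ x) := by
    intro g hg
    rw [mem_fix_img] at hg
    obtain ⟨γ, hγ⟩ := exists_twist' (F := K) ε ((g : Kb K₀ →+* Kb K₀).comp ε)
      (fun x => (hg x).symm)
    exact ⟨γ, hγ⟩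
  have hs : ∀ γ : L ≃ₐ[K] L, ∃ g ∈ F.fixingSubgroup, ∀ x, g (ε x) = ε (γ x) := by
    intro γ
    have hεi : ε.comp ((algebraMap K L).comp i) = algebraMap K₀ (Kb K₀) := hτ
    have hεi' : (ε.comp (γ : L →+* L)).comp ((algebraMap K L).comp i)
        = algebraMap K₀ (Kb K₀) := by
      rw [← hεi]
      ext x
      simp
    obtain ⟨g, hg⟩ := exists_auto hεi hεi'
    refine ⟨g, ?_, hg⟩
    rw [mem_fix_img]
    intro x
    change g (ε (algebraMap K L x)) = ε (algebraMap K L x)
    rw [hg]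
    simp
  have hL : ∀ x ∈ L₀, ∃ y : L, ε y = x := fun x hx => ⟨j ⟨x, hx⟩, hε ⟨x, hx⟩⟩
  have hone : ∀ (g : GK K₀), (∀ x, g (ε x) = ε x) → ∀ x ∈ L₀, g x = x := by
    intro g hg x hx
    obtain ⟨y, rfl⟩ := hL x hx
    exact hg y
  refine ⟨?_, ?_⟩
  · obtain ⟨c₀, hc₀⟩ := hcyc.exists_generator
    obtain ⟨c, hcF, hcc⟩ := hs c₀
    have hpow : ∀ (k : ℤ) (x : L), (c ^ k) (ε x) = ε ((c₀ ^ k) x) := by
      have hnat : ∀ (k : ℕ) (x : L), (c ^ k) (ε x) = ε ((c₀ ^ k) x) := by
        intro k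
        induction k with
        | zero => intro x; rfl
        | succ k ih =>
          intro x
          rw [pow_succ, pow_succ, AlgEquiv.mul_apply, AlgEquiv.mul_apply, hcc, ih]
      intro k x
      cases k with
      | ofNat k =>
        rw [Int.ofNat_eq_natCast, zpow_natCast, zpow_natCast]
        exact hnat k x
      | negSucc k =>
        rw [zpow_negSucc, zpow_negSucc]
        have h := hnat (k + 1) ((c₀ ^ (k + 1))⁻¹ x)
        rw [← AlgEquiv.mul_apply (c₀ ^ (k + 1)), mul_inv_cancel, AlgEquiv.one_apply] at h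
        rw [← h, ← AlgEquiv.mul_apply, inv_mul_cancel, AlgEquiv.one_apply]
    refine ⟨c, hcF, fun g hg => ?_⟩
    obtain ⟨γ, hγ⟩ := hr g hg
    obtain ⟨k, hk⟩ := hc₀ γ
    refine ⟨k, fun x hx => ?_⟩
    obtain ⟨y, rfl⟩ := hL x hx
    rw [hγ, hpow]
    congr 2
    exact hk.symm
  · -- the primes
    let e : K ≃+* F := RingEquiv.ofBijective (τ.codRestrict F.toSubfield (fun x => ⟨x, rfl⟩))
      ⟨RingHom.injective _, by
        rintro ⟨_, x, rfl⟩
        exact ⟨x, rfl⟩⟩
    have he : ∀ x, ((e x : F) : Kb K₀) = ε (algebraMap K L x) := fun x => rfl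
    let eO : 𝓞 K ≃+* 𝓞 F := RingOfIntegers.mapRingEquiv e
    have hcompat : ∀ x : 𝓞 K, algebraMap (𝓞 F) (𝓞 (Kb K₀)) (eO x)
        = intEmb ε (algebraMap (𝓞 K) (𝓞 L) x) := by
      intro x
      apply RingOfIntegers.ext
      rfl
    -- the primes of `L`
    have hPm : ∀ W : Ideal (𝓞 (Kb K₀)), W.IsMaximal → (W.comap (intEmb ε)).IsMaximal := by
      intro W hW
      have h4 : (W.comap (algebraMap ℤ (𝓞 (Kb K₀)))).IsMaximal :=
        Ideal.isMaximal_comap_of_isIntegral_of_isMaximal W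
      have hp : (W.comap (intEmb ε)).IsPrime := Ideal.IsPrime.comap _
      refine hp.isMaximal fun h5 => ?_
      have h6 : (W.comap (algebraMap ℤ (𝓞 (Kb K₀)))) = ⊥ := by
        rw [eq_bot_iff]
        intro z hz
        have h7 : algebraMap ℤ (𝓞 L) z ∈ W.comap (intEmb ε) := by
          rw [Ideal.mem_comap] at hz ⊢
          have h8 : intEmb ε (algebraMap ℤ (𝓞 L) z) = algebraMap ℤ (𝓞 (Kb K₀)) z := by simp
          rw [h8]
          exact hz
        rw [h5, Ideal.mem_bot] at h7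
        have h9 : Function.Injective (algebraMap ℤ (𝓞 L)) := FaithfulSMul.algebraMap_injective _ _
        rw [Ideal.mem_bot]
        exact h9 (by rw [h7, map_zero])
      exact Ring.ne_bot_of_isMaximal_of_not_isField h4 Int.not_isField h6
    have hPK : ∀ W : Ideal (𝓞 (Kb K₀)), W.comap (algebraMap (𝓞 F) (𝓞 (Kb K₀)))
        = ((W.comap (intEmb ε)).comap (algebraMap (𝓞 K) (𝓞 L))).comap (eO.symm : 𝓞 F →+* 𝓞 K) := by
      intro W
      ext x
      obtain ⟨y, rfl⟩ := eO.surjective x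
      rw [Ideal.mem_comap, Ideal.mem_comap, Ideal.mem_comap, Ideal.mem_comap, hcompat]
      simp
    have hne : ∀ W : Ideal (𝓞 (Kb K₀)), W.comap (algebraMap (𝓞 F) (𝓞 (Kb K₀)))
        = v.comap (eO.symm : 𝓞 F →+* 𝓞 K) ↔
          (W.comap (intEmb ε)).comap (algebraMap (𝓞 K) (𝓞 L)) = v := by
      intro W
      rw [hPK]
      constructor
      · intro h
        exact Ideal.comap_injective_of_surjective _ eO.symm.surjective h
      · intro h
        rw [h]
    have hact : ∀ (g : GK K₀) (γ : L ≃ₐ[K] L), (∀ x, g (ε x) = ε (γ x)) → ∀ x : 𝓞 L,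
        g • intEmb ε x = intEmb ε (gi γ x) := by
      intro g γ hg x
      apply RingOfIntegers.ext
      exact hg (x : L)
    have hid : ∀ (g : GK K₀) (γ : L ≃ₐ[K] L), (∀ x, g (ε x) = ε (γ x)) → γ = 1 →
        ∀ x ∈ L₀, g x = x := by
      intro g γ hg h
      refine hone g fun x => ?_
      rw [hg, h]
      rfl
    have hdec : ∀ (g : GK K₀) (γ : L ≃ₐ[K] L), (∀ x, g (ε x) = ε (γ x)) →
        ∀ W : Ideal (𝓞 (Kb K₀)), g • W = W → γ ∈ decomp K (W.comap (intEmb ε)) := by
      intro g γ hg W hgW x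
      rw [Ideal.mem_comap, Ideal.mem_comap, ← hact g γ hg]
      conv_lhs => rw [← hgW]
      exact Ideal.smul_mem_pointwise_smul_iff
    refine ⟨v.comap (eO.symm : 𝓞 F →+* 𝓞 K), fun W hW => ⟨fun hWv => ⟨?_, ?_⟩, ?_⟩⟩
    · intro g hg hin
      obtain ⟨γ, hγ⟩ := hr g hg
      refine hid g γ hγ (h1 _ (hPm W hW) (fun h => hWv ((hne W).mpr h)) γ ?_)
      intro x
      rw [Ideal.mem_comap, map_sub, ← hact g γ hγ]
      exact hin _
    · intro hm g hg hgW
      obtain ⟨γ, hγ⟩ := hr g hg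
      refine hid g γ hγ (h2 _ (hPm W hW) (fun h => hWv ((hne W).mpr h)) ?_ γ (hdec g γ hγ W hgW))
      rw [Ideal.mem_comap, map_natCast]
      exact hm
    · intro hWv g hg
      obtain ⟨γ, hγ⟩ := hr g hg
      have hγd := h3 _ (hPm W hW) ((hne W).mp hWv) γ
      -- the prime `g • W` is conjugate to `W` over `L`
      let _ : Algebra L (Kb K₀) := ε.toAlgebra
      have halg : Algebra.IsAlgebraic L (Kb K₀) := by
        let _ : Algebra K₀ L := ((algebraMap K L).comp i).toAlgebra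
        have hst : IsScalarTower K₀ L (Kb K₀) := IsScalarTower.of_algebraMap_eq fun x =>
          (RingHom.congr_fun hτ x).symm
        exact Algebra.IsAlgebraic.tower_top (K := K₀) L
      have hclo : IsAlgClosure L (Kb K₀) := ⟨inferInstance, halg⟩
      have hnorm : Normal L (Kb K₀) := IsAlgClosure.normal L (Kb K₀)
      have hgal : IsGalois L (Kb K₀) := ⟨⟩
      have hp1 : W.IsPrime := hW.isPrime
      have hp2 : (g • W).IsPrime := Ideal.IsPrime.smul g
      obtain ⟨t, ht⟩ := conj_primes L (Kb K₀) (g • W) W hp2 hp1 (by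
        ext x
        rw [Ideal.mem_comap, Ideal.mem_comap]
        have h4 : algebraMap (𝓞 L) (𝓞 (Kb K₀)) x = intEmb ε x := by
          apply RingOfIntegers.ext
          rfl
        rw [h4]
        obtain ⟨y, rfl⟩ : ∃ y : 𝓞 L, gi γ y = x := ⟨gi γ⁻¹ x, by
          rw [← gi_mul, mul_inv_cancel, gi_one]⟩
        rw [← hact g γ hγ, Ideal.smul_mem_pointwise_smul_iff, hact g γ hγ]
        exact (hγd y).symm)
      -- `t` as an automorphism over `K₀`
      have htK : ∀ x : K₀, t (algebraMap K₀ (Kb K₀) x) = algebraMap K₀ (Kb K₀) x := by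
        intro x
        have h4 : algebraMap K₀ (Kb K₀) x = algebraMap L (Kb K₀) (algebraMap K L (i x)) :=
          (RingHom.congr_fun hτ x).symm
        rw [h4, t.commutes]
      let t' : GK K₀ := AlgEquiv.ofRingEquiv (f := (t : Kb K₀ ≃+* Kb K₀)) htK
      have ht' : ∀ x, t' x = t x := fun x => rfl
      have htW : t' • (g • W) = W := by
        refine Eq.trans ?_ ht.symm
        ext x
        have e1 : x ∈ t' • (g • W) ↔ t'⁻¹ • x ∈ g • W := Ideal.mem_pointwise_smul_iff_inv_smul_mem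
        have e2 : x ∈ t • (g • W) ↔ t⁻¹ • x ∈ g • W := Ideal.mem_pointwise_smul_iff_inv_smul_mem
        have h5 : t'⁻¹ • x = t⁻¹ • x := by
          apply RingOfIntegers.ext
          change t'⁻¹ (x : Kb K₀) = t⁻¹ (x : Kb K₀)
          apply t.injective
          rw [← AlgEquiv.mul_apply, mul_inv_cancel, ← ht', ← AlgEquiv.mul_apply, mul_inv_cancel]
          rfl
        rw [e1, e2, h5]
      refine ⟨t' * g, ?_, by rw [mul_smul, htW], ?_⟩
      · rw [mem_fix_img] at hg ⊢
        intro x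
        rw [AlgEquiv.mul_apply, hg]
        exact t.commutes (algebraMap K L x)
      · intro x hx
        obtain ⟨y, rfl⟩ := hL x hx
        rw [AlgEquiv.mul_apply, hγ]
        exact t.commutes (γ y)

end near

end Pool.Agent.K4H36.BK
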