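import Mathlib
import Pool.Agent.K4H36.BK.Near

/-!
# The trivial character as a combination of permutation characters of nearly good fields
-/

set_option autoImplicit false
set_option linter.unusedSectionVars false

namespace Pool.Agent.K4H36.BK

open NumberField Pool.Agent.R389 Pool.Agent.K4H74.ST Pool.Agent.K4H77.SL Pool.Agent.K4H36.ST
open scoped Pointwise

variable {K₀ : Type} [Field K₀] [NumberField K₀] (L₀ : IntermediateField K₀ (Kb K₀)) (m : ℕ)

/-- the span of the permutation characters of the nearly good fields -/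
noncomputable def spn : Submodule ℚ (GK K₀ → ℂ) :=
  Submodule.span ℚ {f | ∃ F : IntermediateField K₀ (Kb K₀), FiniteDimensional K₀ F ∧
    NearlyGood L₀ F m ∧ f = fun g => (nco F g : ℂ)}

/-- the number of embeddings fixed by `g`, modulo the nearly good fields, satisfies the Brauer
relations -/
noncomputable def binv : BInv K₀ ((GK K₀ → ℂ) ⧸ spn L₀ m) where
  val K _ _ i := Submodule.Quotient.mk (fun g => (nem (Ω := Kb K₀) i g : ℂ))
  iso K K' _ _ _ _ i e := by
    congr 1
    funext g
    congr 1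
    refine Nat.card_congr ⟨fun σ => ⟨⟨σ.1.1.comp (e : K →+* K'), ?_⟩, ?_⟩,
      fun σ => ⟨⟨σ.1.1.comp (e.symm : K' →+* K), ?_⟩, ?_⟩, ?_, ?_⟩
    · exact Eq.trans rfl σ.1.2
    · ext x
      exact RingHom.congr_fun σ.2 (e x)
    · refine Eq.trans ?_ σ.1.2
      ext x
      simp
    · ext x
      exact RingHom.congr_fun σ.2 (e.symm x)
    · intro σ
      apply Subtype.ext
      apply Subtype.ext
      ext x
      simp
    · intro σ
      apply Subtype.ext
      apply Subtype.ext
      ext x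
      simp
  rel K N _ _ _ _ _ _ i n h := by
    have h1 : (n.sum fun H k => k • (fun g => (nem (Ω := Kb K₀)
        ((algebraMap K (IntermediateField.fixedField H)).comp i) g : ℂ) : GK K₀ → ℂ)) = 0 := by
      funext g
      have h2 := nem_rel (Ω := Kb K₀) i g n h
      rw [Finsupp.sum] at h2 ⊢
      rw [Finset.sum_apply]
      simpa using h2
    have h3 := congrArg (Submodule.mkQ (spn L₀ m)) h1
    rw [map_zero, Finsupp.sum, map_sum] at h3
    rw [Finsupp.sum]
    rw [← h3]
    refine Finset.sum_congr rfl fun H _ => ?_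
    exact (map_zsmul (Submodule.mkQ (spn L₀ m)) _ _).symm

variable {m}

/-- the generalised Artin induction theorem -/
theorem one_mem_spn [FiniteDimensional K₀ L₀] [IsGalois K₀ L₀] (hm : m ≠ 0) :
    (fun _ => (1 : ℂ)) ∈ spn L₀ m := by
  have hL₀ : NumberField L₀ := NumberField.of_module_finite K₀ L₀
  have htf : ∀ (x : (GK K₀ → ℂ) ⧸ spn L₀ m) (n : ℕ), n ≠ 0 → n • x = 0 → x = 0 := by
    intro x n hn h
    have h1 : (n : ℚ) • x = 0 := by
      rw [← h]
      exact Nat.cast_smul_eq_nsmul ℚ n x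
    exact (smul_eq_zero.mp h1).resolve_left (by exact_mod_cast hn)
  have hvan : Van (binv L₀ m) L₀ m := by
    intro K L _ _ _ _ _ _ i j hc hcyc v h1 h2 h3
    obtain ⟨τ, hτ, hgood⟩ := nearlyGood_img L₀ hc hcyc v h1 h2 h3
    change Submodule.Quotient.mk _ = _
    rw [Submodule.Quotient.mk_eq_zero]
    refine Submodule.subset_span ⟨img τ hτ, ?_, hgood, ?_⟩
    · -- finite degree
      let _ : Algebra K₀ K := i.toAlgebra
      have hfin : FiniteDimensional K₀ K := Module.Finite.of_restrictScalars_finite ℚ K₀ K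
      let f : K →ₐ[K₀] Kb K₀ := { τ with commutes' := fun x => RingHom.congr_fun hτ x }
      have hsurj : Function.Surjective (fun x : K => (⟨f x, ⟨x, rfl⟩⟩ : img τ hτ)) := by
        rintro ⟨_, x, rfl⟩
        exact ⟨x, rfl⟩
      let f' : K →ₗ[K₀] img τ hτ :=
        { toFun := fun x => (⟨f x, ⟨x, rfl⟩⟩ : img τ hτ)
          map_add' := fun x y => Subtype.ext (map_add f x y)
          map_smul' := fun c x => Subtype.ext (f.toLinearMap.map_smul c x) }
      exact Module.Finite.of_surjective f' hsurj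
    · funext g
      rw [nem_img hτ g]
      rfl
  have hc : Cmp K₀ L₀ K₀ L₀ (RingHom.id K₀) (RingHom.id L₀) := ⟨rfl, fun g hg => by
    ext x
    exact congrArg _ (hg x)⟩
  have h := val_zero_all hm hvan htf K₀ L₀ hc
  change Submodule.Quotient.mk _ = _ at h
  rw [Submodule.Quotient.mk_eq_zero] at h
  have h1 : (fun g => (nem (Ω := Kb K₀) (RingHom.id K₀) g : ℂ)) = fun _ => (1 : ℂ) := by
    funext g
    have h2 : nem (Ω := Kb K₀) (RingHom.id K₀) g = 1 := by
      rw [nem, Nat.card_eq_one_iff_unique]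
      refine ⟨⟨fun a b => ?_⟩, ⟨⟨⟨algebraMap K₀ (Kb K₀), rfl⟩, ?_⟩⟩⟩
      · apply Subtype.ext
        apply Subtype.ext
        exact a.1.2.trans b.1.2.symm
      · ext x
        simp
    rw [h2, Nat.cast_one]
  rwa [h1] at h

/-- **The trivial character is a rational combination of permutation characters of nearly good
fields.** -/
theorem exists_rel [FiniteDimensional K₀ L₀] [IsGalois K₀ L₀] (hm : m ≠ 0) :
    ∃ (r : ℕ) (F : Fin r → IntermediateField K₀ (Kb K₀)) (n n' : Fin r → ℕ) (M : ℕ), M ≠ 0 ∧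
      (∀ i, FiniteDimensional K₀ (F i) ∧ NearlyGood L₀ (F i) m) ∧
      ∀ g : GK K₀, M + ∑ i, n i * nco (F i) g = ∑ i, n' i * nco (F i) g := by
  classical
  have h := one_mem_spn L₀ hm
  rw [spn, Submodule.mem_span_iff_exists_finset_subset] at h
  obtain ⟨q, t, ht, hq, hsum⟩ := h
  have hF : ∀ x : t, ∃ F : IntermediateField K₀ (Kb K₀), FiniteDimensional K₀ F ∧
      NearlyGood L₀ F m ∧ (x : GK K₀ → ℂ) = fun g => (nco F g : ℂ) := fun x => ht x.2
  choose F hF1 hF2 hF3 using hF
  -- a common denominator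
  obtain ⟨M, hM, a, ha⟩ : ∃ (M : ℕ), M ≠ 0 ∧ ∃ a : t → ℤ, ∀ x : t, (M : ℚ) * q x = a x := by
    refine ⟨∏ x : t, (q x).den, ?_, ?_⟩
    · rw [Finset.prod_ne_zero_iff]
      intro x _
      exact (q x).den_ne_zero
    · have h1 : ∀ x : t, ∃ a : ℤ, ((∏ x : t, (q x).den : ℕ) : ℚ) * q x = a := by
        intro x
        obtain ⟨k, hk⟩ := Finset.dvd_prod_of_mem (fun x : t => (q x).den) (Finset.mem_univ x)
        refine ⟨k * (q x).num, ?_⟩
        rw [hk]
        push_cast
        have h2 : ((q x).den : ℚ) * q x = (q x).num := by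
          rw [mul_comm]
          exact Rat.mul_den_eq_num _
        calc ((q x).den : ℚ) * k * q x = k * (((q x).den : ℚ) * q x) := by ring
          _ = _ := by rw [h2]
      choose a ha using h1
      exact ⟨a, ha⟩
  let e := t.equivFin
  refine ⟨t.card, fun i => F (e.symm i), fun i => (-(a (e.symm i))).toNat,
    fun i => (a (e.symm i)).toNat, M, hM, fun i => ⟨hF1 _, hF2 _⟩, fun g => ?_⟩
  have h1 : (M : ℂ) = ∑ x : t, (a x : ℂ) * (nco (F x) g : ℂ) := by
    have h2 := congrFun hsum g
    rw [Finset.sum_apply] at h2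
    have h3 : ∑ x : t, (q x : ℂ) * (nco (F x) g : ℂ) = 1 := by
      rw [← h2, ← Finset.sum_coe_sort t]
      refine Finset.sum_congr rfl fun x _ => ?_
      rw [Pi.smul_apply, congrFun (hF3 x) g, Rat.smul_def]
    calc (M : ℂ) = M * ∑ x : t, (q x : ℂ) * (nco (F x) g : ℂ) := by rw [h3, mul_one]
      _ = ∑ x : t, ((M : ℂ) * (q x : ℂ)) * (nco (F x) g : ℂ) := by
        rw [Finset.mul_sum]
        refine Finset.sum_congr rfl fun x _ => ?_
        ring
      _ = _ := by
        refine Finset.sum_congr rfl fun x _ => ?_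
        congr 1
        have h4 := ha x
        exact_mod_cast congrArg (fun z : ℚ => (z : ℂ)) h4
  have h2 : (M : ℤ) = ∑ x : t, a x * (nco (F x) g : ℤ) := by exact_mod_cast h1
  have h3 : ∀ z : ℤ, z = (z.toNat : ℤ) - ((-z).toNat : ℤ) := by intro z; omega
  have h4 : (M : ℤ) + ∑ x : t, ((-(a x)).toNat : ℤ) * (nco (F x) g : ℤ)
      = ∑ x : t, ((a x).toNat : ℤ) * (nco (F x) g : ℤ) := by
    rw [h2, ← Finset.sum_add_distrib]
    refine Finset.sum_congr rfl fun x _ => ?_
    have h5 := h3 (a x)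
    calc a x * (nco (F x) g : ℤ) + ((-(a x)).toNat : ℤ) * (nco (F x) g : ℤ)
        = (a x + ((-(a x)).toNat : ℤ)) * (nco (F x) g : ℤ) := by ring
      _ = _ := by
        congr 1
        omega
  have h5 : M + ∑ x : t, (-(a x)).toNat * nco (F x) g = ∑ x : t, (a x).toNat * nco (F x) g := by
    exact_mod_cast h4
  rw [← e.symm.sum_comp, ← e.symm.sum_comp] at h5
  exact h5

end Pool.Agent.K4H36.BK
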