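import Mathlib
import Pool.Agent.K4H36.BK.Def

/-!
# Additivity of the Bloch–Kato Selmer groups
-/

set_option autoImplicit false

namespace Pool.Agent.K4H36.BK

open NumberField Polynomial
open scoped Pointwise TensorProduct

variable {K : Type} [Field K] {p : ℕ} [Fact p.Prime] (H : Subgroup (GK K)) (𝔅 : Period K ℚ_[p])
  {U V W : Type} [AddCommGroup U] [Module ℚ_[p] U] [AddCommGroup V] [Module ℚ_[p] V]
  [AddCommGroup W] [Module ℚ_[p] W] (τ : Representation ℚ_[p] (GK K) U)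
  (ρ : Representation ℚ_[p] (GK K) V) (σ : Representation ℚ_[p] (GK K) W)

section functor

variable {ρ σ} (f : V →ₗ[ℚ_[p]] W) (hf : ∀ g x, f (ρ g x) = σ g (f x))

include hf in
theorem rTensor_map (B : Type) [AddCommGroup B] [Module ℚ_[p] B]
    (b : B →ₗ[ℚ_[p]] B) (g : GK K) (y : V ⊗[ℚ_[p]] B) :
    f.rTensor B (TensorProduct.map (ρ g) b y) = TensorProduct.map (σ g) b (f.rTensor B y) := by
  induction y using TensorProduct.induction_on with
  | zero => simp only [map_zero]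
  | tmul v b' =>
    rw [TensorProduct.map_tmul, LinearMap.rTensor_tmul, LinearMap.rTensor_tmul,
      TensorProduct.map_tmul, hf]
  | add y z hy hz => rw [map_add, map_add, hy, hz, map_add, map_add]

theorem rTensor_range (B : Type) [AddCommGroup B] [Module ℚ_[p] B] (N : Submodule ℚ_[p] B)
    (y : V ⊗[ℚ_[p]] B) (hy : y ∈ LinearMap.range (N.subtype.lTensor V)) :
    f.rTensor B y ∈ LinearMap.range (N.subtype.lTensor W) := by
  obtain ⟨z, rfl⟩ := hy
  refine ⟨f.rTensor N z, ?_⟩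
  induction z using TensorProduct.induction_on with
  | zero => simp only [map_zero]
  | tmul v b => simp only [LinearMap.rTensor_tmul, LinearMap.lTensor_tmul]
  | add y z hy hz => rw [map_add, map_add, hy, hz, map_add, map_add]

include hf in
/-- an equivariant map sends cocycles to cocycles -/
theorem cocycles_map (c : H → V) (hc : c ∈ cocycles p H 𝔅 ρ) :
    f.compLeft H c ∈ cocycles p H 𝔅 σ := by
  obtain ⟨h1, h2, h3, h4⟩ := hc
  refine ⟨fun g h => ?_, fun l => ?_, fun P hP hp => ?_, fun P hP hp => ?_⟩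
  · change f (c (g * h)) = f (c g) + σ g (f (c h))
    rw [h1, map_add, hf]
  · exact h2 (l ∘ₗ f)
  · obtain ⟨x, hx⟩ := h3 P hP hp
    refine ⟨f x, fun g hg => ?_⟩
    change f (c g) = σ g (f x) - f x
    rw [hx g hg, map_sub, hf]
  · obtain ⟨y, hy⟩ := h4 P hP hp
    refine ⟨f.rTensor 𝔅.B y, fun g hg => ?_⟩
    have h5 := rTensor_range f 𝔅.B (𝔅.N P) _ (hy g hg)
    rw [map_sub, map_sub, rTensor_map f hf, LinearMap.rTensor_tmul] at h5
    exact h5

include hf in
/-- an equivariant map sends coboundaries to coboundaries -/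
theorem coboundaries_map (c : H → V) (hc : c ∈ coboundaries H ρ) :
    f.compLeft H c ∈ coboundaries H σ := by
  obtain ⟨x, hx⟩ := hc
  refine ⟨f x, fun g => ?_⟩
  change f (c g) = σ g (f x) - f x
  rw [hx g, map_sub, hf]

/-- the map of the cocycles -/
noncomputable def mapZ : cocycles p H 𝔅 ρ →ₗ[ℚ_[p]] cocycles p H 𝔅 σ :=
  (f.compLeft H).restrict (cocycles_map H 𝔅 f hf)

theorem mapZ_apply (c : cocycles p H 𝔅 ρ) (g : H) : (mapZ H 𝔅 f hf c).1 g = f (c.1 g) := rfl

/-- the map of the Selmer groups -/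
noncomputable def mapH : H1f p H 𝔅 ρ →ₗ[ℚ_[p]] H1f p H 𝔅 σ :=
  Submodule.mapQ _ _ (mapZ H 𝔅 f hf) fun c hc => coboundaries_map H f hf c.1 hc

theorem mapH_mk (c : cocycles p H 𝔅 ρ) :
    mapH H 𝔅 f hf (Submodule.Quotient.mk c) = Submodule.Quotient.mk (mapZ H 𝔅 f hf c) := rfl

end functor

theorem h1f_congr (e : V ≃ₗ[ℚ_[p]] W) (he : ∀ g x, e (ρ g x) = σ g (e x)) :
    Nonempty (H1f p H 𝔅 ρ ≃ₗ[ℚ_[p]] H1f p H 𝔅 σ) := by
  have he' : ∀ g x, e.symm (σ g x) = ρ g (e.symm x) := fun g x => by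
    rw [LinearEquiv.symm_apply_eq, he, LinearEquiv.apply_symm_apply]
  refine ⟨LinearEquiv.ofLinearMap (mapH H 𝔅 e.toLinearMap he) (mapH H 𝔅 e.symm.toLinearMap he')
    (LinearMap.ext fun x => ?_) (LinearMap.ext fun x => ?_)⟩
  · obtain ⟨c, rfl⟩ := Submodule.Quotient.mk_surjective _ x
    rw [LinearMap.comp_apply, mapH_mk, mapH_mk, LinearMap.id_apply]
    congr 1
    refine Subtype.ext (funext fun g => ?_)
    exact e.apply_symm_apply _
  · obtain ⟨c, rfl⟩ := Submodule.Quotient.mk_surjective _ x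
    rw [LinearMap.comp_apply, mapH_mk, mapH_mk, LinearMap.id_apply]
    congr 1
    refine Subtype.ext (funext fun g => ?_)
    exact e.symm_apply_apply _

theorem h1f_prod (e : U ≃ₗ[ℚ_[p]] V × W) (he : ∀ g x, e (τ g x) = (ρ g (e x).1, σ g (e x).2)) :
    Nonempty (H1f p H 𝔅 τ ≃ₗ[ℚ_[p]] (H1f p H 𝔅 ρ × H1f p H 𝔅 σ)) := by
  have hp1 : ∀ g x, (LinearMap.fst ℚ_[p] V W ∘ₗ e.toLinearMap) (τ g x) =
      ρ g ((LinearMap.fst ℚ_[p] V W ∘ₗ e.toLinearMap) x) := fun g x => by
    change (e (τ g x)).1 = ρ g (e x).1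
    rw [he]
  have hp2 : ∀ g x, (LinearMap.snd ℚ_[p] V W ∘ₗ e.toLinearMap) (τ g x) =
      σ g ((LinearMap.snd ℚ_[p] V W ∘ₗ e.toLinearMap) x) := fun g x => by
    change (e (τ g x)).2 = σ g (e x).2
    rw [he]
  have hi1 : ∀ g x, (e.symm.toLinearMap ∘ₗ LinearMap.inl ℚ_[p] V W) (ρ g x) =
      τ g ((e.symm.toLinearMap ∘ₗ LinearMap.inl ℚ_[p] V W) x) := fun g x => by
    change e.symm (ρ g x, 0) = τ g (e.symm (x, 0))
    rw [LinearEquiv.symm_apply_eq, he, LinearEquiv.apply_symm_apply, map_zero]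
  have hi2 : ∀ g x, (e.symm.toLinearMap ∘ₗ LinearMap.inr ℚ_[p] V W) (σ g x) =
      τ g ((e.symm.toLinearMap ∘ₗ LinearMap.inr ℚ_[p] V W) x) := fun g x => by
    change e.symm (0, σ g x) = τ g (e.symm (0, x))
    rw [LinearEquiv.symm_apply_eq, he, LinearEquiv.apply_symm_apply, map_zero]
  refine ⟨LinearEquiv.ofLinear
    ((mapH H 𝔅 _ hp1).prod (mapH H 𝔅 _ hp2))
    ((mapH H 𝔅 _ hi1).coprod (mapH H 𝔅 _ hi2))
    (LinearMap.ext fun x => ?_) (LinearMap.ext fun x => ?_)⟩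
  · obtain ⟨x, y⟩ := x
    obtain ⟨c, rfl⟩ := Submodule.Quotient.mk_surjective _ x
    obtain ⟨d, rfl⟩ := Submodule.Quotient.mk_surjective _ y
    rw [LinearMap.comp_apply, LinearMap.coprod_apply, mapH_mk, mapH_mk,
      ← Submodule.Quotient.mk_add, LinearMap.id_apply, LinearMap.prod_apply]
    refine Prod.ext ?_ ?_
    · change mapH H 𝔅 _ hp1 (Submodule.Quotient.mk _) = Submodule.Quotient.mk c
      rw [mapH_mk]
      congr 1
      refine Subtype.ext (funext fun g => ?_)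
      change (e (e.symm (c.1 g, 0) + e.symm (0, d.1 g))).1 = c.1 g
      rw [← map_add, LinearEquiv.apply_symm_apply, Prod.mk_add_mk, add_zero]
    · change mapH H 𝔅 _ hp2 (Submodule.Quotient.mk _) = Submodule.Quotient.mk d
      rw [mapH_mk]
      congr 1
      refine Subtype.ext (funext fun g => ?_)
      change (e (e.symm (c.1 g, 0) + e.symm (0, d.1 g))).2 = d.1 g
      rw [← map_add, LinearEquiv.apply_symm_apply, Prod.mk_add_mk, zero_add]
  · obtain ⟨c, rfl⟩ := Submodule.Quotient.mk_surjective _ x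
    rw [LinearMap.comp_apply, LinearMap.prod_apply]
    change (mapH H 𝔅 _ hi1).coprod (mapH H 𝔅 _ hi2)
      (mapH H 𝔅 _ hp1 (Submodule.Quotient.mk c), mapH H 𝔅 _ hp2 (Submodule.Quotient.mk c)) = _
    rw [LinearMap.coprod_apply, mapH_mk, mapH_mk, mapH_mk, mapH_mk, ← Submodule.Quotient.mk_add,
      LinearMap.id_apply]
    congr 1
    refine Subtype.ext (funext fun g => ?_)
    change e.symm ((e (c.1 g)).1, 0) + e.symm (0, (e (c.1 g)).2) = c.1 g
    rw [← map_add, Prod.mk_add_mk, add_zero, zero_add]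
    exact e.symm_apply_apply _

theorem h1f_subsingleton [Subsingleton V] : Subsingleton (H1f p H 𝔅 ρ) := by
  refine ⟨fun x y => ?_⟩
  obtain ⟨c, rfl⟩ := Submodule.Quotient.mk_surjective _ x
  obtain ⟨d, rfl⟩ := Submodule.Quotient.mk_surjective _ y
  congr 1
  exact Subtype.ext (funext fun g => Subsingleton.elim _ _)

end Pool.Agent.K4H36.BK
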