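import Mathlib

/-!
# An `m`-th root of a meromorphic function (proved by helper83)

An `m`-th root, defined on a half plane, of a function `g` which is meromorphic in a larger half
plane containing `0` continues to a neighbourhood of `0` if the order of `g` at `0` is divisible
by `m`.
-/

set_option autoImplicit false

namespace Pool.Agent.K4H36.BK

open Complex Set Filter Topology

namespace T3

/-- continuous logarithms of analytic functions are analytic -/
theorem differentiableAt_log {g l : ℂ → ℂ} {z : ℂ} (hg : DifferentiableAt ℂ g z)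
    (hl : ContinuousAt l z) (he : ∀ᶠ w in 𝓝 z, exp (l w) = g w) : DifferentiableAt ℂ l z := by
  have hz : exp (l z) = g z := he.self_of_nhds
  have h0 : g z ≠ 0 := by
    rw [← hz]
    exact exp_ne_zero _
  have h1 : ∀ᶠ w in 𝓝 z, l w = l z + log (g w / g z) := by
    have h2 : Tendsto (fun w => (l w - l z).im) (𝓝 z) (𝓝 0) := by
      have h3 : ContinuousAt (fun w => (l w - l z).im) z :=
        continuous_im.continuousAt.comp (hl.sub continuousAt_const)
      have h4 := h3.tendsto
      simpa using h4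
    have h3 : ∀ᶠ w in 𝓝 z, |(l w - l z).im| < Real.pi := by
      have h4 := h2.abs
      rw [abs_zero] at h4
      exact h4.eventually (gt_mem_nhds Real.pi_pos)
    filter_upwards [he, h3] with w hw1 hw2
    rw [abs_lt] at hw2
    rw [← hw1, ← hz, ← exp_sub, log_exp hw2.1 hw2.2.le]
    ring
  have h2 : DifferentiableAt ℂ (fun w => l z + log (g w / g z)) z := by
    refine (DifferentiableAt.clog (hg.div_const _) ?_).const_add _
    rw [div_self h0]
    exact one_mem_slitPlane
  exact h2.congr_of_eventuallyEq h1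

/-- logarithms on convex open sets -/
theorem exists_log {E : Set ℂ} (hE : Convex ℝ E) (hEo : IsOpen E) (hEn : E.Nonempty) {g : ℂ → ℂ}
    (hg : DifferentiableOn ℂ g E) (h0 : ∀ z ∈ E, g z ≠ 0) :
    ∃ l : ℂ → ℂ, DifferentiableOn ℂ l E ∧ ∀ z ∈ E, exp (l z) = g z := by
  have hc := hE.contractibleSpace hEn
  have hsc : IsSimplyConnected E := (inferInstance : SimplyConnectedSpace E)
  obtain ⟨l, hl, hle⟩ := exists_continuousOn_eqOn_exp_comp hsc hEo hg.continuousOn (by
    rintro ⟨z, hz, hz0⟩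
    exact h0 z hz hz0)
  refine ⟨l, fun z hz => ?_, fun z hz => hle hz⟩
  have hn : E ∈ 𝓝 z := hEo.mem_nhds hz
  refine (differentiableAt_log (hg.differentiableAt hn) (hl.continuousAt hn) ?_).differentiableWithinAt
  filter_upwards [hn] with w hw
  exact hle hw

end T3

/-- An `m`-th root of a meromorphic function, defined on a half plane, continues to a neighbourhood
of `0` if the order at `0` is divisible by `m`. -/
theorem root_cont (m : ℕ) (hm : m ≠ 0) (a : ℝ) (ha : a < 0) (c : ℝ) (hc : 0 < c) (g h : ℂ → ℂ)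
    (hg : MeromorphicOn g {s | a < s.re}) (hh : DifferentiableOn ℂ h {s | c < s.re})
    (hh0 : ∀ s : ℂ, c < s.re → h s ≠ 0) (hpow : ∀ s : ℂ, c < s.re → h s ^ m = g s)
    (k : ℤ) (hord : meromorphicOrderAt g 0 = ((m * k : ℤ) : WithTop ℤ)) :
    ∃ (U : Set ℂ) (f : ℂ → ℂ), IsOpen U ∧ IsConnected U ∧ (0 : ℂ) ∈ U ∧ {s : ℂ | c < s.re} ⊆ U ∧
      MeromorphicOn f U ∧ (∀ s : ℂ, c < s.re → f s = h s) ∧
      meromorphicOrderAt f 0 = (k : WithTop ℤ) := by
  classical
  set V : Set ℂ := {s | a < s.re} with hV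
  set H : Set ℂ := {s | c < s.re} with hH
  have hVo : IsOpen V := isOpen_lt continuous_const continuous_re
  have hHo : IsOpen H := isOpen_lt continuous_const continuous_re
  have hVc : Convex ℝ V := convex_halfSpace_re_gt a
  have hHc : Convex ℝ H := convex_halfSpace_re_gt c
  have h0V : (0 : ℂ) ∈ V := by
    show a < (0 : ℂ).re
    simpa using ha
  have hHV : H ⊆ V := fun s hs => lt_trans (ha.trans hc) hs
  -- finite orders
  have hfin : ∀ z ∈ V, meromorphicOrderAt g z ≠ ⊤ := fun z hz =>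
    hg.meromorphicOrderAt_ne_top_of_isPreconnected hVc.isPreconnected h0V hz (by
      rw [hord]
      exact WithTop.coe_ne_top)
  -- the zeros and poles in a compact rectangle
  set K : Set ℂ := Set.Icc (0 : ℝ) (c + 1) ×ℂ Set.Icc (0 : ℝ) 1 with hK
  have hKc : IsCompact K := isCompact_Icc.reProdIm isCompact_Icc
  have hKV : K ⊆ V := fun z hz => lt_of_lt_of_le ha hz.1.1
  have hgK : MeromorphicOn g K := fun z hz => hg z (hKV hz)
  have hF := (MeromorphicOn.divisor g K).finiteSupport hKc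
  obtain ⟨y, hy, hyF⟩ := (Set.Icc_infinite (zero_lt_one' ℝ)).exists_notMem_finset
    (hF.toFinset.image fun z => z.im * (c + 1) / z.re)
  set z₁ : ℂ := ⟨c + 1, y⟩ with hz₁
  have hz₁H : z₁ ∈ H := by
    show c < c + 1
    linarith
  set L : Set ℂ := segment ℝ 0 z₁ with hL
  have hLmem : ∀ z ∈ L, ∃ t : ℝ, 0 ≤ t ∧ t ≤ 1 ∧ z.re = t * (c + 1) ∧ z.im = t * y := by
    rintro z ⟨p, q, hp, hq, hpq, rfl⟩
    refine ⟨q, hq, by linarith, ?_, ?_⟩
    · simp [hz₁]
    · simp [hz₁]
  have hLK : L ⊆ K := by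
    intro z hz
    obtain ⟨t, ht0, ht1, hre, him⟩ := hLmem z hz
    refine ⟨⟨?_, ?_⟩, ⟨?_, ?_⟩⟩
    · rw [hre]; positivity
    · rw [hre]; nlinarith
    · rw [him]; exact mul_nonneg ht0 hy.1
    · rw [him]; nlinarith [hy.1, hy.2]
  have hLord : ∀ z ∈ L, z ≠ 0 → meromorphicOrderAt g z = 0 := by
    intro z hz hz0
    obtain ⟨t, ht0, ht1, hre, him⟩ := hLmem z hz
    have ht : t ≠ 0 := by
      rintro rfl
      apply hz0
      apply Complex.ext
      · simp [hre]
      · simp [him]
    by_contra hne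
    apply hyF
    refine Finset.mem_image.2 ⟨z, ?_, ?_⟩
    · rw [Set.Finite.mem_toFinset, Function.mem_support, MeromorphicOn.divisor_apply hgK (hLK hz)]
      intro h1
      rw [WithTop.untop₀_eq_zero] at h1
      rcases h1 with h1 | h1
      · exact hne h1
      · exact hfin z (hKV (hLK hz)) h1
    · rw [hre, him]
      field_simp
  -- the normalised function
  set g₁ : ℂ → ℂ := fun s => g s * s ^ (-(m * k : ℤ)) with hg₁
  have hzp : ∀ z : ℂ, MeromorphicAt (fun s : ℂ => s ^ (-(m * k : ℤ))) z := fun z =>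
    (MeromorphicAt.id z).fun_zpow _
  have hg₁m : MeromorphicOn g₁ V := fun z hz => (hg z hz).mul (hzp z)
  have hzan : ∀ z : ℂ, z ≠ 0 → AnalyticAt ℂ (fun s : ℂ => s ^ (-(m * k : ℤ))) z := fun z hz =>
    analyticAt_id.fun_zpow hz
  set G : ℂ → ℂ := toMeromorphicNFOn g₁ V with hG
  have hGL : ∀ z ∈ L, AnalyticAt ℂ G z ∧ G z ≠ 0 := by
    intro z hz
    have hzV : z ∈ V := hKV (hLK hz)
    have hord' : meromorphicOrderAt G z = 0 := by
      have hmul : meromorphicOrderAt g₁ z = meromorphicOrderAt g z +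
          meromorphicOrderAt (fun s : ℂ => s ^ (-(m * k : ℤ))) z :=
        meromorphicOrderAt_mul (hg z hzV) (hzp z)
      rw [hG, meromorphicOrderAt_toMeromorphicNFOn hg₁m hzV, hmul]
      by_cases hz0 : z = 0
      · subst hz0
        have h1 : meromorphicOrderAt (fun s : ℂ => s ^ (-(m * k : ℤ))) 0 =
            ((-(m * k : ℤ) : ℤ) : WithTop ℤ) := by
          rw [meromorphicOrderAt_eq_int_iff (hzp 0)]
          refine ⟨fun _ => 1, analyticAt_const, one_ne_zero, ?_⟩
          filter_upwards with s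
          rw [sub_zero, smul_eq_mul, mul_one]
        rw [hord, h1, ← WithTop.coe_add, add_neg_cancel]
        rfl
      · have h1 : meromorphicOrderAt (fun s : ℂ => s ^ (-(m * k : ℤ))) z = 0 :=
          ((hzan z hz0).meromorphicNFAt.meromorphicOrderAt_eq_zero_iff).2 (zpow_ne_zero _ hz0)
        rw [hLord z hz hz0, h1, add_zero]
    have hnf : MeromorphicNFAt G z := meromorphicNFOn_toMeromorphicNFOn g₁ V hzV
    exact ⟨hnf.meromorphicOrderAt_nonneg_iff_analyticAt.1 hord'.ge,
      hnf.meromorphicOrderAt_eq_zero_iff.1 hord'⟩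
  -- the set where `G` is analytic and nonzero
  set O : Set ℂ := {z | AnalyticAt ℂ G z ∧ G z ≠ 0} with hO
  have hOo : IsOpen O := by
    rw [isOpen_iff_mem_nhds]
    rintro z ⟨h1, h2⟩
    filter_upwards [h1.eventually_analyticAt, h1.continuousAt.eventually_ne h2] with w hw1 hw2
    exact ⟨hw1, hw2⟩
  have hLc : IsCompact L := by
    rw [hL, segment_eq_image ℝ (0 : ℂ) z₁]
    exact isCompact_Icc.image (by fun_prop)
  obtain ⟨δ, hδ, hδO⟩ := hLc.exists_thickening_subset_open hOo hGL
  set E : Set ℂ := Metric.thickening δ L with hE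
  have hEo : IsOpen E := Metric.isOpen_thickening
  have hEc : Convex ℝ E := (convex_segment 0 z₁).thickening δ
  have hLE : L ⊆ E := Metric.self_subset_thickening hδ L
  have h0E : (0 : ℂ) ∈ E := hLE (left_mem_segment ℝ 0 z₁)
  have hz₁E : z₁ ∈ E := hLE (right_mem_segment ℝ 0 z₁)
  obtain ⟨l, hl, hle⟩ := T3.exists_log hEc hEo ⟨0, h0E⟩
    (fun z hz => (hδO hz).1.differentiableAt.differentiableWithinAt) (fun z hz => (hδO hz).2)
  have hlan : ∀ z ∈ E, AnalyticAt ℂ l z := fun z hz => hl.analyticAt (hEo.mem_nhds hz)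
  -- the root on `E`
  set v : ℂ → ℂ := fun s => exp (l s / m) with hv
  have hvan : ∀ z ∈ E, AnalyticAt ℂ v z := fun z hz => ((hlan z hz).div_const).cexp
  set f₀ : ℂ → ℂ := fun s => s ^ k * v s with hf₀
  have hm' : (m : ℂ) ≠ 0 := Nat.cast_ne_zero.2 hm
  have hvpow : ∀ z ∈ E, v z ^ m = G z := by
    intro z hz
    rw [hv]
    show exp (l z / m) ^ m = G z
    rw [← exp_nat_mul, mul_div_cancel₀ _ hm', hle z hz]
  have hGH : ∀ z ∈ H, G z = g z * z ^ (-(m * k : ℤ)) ∧ z ≠ 0 := by
    intro z hz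
    have hz0 : z ≠ 0 := by
      rintro rfl
      have h1 : c < (0 : ℂ).re := hz
      rw [zero_re] at h1
      exact absurd hc (not_lt.2 h1.le)
    have hgan : AnalyticAt ℂ g z := by
      have h1 : AnalyticAt ℂ (fun s => h s ^ m) z := (hh.analyticAt (hHo.mem_nhds hz)).fun_pow m
      refine h1.congr ?_
      filter_upwards [hHo.mem_nhds hz] with w hw
      exact hpow w hw
    have h2 : AnalyticAt ℂ g₁ z := hgan.mul (hzan z hz0)
    refine ⟨?_, hz0⟩
    rw [hG, toMeromorphicNFOn_eq_toMeromorphicNFAt hg₁m (hHV hz),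
      toMeromorphicNFAt_eq_self.2 h2.meromorphicNFAt]
  have hf₀H : ∀ z ∈ E ∩ H, f₀ z ^ m = h z ^ m := by
    rintro z ⟨hzE, hzH⟩
    obtain ⟨h1, h2⟩ := hGH z hzH
    rw [hf₀]
    show (z ^ k * v z) ^ m = h z ^ m
    rw [mul_pow, hvpow z hzE, h1, hpow z hzH, ← zpow_natCast, ← zpow_mul, mul_comm k (m : ℤ),
      mul_comm (g z), ← mul_assoc, zpow_neg, mul_inv_cancel₀ (zpow_ne_zero _ h2), one_mul]
  have hf₀ne : ∀ z ∈ H, f₀ z ≠ 0 := fun z hz =>
    mul_ne_zero (zpow_ne_zero _ (hGH z hz).2) (exp_ne_zero _)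
  -- the constant root of unity
  have hconst : ∀ z ∈ E ∩ H, h z / f₀ z = h z₁ / f₀ z₁ := by
    have hpre : IsPreconnected (E ∩ H) := (hEc.inter hHc).isPreconnected
    have hcont : ContinuousOn (fun z => h z / f₀ z) (E ∩ H) := by
      refine ContinuousOn.div (hh.continuousOn.mono inter_subset_right) ?_ fun z hz => hf₀ne z hz.2
      intro z hz
      have h1 : ContinuousAt f₀ z :=
        ((continuousAt_zpow₀ z k (Or.inl (hGH z hz.2).2))).mul (hvan z hz.1).continuousAt
      exact h1.continuousWithinAt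
    have hfinite : ({w : ℂ | w ^ m = 1}).Finite := by
      have h1 : {w : ℂ | w ^ m = 1} ⊆ ((Polynomial.nthRoots m (1 : ℂ)).toFinset : Set ℂ) := by
        intro w hw
        rw [Finset.mem_coe, Multiset.mem_toFinset, Polynomial.mem_nthRoots (Nat.pos_of_ne_zero hm)]
        exact hw
      exact (Finset.finite_toSet _).subset h1
    have hmaps : MapsTo (fun z => h z / f₀ z) (E ∩ H) {w : ℂ | w ^ m = 1} := by
      intro z hz
      show (h z / f₀ z) ^ m = 1
      rw [div_pow, ← hf₀H z hz, div_self (pow_ne_zero _ (hf₀ne z hz.2))]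
    intro z hz
    exact hpre.constant_of_mapsTo hfinite.isDiscrete hcont hmaps hz ⟨hz₁E, hz₁H⟩
  set ζ : ℂ := h z₁ / f₀ z₁ with hζ
  have hζ0 : ζ ≠ 0 := div_ne_zero (hh0 z₁ hz₁H) (hf₀ne z₁ hz₁H)
  have hagree : ∀ z ∈ E ∩ H, h z = ζ * f₀ z := by
    intro z hz
    rw [← hconst z hz, div_mul_cancel₀ _ (hf₀ne z hz.2)]
  set f : ℂ → ℂ := fun s => if s ∈ H then h s else ζ * f₀ s with hf
  have hfE : ∀ z ∈ E, f z = ζ * f₀ z := by
    intro z hz
    by_cases hzH : z ∈ H
    · rw [hf]
      simp only [hzH, if_true]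
      exact hagree z ⟨hz, hzH⟩
    · rw [hf]
      simp only [hzH, if_false]
  have hfH : ∀ z ∈ H, f z = h z := by
    intro z hz
    rw [hf]
    simp only [hz, if_true]
  refine ⟨E ∪ H, f, hEo.union hHo, ⟨⟨0, Or.inl h0E⟩, ?_⟩, Or.inl h0E, subset_union_right, ?_,
    fun s hs => hfH s hs, ?_⟩
  · exact IsPreconnected.union z₁ hz₁E hz₁H hEc.isPreconnected hHc.isPreconnected
  · rintro z (hz | hz)
    · have h1 : MeromorphicAt (fun s => ζ * f₀ s) z :=
        (MeromorphicAt.const ζ z).mul (((MeromorphicAt.id z).fun_zpow k).mul (hvan z hz).meromorphicAt)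
      refine h1.congr ?_
      refine Filter.EventuallyEq.filter_mono ?_ nhdsWithin_le_nhds
      filter_upwards [hEo.mem_nhds hz] with w hw
      exact (hfE w hw).symm
    · have h1 : MeromorphicAt h z := (hh.analyticAt (hHo.mem_nhds hz)).meromorphicAt
      refine h1.congr ?_
      refine Filter.EventuallyEq.filter_mono ?_ nhdsWithin_le_nhds
      filter_upwards [hHo.mem_nhds hz] with w hw
      exact (hfH w hw).symm
  · have h1 : MeromorphicAt f 0 := by
      have h2 : MeromorphicAt (fun s => ζ * f₀ s) 0 :=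
        (MeromorphicAt.const ζ 0).mul (((MeromorphicAt.id 0).fun_zpow k).mul (hvan 0 h0E).meromorphicAt)
      refine h2.congr ?_
      refine Filter.EventuallyEq.filter_mono ?_ nhdsWithin_le_nhds
      filter_upwards [hEo.mem_nhds h0E] with w hw
      exact (hfE w hw).symm
    rw [meromorphicOrderAt_eq_int_iff h1]
    refine ⟨fun s => ζ * v s, analyticAt_const.mul (hvan 0 h0E), mul_ne_zero hζ0 (exp_ne_zero _), ?_⟩
    refine Filter.Eventually.filter_mono nhdsWithin_le_nhds ?_
    filter_upwards [hEo.mem_nhds h0E] with w hw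
    rw [hfE w hw, hf₀, sub_zero, smul_eq_mul]
    ring

end Pool.Agent.K4H36.BK
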