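import Mathlib
import Pool.Agent.K4H36.BK.T3

/-!
# The continuation of an `M`-th root of a quotient of L-functions
-/

set_option autoImplicit false

namespace Pool.Agent.K4H36.BK

/-- the continuation to a neighbourhood of `0` -/
theorem ana {r : ℕ} (n n' : Fin r → ℕ) {M : ℕ} (hM : M ≠ 0) (a : Fin r → ℝ) (ha : ∀ i, a i < 0)
    (c : ℝ) (hc : 0 < c) (L : Fin r → ℂ → ℂ)
    (hL : ∀ i, MeromorphicOn (L i) {s | a i < s.re}) (h : ℂ → ℂ)
    (hd : DifferentiableOn ℂ h {s | c < s.re}) (h0 : ∀ s : ℂ, c < s.re → h s ≠ 0)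
    (hL0 : ∀ i, ∀ s : ℂ, c < s.re → L i s ≠ 0)
    (hpow : ∀ s : ℂ, c < s.re → h s ^ M * ∏ i, L i s ^ n i = ∏ i, L i s ^ n' i)
    (e : Fin r → ℤ) (k : ℤ) (hord : ∀ i, meromorphicOrderAt (L i) 0 = (e i : WithTop ℤ))
    (hk : (M : ℤ) * k + ∑ i, (n i : ℤ) * e i = ∑ i, (n' i : ℤ) * e i) :
    ∃ (U : Set ℂ) (f : ℂ → ℂ), IsOpen U ∧ IsConnected U ∧ (0 : ℂ) ∈ U ∧ {s : ℂ | c < s.re} ⊆ U ∧
      MeromorphicOn f U ∧ (∀ s : ℂ, c < s.re → f s = h s) ∧
      meromorphicOrderAt f 0 = (k : WithTop ℤ) := by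
  classical
  obtain ⟨b, hb, hab⟩ : ∃ b < (0 : ℝ), ∀ i, a i ≤ b := by
    by_cases hr : (Finset.univ : Finset (Fin r)).Nonempty
    · obtain ⟨i, -, hi⟩ := Finset.exists_max_image Finset.univ a hr
      exact ⟨a i, ha i, fun j => hi j (Finset.mem_univ j)⟩
    · exact ⟨-1, by norm_num, fun i => absurd ⟨i, Finset.mem_univ i⟩ hr⟩
  have hLb : ∀ i, MeromorphicOn (L i) {s | b < s.re} := fun i =>
    (hL i).mono_set (fun s (hs : b < s.re) => lt_of_le_of_lt (hab i) hs)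
  let g : ℂ → ℂ := fun s => (∏ i, L i s ^ n' i) * (∏ i, L i s ^ n i)⁻¹
  have hg : MeromorphicOn g {s | b < s.re} := by
    intro s hs
    refine MeromorphicAt.fun_mul (MeromorphicAt.fun_prod fun i _ => ((hLb i) s hs).fun_pow _)
      (MeromorphicAt.fun_inv (MeromorphicAt.fun_prod fun i _ => ((hLb i) s hs).fun_pow _))
  have hgp : ∀ s : ℂ, c < s.re → h s ^ M = g s := by
    intro s hs
    have h1 : ∏ i, L i s ^ n i ≠ 0 := Finset.prod_ne_zero_iff.mpr fun i _ => pow_ne_zero _ (hL0 i s hs)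
    change _ = (∏ i, L i s ^ n' i) * (∏ i, L i s ^ n i)⁻¹
    rw [← hpow s hs, mul_assoc, mul_inv_cancel₀ h1, mul_one]
  have h00 : (0 : ℂ) ∈ {s : ℂ | b < s.re} := by
    change b < (0 : ℂ).re
    simpa using hb
  have hm : ∀ i, MeromorphicAt (L i) 0 := fun i => hLb i 0 h00
  have ho : ∀ n : Fin r → ℕ, meromorphicOrderAt (fun s => ∏ i, L i s ^ n i) 0
      = ((∑ i, (n i : ℤ) * e i : ℤ) : WithTop ℤ) := by
    intro n
    rw [meromorphicOrderAt_fun_prod (fun i _ => (hm i).fun_pow (n i))]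
    have h1 : ∀ i, meromorphicOrderAt (fun s => L i s ^ n i) 0
        = (((n i : ℤ) * e i : ℤ) : WithTop ℤ) := by
      intro i
      rw [fun_meromorphicOrderAt_pow (hm i), hord i]
      rfl
    rw [Finset.sum_congr rfl (fun i _ => h1 i)]
    exact (map_sum (WithTop.addHom : ℤ →+ WithTop ℤ) _ _).symm
  have hmn : ∀ n : Fin r → ℕ, MeromorphicAt (fun s => ∏ i, L i s ^ n i) 0 := fun n =>
    MeromorphicAt.fun_prod fun i _ => (hm i).fun_pow _
  have hgo : meromorphicOrderAt g 0 = ((M * k : ℤ) : WithTop ℤ) := by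
    have h1 : meromorphicOrderAt g 0 = meromorphicOrderAt (fun s => ∏ i, L i s ^ n' i) 0
        + meromorphicOrderAt (fun s => (∏ i, L i s ^ n i)⁻¹) 0 :=
      fun_meromorphicOrderAt_mul (hmn n') (hmn n).fun_inv
    rw [h1, fun_meromorphicOrderAt_inv, ho, ho]
    have h2 : (M : ℤ) * k = (∑ i, (n' i : ℤ) * e i) + -(∑ i, (n i : ℤ) * e i) := by omega
    rw [h2]
    rfl
  exact root_cont M hM b hb c hc g h hg hd h0 hgp k hgo

end Pool.Agent.K4H36.BK
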