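import Mathlib
import Pool.Agent.K4H36.BK.Def

/-!
# The lemma of Shapiro for the Bloch–Kato Selmer groups
-/

set_option autoImplicit false

namespace Pool.Agent.K4H36.BK

open NumberField Polynomial MulAction
open scoped Pointwise TensorProduct

section generic

variable {G k M X : Type} [Group G] [Field k] [AddCommGroup M] [Module k M] [MulAction G X]

lemma rep_mul (r : Representation k G M) (g h : G) (x : M) : r (g * h) x = r g (r h x) := by
  rw [map_mul, Module.End.mul_apply]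

/-- A cocycle with values in the functions on `X` is a coboundary if its components are
coboundaries on the stabilisers. -/
lemma semi (r : Representation k G M) (D : Subgroup G) (R : Submodule k M)
    (hR : ∀ g ∈ D, ∀ x ∈ R, r g x ∈ R) (c : G → X → M)
    (hc : ∀ g ∈ D, ∀ h ∈ D, ∀ x, c (g * h) x = c g x + r g (c h (g⁻¹ • x)))
    (h : ∀ x : X, ∃ v : M, ∀ g ∈ D, g • x = x → c g x - (r g v - v) ∈ R) :
    ∃ f : X → M, ∀ g ∈ D, ∀ x, c g x - (r g (f (g⁻¹ • x)) - f x) ∈ R := by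
  classical
  choose v hv using h
  let s : X → X := fun x => (Quotient.mk (orbitRel D X) x).out
  have hs1 : ∀ x, ∃ t : G, t ∈ D ∧ t • s x = x := by
    intro x
    have h1 : (orbitRel D X) x (s x) :=
      (orbitRel D X).iseqv.symm (@Quotient.mk_out X (orbitRel D X) x)
    rw [orbitRel_apply] at h1
    obtain ⟨t, ht⟩ := h1
    exact ⟨t, t.2, ht⟩
  have hs2 : ∀ g ∈ D, ∀ x, s (g • x) = s x := by
    intro g hg x
    have h1 : Quotient.mk (orbitRel D X) (g • x) = Quotient.mk (orbitRel D X) x := by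
      apply Quotient.sound
      exact (orbitRel_apply (G := D)).2 ⟨⟨g, hg⟩, rfl⟩
    exact congrArg Quotient.out h1
  choose t ht1 ht2 using hs1
  refine ⟨fun x => r (t x) (v (s x)) - c (t x) x, fun g hg x => ?_⟩
  have hsy : s (g⁻¹ • x) = s x := hs2 _ (inv_mem hg) x
  have hts : (t x)⁻¹ • x = s x := by rw [inv_smul_eq_iff, ht2]
  have hh : (t x)⁻¹ * (g * t (g⁻¹ • x)) ∈ D :=
    mul_mem (inv_mem (ht1 x)) (mul_mem hg (ht1 _))
  have hfix : ((t x)⁻¹ * (g * t (g⁻¹ • x))) • s x = s x := by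
    rw [mul_smul, mul_smul, ← hsy, ht2, smul_inv_smul, hsy, hts]
  have h1 := hv (s x) _ hh hfix
  have h2 := hc g hg (t (g⁻¹ • x)) (ht1 _) x
  have h3 := hc (t x) (ht1 x) _ hh x
  rw [mul_inv_cancel_left, hts] at h3
  rw [h3] at h2
  have h4 := hR (t x) (ht1 x) _ h1
  convert h4 using 1
  beta_reduce
  rw [hsy, map_sub, map_sub, map_sub, ← rep_mul r g, ← rep_mul r (t x), mul_inv_cancel_left]
  have h5 : c g x = c (t x) x + r (t x) (c ((t x)⁻¹ * (g * t (g⁻¹ • x))) (s x))
      - r g (c (t (g⁻¹ • x)) (g⁻¹ • x)) := by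
    rw [h2]
    abel
  rw [h5]
  abel

/-- the lemma of Shapiro for the fixed vectors -/
theorem inv_shapiro' (ρ : Representation k G M) (x₀ : X) (htr : ∀ x : X, ∃ g : G, g • x₀ = x) :
    Nonempty (inv (⊤ : Subgroup G) (ext X ρ) ≃ₗ[k] inv (stabilizer G x₀) ρ) := by
  choose a ha using htr
  let f : inv (⊤ : Subgroup G) (ext X ρ) →ₗ[k] inv (stabilizer G x₀) ρ :=
    { toFun := fun u => ⟨u.1 x₀, fun g hg => by
        have h1 := congrFun (u.2 g (Subgroup.mem_top g)) x₀
        change ρ g (u.1 (g⁻¹ • x₀)) = u.1 x₀ at h1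
        have h2 : g⁻¹ • x₀ = x₀ := by rw [inv_smul_eq_iff]; exact (mem_stabilizer_iff.mp hg).symm
        rwa [h2] at h1⟩
      map_add' := fun u w => rfl
      map_smul' := fun c u => rfl }
  refine ⟨LinearEquiv.ofBijective f ⟨?_, ?_⟩⟩
  · rw [injective_iff_map_eq_zero]
    intro u hu
    have h0 : u.1 x₀ = 0 := congrArg Subtype.val hu
    apply Subtype.ext
    funext x
    have h1 := congrFun (u.2 (a x) (Subgroup.mem_top _)) x
    change ρ (a x) (u.1 ((a x)⁻¹ • x)) = u.1 x at h1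
    have h2 : (a x)⁻¹ • x = x₀ := by rw [inv_smul_eq_iff, ha]
    rw [h2, h0, map_zero] at h1
    exact h1.symm
  · intro w
    refine ⟨⟨fun x => ρ (a x) w.1, fun g _ => ?_⟩, ?_⟩
    · funext x
      change ρ g (ρ (a (g⁻¹ • x)) w.1) = ρ (a x) w.1
      have h1 : (a x)⁻¹ * (g * a (g⁻¹ • x)) ∈ stabilizer G x₀ := by
        rw [mem_stabilizer_iff, mul_smul, mul_smul, ha, smul_inv_smul, inv_smul_eq_iff, ha]
      have h2 := w.2 _ h1
      rw [← rep_mul]
      conv_rhs => rw [← h2]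
      rw [← rep_mul, mul_inv_cancel_left]
    · apply Subtype.ext
      change ρ (a x₀) w.1 = w.1
      exact w.2 _ (mem_stabilizer_iff.mpr (ha x₀))

end generic

section tensor

variable {k : Type} [Field k] {V B X : Type} [AddCommGroup V] [Module k V] [AddCommGroup B]
  [Module k B]

lemma proj_mem {N : Submodule k B} (x : X) {z : (X → V) ⊗[k] B}
    (hz : z ∈ LinearMap.range (N.subtype.lTensor (X → V))) :
    (LinearMap.proj (R := k) (φ := fun _ : X => V) x).rTensor B z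
      ∈ LinearMap.range (N.subtype.lTensor V) := by
  obtain ⟨y, rfl⟩ := hz
  refine ⟨(LinearMap.proj (R := k) (φ := fun _ : X => V) x).rTensor N y, ?_⟩
  rw [← LinearMap.comp_apply, ← LinearMap.comp_apply, LinearMap.lTensor_comp_rTensor,
    LinearMap.rTensor_comp_lTensor]

lemma mem_of_proj [Finite X] {N : Submodule k B} {z : (X → V) ⊗[k] B}
    (hz : ∀ x : X, (LinearMap.proj (R := k) (φ := fun _ : X => V) x).rTensor B z
      ∈ LinearMap.range (N.subtype.lTensor V)) :
    z ∈ LinearMap.range (N.subtype.lTensor (X → V)) := by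
  classical
  have := Fintype.ofFinite X
  have h1 : z = ∑ x : X, (LinearMap.single k (fun _ : X => V) x).rTensor B
      ((LinearMap.proj (R := k) (φ := fun _ : X => V) x).rTensor B z) := by
    have h2 : (LinearMap.id : (X → V) →ₗ[k] (X → V)) = ∑ x : X,
        (LinearMap.single k (fun _ : X => V) x) ∘ₗ
          (LinearMap.proj (R := k) (φ := fun _ : X => V) x) := by
      apply LinearMap.ext
      intro f
      rw [LinearMap.sum_apply]
      funext x
      simp [Finset.sum_apply, Pi.single_apply]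
    have h3 := congrArg (fun F => LinearMap.rTensorHom B F z) h2
    simp only [map_sum, LinearMap.sum_apply, LinearMap.coe_rTensorHom, LinearMap.rTensor_comp,
      LinearMap.comp_apply, LinearMap.rTensor_id, LinearMap.id_apply] at h3
    exact h3
  rw [h1]
  refine Submodule.sum_mem _ fun x _ => ?_
  obtain ⟨y, hy⟩ := hz x
  rw [← hy]
  refine ⟨(LinearMap.single k (fun _ : X => V) x).rTensor N y, ?_⟩
  rw [← LinearMap.comp_apply, ← LinearMap.comp_apply, LinearMap.lTensor_comp_rTensor,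
    LinearMap.rTensor_comp_lTensor]

end tensor

section shapiro

variable {K : Type} [Field K] {p : ℕ} [Fact p.Prime] (𝔅 : Period K ℚ_[p]) {V : Type} [AddCommGroup V]
  [Module ℚ_[p] V] (ρ : Representation ℚ_[p] (GK K) V) {X : Type} [MulAction (GK K) X]

/-- the component at `x` -/
noncomputable abbrev pr (x : X) : (X → V) ⊗[ℚ_[p]] 𝔅.B →ₗ[ℚ_[p]] V ⊗[ℚ_[p]] 𝔅.B :=
  (LinearMap.proj (R := ℚ_[p]) (φ := fun _ : X => V) x).rTensor 𝔅.B

lemma pr_ext (g : GK K) (x : X) (z : (X → V) ⊗[ℚ_[p]] 𝔅.B) :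
    pr 𝔅 x (TensorProduct.map (ext X ρ g) (𝔅.act g) z)
      = TensorProduct.map (ρ g) (𝔅.act g) (pr 𝔅 (g⁻¹ • x) z) := by
  have h : (pr 𝔅 x) ∘ₗ (TensorProduct.map (ext X ρ g) (𝔅.act g))
      = (TensorProduct.map (ρ g) (𝔅.act g)) ∘ₗ (pr (V := V) 𝔅 (g⁻¹ • x)) := by
    apply TensorProduct.ext'
    intro f b
    simp only [LinearMap.comp_apply, TensorProduct.map_tmul, LinearMap.rTensor_tmul]
    rfl
  exact LinearMap.congr_fun h z

lemma N_range (g : GK K) (W : Ideal (𝓞 (Kb K))) {z : V ⊗[ℚ_[p]] 𝔅.B}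
    (hz : z ∈ LinearMap.range ((𝔅.N W).subtype.lTensor V)) :
    TensorProduct.map (ρ g) (𝔅.act g) z ∈ LinearMap.range ((𝔅.N (g • W)).subtype.lTensor V) := by
  obtain ⟨y, rfl⟩ := hz
  let a : 𝔅.N W →ₗ[ℚ_[p]] 𝔅.N (g • W) := (𝔅.act g).restrict (𝔅.N_smul g W)
  refine ⟨TensorProduct.map (ρ g) a y, ?_⟩
  have h : ((𝔅.N (g • W)).subtype.lTensor V) ∘ₗ (TensorProduct.map (ρ g) a)
      = (TensorProduct.map (ρ g) (𝔅.act g)) ∘ₗ ((𝔅.N W).subtype.lTensor V) := by
    apply TensorProduct.ext'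
    intro f b
    simp only [LinearMap.comp_apply, TensorProduct.map_tmul, LinearMap.lTensor_tmul]
    rfl
  exact LinearMap.congr_fun h y

/-- the restriction of a cocycle to the stabiliser, and its component at `x₀` -/
noncomputable def res (x₀ : X) :
    cocycles p (⊤ : Subgroup (GK K)) 𝔅 (ext X ρ) →ₗ[ℚ_[p]] cocycles p (stabilizer (GK K) x₀) 𝔅 ρ where
  toFun c := ⟨fun g => c.1 ⟨g, Subgroup.mem_top _⟩ x₀, by
    obtain ⟨h1, h2, h3, h4⟩ := c.2
    have hinv : ∀ g : stabilizer (GK K) x₀, (g : GK K)⁻¹ • x₀ = x₀ := by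
      intro g
      rw [inv_smul_eq_iff]
      exact (mem_stabilizer_iff.mp g.2).symm
    refine ⟨fun g h => ?_, fun l => ?_, fun W hW hp => ?_, fun W hW hp => ?_⟩
    · have h5 := congrFun (h1 ⟨g, Subgroup.mem_top _⟩ ⟨h, Subgroup.mem_top _⟩) x₀
      change _ = c.1 ⟨g, Subgroup.mem_top _⟩ x₀ + ρ g (c.1 ⟨h, Subgroup.mem_top _⟩
        ((g : GK K)⁻¹ • x₀)) at h5
      rw [hinv] at h5
      exact h5
    · have h5 := h2 (l ∘ₗ (LinearMap.proj (R := ℚ_[p]) (φ := fun _ : X => V) x₀))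
      exact h5.comp (f := fun g : stabilizer (GK K) x₀ =>
        (⟨g, Subgroup.mem_top _⟩ : (⊤ : Subgroup (GK K)))) (by fun_prop)
    · obtain ⟨y, hy⟩ := h3 W hW hp
      refine ⟨y x₀, fun g hg => ?_⟩
      have h5 := congrFun (hy ⟨g, Subgroup.mem_top _⟩ ⟨Subgroup.mem_top _, hg.2⟩) x₀
      change _ = ρ g (y ((g : GK K)⁻¹ • x₀)) - y x₀ at h5
      rw [hinv] at h5
      exact h5
    · obtain ⟨y, hy⟩ := h4 W hW hp
      refine ⟨pr 𝔅 x₀ y, fun g hg => ?_⟩
      have h5 := proj_mem x₀ (hy ⟨g, Subgroup.mem_top _⟩ hg)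
      rw [map_sub, map_sub, LinearMap.rTensor_tmul] at h5
      have h6 := pr_ext 𝔅 ρ (g : GK K) x₀ y
      rw [hinv] at h6
      rw [← h6]
      exact h5⟩
  map_add' c d := rfl
  map_smul' r c := rfl

/-- the kernel of the map to the Selmer group of the stabiliser -/
lemma res_ker [Finite X] {x₀ : X} (htr : ∀ x : X, ∃ g : GK K, g • x₀ = x)
    (c : cocycles p (⊤ : Subgroup (GK K)) 𝔅 (ext X ρ)) :
    res 𝔅 ρ x₀ c ∈ (coboundaries (stabilizer (GK K) x₀) ρ).comap
        (cocycles p (stabilizer (GK K) x₀) 𝔅 ρ).subtype ↔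
      c ∈ (coboundaries (⊤ : Subgroup (GK K)) (ext X ρ)).comap
        (cocycles p (⊤ : Subgroup (GK K)) 𝔅 (ext X ρ)).subtype := by
  constructor
  · rintro ⟨v, hv⟩
    have hv' : ∀ g (hg : g ∈ stabilizer (GK K) x₀),
        c.1 ⟨g, Subgroup.mem_top _⟩ x₀ = ρ g v - v := fun g hg => hv ⟨g, hg⟩
    obtain ⟨h1, h2, h3, h4⟩ := c.2
    let c' : GK K → X → V := fun g => c.1 ⟨g, Subgroup.mem_top _⟩
    have hc' : ∀ g h x, c' (g * h) x = c' g x + ρ g (c' h (g⁻¹ • x)) := fun g h x =>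
      congrFun (h1 ⟨g, Subgroup.mem_top _⟩ ⟨h, Subgroup.mem_top _⟩) x
    obtain ⟨f, hf⟩ := semi ρ (⊤ : Subgroup (GK K)) ⊥
      (fun g _ x hx => by rw [Submodule.mem_bot] at hx ⊢; rw [hx, map_zero]) c'
      (fun g _ h _ x => hc' g h x) (fun x => by
        obtain ⟨a, rfl⟩ := htr x
        refine ⟨ρ a v - c' a (a • x₀), fun g _ hg => ?_⟩
        have hst : a⁻¹ * (g * a) ∈ stabilizer (GK K) x₀ := by
          rw [mem_stabilizer_iff, mul_smul, mul_smul, hg, inv_smul_smul]
        have h5 := hv' _ hst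
        have h6 := hc' g a (a • x₀)
        have h7 := hc' a (a⁻¹ * (g * a)) (a • x₀)
        rw [mul_inv_cancel_left, inv_smul_smul] at h7
        change _ = c' a (a • x₀) + ρ a (c.1 ⟨a⁻¹ * (g * a), Subgroup.mem_top _⟩ x₀) at h7
        have h8 : g⁻¹ • a • x₀ = a • x₀ := by rw [inv_smul_eq_iff, hg]
        rw [h5, map_sub, ← rep_mul, mul_inv_cancel_left] at h7
        rw [h7, h8] at h6
        rw [Submodule.mem_bot, map_sub, ← rep_mul]
        have h9 : c' g (a • x₀) = c' a (a • x₀) + (ρ (g * a) v - ρ a v)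
            - ρ g (c' a (a • x₀)) := by
          rw [h6]
          abel
        rw [h9]
        abel)
    refine ⟨f, fun g => ?_⟩
    funext x
    have h5 := hf g g.2 x
    rw [Submodule.mem_bot, sub_eq_zero] at h5
    exact h5
  · rintro ⟨f, hf⟩
    refine ⟨f x₀, fun g => ?_⟩
    have h1 := congrFun (hf ⟨g, Subgroup.mem_top _⟩) x₀
    change _ = ρ g (f ((g : GK K)⁻¹ • x₀)) - f x₀ at h1
    have hinv : (g : GK K)⁻¹ • x₀ = x₀ := by
      rw [inv_smul_eq_iff]
      exact (mem_stabilizer_iff.mp g.2).symm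
    rw [hinv] at h1
    exact h1

lemma inert_conj' {W : Ideal (𝓞 (Kb K))} (a g : GK K) (h : ∀ x : 𝓞 (Kb K), g • x - x ∈ W) :
    ∀ x : 𝓞 (Kb K), (a⁻¹ * (g * a)) • x - x ∈ a⁻¹ • W := by
  intro x
  rw [Ideal.mem_inv_pointwise_smul_iff, smul_sub, mul_smul, mul_smul, smul_inv_smul]
  exact h _

lemma isMaximal_smul {W : Ideal (𝓞 (Kb K))} (hW : W.IsMaximal) (a : GK K) :
    (a⁻¹ • W).IsMaximal := by
  have h3 : a⁻¹ • W = W.comap (MulSemiringAction.toRingHom (GK K) (𝓞 (Kb K)) a) := by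
    ext z
    rw [Ideal.mem_inv_pointwise_smul_iff, Ideal.mem_comap]
    rfl
  rw [h3]
  exact Ideal.comap_isMaximal_of_surjective _ (MulAction.surjective a)

lemma natCast_mem_smul {W : Ideal (𝓞 (Kb K))} (a : GK K) (n : ℕ) :
    (n : 𝓞 (Kb K)) ∈ a⁻¹ • W ↔ (n : 𝓞 (Kb K)) ∈ W := by
  rw [Ideal.mem_inv_pointwise_smul_iff]
  have h4 : a • (n : 𝓞 (Kb K)) = n := map_natCast (MulSemiringAction.toRingHom (GK K)
    (𝓞 (Kb K)) a) n
  rw [h4]

/-- every cocycle of the stabiliser comes from a cocycle with values in the functions -/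
lemma res_surj [Finite X] {x₀ : X} (htr : ∀ x : X, ∃ g : GK K, g • x₀ = x)
    (hop : IsOpen (stabilizer (GK K) x₀ : Set (GK K))) :
    Function.Surjective (res 𝔅 ρ x₀) := by
  classical
  have := Fintype.ofFinite X
  obtain ⟨a, ha, ha0⟩ : ∃ a : X → GK K, (∀ x, a x • x₀ = x) ∧ a x₀ = 1 := by
    choose a ha using htr
    refine ⟨fun x => if x = x₀ then 1 else a x, fun x => ?_, if_pos rfl⟩
    by_cases hx : x = x₀
    · simp [hx]
    · simp only [if_neg hx, ha]
  have hai : ∀ x, (a x)⁻¹ • x = x₀ := fun x => by rw [inv_smul_eq_iff, ha]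
  have hst : ∀ (g : GK K) (x : X), (a x)⁻¹ * (g * a (g⁻¹ • x)) ∈ stabilizer (GK K) x₀ := by
    intro g x
    rw [mem_stabilizer_iff, mul_smul, mul_smul, ha, smul_inv_smul, hai]
  rintro ⟨c, hc1, hc2, hc3, hc4⟩
  let C : GK K → X → V := fun g x => ρ (a x) (c ⟨_, hst g x⟩)
  have hC : ∀ g h x, C (g * h) x = C g x + ρ g (C h (g⁻¹ • x)) := by
    intro g h x
    have h1 : (⟨_, hst (g * h) x⟩ : stabilizer (GK K) x₀)
        = ⟨_, hst g x⟩ * ⟨_, hst h (g⁻¹ • x)⟩ := by
      apply Subtype.ext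
      change (a x)⁻¹ * (g * h * a ((g * h)⁻¹ • x))
        = ((a x)⁻¹ * (g * a (g⁻¹ • x))) * ((a (g⁻¹ • x))⁻¹ * (h * a (h⁻¹ • g⁻¹ • x)))
      rw [mul_inv_rev, mul_smul]
      group
    change ρ (a x) (c ⟨_, hst (g * h) x⟩) = ρ (a x) (c ⟨_, hst g x⟩)
      + ρ g (ρ (a (g⁻¹ • x)) (c ⟨_, hst h (g⁻¹ • x)⟩))
    rw [h1, hc1, map_add, ← rep_mul, ← rep_mul]
    congr 3
    rw [mul_inv_cancel_left]
  -- local components
  have hloc : ∀ (g : GK K) (x : X), g • x = x →
      ∃ h : stabilizer (GK K) x₀, (h : GK K) = (a x)⁻¹ * (g * a x) ∧ C g x = ρ (a x) (c h) := by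
    intro g x hg
    have h1 : g⁻¹ • x = x := by rw [inv_smul_eq_iff, hg]
    refine ⟨⟨_, hst g x⟩, ?_, rfl⟩
    change (a x)⁻¹ * (g * a (g⁻¹ • x)) = _
    rw [h1]
  have hmem : (fun g : (⊤ : Subgroup (GK K)) => C g) ∈
      cocycles p (⊤ : Subgroup (GK K)) 𝔅 (ext X ρ) := by
    refine ⟨fun g h => ?_, fun l => ?_, fun W hW hp => ?_, fun W hW hp => ?_⟩
    · funext x
      exact hC g h x
    · -- continuity
      have h1 : (fun g : (⊤ : Subgroup (GK K)) => l (C g)) = fun g : (⊤ : Subgroup (GK K)) =>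
          ∑ x : X, (l ∘ₗ LinearMap.single ℚ_[p] (fun _ : X => V) x ∘ₗ ρ (a x))
            (c ⟨_, hst g x⟩) := by
        funext g
        have h2 : C g = ∑ x : X, LinearMap.single ℚ_[p] (fun _ : X => V) x (C g x) := by
          funext y
          simp [Finset.sum_apply, Pi.single_apply]
        conv_lhs => rw [h2]
        rw [map_sum]
        rfl
      rw [h1]
      refine continuous_finsetSum _ fun x _ => ?_
      have h2 := hc2 (l ∘ₗ LinearMap.single ℚ_[p] (fun _ : X => V) x ∘ₗ ρ (a x))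
      rw [continuous_iff_continuousAt]
      intro g₁
      let U : Set (⊤ : Subgroup (GK K)) := {g | (g : GK K)⁻¹ • x = (g₁ : GK K)⁻¹ • x}
      have hU : IsOpen U := by
        have h3 : U = (fun g : (⊤ : Subgroup (GK K)) =>
            (a x)⁻¹ * ((g₁ : GK K) * (g : GK K)⁻¹) * a x) ⁻¹'
              (stabilizer (GK K) x₀ : Set (GK K)) := by
          ext g
          simp only [U, Set.mem_ofPred_eq, Set.mem_preimage, SetLike.mem_coe, mem_stabilizer_iff,
            mul_smul, ha, inv_smul_eq_iff (g := a x)]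
          rw [← inv_smul_eq_iff (g := (g₁ : GK K)⁻¹), inv_inv]
        rw [h3]
        refine hop.preimage ?_
        fun_prop
      have hmU : g₁ ∈ U := rfl
      refine ContinuousOn.continuousAt ?_ (hU.mem_nhds hmU)
      rw [continuousOn_iff_continuous_domRestrict]
      have h4 : ∀ u : U, (a x)⁻¹ * ((u : (⊤ : Subgroup (GK K))) * a ((g₁ : GK K)⁻¹ • x))
          ∈ stabilizer (GK K) x₀ := by
        intro u
        have h5 : ((u : (⊤ : Subgroup (GK K))) : GK K)⁻¹ • x = (g₁ : GK K)⁻¹ • x := u.2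
        rw [← h5]
        exact hst _ x
      have h6 : (U.domRestrict fun g : (⊤ : Subgroup (GK K)) =>
          (l ∘ₗ LinearMap.single ℚ_[p] (fun _ : X => V) x ∘ₗ ρ (a x)) (c ⟨_, hst g x⟩))
          = fun u : U => (l ∘ₗ LinearMap.single ℚ_[p] (fun _ : X => V) x ∘ₗ ρ (a x))
            (c ⟨_, h4 u⟩) := by
        funext u
        have h5 : ((u : (⊤ : Subgroup (GK K))) : GK K)⁻¹ • x = (g₁ : GK K)⁻¹ • x := u.2
        have h7 : (⟨_, hst (u : (⊤ : Subgroup (GK K))) x⟩ : stabilizer (GK K) x₀)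
            = ⟨_, h4 u⟩ := by
          apply Subtype.ext
          change (a x)⁻¹ * (_ * a (_ • x)) = (a x)⁻¹ * (_ * a (_ • x))
          rw [h5]
        rw [Set.domRestrict_apply, h7]
      rw [h6]
      refine h2.comp (f := fun u : U => (⟨_, h4 u⟩ : stabilizer (GK K) x₀)) ?_
      refine Continuous.subtype_mk ?_ _
      fun_prop
    · obtain ⟨f, hf⟩ := semi ρ (inert ⊤ W) ⊥
        (fun g _ x hx => by rw [Submodule.mem_bot] at hx ⊢; rw [hx, map_zero]) C
        (fun g _ h _ x => hC g h x) (fun x => by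
          obtain ⟨w, hw⟩ := hc3 ((a x)⁻¹ • W) (isMaximal_smul hW _)
            (fun h => hp ((natCast_mem_smul _ _).mp h))
          refine ⟨ρ (a x) w, fun g hg hgx => ?_⟩
          obtain ⟨h, hh, hCg⟩ := hloc g x hgx
          have h1 := hw h ⟨h.2, by rw [hh]; exact inert_conj' (a x) g hg.2⟩
          rw [Submodule.mem_bot, hCg, h1, map_sub, ← rep_mul, ← rep_mul, hh,
            mul_inv_cancel_left, sub_self])
      refine ⟨f, fun g hg => ?_⟩
      funext x
      have h5 := hf g hg x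
      rw [Submodule.mem_bot, sub_eq_zero] at h5
      exact h5
    · obtain ⟨f, hf⟩ := semi (M := V ⊗[ℚ_[p]] 𝔅.B)
        (Representation.tprod ρ 𝔅.act) (stabilizer (GK K) W)
        (LinearMap.range ((𝔅.N W).subtype.lTensor V))
        (fun g hg x hx => by
          have h1 := N_range 𝔅 ρ g W hx
          rw [mem_stabilizer_iff.mp hg] at h1
          exact h1) (fun g x => C g x ⊗ₜ[ℚ_[p]] 𝔅.one)
        (fun g _ h _ x => by
          rw [hC, TensorProduct.add_tmul]
          congr 1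
          change _ = TensorProduct.map (ρ g) (𝔅.act g) _
          rw [TensorProduct.map_tmul, 𝔅.act_one]) (fun x => by
          obtain ⟨w, hw⟩ := hc4 ((a x)⁻¹ • W) (isMaximal_smul hW _)
            ((natCast_mem_smul _ _).mpr hp)
          refine ⟨TensorProduct.map (ρ (a x)) (𝔅.act (a x)) w, fun g hg hgx => ?_⟩
          obtain ⟨h, hh, hCg⟩ := hloc g x hgx
          have h1 := hw h (by
            rw [hh, mul_smul, mul_smul, smul_inv_smul, mem_stabilizer_iff.mp hg])
          have h2 := N_range 𝔅 ρ (a x) _ h1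
          rw [smul_inv_smul] at h2
          convert h2 using 1
          rw [map_sub, map_sub, TensorProduct.map_tmul, 𝔅.act_one, hCg]
          congr 2
          change TensorProduct.map (ρ g) (𝔅.act g) (TensorProduct.map (ρ (a x)) (𝔅.act (a x)) w) = _
          rw [← LinearMap.comp_apply, ← LinearMap.comp_apply, ← TensorProduct.map_comp,
            ← TensorProduct.map_comp, ← Module.End.mul_eq_comp, ← Module.End.mul_eq_comp,
            ← Module.End.mul_eq_comp, ← Module.End.mul_eq_comp, ← map_mul, ← map_mul, ← map_mul,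
            ← map_mul, hh, mul_inv_cancel_left])
      refine ⟨∑ x : X, (LinearMap.single ℚ_[p] (fun _ : X => V) x).rTensor 𝔅.B (f x),
        fun g hg => ?_⟩
      refine mem_of_proj fun x => ?_
      have hpr : ∀ y : X, pr (V := V) 𝔅 y (∑ x : X,
          (LinearMap.single ℚ_[p] (fun _ : X => V) x).rTensor 𝔅.B (f x)) = f y := by
        intro y
        rw [map_sum, Finset.sum_eq_single y]
        · rw [← LinearMap.comp_apply, ← LinearMap.rTensor_comp]
          have h1 : (LinearMap.proj (R := ℚ_[p]) (φ := fun _ : X => V) y) ∘ₗ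
              (LinearMap.single ℚ_[p] (fun _ : X => V) y) = LinearMap.id := by
            ext v
            simp
          rw [h1, LinearMap.rTensor_id, LinearMap.id_apply]
        · intro x _ hx
          rw [← LinearMap.comp_apply, ← LinearMap.rTensor_comp]
          have h1 : (LinearMap.proj (R := ℚ_[p]) (φ := fun _ : X => V) y) ∘ₗ
              (LinearMap.single ℚ_[p] (fun _ : X => V) x) = 0 := by
            ext v
            simp [hx.symm]
          rw [h1, LinearMap.rTensor_zero, LinearMap.zero_apply]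
        · intro h
          exact absurd (Finset.mem_univ y) h
      have h1 := hf g (mem_stabilizer_iff.mpr hg) x
      rw [map_sub, map_sub, LinearMap.rTensor_tmul]
      have h2 := pr_ext 𝔅 ρ (g : GK K) x (∑ x : X,
          (LinearMap.single ℚ_[p] (fun _ : X => V) x).rTensor 𝔅.B (f x))
      rw [hpr] at h2
      have h3 := hpr x
      unfold pr at h2 h3
      rw [h2, h3]
      exact h1
  refine ⟨⟨_, hmem⟩, ?_⟩
  apply Subtype.ext
  funext h
  have h1 : (h : GK K)⁻¹ • x₀ = x₀ := by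
    rw [inv_smul_eq_iff]
    exact (mem_stabilizer_iff.mp h.2).symm
  change ρ (a x₀) (c ⟨_, hst h x₀⟩) = c h
  have h2 : (⟨_, hst h x₀⟩ : stabilizer (GK K) x₀) = h := by
    apply Subtype.ext
    change (a x₀)⁻¹ * (_ * a (_ • x₀)) = _
    rw [h1, ha0]
    group
  rw [h2, ha0, map_one, Module.End.one_apply]

end shapiro

section final

variable {K : Type} [Field K]

/-- Shapiro's lemma for `H⁰` -/
theorem inv_shapiro {k : Type} [Field k] {V : Type} [AddCommGroup V] [Module k V]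
    (ρ : Representation k (GK K) V) (X : Type) [MulAction (GK K) X] (x₀ : X)
    (htr : ∀ x : X, ∃ g : GK K, g • x₀ = x) :
    Nonempty (inv (⊤ : Subgroup (GK K)) (ext X ρ) ≃ₗ[k] inv (stabilizer (GK K) x₀) ρ) :=
  inv_shapiro' ρ x₀ htr

/-- Shapiro's lemma for the Bloch–Kato Selmer groups -/
theorem h1f_shapiro {p : ℕ} [Fact p.Prime] (𝔅 : Period K ℚ_[p]) {V : Type} [AddCommGroup V]
    [Module ℚ_[p] V] [FiniteDimensional ℚ_[p] V] (ρ : Representation ℚ_[p] (GK K) V) (X : Type)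
    [MulAction (GK K) X] [Finite X] (x₀ : X) (htr : ∀ x : X, ∃ g : GK K, g • x₀ = x)
    (hop : IsOpen (stabilizer (GK K) x₀ : Set (GK K))) :
    Nonempty (H1f p (⊤ : Subgroup (GK K)) 𝔅 (ext X ρ) ≃ₗ[ℚ_[p]] H1f p (stabilizer (GK K) x₀) 𝔅 ρ) := by
  let φ : cocycles p (⊤ : Subgroup (GK K)) 𝔅 (ext X ρ) →ₗ[ℚ_[p]] H1f p (stabilizer (GK K) x₀) 𝔅 ρ :=
    (Submodule.mkQ _) ∘ₗ res 𝔅 ρ x₀
  have hsurj : Function.Surjective φ :=
    (Submodule.mkQ_surjective _).comp (res_surj 𝔅 ρ htr hop)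
  have hker : LinearMap.ker φ = (coboundaries (⊤ : Subgroup (GK K)) (ext X ρ)).comap
      (cocycles p (⊤ : Subgroup (GK K)) 𝔅 (ext X ρ)).subtype := by
    ext c
    rw [LinearMap.mem_ker, ← res_ker 𝔅 ρ htr c]
    exact Submodule.Quotient.mk_eq_zero _
  exact ⟨(Submodule.quotEquivOfEq _ _ hker.symm).trans (φ.quotKerEquivOfSurjective hsurj)⟩

end final

end Pool.Agent.K4H36.BK
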