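import Mathlib
import Pool.Agent.K4H36.BK.Def

/-!
# Euler polynomials and permutation modules: elementary properties
-/

set_option autoImplicit false
namespace Pool.Agent.K4H36.BK
open NumberField Polynomial MulAction
open scoped Pointwise TensorProduct

section invs

variable {k G : Type} [Field k] [Group G]
  {U V W : Type} [AddCommGroup U] [Module k U] [AddCommGroup V] [Module k V]
  [AddCommGroup W] [Module k W]

/-- an equivariant isomorphism restricts to the invariants -/
def invEquiv {ρ : Representation k G V} {σ : Representation k G W} (e : V ≃ₗ[k] W)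
    (he : ∀ g x, e (ρ g x) = σ g (e x)) (H : Subgroup G) : inv H ρ ≃ₗ[k] inv H σ where
  toFun x := ⟨e x.1, fun g hg => by rw [← he, x.2 g hg]⟩
  map_add' x y := Subtype.ext (map_add e _ _)
  map_smul' c x := Subtype.ext (map_smul e _ _)
  invFun y := ⟨e.symm y.1, fun g hg => by
    apply e.injective
    rw [he, LinearEquiv.apply_symm_apply, y.2 g hg]⟩
  left_inv x := Subtype.ext (e.symm_apply_apply _)
  right_inv y := Subtype.ext (e.apply_symm_apply _)

/-- the invariants of a sum -/
def invProd {τ : Representation k G U} {ρ : Representation k G V} {σ : Representation k G W}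
    (e : U ≃ₗ[k] V × W) (he : ∀ g x, e (τ g x) = (ρ g (e x).1, σ g (e x).2))
    (H : Subgroup G) : inv H τ ≃ₗ[k] (inv H ρ × inv H σ) where
  toFun x := (⟨(e x.1).1, fun g hg => by
      have h := he g x.1
      rw [x.2 g hg] at h
      exact (congrArg Prod.fst h).symm⟩, ⟨(e x.1).2, fun g hg => by
      have h := he g x.1
      rw [x.2 g hg] at h
      exact (congrArg Prod.snd h).symm⟩)
  map_add' x y := by
    apply Prod.ext
    · apply Subtype.ext
      simp
    · apply Subtype.ext
      simp
  map_smul' c x := by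
    apply Prod.ext
    · apply Subtype.ext
      simp
    · apply Subtype.ext
      simp
  invFun y := ⟨e.symm (y.1.1, y.2.1), fun g hg => by
    apply e.injective
    rw [he, LinearEquiv.apply_symm_apply, y.1.2 g hg, y.2.2 g hg]⟩
  left_inv x := by
    apply Subtype.ext
    simp
  right_inv y := by
    apply Prod.ext
    · apply Subtype.ext
      simp
    · apply Subtype.ext
      simp

end invs

section
variable {K : Type} [Field K] {k : Type} [Field k] {H : Subgroup (GK K)}
  {U V W : Type} [AddCommGroup U] [Module k U] [AddCommGroup V] [Module k V]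
  [AddCommGroup W] [Module k W] [FiniteDimensional k U] [FiniteDimensional k V]
  [FiniteDimensional k W] (τ : Representation k (GK K) U)
  (ρ : Representation k (GK K) V) (σ : Representation k (GK K) W)
  {P : Ideal (𝓞 (Kb K))} {q : ℕ} {φ : GK K} (h : IsFrob H P q φ)

theorem euler_congr (e : V ≃ₗ[k] W) (he : ∀ g x, e (ρ g x) = σ g (e x)) :
    eulerPoly ρ h = eulerPoly σ h := by
  unfold eulerPoly
  congr 1
  have h1 : (invEquiv e he (inert H P)).conj ((ρ φ⁻¹).restrict (h.stable ρ)) =
      (σ φ⁻¹).restrict (h.stable σ) := by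
    apply LinearMap.ext
    intro y
    apply Subtype.ext
    rw [LinearEquiv.conj_apply_apply]
    show e (ρ φ⁻¹ (e.symm y.1)) = σ φ⁻¹ y.1
    rw [he, LinearEquiv.apply_symm_apply]
  rw [← h1, LinearEquiv.charpoly_conj]

theorem euler_mul (e : U ≃ₗ[k] V × W) (he : ∀ g x, e (τ g x) = (ρ g (e x).1, σ g (e x).2)) :
    eulerPoly τ h = eulerPoly ρ h * eulerPoly σ h := by
  unfold eulerPoly
  rw [← reverse_mul_of_domain, ← LinearMap.charpoly_prodMap]
  congr 1
  have h1 : (invProd e he (inert H P)).conj ((τ φ⁻¹).restrict (h.stable τ)) =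
      ((ρ φ⁻¹).restrict (h.stable ρ)).prodMap ((σ φ⁻¹).restrict (h.stable σ)) := by
    apply LinearMap.ext
    intro y
    rw [LinearEquiv.conj_apply_apply]
    have h2 := he φ⁻¹ (e.symm (y.1.1, y.2.1))
    rw [LinearEquiv.apply_symm_apply] at h2
    apply Prod.ext
    · apply Subtype.ext
      show (e (τ φ⁻¹ (e.symm (y.1.1, y.2.1)))).1 = ρ φ⁻¹ y.1.1
      rw [h2]
    · apply Subtype.ext
      show (e (τ φ⁻¹ (e.symm (y.1.1, y.2.1)))).2 = σ φ⁻¹ y.2.1
      rw [h2]
  rw [← h1, LinearEquiv.charpoly_conj]

theorem euler_one [Subsingleton V] : eulerPoly ρ h = 1 := by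
  unfold eulerPoly
  have h1 : LinearMap.charpoly ((ρ φ⁻¹).restrict (h.stable ρ)) = 1 := by
    have hm := LinearMap.charpoly_monic ((ρ φ⁻¹).restrict (h.stable ρ))
    have hd : (LinearMap.charpoly ((ρ φ⁻¹).restrict (h.stable ρ))).natDegree = 0 := by
      rw [LinearMap.charpoly_natDegree]
      exact Module.finrank_zero_of_subsingleton
    exact eq_one_of_monic_natDegree_zero hm hd
  rw [h1]
  exact reverse_C 1

theorem euler_coeff : (eulerPoly ρ h).coeff 0 = 1 := by
  unfold eulerPoly
  rw [coeff_zero_reverse]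
  exact LinearMap.charpoly_monic _

theorem euler_deg : (eulerPoly ρ h).natDegree ≤ Module.finrank k V := by
  unfold eulerPoly
  refine (reverse_natDegree_le _).trans ?_
  rw [LinearMap.charpoly_natDegree]
  exact Submodule.finrank_le _

theorem inv_congr (e : V ≃ₗ[k] W) (he : ∀ g x, e (ρ g x) = σ g (e x)) (H : Subgroup (GK K)) :
    Nonempty (inv H ρ ≃ₗ[k] inv H σ) := ⟨invEquiv e he H⟩

theorem inv_prod (e : U ≃ₗ[k] V × W) (he : ∀ g x, e (τ g x) = (ρ g (e x).1, σ g (e x).2))
    (H : Subgroup (GK K)) : Nonempty (inv H τ ≃ₗ[k] (inv H ρ × inv H σ)) := ⟨invProd e he H⟩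

end

section ext

variable {k G : Type} [Field k] [Group G] {V : Type} [AddCommGroup V] [Module k V]
  (ρ : Representation k G V)

theorem ext_apply (X : Type) [MulAction G X] (g : G) (f : X → V) (x : X) :
    ext X ρ g f x = ρ g (f (g⁻¹ • x)) := rfl

/-- permutation modules isomorphic over `ℚ` -/
theorem ext_congr [CharZero k] (X Y : Type) [Fintype X] [Fintype Y] [DecidableEq X] [DecidableEq Y]
    [MulAction G X] [MulAction G Y] (A : Y → X → ℚ) (B : X → Y → ℚ)
    (hA : ∀ (g : G) (y : Y) (x : X), A (g • y) (g • x) = A y x)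
    (hB : ∀ (g : G) (x : X) (y : Y), B (g • x) (g • y) = B x y)
    (hAB : ∀ y y', ∑ x, A y x * B x y' = if y = y' then 1 else 0)
    (hBA : ∀ x x', ∑ y, B x y * A y x' = if x = x' then 1 else 0) :
    ∃ e : (X → V) ≃ₗ[k] (Y → V), ∀ g f, e (ext X ρ g f) = ext Y ρ g (e f) := by
  have key : ∀ (S T : Type) [Fintype S] [Fintype T] [DecidableEq S] (C : S → T → ℚ)
      (D : T → S → ℚ) (_ : ∀ s s', ∑ t, C s t * D t s' = if s = s' then 1 else 0) (f : S → V)
      (s : S), ∑ t, ((C s t : ℚ) : k) • ∑ s', ((D t s' : ℚ) : k) • f s' = f s := by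
    intro S T _ _ _ C D hCD f s
    have h1 : ∑ t, ((C s t : ℚ) : k) • ∑ s', ((D t s' : ℚ) : k) • f s' =
        ∑ s', (((∑ t, C s t * D t s' : ℚ)) : k) • f s' := by
      simp only [Finset.smul_sum, smul_smul]
      rw [Finset.sum_comm]
      apply Finset.sum_congr rfl
      intro s' _
      rw [← Finset.sum_smul]
      congr 1
      push_cast
      rfl
    rw [h1, Finset.sum_eq_single s]
    · rw [hCD, if_pos rfl]
      simp
    · intro s' _ hs'
      rw [hCD, if_neg (Ne.symm hs')]
      simp
    · intro hs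
      exact absurd (Finset.mem_univ s) hs
  refine ⟨{ toFun := fun f y => ∑ x, ((A y x : ℚ) : k) • f x
            map_add' := fun f f' => by
              funext y
              simp only [Pi.add_apply, smul_add, Finset.sum_add_distrib]
            map_smul' := fun c f => by
              funext y
              simp only [Pi.smul_apply, RingHom.id_apply, Finset.smul_sum]
              apply Finset.sum_congr rfl
              intro x _
              rw [smul_comm]
            invFun := fun f x => ∑ y, ((B x y : ℚ) : k) • f y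
            left_inv := fun f => by
              funext x
              exact key X Y B A hBA f x
            right_inv := fun f => by
              funext y
              exact key Y X A B hAB f y }, ?_⟩
  intro g f
  funext y
  show ∑ x, ((A y x : ℚ) : k) • (ext X ρ g f) x = ρ g (∑ x, ((A (g⁻¹ • y) x : ℚ) : k) • f x)
  rw [map_sum]
  symm
  apply Fintype.sum_equiv (MulAction.toPerm g)
  intro x
  rw [map_smul, MulAction.toPerm_apply, ext_apply, inv_smul_smul]
  congr 2
  have := hA g (g⁻¹ • y) x
  rw [smul_inv_smul] at this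
  exact this.symm

/-- the `G`-set `X ⊕ Y` (with the action of Mathlib; a second instance `MulAction G (X ⊕ Y)` as an
argument would not be the one used in `g • Sum.inl x`) -/
theorem ext_sum (X Y : Type) [MulAction G X] [MulAction G Y] :
    ∃ e : (X ⊕ Y → V) ≃ₗ[k] (X → V) × (Y → V),
      ∀ g f, e (ext (X ⊕ Y) ρ g f) = (ext X ρ g (e f).1, ext Y ρ g (e f).2) := by
  refine ⟨LinearEquiv.sumArrowLequivProdArrow X Y k V, ?_⟩
  intro g f
  apply Prod.ext
  · funext x
    rfl
  · funext y
    rfl

/-- the same for a `G`-set `Z` decomposed into `X` and `Y` by an equivariant bijection -/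
theorem ext_sum' (X Y Z : Type) [MulAction G X] [MulAction G Y] [MulAction G Z] (i : X → Z)
    (j : Y → Z) (hi : ∀ (g : G) x, i (g • x) = g • i x) (hj : ∀ (g : G) y, j (g • y) = g • j y)
    (hb : Function.Bijective (Sum.elim i j)) :
    ∃ e : (Z → V) ≃ₗ[k] (X → V) × (Y → V),
      ∀ g f, e (ext Z ρ g f) = (ext X ρ g (e f).1, ext Y ρ g (e f).2) := by
  refine ⟨(LinearEquiv.funCongrLeft k V (Equiv.ofBijective (Sum.elim i j) hb)).trans
    (LinearEquiv.sumArrowLequivProdArrow X Y k V), ?_⟩
  intro g f
  apply Prod.ext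
  · funext x
    show ρ g (f (g⁻¹ • i x)) = ρ g (f (i (g⁻¹ • x)))
    rw [hi]
  · funext y
    show ρ g (f (g⁻¹ • j y)) = ρ g (f (j (g⁻¹ • y)))
    rw [hj]

theorem ext_unit [MulAction G Unit] :
    ∃ e : (Unit → V) ≃ₗ[k] V, ∀ g f, e (ext Unit ρ g f) = ρ g (e f) := by
  refine ⟨LinearEquiv.funUnique Unit k V, ?_⟩
  intro g f
  rfl

end ext

end Pool.Agent.K4H36.BK
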