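import Mathlib

/-! Characteristic polynomials of block diagonal and block cyclic maps (author: helper3). -/

set_option autoImplicit false
namespace Pool.Agent.K4H36.BK
open Polynomial Matrix Module

/-- the cyclic matrix with `x` on the diagonal, `-1` above it and `-y` in the corner -/
def cyc {S : Type*} [CommRing S] (x y : S) (n : ℕ) : Matrix (Fin (n + 1)) (Fin (n + 1)) S :=
  Matrix.of (fun i j : Fin (n + 1) => (if i = j then x else 0) -
      (if (i : ℕ) < n then (if (j : ℕ) = i + 1 then 1 else 0) else (if (j : ℕ) = 0 then y else 0)))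

lemma cyc_apply {S : Type*} [CommRing S] (x y : S) (n : ℕ) (i j : Fin (n + 1)) :
    cyc x y n i j = (if (i : ℕ) = j then x else 0) -
      (if (i : ℕ) < n then (if (j : ℕ) = i + 1 then 1 else 0) else (if (j : ℕ) = 0 then y else 0)) := by
  unfold cyc
  simp only [Matrix.of_apply, Fin.ext_iff]

lemma det_cyc {S : Type*} [CommRing S] (x y : S) (n : ℕ) :
    (cyc x y n).det = x ^ (n + 1) - y := by
  rcases Nat.eq_zero_or_pos n with hn | hn
  · subst hn
    have h : (cyc x y 0).det = cyc x y 0 0 0 := Matrix.det_fin_one _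
    rw [h, cyc_apply]
    simp
  rw [Matrix.det_succ_column_zero]
  have h0 : ∀ i : Fin (n + 1), i ≠ 0 → i ≠ Fin.last n →
      (-1) ^ (i : ℕ) * (cyc x y n) i 0 * ((cyc x y n).submatrix i.succAbove Fin.succ).det = 0 := by
    intro i hi hi'
    have h1 : (i : ℕ) < n := by
      have := i.2
      have h2 : (i : ℕ) ≠ n := fun h => hi' (Fin.ext (by simpa using h))
      omega
    have h2 : (i : ℕ) ≠ 0 := fun h => hi (Fin.ext (by simpa using h))
    have : (cyc x y n) i 0 = 0 := by
      rw [cyc_apply, Fin.val_zero, if_neg h2, if_pos h1, if_neg (by omega), sub_zero]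
    rw [this, mul_zero, zero_mul]
  have hne : (0 : Fin (n + 1)) ≠ Fin.last n := by
    intro h
    have := congrArg Fin.val h
    simp at this
    omega
  rw [Finset.sum_eq_add (0 : Fin (n + 1)) (Fin.last n) hne
    (fun i _ hi => h0 i hi.1 hi.2) (by simp) (by simp)]
  have q0 : (cyc x y n) 0 0 = x := by
    rw [cyc_apply, Fin.val_zero, if_pos rfl, if_pos hn, if_neg (by omega), sub_zero]
  have ql : (cyc x y n) (Fin.last n) 0 = -y := by
    rw [cyc_apply, Fin.val_zero, Fin.val_last, if_neg (by omega), if_neg (by omega), if_pos rfl,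
      zero_sub]
  have d0 : ((cyc x y n).submatrix (Fin.succAbove 0) Fin.succ).det = x ^ n := by
    have htri : ((cyc x y n).submatrix (Fin.succAbove 0) Fin.succ).BlockTriangular id := by
      intro i j hij
      have hij' : (j : ℕ) < i := hij
      rw [Matrix.submatrix_apply, cyc_apply, Fin.succAbove_zero, Fin.val_succ, Fin.val_succ,
        if_neg (by omega), if_neg (show ¬ ((j : ℕ) + 1 = i + 1 + 1) by omega),
        if_neg (show ¬ ((j : ℕ) + 1 = 0) by omega), ite_self, sub_zero]
    rw [Matrix.det_of_isUpperTriangular htri]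
    rw [Finset.prod_congr rfl (g := fun _ => x)]
    · simp
    · intro i _
      rw [Matrix.submatrix_apply, cyc_apply, Fin.succAbove_zero, Fin.val_succ,
        if_pos rfl, if_neg (show ¬ ((i : ℕ) + 1 = i + 1 + 1) by omega),
        if_neg (show ¬ ((i : ℕ) + 1 = 0) by omega), ite_self, sub_zero]
  have dl : ((cyc x y n).submatrix (Fin.succAbove (Fin.last n)) Fin.succ).det = (-1) ^ n := by
    have htri : ((cyc x y n).submatrix (Fin.succAbove (Fin.last n)) Fin.succ).BlockTriangular
        OrderDual.toDual := by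
      intro i j hij
      have hij' : (i : ℕ) < j := hij
      have hi := i.2
      rw [Matrix.submatrix_apply, cyc_apply, Fin.succAbove_last, Fin.val_castSucc, Fin.val_succ,
        if_neg (by omega), if_pos hi, if_neg (by omega), sub_zero]
    rw [Matrix.det_of_isLowerTriangular _ htri]
    rw [Finset.prod_congr rfl (g := fun _ => (-1 : S))]
    · simp
    · intro i _
      have hi := i.2
      rw [Matrix.submatrix_apply, cyc_apply, Fin.succAbove_last, Fin.val_castSucc, Fin.val_succ,
        if_neg (by omega), if_pos hi, if_pos rfl, zero_sub]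
  rw [q0, ql, d0, dl]
  have : ((-1 : S) ^ n) * (-1) ^ n = 1 := by
    rw [← mul_pow]; simp
  simp only [Fin.val_zero, pow_zero, Fin.val_last]
  linear_combination (-y) * this

/-- the reverse of a polynomial in `X ^ m` -/
lemma reverse_comp_X_pow {k : Type*} [Field k] (p : k[X]) (m : ℕ) (hm : m ≠ 0) :
    (p.comp (X ^ m)).reverse = p.reverse.comp (X ^ m) := by
  have hm' : 0 < m := Nat.pos_of_ne_zero hm
  rw [← expand_eq_comp_X_pow, ← expand_eq_comp_X_pow]
  ext n
  rw [coeff_reverse, natDegree_expand, coeff_expand hm', coeff_expand hm']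
  by_cases h : n ≤ p.natDegree * m
  · rw [revAt_le h]
    by_cases hd : m ∣ n
    · obtain ⟨q, rfl⟩ := hd
      have hq : q ≤ p.natDegree := by
        rw [mul_comm] at h
        exact Nat.le_of_mul_le_mul_right h hm'
      rw [if_pos (Dvd.intro q rfl), if_pos ?_, coeff_reverse, Nat.mul_div_cancel_left _ hm',
        revAt_le hq]
      · rw [mul_comm m q, ← Nat.sub_mul, Nat.mul_div_cancel _ hm']
      · rw [mul_comm m q, ← Nat.sub_mul]
        exact Dvd.intro_left _ rfl
    · rw [if_neg hd, if_neg ?_]
      intro h1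
      apply hd
      have h2 : m ∣ p.natDegree * m := Dvd.intro_left _ rfl
      exact (Nat.dvd_sub_iff_right h h2).mp h1
  · push Not at h
    rw [revAt_eq_self_of_lt h]
    by_cases hd : m ∣ n
    · obtain ⟨q, rfl⟩ := hd
      have hq : p.natDegree < q := by
        rw [mul_comm] at h
        exact lt_of_mul_lt_mul_left h hm'.le
      rw [if_pos (Dvd.intro q rfl), if_pos (Dvd.intro q rfl), Nat.mul_div_cancel_left _ hm',
        coeff_reverse, revAt_eq_self_of_lt hq]
    · rw [if_neg hd, if_neg hd]

/-- the reverse of a product -/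
lemma reverse_prod {k ι : Type*} [Field k] (s : Finset ι) (p : ι → k[X]) :
    (∏ i ∈ s, p i).reverse = ∏ i ∈ s, (p i).reverse := by
  classical
  induction s using Finset.induction_on with
  | empty =>
    rw [Finset.prod_empty, Finset.prod_empty, ← C_1, reverse_C]
  | insert a s ha ih => rw [Finset.prod_insert ha, Finset.prod_insert ha, reverse_mul_of_domain, ih]

/-- the characteristic polynomial of a block diagonal map -/
lemma charpoly_pi {k : Type*} [Field k] {ι : Type*} [Fintype ι] {U : ι → Type*}
    [∀ i, AddCommGroup (U i)] [∀ i, Module k (U i)] [∀ i, FiniteDimensional k (U i)]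
    (A : ∀ i, U i →ₗ[k] U i) :
    LinearMap.charpoly (LinearMap.pi fun i => A i ∘ₗ LinearMap.proj i) =
      ∏ i, LinearMap.charpoly (A i) := by
  classical
  let s := fun i => Module.finBasis k (U i)
  set T : (∀ i, U i) →ₗ[k] (∀ i, U i) := LinearMap.pi fun i => A i ∘ₗ LinearMap.proj i with hT
  set M := LinearMap.toMatrix (Pi.basis s) (Pi.basis s) T with hM
  have hMe : ∀ a b, M a b = (s a.1).repr (A a.1 ((Pi.single b.1 (s b.1 b.2) : ∀ i, U i) a.1)) a.2 := by
    intro a b
    rw [hM, LinearMap.toMatrix_apply, Pi.basis_repr, Pi.basis_apply]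
    rfl
  let e := Fintype.equivFin ι
  have htri : M.BlockTriangular (fun a => e a.1) := by
    intro a b hab
    have hab' : a.1 ≠ b.1 := by
      intro h
      simp only [h, lt_self_iff_false] at hab
    rw [hMe, Pi.single_eq_of_ne hab', map_zero, map_zero, Finsupp.zero_apply]
  rw [← LinearMap.charpoly_toMatrix T (Pi.basis s), ← hM, Matrix.charpoly,
    htri.charmatrix.det_fintype, ← e.prod_comp]
  apply Finset.prod_congr rfl
  intro i _
  let E : Fin (finrank k (U i)) ≃ {a : Σ i, Fin (finrank k (U i)) // e a.1 = e i} :=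
    Equiv.ofBijective (fun j => ⟨⟨i, j⟩, rfl⟩) (by
      constructor
      · intro j j' h
        simpa using h
      · rintro ⟨⟨i', j⟩, h⟩
        have h' : i' = i := e.injective h
        subst h'
        exact ⟨j, rfl⟩)
  rw [← charmatrix_toSquareBlock, ← Matrix.charpoly, ← LinearMap.charpoly_toMatrix (A i) (s i),
    ← Matrix.charpoly_reindex E]
  congr 1
  ext x y
  obtain ⟨x, rfl⟩ := E.surjective x
  obtain ⟨y, rfl⟩ := E.surjective y
  rw [Matrix.reindex_apply, Matrix.submatrix_apply, Equiv.symm_apply_apply, Equiv.symm_apply_apply,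
    Matrix.toSquareBlock_def, Matrix.of_apply, hMe, LinearMap.toMatrix_apply]
  change (s i).repr (A i ((Pi.single i (s i y) : ∀ i, U i) i)) x = _
  rw [Pi.single_eq_same]

/-- the block cyclic map `u ↦ (u 1, …, u n, A (u 0))` -/
def cycMap {k U : Type*} [Field k] [AddCommGroup U] [Module k U] (A : U →ₗ[k] U) (n : ℕ) :
    (Fin (n + 1) → U) →ₗ[k] (Fin (n + 1) → U) where
  toFun u j := if h : (j : ℕ) < n then u ⟨j + 1, by omega⟩ else A (u 0)
  map_add' u v := by
    funext j
    by_cases h : (j : ℕ) < n
    · simp [h]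
    · simp [h]
  map_smul' c u := by
    funext j
    by_cases h : (j : ℕ) < n
    · simp [h]
    · simp [h]

lemma cycMap_apply_lt {k U : Type*} [Field k] [AddCommGroup U] [Module k U] (A : U →ₗ[k] U) (n : ℕ)
    (u : Fin (n + 1) → U) (j : Fin (n + 1)) (h : (j : ℕ) < n) :
    cycMap A n u j = u ⟨j + 1, by omega⟩ := dif_pos h

lemma cycMap_apply_last {k U : Type*} [Field k] [AddCommGroup U] [Module k U] (A : U →ₗ[k] U)
    (n : ℕ) (u : Fin (n + 1) → U) (j : Fin (n + 1)) (h : ¬ (j : ℕ) < n) :
    cycMap A n u j = A (u 0) := dif_neg h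

/-- the characteristic polynomial of a block cyclic map -/
lemma charpoly_cycMap {k U : Type*} [Field k] [AddCommGroup U] [Module k U]
    [FiniteDimensional k U] (A : U →ₗ[k] U) (n : ℕ) :
    (cycMap A n).charpoly = A.charpoly.comp (X ^ (n + 1)) := by
  classical
  let b := Module.finBasis k U
  set N := LinearMap.toMatrix b b A with hN
  let d := finrank k U
  let B : Basis (Fin (n + 1) × Fin d) k (Fin (n + 1) → U) :=
    (Pi.basis (fun _ : Fin (n + 1) => b)).reindex (Equiv.sigmaEquivProd _ _)
  set M := LinearMap.toMatrix B B (cycMap A n) with hM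
  have hMe : ∀ i a j c, M (i, a) (j, c) =
      b.repr (cycMap A n (Pi.single j (b c)) i) a := by
    intro i a j c
    rw [hM, LinearMap.toMatrix_apply]
    simp only [B, Basis.repr_reindex_apply, Basis.reindex_apply]
    rw [Pi.basis_repr, Pi.basis_apply]
    rfl
  let f : k[X][X] →+* Matrix (Fin d) (Fin d) k[X] :=
    (Polynomial.aeval (R := k[X]) (N.map C)).toRingHom
  have hfC : ∀ p : k[X], f (C p) = Matrix.scalar (Fin d) p := by
    intro p
    change Polynomial.aeval (R := k[X]) (N.map C) (C p) = _
    rw [Polynomial.aeval_C]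
    rfl
  have hfX : f X = N.map C := by
    change Polynomial.aeval (R := k[X]) (N.map C) X = _
    rw [Polynomial.aeval_X]
  have h1 := Matrix.det_det (cyc (C (X : k[X])) (X : k[X][X]) n) f
  rw [det_cyc, map_sub, map_pow, hfC, hfX] at h1
  have h2 : (((cyc (C (X : k[X])) (X : k[X][X]) n).map f).comp _ _ _ _ k[X]) = M.charmatrix := by
    ext1 ⟨i, a⟩ ⟨j, c⟩
    rw [Matrix.comp_apply, Matrix.map_apply, Matrix.charmatrix_apply, cyc_apply, map_sub, hMe]
    change f (if (i : ℕ) = j then C X else 0) a c -
      f (if (i : ℕ) < n then (if (j : ℕ) = i + 1 then 1 else 0) else (if (j : ℕ) = 0 then X else 0))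
        a c = _
    congr 1
    · by_cases hij : i = j
      · subst hij
        rw [if_pos rfl, hfC, Matrix.scalar_apply, Matrix.diagonal_apply, Matrix.diagonal_apply]
        simp
      · rw [if_neg (fun h => hij (Fin.ext h)), map_zero, Matrix.diagonal_apply_ne _ (by
          intro h
          exact hij (congrArg Prod.fst h))]
        rfl
    · by_cases hi : (i : ℕ) < n
      · rw [if_pos hi, cycMap_apply_lt _ _ _ _ hi]
        by_cases hj : (j : ℕ) = i + 1
        · have hj' : (⟨i + 1, by omega⟩ : Fin (n + 1)) = j := Fin.ext hj.symm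
          rw [if_pos hj, map_one, hj', Pi.single_eq_same, Basis.repr_self, Matrix.one_apply,
            Finsupp.single_apply]
          by_cases hac : a = c
          · subst hac
            simp
          · rw [if_neg hac, if_neg (fun h => hac h.symm), map_zero]
        · rw [if_neg hj, map_zero, Pi.single_eq_of_ne (fun h => hj (congrArg Fin.val h).symm),
            map_zero, Finsupp.zero_apply, map_zero]
          rfl
      · rw [if_neg hi, cycMap_apply_last _ _ _ _ hi]
        by_cases hj : (j : ℕ) = 0
        · have hj' : j = 0 := Fin.ext hj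
          rw [if_pos hj, hj', hfX, Pi.single_eq_same, Matrix.map_apply, hN,
            LinearMap.toMatrix_apply]
        · rw [if_neg hj, map_zero, Pi.single_eq_of_ne (fun h => hj (congrArg Fin.val h).symm),
            map_zero, map_zero, Finsupp.zero_apply, map_zero]
          rfl
  rw [← LinearMap.charpoly_toMatrix (cycMap A n) B, ← hM, Matrix.charpoly, ← h2, ← h1,
    ← LinearMap.charpoly_toMatrix A b, ← hN, Matrix.charpoly, ← expand_eq_comp_X_pow]
  rw [AlgHom.map_det]
  congr 1
  ext1 a c
  rw [Matrix.sub_apply, AlgHom.mapMatrix_apply, Matrix.map_apply, Matrix.map_apply,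
    Matrix.charmatrix_apply, map_sub, expand_C, ← map_pow, Matrix.scalar_apply]
  congr 1
  by_cases hac : a = c
  · subst hac
    rw [Matrix.diagonal_apply_eq, Matrix.diagonal_apply_eq, expand_X]
  · rw [Matrix.diagonal_apply_ne _ hac, Matrix.diagonal_apply_ne _ hac, map_zero]

end Pool.Agent.K4H36.BK
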