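import Mathlib
import Pool.Agent.K4H36.BK.Def
import Pool.Agent.K4H36.BK.D1a

/-! The local factor of `V ⊗ k[X]` at a prime (author: helper3). -/

set_option autoImplicit false
namespace Pool.Agent.K4H36.BK
open Polynomial MulAction

section grp

variable {G X : Type} [Group G] [MulAction G X] {I : Subgroup G} {φ : G}

lemma conj_pow_mem (hφ : ∀ g, g ∈ I ↔ φ * g * φ⁻¹ ∈ I) (n : ℕ) (g : G) :
    g ∈ I ↔ φ ^ n * g * (φ ^ n)⁻¹ ∈ I := by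
  induction n generalizing g with
  | zero => simp
  | succ n ih =>
    rw [hφ g, ih (φ * g * φ⁻¹)]
    have : φ ^ n * (φ * g * φ⁻¹) * (φ ^ n)⁻¹ = φ ^ (n + 1) * g * (φ ^ (n + 1))⁻¹ := by
      rw [pow_succ]
      group
    rw [this]

lemma conj_inv_pow_mem (hφ : ∀ g, g ∈ I ↔ φ * g * φ⁻¹ ∈ I) (n : ℕ) (g : G) (hg : g ∈ I) :
    (φ ^ n)⁻¹ * g * φ ^ n ∈ I := by
  rw [conj_pow_mem hφ n]
  have : φ ^ n * ((φ ^ n)⁻¹ * g * φ ^ n) * (φ ^ n)⁻¹ = g := by group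
  rw [this]
  exact hg

lemma psi_pow (hφ : ∀ g, g ∈ I ↔ φ * g * φ⁻¹ ∈ I) {f : ℕ} {ψ : G}
    (hψ : ∃ τ ∈ I, ψ = τ * φ ^ f) (q : ℕ) : ∃ σ ∈ I, ψ ^ q = σ * φ ^ (q * f) := by
  obtain ⟨τ, hτ, rfl⟩ := hψ
  induction q with
  | zero => exact ⟨1, one_mem I, by simp⟩
  | succ q ih =>
    obtain ⟨σ, hσ, h⟩ := ih
    refine ⟨σ * (φ ^ (q * f) * τ * (φ ^ (q * f))⁻¹), mul_mem hσ ((conj_pow_mem hφ _ _).mp hτ), ?_⟩
    rw [pow_succ, h, Nat.succ_mul, pow_add]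
    group

lemma pow_smul_eq {x : X} {ψ : G} (h : ψ • x = x) (q : ℕ) : ψ ^ q • x = x := by
  induction q with
  | zero => simp
  | succ q ih => rw [pow_succ, mul_smul, h, ih]

lemma dvd_of_smul (hφ : ∀ g, g ∈ I ↔ φ * g * φ⁻¹ ∈ I) {f : ℕ} (hf : f ≠ 0) {ψ : G} {x : X}
    (hψ : ∃ τ ∈ I, ψ = τ * φ ^ f) (hψx : ψ • x = x)
    (hmin : ∀ n, 0 < n → n < f → ∀ τ ∈ I, τ • φ ^ n • x ≠ x) {d : ℕ} {τ : G} (hτ : τ ∈ I)
    (h : τ • φ ^ d • x = x) : f ∣ d := by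
  obtain ⟨σ, hσ, h1⟩ := psi_pow hφ hψ (d / f)
  have h2 := pow_smul_eq hψx (d / f)
  rw [h1, mul_smul] at h2
  have h3 : φ ^ (d / f * f) • x = σ⁻¹ • x := by
    rw [eq_inv_smul_iff]
    exact h2
  by_contra hd
  have hr : 0 < d % f := by
    rcases Nat.eq_zero_or_pos (d % f) with h0 | h0
    · exact absurd (Nat.dvd_of_mod_eq_zero h0) hd
    · exact h0
  apply hmin (d % f) hr (Nat.mod_lt _ (Nat.pos_of_ne_zero hf))
    (τ * (φ ^ (d % f) * σ⁻¹ * (φ ^ (d % f))⁻¹)) (mul_mem hτ ((conj_pow_mem hφ _ _).mp (inv_mem hσ)))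
  rw [← mul_smul]
  have e1 : τ * (φ ^ (d % f) * σ⁻¹ * (φ ^ (d % f))⁻¹) * φ ^ (d % f) = τ * φ ^ (d % f) * σ⁻¹ := by
    group
  rw [e1, mul_smul, ← h3, ← mul_smul, mul_assoc, ← pow_add]
  have e2 : d % f + d / f * f = d := by
    rw [mul_comm]
    exact Nat.mod_add_div d f
  rw [e2, mul_smul]
  exact h

end grp

section wd

variable {k G V : Type} [Field k] [Group G] [AddCommGroup V] [Module k V] (ρ : Representation k G V)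
  {X : Type} [MulAction G X] {I : Subgroup G} {φ : G}

/-- the value at `φ ^ n x` moved back to `x` -/
noncomputable def wv (ψ : G) (n : ℕ) (u : Fin (n + 1) → V) (m : ℕ) : V :=
  ρ (ψ ^ (m / (n + 1)))⁻¹ (u ⟨m % (n + 1), Nat.mod_lt _ (Nat.succ_pos n)⟩)

lemma wv_lt (ψ : G) (n : ℕ) (u : Fin (n + 1) → V) (j : Fin (n + 1)) : wv ρ ψ n u j = u j := by
  unfold wv
  rw [Nat.div_eq_of_lt j.2, pow_zero, inv_one, map_one, Module.End.one_apply]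
  congr 1
  exact Fin.ext (Nat.mod_eq_of_lt j.2)

lemma wv_add (ψ : G) (n : ℕ) (u : Fin (n + 1) → V) (m q : ℕ) :
    wv ρ ψ n u (m + q * (n + 1)) = ρ (ψ ^ q)⁻¹ (wv ρ ψ n u m) := by
  unfold wv
  rw [← Module.End.mul_apply, ← map_mul, Nat.add_mul_div_right _ _ (Nat.succ_pos n), ← mul_inv_rev,
    ← pow_add]
  congr 2
  exact Fin.ext (Nat.add_mul_mod_self_right m q (n + 1))

lemma wv_mem {x : X} (ψ : G) (n : ℕ) (u : Fin (n + 1) → V)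
    (hu : ∀ j, u j ∈ inv (I ⊓ stabilizer G x) ρ)
    (hst' : ∀ z ∈ inv (I ⊓ stabilizer G x) ρ, ρ ψ⁻¹ z ∈ inv (I ⊓ stabilizer G x) ρ) (m : ℕ) :
    wv ρ ψ n u m ∈ inv (I ⊓ stabilizer G x) ρ := by
  unfold wv
  generalize hz : u ⟨m % (n + 1), Nat.mod_lt _ (Nat.succ_pos n)⟩ = z
  have hz' : z ∈ inv (I ⊓ stabilizer G x) ρ := hz ▸ hu _
  generalize m / (n + 1) = q
  induction q with
  | zero => simpa using hz'
  | succ q ih =>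
    have : ρ (ψ ^ (q + 1))⁻¹ z = ρ ψ⁻¹ (ρ (ψ ^ q)⁻¹ z) := by
      rw [← Module.End.mul_apply, ← map_mul, ← mul_inv_rev, ← pow_succ]
    rw [this]
    exact hst' _ ih

lemma wv_wd_aux (hφ : ∀ g, g ∈ I ↔ φ * g * φ⁻¹ ∈ I) {n : ℕ} {ψ : G} {x : X}
    (hψ : ∃ τ ∈ I, ψ = τ * φ ^ (n + 1)) (hψx : ψ • x = x)
    (hmin : ∀ m, 0 < m → m < n + 1 → ∀ τ ∈ I, τ • φ ^ m • x ≠ x) (u : Fin (n + 1) → V)
    (hu : ∀ j, u j ∈ inv (I ⊓ stabilizer G x) ρ)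
    (hst' : ∀ z ∈ inv (I ⊓ stabilizer G x) ρ, ρ ψ⁻¹ z ∈ inv (I ⊓ stabilizer G x) ρ)
    {a b : ℕ} (hab : a ≤ b) {τ τ' : G} (hτ : τ ∈ I) (hτ' : τ' ∈ I)
    (h : τ • φ ^ a • x = τ' • φ ^ b • x) :
    ρ (τ * φ ^ a) (wv ρ ψ n u a) = ρ (τ' * φ ^ b) (wv ρ ψ n u b) := by
  obtain ⟨d, rfl⟩ := Nat.exists_eq_add_of_le hab
  have h1 : ((φ ^ a)⁻¹ * (τ⁻¹ * τ') * φ ^ a) • φ ^ d • x = x := by
    rw [← mul_smul]
    have : (φ ^ a)⁻¹ * (τ⁻¹ * τ') * φ ^ a * φ ^ d = (φ ^ a)⁻¹ * τ⁻¹ * (τ' * φ ^ (a + d)) := by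
      rw [pow_add]
      group
    rw [this, mul_smul, mul_smul τ', ← h, ← mul_smul τ, ← mul_smul]
    have : (φ ^ a)⁻¹ * τ⁻¹ * (τ * φ ^ a) = 1 := by group
    rw [this, one_smul]
  have hd := dvd_of_smul hφ (Nat.succ_ne_zero n) hψ hψx hmin
    (conj_inv_pow_mem hφ a _ (mul_mem (inv_mem hτ) hτ')) h1
  obtain ⟨q, rfl⟩ := hd
  obtain ⟨σ, hσ, h2⟩ := psi_pow hφ hψ q
  rw [mul_comm (n + 1) q] at h ⊢
  rw [wv_add]
  have h3 := pow_smul_eq hψx q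
  set z := wv ρ ψ n u a with hz
  have hz' : z ∈ inv (I ⊓ stabilizer G x) ρ := wv_mem ρ ψ n u hu hst' a
  set g := (τ * φ ^ a)⁻¹ * (τ' * φ ^ (a + q * (n + 1)) * (ψ ^ q)⁻¹) with hg
  have hgI : g ∈ I := by
    have : g = (φ ^ a)⁻¹ * (τ⁻¹ * τ') * φ ^ a * σ⁻¹ := by
      rw [hg, h2, pow_add]
      group
    rw [this]
    exact mul_mem (conj_inv_pow_mem hφ a _ (mul_mem (inv_mem hτ) hτ')) (inv_mem hσ)
  have hgx : g • x = x := by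
    rw [hg, mul_smul, mul_smul _ (ψ ^ q)⁻¹]
    have : (ψ ^ q)⁻¹ • x = x := by
      rw [inv_smul_eq_iff]
      exact h3.symm
    rw [this, mul_smul τ', ← h, ← mul_smul τ, inv_smul_smul]
  have h4 : ρ g z = z := hz' g ⟨hgI, hgx⟩
  rw [← Module.End.mul_apply, ← map_mul]
  have h5 : τ' * φ ^ (a + q * (n + 1)) * (ψ ^ q)⁻¹ = (τ * φ ^ a) * g := by
    rw [hg]
    group
  rw [h5, map_mul ρ (τ * φ ^ a) g, Module.End.mul_apply, h4]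

lemma wv_wd (hφ : ∀ g, g ∈ I ↔ φ * g * φ⁻¹ ∈ I) {n : ℕ} {ψ : G} {x : X}
    (hψ : ∃ τ ∈ I, ψ = τ * φ ^ (n + 1)) (hψx : ψ • x = x)
    (hmin : ∀ m, 0 < m → m < n + 1 → ∀ τ ∈ I, τ • φ ^ m • x ≠ x) (u : Fin (n + 1) → V)
    (hu : ∀ j, u j ∈ inv (I ⊓ stabilizer G x) ρ)
    (hst' : ∀ z ∈ inv (I ⊓ stabilizer G x) ρ, ρ ψ⁻¹ z ∈ inv (I ⊓ stabilizer G x) ρ)
    {a b : ℕ} {τ τ' : G} (hτ : τ ∈ I) (hτ' : τ' ∈ I)
    (h : τ • φ ^ a • x = τ' • φ ^ b • x) :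
    ρ (τ * φ ^ a) (wv ρ ψ n u a) = ρ (τ' * φ ^ b) (wv ρ ψ n u b) := by
  rcases le_total a b with hab | hab
  · exact wv_wd_aux ρ hφ hψ hψx hmin u hu hst' hab hτ hτ' h
  · exact (wv_wd_aux ρ hφ hψ hψx hmin u hu hst' hab hτ' hτ h.symm).symm

end wd

section main

variable {k G V : Type} [Field k] [Group G] [AddCommGroup V] [Module k V] (ρ : Representation k G V)
  {X : Type} [MulAction G X] {I : Subgroup G} {φ : G}

lemma ext_inv {F : X → V} (hF : F ∈ inv I (ext X ρ)) {τ : G} (hτ : τ ∈ I) (y : X) :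
    F (τ • y) = ρ τ (F y) := by
  have h := congrFun (hF τ hτ) (τ • y)
  change ρ τ (F (τ⁻¹ • τ • y)) = F (τ • y) at h
  rw [inv_smul_smul] at h
  exact h.symm

lemma ext_phi (F : X → V) (y : X) : ext X ρ φ⁻¹ F y = ρ φ⁻¹ (F (φ • y)) := by
  change ρ φ⁻¹ (F (φ⁻¹⁻¹ • y)) = _
  rw [inv_inv]

/-- the values of an invariant function at the points `φ ^ j x_i`, moved back to `x_i` -/
noncomputable def psiMap (hφ : ∀ g, g ∈ I ↔ φ * g * φ⁻¹ ∈ I) {ι : Type} (x : ι → X) (n : ι → ℕ) :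
    inv I (ext X ρ) →ₗ[k] (∀ i, Fin (n i + 1) → inv (I ⊓ stabilizer G (x i)) ρ) where
  toFun F i j := ⟨ρ (φ ^ (j : ℕ))⁻¹ (F.1 (φ ^ (j : ℕ) • x i)), by
    rintro g ⟨hg, hgx⟩
    have h1 := ext_inv ρ F.2 ((conj_pow_mem hφ j g).mp hg) (φ ^ (j : ℕ) • x i)
    have h2 : (φ ^ (j : ℕ) * g * (φ ^ (j : ℕ))⁻¹) • φ ^ (j : ℕ) • x i = φ ^ (j : ℕ) • x i := by
      rw [mul_smul, inv_smul_smul, mul_smul]
      congr 1
    rw [h2] at h1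
    conv_rhs => rw [h1]
    rw [← Module.End.mul_apply, ← Module.End.mul_apply, ← map_mul, ← map_mul]
    have e : (φ ^ (j : ℕ))⁻¹ * (φ ^ (j : ℕ) * g * (φ ^ (j : ℕ))⁻¹) = g * (φ ^ (j : ℕ))⁻¹ := by
      group
    rw [e]⟩
  map_add' F F' := by
    funext i j
    apply Subtype.ext
    exact map_add _ _ _
  map_smul' c F := by
    funext i j
    apply Subtype.ext
    exact map_smul _ _ _

lemma psiMap_apply (hφ : ∀ g, g ∈ I ↔ φ * g * φ⁻¹ ∈ I) {ι : Type} (x : ι → X) (n : ι → ℕ)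
    (F : inv I (ext X ρ)) (i : ι) (j : Fin (n i + 1)) :
    (psiMap ρ hφ x n F i j : V) = ρ (φ ^ (j : ℕ))⁻¹ (F.1 (φ ^ (j : ℕ) • x i)) := rfl

lemma psiMap_phi (hφ : ∀ g, g ∈ I ↔ φ * g * φ⁻¹ ∈ I) {ι : Type} (x : ι → X) (n : ι → ℕ)
    (ψ : ι → G) (hψ : ∀ i, ∃ τ ∈ I, ψ i = τ * φ ^ (n i + 1)) (hψx : ∀ i, ψ i • x i = x i)
    (hst : ∀ z ∈ inv I (ext X ρ), ext X ρ φ⁻¹ z ∈ inv I (ext X ρ))
    (hst' : ∀ i, ∀ z ∈ inv (I ⊓ stabilizer G (x i)) ρ, ρ (ψ i)⁻¹ z ∈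
      inv (I ⊓ stabilizer G (x i)) ρ) (F : inv I (ext X ρ)) :
    psiMap ρ hφ x n ((ext X ρ φ⁻¹).restrict hst F) =
      LinearMap.pi (fun i => cycMap ((ρ (ψ i)⁻¹).restrict (hst' i)) (n i) ∘ₗ LinearMap.proj i)
        (psiMap ρ hφ x n F) := by
  funext i j
  apply Subtype.ext
  have h1 : (psiMap ρ hφ x n ((ext X ρ φ⁻¹).restrict hst F) i j : V) =
      ρ (φ ^ ((j : ℕ) + 1))⁻¹ (F.1 (φ ^ ((j : ℕ) + 1) • x i)) := by
    rw [psiMap_apply]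
    change ρ (φ ^ (j : ℕ))⁻¹ (ext X ρ φ⁻¹ F.1 (φ ^ (j : ℕ) • x i)) = _
    rw [ext_phi, ← Module.End.mul_apply, ← map_mul, ← mul_inv_rev, ← mul_smul, ← pow_succ']
  rw [h1]
  change _ = (cycMap ((ρ (ψ i)⁻¹).restrict (hst' i)) (n i) (psiMap ρ hφ x n F i) j : V)
  by_cases hj : (j : ℕ) < n i
  · rw [cycMap_apply_lt _ _ _ _ hj, psiMap_apply]
  · have hj' : (j : ℕ) = n i := by
      have := j.2
      omega
    rw [cycMap_apply_last _ _ _ _ hj, LinearMap.coe_restrict_apply, psiMap_apply, hj', Fin.val_zero,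
      pow_zero, inv_one, map_one, Module.End.one_apply, one_smul]
    obtain ⟨τ, hτ, h2⟩ := hψ i
    have h3 : φ ^ (n i + 1) • x i = τ⁻¹ • x i := by
      rw [eq_inv_smul_iff, ← mul_smul, ← h2]
      exact hψx i
    rw [h3, ext_inv ρ F.2 (inv_mem hτ), ← Module.End.mul_apply, ← map_mul, ← mul_inv_rev, ← h2]

lemma psiMap_injective (hφ : ∀ g, g ∈ I ↔ φ * g * φ⁻¹ ∈ I) {ι : Type} (x : ι → X) (n : ι → ℕ)
    (ψ : ι → G) (hψ : ∀ i, ∃ τ ∈ I, ψ i = τ * φ ^ (n i + 1)) (hψx : ∀ i, ψ i • x i = x i)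
    (hcov : ∀ y : X, ∃! i, ∃ n : ℕ, ∃ τ ∈ I, y = τ • φ ^ n • x i)
    (hst : ∀ z ∈ inv I (ext X ρ), ext X ρ φ⁻¹ z ∈ inv I (ext X ρ))
    (hst' : ∀ i, ∀ z ∈ inv (I ⊓ stabilizer G (x i)) ρ, ρ (ψ i)⁻¹ z ∈
      inv (I ⊓ stabilizer G (x i)) ρ) : Function.Injective (psiMap ρ hφ x n) := by
  rw [← LinearMap.ker_eq_bot, LinearMap.ker_eq_bot']
  intro F hF
  have h1 : ∀ m : ℕ, psiMap ρ hφ x n ((((ext X ρ φ⁻¹).restrict hst) ^ m) F) = 0 := by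
    intro m
    induction m with
    | zero => simpa using hF
    | succ m ih =>
      rw [pow_succ', Module.End.mul_apply, psiMap_phi ρ hφ x n ψ hψ hψx hst hst', ih, map_zero]
  have h2 : ∀ (m : ℕ) (F : inv I (ext X ρ)) (y : X),
      ((((ext X ρ φ⁻¹).restrict hst) ^ m) F).1 y = ρ (φ ^ m)⁻¹ (F.1 (φ ^ m • y)) := by
    intro m
    induction m with
    | zero =>
      intro F y
      simp
    | succ m ih =>
      intro F y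
      rw [pow_succ, Module.End.mul_apply, ih]
      change ρ (φ ^ m)⁻¹ (ext X ρ φ⁻¹ F.1 (φ ^ m • y)) = _
      rw [ext_phi, ← Module.End.mul_apply, ← map_mul, ← mul_inv_rev, ← mul_smul, ← pow_succ']
  apply Subtype.ext
  funext y
  obtain ⟨i, ⟨m, τ, hτ, hy⟩, -⟩ := hcov y
  rw [hy, ext_inv ρ F.2 hτ]
  have h3 := congrArg Subtype.val (congrFun (congrFun (h1 m) i) 0)
  rw [psiMap_apply, h2, Fin.val_zero, pow_zero, inv_one, map_one, Module.End.one_apply,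
    one_smul] at h3
  have h4 : F.1 (φ ^ m • x i) = 0 := by
    have h5 : ρ (φ ^ m) (ρ (φ ^ m)⁻¹ (F.1 (φ ^ m • x i))) = F.1 (φ ^ m • x i) := by
      rw [← Module.End.mul_apply, ← map_mul, mul_inv_cancel, map_one, Module.End.one_apply]
    rw [← h5, h3]
    exact map_zero _
  rw [h4, map_zero]
  rfl

lemma psiMap_surjective (hφ : ∀ g, g ∈ I ↔ φ * g * φ⁻¹ ∈ I) {ι : Type} (x : ι → X) (n : ι → ℕ)
    (ψ : ι → G) (hψ : ∀ i, ∃ τ ∈ I, ψ i = τ * φ ^ (n i + 1)) (hψx : ∀ i, ψ i • x i = x i)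
    (hmin : ∀ i m, 0 < m → m < n i + 1 → ∀ τ ∈ I, τ • φ ^ m • x i ≠ x i)
    (hcov : ∀ y : X, ∃! i, ∃ n : ℕ, ∃ τ ∈ I, y = τ • φ ^ n • x i)
    (hst' : ∀ i, ∀ z ∈ inv (I ⊓ stabilizer G (x i)) ρ, ρ (ψ i)⁻¹ z ∈
      inv (I ⊓ stabilizer G (x i)) ρ) : Function.Surjective (psiMap ρ hφ x n) := by
  classical
  intro u
  choose ix hx _ using hcov
  choose m τ hτ hy using hx
  set w : ι → ℕ → V := fun i => wv ρ (ψ i) (n i) (fun j => (u i j : V)) with hw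
  set F : X → V := fun y => ρ (τ y * φ ^ m y) (w (ix y) (m y)) with hF
  have key : ∀ (i : ι) (a : ℕ) (σ : G), σ ∈ I → F (σ • φ ^ a • x i) = ρ (σ * φ ^ a) (w i a) := by
    intro i a σ hσ
    have hi : i = ix (σ • φ ^ a • x i) := by
      rename_i huniq
      exact huniq _ i ⟨a, σ, hσ, rfl⟩
    have h1 := hy (σ • φ ^ a • x i)
    rw [← hi] at h1
    have h2 := wv_wd ρ hφ (hψ i) (hψx i) (hmin i) (fun j => (u i j : V)) (fun j => (u i j).2)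
      (hst' i) hσ (hτ (σ • φ ^ a • x i)) h1
    rw [hF]
    simp only
    rw [← hi]
    exact h2.symm
  have hFI : F ∈ inv I (ext X ρ) := by
    intro σ hσ
    funext y
    change ρ σ (F (σ⁻¹ • y)) = F y
    have h1 := hy y
    rw [h1, ← mul_smul σ⁻¹, key _ _ _ (hτ y), key _ _ _ (mul_mem (inv_mem hσ) (hτ y)),
      ← Module.End.mul_apply, ← map_mul]
    congr 2
    group
  refine ⟨⟨F, hFI⟩, ?_⟩
  funext i j
  apply Subtype.ext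
  rw [psiMap_apply]
  have h1 := key i j 1 (one_mem I)
  rw [one_smul, one_mul] at h1
  change ρ (φ ^ (j : ℕ))⁻¹ (F (φ ^ (j : ℕ) • x i)) = _
  rw [h1, ← Module.End.mul_apply, ← map_mul, inv_mul_cancel, map_one, Module.End.one_apply, hw]
  exact wv_lt ρ (ψ i) (n i) (fun j => (u i j : V)) j

/-- the Euler polynomial of the functions on a `G`-set is the product of those over the orbits -/
theorem local_factor {k G V : Type} [Field k] [Group G] [AddCommGroup V] [Module k V]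
    [FiniteDimensional k V] (ρ : Representation k G V) (X : Type) [MulAction G X] [Finite X]
    (I : Subgroup G) (φ : G) (hφ : ∀ g, g ∈ I ↔ φ * g * φ⁻¹ ∈ I)
    {ι : Type} [Fintype ι] (x : ι → X) (f : ι → ℕ) (ψ : ι → G) (hf0 : ∀ i, f i ≠ 0)
    (hψ : ∀ i, ∃ τ ∈ I, ψ i = τ * φ ^ f i) (hψx : ∀ i, ψ i • x i = x i)
    (hmin : ∀ i n, 0 < n → n < f i → ∀ τ ∈ I, τ • φ ^ n • x i ≠ x i)
    (hcov : ∀ y : X, ∃! i, ∃ n : ℕ, ∃ τ ∈ I, y = τ • φ ^ n • x i)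
    (hst : ∀ z ∈ inv I (ext X ρ), ext X ρ φ⁻¹ z ∈ inv I (ext X ρ))
    (hst' : ∀ i, ∀ z ∈ inv (I ⊓ stabilizer G (x i)) ρ, ρ (ψ i)⁻¹ z ∈ inv (I ⊓ stabilizer G (x i)) ρ) :
    (LinearMap.charpoly ((ext X ρ φ⁻¹).restrict hst)).reverse
      = ∏ i, ((LinearMap.charpoly ((ρ (ψ i)⁻¹).restrict (hst' i))).reverse).comp (Polynomial.X ^ f i) := by
  obtain ⟨n, rfl⟩ : ∃ n : ι → ℕ, f = fun i => n i + 1 :=
    ⟨fun i => f i - 1, funext fun i => (Nat.succ_pred_eq_of_ne_zero (hf0 i)).symm⟩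
  let E : inv I (ext X ρ) ≃ₗ[k] (∀ i, Fin (n i + 1) → inv (I ⊓ stabilizer G (x i)) ρ) :=
    LinearEquiv.ofBijective (psiMap ρ hφ x n)
      ⟨psiMap_injective ρ hφ x n ψ hψ hψx hcov hst hst',
        psiMap_surjective ρ hφ x n ψ hψ hψx hmin hcov hst'⟩
  have h1 : E.conj ((ext X ρ φ⁻¹).restrict hst) =
      LinearMap.pi (fun i => cycMap ((ρ (ψ i)⁻¹).restrict (hst' i)) (n i) ∘ₗ LinearMap.proj i) := by
    apply LinearMap.ext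
    intro u
    obtain ⟨F, rfl⟩ := E.surjective u
    rw [LinearEquiv.conj_apply_apply, LinearEquiv.symm_apply_apply]
    exact psiMap_phi ρ hφ x n ψ hψ hψx hst hst' F
  rw [← LinearEquiv.charpoly_conj E, h1, charpoly_pi, reverse_prod]
  apply Finset.prod_congr rfl
  intro i _
  rw [charpoly_cycMap, reverse_comp_X_pow _ _ (Nat.succ_ne_zero _)]

end main

end Pool.Agent.K4H36.BK
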