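import Mathlib
import Pool.Agent.K4H36.BK.Def
import Pool.Agent.K4H36.BK.G
import Pool.Agent.K4H36.BK.D1
import Pool.Agent.K4H43.BK.Dec

/-!
# The Euler factor of an induced representation
-/

set_option autoImplicit false
set_option linter.all false

namespace Pool.Agent.K4H36.BK

open NumberField Polynomial MulAction
open scoped Pointwise

section aux

variable {K : Type} [Field K] [NumberField K]

/-- a power of a Frobenius automorphism -/
theorem IsFrob.pow {H : Subgroup (GK K)} {W : Ideal (𝓞 (Kb K))} {q : ℕ} {φ : GK K}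
    (h : IsFrob H W q φ) (n : ℕ) :
    φ ^ n • W = W ∧ ∀ x : 𝓞 (Kb K), φ ^ n • x - x ^ (q ^ n) ∈ W := by
  refine ⟨?_, Pool.Agent.K4H40.ST.Frob.pow_frob W q φ h.2.2 n⟩
  induction n with
  | zero => rw [pow_zero, one_smul]
  | succ n ih => rw [pow_succ, mul_smul, h.2.1, ih]

/-- an element acting trivially modulo `W` preserves `W` -/
theorem inert_smul {W : Ideal (𝓞 (Kb K))} {τ : GK K} (hτ : τ ∈ inert ⊤ W) : τ • W = W := by
  ext x
  rw [Ideal.mem_pointwise_smul_iff_inv_smul_mem]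
  have h := (inv_mem hτ).2 x
  constructor
  · intro h1
    have h2 := sub_mem h1 h
    rwa [sub_sub_cancel] at h2
  · intro h1
    have h2 := add_mem h h1
    rwa [sub_add_cancel] at h2

theorem smul_mem_iff {W : Ideal (𝓞 (Kb K))} (a : GK K) (x : 𝓞 (Kb K)) :
    a • x ∈ a • W ↔ x ∈ W := by
  rw [Ideal.mem_pointwise_smul_iff_inv_smul_mem, inv_smul_smul]

/-- the inertia group of a conjugate prime -/
theorem inert_conj {W : Ideal (𝓞 (Kb K))} (a g : GK K) :
    (∀ x : 𝓞 (Kb K), g • x - x ∈ W) ↔ ∀ x : 𝓞 (Kb K), (a * g * a⁻¹) • x - x ∈ a • W := by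
  constructor
  · intro h x
    have h1 := (smul_mem_iff (W := W) a _).2 (h (a⁻¹ • x))
    rw [smul_sub, smul_inv_smul] at h1
    rwa [mul_smul, mul_smul]
  · intro h x
    have h1 := h (a • x)
    rw [mul_smul, mul_smul, inv_smul_smul, ← smul_sub] at h1
    exact (smul_mem_iff (W := W) a _).1 h1

/-- elements of the Galois group of `F` do not change the prime of `F` below -/
theorem comap_fix (F : IntermediateField K (Kb K)) (W : Ideal (𝓞 (Kb K))) (h : GK K)
    (hh : h ∈ F.fixingSubgroup) :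
    (h • W).comap (algebraMap (𝓞 F) (𝓞 (Kb K))) = W.comap (algebraMap (𝓞 F) (𝓞 (Kb K))) := by
  ext x
  have hx : h⁻¹ • (algebraMap (𝓞 F) (𝓞 (Kb K)) x) = algebraMap (𝓞 F) (𝓞 (Kb K)) x := by
    apply RingOfIntegers.ext
    exact (inv_mem hh) (x : F)
  rw [Ideal.mem_comap, Ideal.mem_comap, Ideal.mem_pointwise_smul_iff_inv_smul_mem, hx]

/-- the prime of `K` below -/
theorem comap_top (W : Ideal (𝓞 (Kb K))) (h : GK K) :
    (h • W).comap (algebraMap (𝓞 K) (𝓞 (Kb K))) = W.comap (algebraMap (𝓞 K) (𝓞 (Kb K))) := by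
  ext x
  have hx : h⁻¹ • (algebraMap (𝓞 K) (𝓞 (Kb K)) x) = algebraMap (𝓞 K) (𝓞 (Kb K)) x := by
    apply RingOfIntegers.ext
    exact (h⁻¹).commutes (x : K)
  rw [Ideal.mem_comap, Ideal.mem_comap, Ideal.mem_pointwise_smul_iff_inv_smul_mem, hx]

theorem comap_comap_F (F : IntermediateField K (Kb K)) (W : Ideal (𝓞 (Kb K))) :
    (W.comap (algebraMap (𝓞 F) (𝓞 (Kb K)))).comap (algebraMap (𝓞 K) (𝓞 F)) =
      W.comap (algebraMap (𝓞 K) (𝓞 (Kb K))) := by
  ext x
  rfl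

/-- the action of the decomposition group on the cosets of the Galois group of `F` -/
theorem dec_coset (F : IntermediateField K (Kb K)) [FiniteDimensional K F]
    {W : Ideal (𝓞 (Kb K))} (hW : W.IsMaximal) {φ : GK K}
    (h : IsFrob ⊤ W (Nat.card (𝓞 K ⧸ W.comap (algebraMap (𝓞 K) (𝓞 (Kb K))))) φ) {d : GK K}
    (hd : d • W = W) : ∃ n : ℕ, ∃ τ ∈ inert ⊤ W, ∀ x : GK K ⧸ F.fixingSubgroup,
      d • x = τ • φ ^ n • x := by
  obtain ⟨N, hFN, hN, hN2⟩ : ∃ N : IntermediateField K (Kb K), F ≤ N ∧ FiniteDimensional K N ∧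
      Normal K N := ⟨IntermediateField.normalClosure K F (Kb K), F.le_normalClosure, inferInstance,
        inferInstance⟩
  have hnor : N.fixingSubgroup.Normal := by
    rw [← IntermediateField.restrictNormalHom_ker]
    infer_instance
  obtain ⟨n, u, hu, huW, hdec⟩ := Pool.Agent.K4H43.BK.exists_dec N hW hd
  have hτ : d * u⁻¹ * (φ ^ n)⁻¹ ∈ inert ⊤ W := by
    refine ⟨Subgroup.mem_top _, fun y => ?_⟩
    have h1 := hdec (u⁻¹ • (φ ^ n)⁻¹ • y)
    rw [smul_inv_smul] at h1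
    have h2 := (h.pow n).2 ((φ ^ n)⁻¹ • y)
    rw [smul_inv_smul] at h2
    rw [mul_smul, mul_smul]
    have h3 := sub_mem h1 h2
    rwa [sub_sub_sub_cancel_right] at h3
  refine ⟨n, _, hτ, fun x => ?_⟩
  obtain ⟨g, rfl⟩ := QuotientGroup.mk_surjective x
  have hug : u • (QuotientGroup.mk g : GK K ⧸ F.fixingSubgroup) = QuotientGroup.mk g := by
    change (QuotientGroup.mk (u * g) : GK K ⧸ F.fixingSubgroup) = QuotientGroup.mk g
    rw [eq_comm, QuotientGroup.eq, ← mul_assoc]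
    have h1 := hnor.conj_mem u hu g⁻¹
    rw [inv_inv] at h1
    exact (IntermediateField.fixingSubgroup_antitone hFN) h1
  have hug' : u⁻¹ • (QuotientGroup.mk g : GK K ⧸ F.fixingSubgroup) = QuotientGroup.mk g := by
    rw [inv_smul_eq_iff, hug]
  rw [← mul_smul, inv_mul_cancel_right, mul_smul, hug']

end aux

/-- The Euler factor of `V ⊗ k[Gal(K)/Gal(F)]` at `v` is the product of the Euler factors of `V`
over `F` at the places `w` above `v`. -/
theorem euler_shapiro {K : Type} [Field K] [NumberField K] (F : IntermediateField K (Kb K))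
    [FiniteDimensional K F] {W : Ideal (𝓞 (Kb K))} (hW : W.IsMaximal) {φ : GK K}
    (h : IsFrob ⊤ W (Nat.card (𝓞 K ⧸ W.comap (algebraMap (𝓞 K) (𝓞 (Kb K))))) φ)
    {k V : Type} [Field k] [AddCommGroup V] [Module k V] [FiniteDimensional k V]
    (ρ : Representation k (GK K) V) [Finite (GK K ⧸ F.fixingSubgroup)]
    (P : Ideal (𝓞 F) → k[X]) (f : Ideal (𝓞 F) → ℕ)
    (hf : ∀ w : Ideal (𝓞 F), w.IsMaximal → w.comap (algebraMap (𝓞 K) (𝓞 F))
        = W.comap (algebraMap (𝓞 K) (𝓞 (Kb K))) →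
      Nat.card (𝓞 F ⧸ w) = Nat.card (𝓞 K ⧸ W.comap (algebraMap (𝓞 K) (𝓞 (Kb K)))) ^ f w)
    (hP : ∀ w : Ideal (𝓞 F), w.IsMaximal → w.comap (algebraMap (𝓞 K) (𝓞 F))
        = W.comap (algebraMap (𝓞 K) (𝓞 (Kb K))) →
      ∀ W' : Ideal (𝓞 (Kb K)), W'.IsMaximal → W'.comap (algebraMap (𝓞 F) (𝓞 (Kb K))) = w →
      ∀ (φ' : GK K) (h' : IsFrob F.fixingSubgroup W' (Nat.card (𝓞 F ⧸ w)) φ'),
        eulerPoly ρ h' = P w) :
    eulerPoly (ext (GK K ⧸ F.fixingSubgroup) ρ) h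
      = ∏ᶠ w ∈ {w : Ideal (𝓞 F) | w.IsMaximal ∧ w.comap (algebraMap (𝓞 K) (𝓞 F))
          = W.comap (algebraMap (𝓞 K) (𝓞 (Kb K)))}, (P w).comp (X ^ f w) := by
  set q := Nat.card (𝓞 K ⧸ W.comap (algebraMap (𝓞 K) (𝓞 (Kb K)))) with hq
  set S : Set (Ideal (𝓞 F)) := {w : Ideal (𝓞 F) | w.IsMaximal ∧
    w.comap (algebraMap (𝓞 K) (𝓞 F)) = W.comap (algebraMap (𝓞 K) (𝓞 (Kb K)))} with hS
  have : NumberField F := NumberField.of_module_finite K F
  have hintF : Algebra.IsIntegral (𝓞 F) (𝓞 (Kb K)) :=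
    ⟨fun x => (RingOfIntegers.isIntegral x).tower_top⟩
  have hintK : Algebra.IsIntegral (𝓞 K) (𝓞 (Kb K)) :=
    ⟨fun x => (RingOfIntegers.isIntegral x).tower_top⟩
  have hGalK : IsGalois K (Kb K) := by
    have : IsAlgClosure K (Kb K) := inferInstance
    exact Pool.Agent.K4H40.ST.Frob.isGal
  have hGalF : IsGalois F (Kb K) := by
    have : Algebra.IsAlgebraic F (Kb K) := Algebra.IsAlgebraic.tower_top (K := K) F
    have : IsAlgClosure F (Kb K) := ⟨inferInstance, inferInstance⟩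
    exact Pool.Agent.K4H40.ST.Frob.isGal
  have hmaxg : ∀ g : GK K, (g • W).IsMaximal := fun g => by
    rw [Ideal.pointwise_smul_eq_comap]
    exact Ideal.comap_isMaximal_of_equiv _
  -- the prime of `F` attached to an element of the group
  have hunder : ∀ g g' : GK K, g⁻¹ * g' ∈ F.fixingSubgroup →
      (g⁻¹ • W).comap (algebraMap (𝓞 F) (𝓞 (Kb K))) =
        (g'⁻¹ • W).comap (algebraMap (𝓞 F) (𝓞 (Kb K))) := by
    intro g g' hg
    have h1 : g⁻¹ • W = (g⁻¹ * g') • (g'⁻¹ • W) := by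
      rw [← mul_smul, mul_assoc, mul_inv_cancel, mul_one]
    rw [h1, comap_fix F _ _ hg]
  have hmemS : ∀ g : GK K, (g⁻¹ • W).comap (algebraMap (𝓞 F) (𝓞 (Kb K))) ∈ S := by
    intro g
    have := hmaxg g⁻¹
    refine ⟨Ideal.isMaximal_comap_of_isIntegral_of_isMaximal (g⁻¹ • W), ?_⟩
    rw [comap_comap_F, comap_top]
  have hex : ∀ w : S, ∃ g : GK K, (g⁻¹ • W).comap (algebraMap (𝓞 F) (𝓞 (Kb K))) = w := by
    rintro ⟨w, hw1, hw2⟩
    obtain ⟨W', hW', hW'w⟩ := exists_above K F w hw1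
    obtain ⟨σ, hσ⟩ := conj_primes K (Kb K) W W' hW.isPrime hW'.isPrime (by
      rw [← comap_comap_F F W', hW'w, hw2])
    exact ⟨σ⁻¹, by rw [inv_inv, ← hσ, hW'w]⟩
  choose g hg using hex
  have hfr : ∀ w : S, ∃ φ' : GK K, IsFrob F.fixingSubgroup ((g w)⁻¹ • W) (Nat.card (𝓞 F ⧸ w.1)) φ' := by
    intro w
    obtain ⟨φ', hφ'⟩ := exists_frob K F ((g w)⁻¹ • W) (hmaxg _)
    rw [hg w] at hφ'
    exact ⟨φ', hφ'⟩
  choose φ' hφ' using hfr
  -- the points
  set x : S → GK K ⧸ F.fixingSubgroup := fun w => QuotientGroup.mk (g w) with hx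
  have hxinj : Function.Injective x := by
    intro w w' hww
    have h1 := hunder _ _ (QuotientGroup.eq.1 hww)
    rw [hg, hg] at h1
    exact Subtype.ext h1
  have hfin : Finite S := Finite.of_injective x hxinj
  have : Fintype S := Fintype.ofFinite S
  set ψ : S → GK K := fun w => g w * φ' w * (g w)⁻¹ with hψdef
  have hq2 : ∀ w : S, 2 ≤ Nat.card (𝓞 F ⧸ w.1) := by
    intro w
    have hw1 := w.2.1
    have hne : w.1 ≠ ⊥ := Ring.ne_bot_of_isMaximal_of_not_isField hw1 (RingOfIntegers.not_isField F)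
    have : Finite (𝓞 F ⧸ w.1) := Ideal.finiteQuotientOfFreeOfNeBot _ hne
    have : Nontrivial (𝓞 F ⧸ w.1) := Ideal.Quotient.nontrivial_iff.2 hw1.ne_top
    exact Finite.one_lt_card
  have hf0 : ∀ w : S, f w ≠ 0 := by
    intro w h0
    have h1 := hq2 w
    rw [hf w w.2.1 w.2.2, h0, pow_zero] at h1
    omega
  have hψpow : ∀ w : S, ∀ y : 𝓞 (Kb K), ψ w • y - y ^ (q ^ f w) ∈ W := by
    intro w y
    have h1 := (hφ' w).2.2 ((g w)⁻¹ • y)
    rw [hf w w.2.1 w.2.2] at h1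
    have h2 := (smul_mem_iff (W := (g w)⁻¹ • W) (g w) _).2 h1
    rw [smul_sub, smul_pow', smul_inv_smul, smul_inv_smul, ← mul_smul, ← mul_smul] at h2
    exact h2
  have hψ : ∀ w : S, ∃ τ ∈ inert ⊤ W, ψ w = τ * φ ^ f w := by
    intro w
    refine ⟨ψ w * (φ ^ f w)⁻¹, ⟨Subgroup.mem_top _, fun y => ?_⟩, (inv_mul_cancel_right _ _).symm⟩
    have h1 := hψpow w ((φ ^ f w)⁻¹ • y)
    have h2 := (h.pow (f w)).2 ((φ ^ f w)⁻¹ • y)
    rw [smul_inv_smul] at h2
    rw [mul_smul]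
    have h3 := sub_mem h1 h2
    rwa [sub_sub_sub_cancel_right] at h3
  have hψx : ∀ w : S, ψ w • x w = x w := by
    intro w
    change (QuotientGroup.mk (g w * φ' w * (g w)⁻¹ * g w) : GK K ⧸ F.fixingSubgroup) =
      QuotientGroup.mk (g w)
    rw [inv_mul_cancel_right, eq_comm, QuotientGroup.eq, inv_mul_cancel_left]
    exact (hφ' w).1
  have hφI : ∀ a, a ∈ inert ⊤ W ↔ φ * a * φ⁻¹ ∈ inert ⊤ W := by
    intro a
    have h1 := inert_conj (W := W) φ a
    rw [h.2.1] at h1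
    exact ⟨fun ha => ⟨Subgroup.mem_top _, h1.1 ha.2⟩, fun ha => ⟨Subgroup.mem_top _, h1.2 ha.2⟩⟩
  have hmin : ∀ (w : S) (n : ℕ), 0 < n → n < f w → ∀ τ ∈ inert ⊤ W, τ • φ ^ n • x w ≠ x w := by
    intro w n hn0 hn τ hτ heq
    have hmem : (g w)⁻¹ * (τ * (φ ^ n * g w)) ∈ F.fixingSubgroup := by
      have h1 : (QuotientGroup.mk (g w) : GK K ⧸ F.fixingSubgroup) =
        QuotientGroup.mk (τ * (φ ^ n * g w)) := heq.symm
      exact QuotientGroup.eq.1 h1
    have hroot : ∀ y : 𝓞 F, y ^ (q ^ n) - y ∈ w.1 := by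
      intro y
      rw [← hg w, Ideal.mem_comap, map_sub, map_pow, Ideal.mem_pointwise_smul_iff_inv_smul_mem,
        inv_inv, smul_sub, smul_pow']
      set z : 𝓞 (Kb K) := algebraMap (𝓞 F) (𝓞 (Kb K)) y with hz
      have hfix : τ • φ ^ n • g w • z = g w • z := by
        have h1 : ((g w)⁻¹ * (τ * (φ ^ n * g w))) • z = z := by
          apply RingOfIntegers.ext
          exact hmem (y : F)
        rw [mul_smul, inv_smul_eq_iff, mul_smul, mul_smul] at h1
        exact h1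
      have h2 := hτ.2 (φ ^ n • g w • z)
      rw [hfix] at h2
      have h3 := (h.pow n).2 (g w • z)
      have h4 := add_mem h2 h3
      rw [sub_add_sub_cancel] at h4
      have h5 := neg_mem h4
      rwa [neg_sub] at h5
    have hwmax := w.2.1
    have hne : w.1 ≠ ⊥ := Ring.ne_bot_of_isMaximal_of_not_isField hwmax (RingOfIntegers.not_isField F)
    have : Finite (𝓞 F ⧸ w.1) := Ideal.finiteQuotientOfFreeOfNeBot _ hne
    letI := Ideal.Quotient.field w.1
    cases nonempty_fintype (𝓞 F ⧸ w.1)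
    have hcard : Fintype.card (𝓞 F ⧸ w.1) = q ^ f w := by
      rw [← Nat.card_eq_fintype_card, hf w w.2.1 w.2.2]
    have hq1 : 1 < q := by
      by_contra hlt
      have h1 := hq2 w
      rw [hf w w.2.1 w.2.2] at h1
      have h2 : q ^ f w ≤ 1 := by
        calc q ^ f w ≤ 1 ^ f w := Nat.pow_le_pow_left (by omega) _
          _ = 1 := one_pow _
      omega
    have hdeg : (X ^ q ^ n - X : (𝓞 F ⧸ w.1)[X]).natDegree = q ^ n :=
      FiniteField.X_pow_card_pow_sub_X_natDegree_eq _ hn0.ne' hq1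
    have hne0 : (X ^ q ^ n - X : (𝓞 F ⧸ w.1)[X]) ≠ 0 :=
      FiniteField.X_pow_card_pow_sub_X_ne_zero _ hn0.ne' hq1
    apply hne0
    refine Polynomial.eq_zero_of_natDegree_lt_card_of_eval_eq_zero' _ Finset.univ ?_ ?_
    · intro y _
      obtain ⟨y, rfl⟩ := Ideal.Quotient.mk_surjective y
      rw [eval_sub, eval_pow, eval_X, ← map_pow, ← map_sub]
      exact Ideal.Quotient.eq_zero_iff_mem.2 (hroot y)
    · rw [hdeg, Finset.card_univ, hcard]
      exact Nat.pow_lt_pow_right hq1 hn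
  have hcov : ∀ y : GK K ⧸ F.fixingSubgroup, ∃! w : S, ∃ n : ℕ, ∃ τ ∈ inert ⊤ W,
      y = τ • φ ^ n • x w := by
    intro y
    obtain ⟨a, rfl⟩ := QuotientGroup.mk_surjective y
    refine ⟨⟨_, hmemS a⟩, ?_, ?_⟩
    · set w : S := ⟨_, hmemS a⟩ with hw
      have h1 : ((g w)⁻¹ • W).comap (algebraMap (𝓞 F) (𝓞 (Kb K))) =
          (a⁻¹ • W).comap (algebraMap (𝓞 F) (𝓞 (Kb K))) := hg w
      obtain ⟨σ, hσ⟩ := conj_primes F (Kb K) ((g w)⁻¹ • W) (a⁻¹ • W) (hmaxg _).isPrime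
        (hmaxg _).isPrime h1
      set s : GK K := σ.restrictScalars K with hs
      have hsF : s ∈ F.fixingSubgroup := fun z => σ.commutes z
      have hsm : a⁻¹ • W = s • (g w)⁻¹ • W := by
        rw [hσ]
        have hsm : ∀ x : 𝓞 (Kb K), s⁻¹ • x = σ⁻¹ • x := fun x => RingOfIntegers.ext rfl
        ext z
        rw [Ideal.mem_pointwise_smul_iff_inv_smul_mem (a := s), hsm,
          ← Ideal.mem_pointwise_smul_iff_inv_smul_mem]
      have hd : (a * s * (g w)⁻¹) • W = W := by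
        rw [mul_smul, mul_smul, ← hsm, smul_inv_smul]
      obtain ⟨n, τ, hτ, hdx⟩ := dec_coset F hW h hd
      refine ⟨n, τ, hτ, ?_⟩
      rw [← hdx]
      change (QuotientGroup.mk a : GK K ⧸ F.fixingSubgroup) =
        QuotientGroup.mk (a * s * (g w)⁻¹ * g w)
      rw [inv_mul_cancel_right, QuotientGroup.eq, inv_mul_cancel_left]
      exact hsF
    · rintro w ⟨n, τ, hτ, heq⟩
      apply Subtype.ext
      have h1 : (QuotientGroup.mk a : GK K ⧸ F.fixingSubgroup) =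
        QuotientGroup.mk (τ * (φ ^ n * g w)) := heq
      have h2 := hunder _ _ (QuotientGroup.eq.1 h1)
      change w.1 = (a⁻¹ • W).comap (algebraMap (𝓞 F) (𝓞 (Kb K)))
      rw [h2, mul_inv_rev, mul_inv_rev, mul_smul, mul_smul]
      have h3 : τ⁻¹ • W = W := by rw [inv_smul_eq_iff, inert_smul hτ]
      have h4 : (φ ^ n)⁻¹ • W = W := by rw [inv_smul_eq_iff, (h.pow n).1]
      rw [h3, h4, hg]
  -- invariants
  have hmemI : ∀ (w : S) (τ : GK K), τ ∈ inert ⊤ W ⊓ stabilizer (GK K) (x w) ↔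
      (g w)⁻¹ * τ * g w ∈ inert F.fixingSubgroup ((g w)⁻¹ • W) := by
    intro w τ
    rw [Subgroup.mem_inf]
    have h1 : τ ∈ stabilizer (GK K) (x w) ↔ (g w)⁻¹ * τ * g w ∈ F.fixingSubgroup := by
      rw [mem_stabilizer_iff]
      change (QuotientGroup.mk (τ * g w) : GK K ⧸ F.fixingSubgroup) = QuotientGroup.mk (g w) ↔ _
      rw [eq_comm, QuotientGroup.eq, mul_assoc]
    have h2 := inert_conj (W := W) (g w)⁻¹ τ
    rw [inv_inv] at h2
    rw [h1]
    constructor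
    · rintro ⟨ha, hb⟩
      exact ⟨hb, h2.1 ha.2⟩
    · rintro ⟨hb, ha⟩
      exact ⟨⟨Subgroup.mem_top _, h2.2 ha⟩, hb⟩
  have hinv : ∀ (w : S) (z : V), z ∈ inv (inert ⊤ W ⊓ stabilizer (GK K) (x w)) ρ ↔
      ρ (g w)⁻¹ z ∈ inv (inert F.fixingSubgroup ((g w)⁻¹ • W)) ρ := by
    intro w z
    constructor
    · intro hz a ha
      have h1 : g w * a * (g w)⁻¹ ∈ inert ⊤ W ⊓ stabilizer (GK K) (x w) := by
        rw [hmemI]
        have h2 : (g w)⁻¹ * (g w * a * (g w)⁻¹) * g w = a := by group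
        rw [h2]
        exact ha
      have h2 := hz _ h1
      have h3 : ρ a (ρ (g w)⁻¹ z) = ρ (g w)⁻¹ (ρ (g w * a * (g w)⁻¹) z) := by
        rw [← Module.End.mul_apply, ← Module.End.mul_apply, ← map_mul, ← map_mul]
        congr 2
        group
      rw [h3, h2]
    · intro hz a ha
      have h1 := hz _ ((hmemI w a).1 ha)
      have h3 : ρ ((g w)⁻¹ * a * g w) (ρ (g w)⁻¹ z) = ρ (g w)⁻¹ (ρ a z) := by
        rw [← Module.End.mul_apply, ← Module.End.mul_apply, ← map_mul, ← map_mul]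
        congr 2
        group
      rw [h3] at h1
      have h4 := congrArg (ρ (g w)) h1
      have h5 : ∀ z : V, ρ (g w) (ρ (g w)⁻¹ z) = z := fun z => by
        rw [← Module.End.mul_apply, ← map_mul, mul_inv_cancel, map_one, Module.End.one_apply]
      rw [h5, h5] at h4
      exact h4
  have hcomm : ∀ (w : S) (z : V), ρ (g w)⁻¹ (ρ (ψ w)⁻¹ z) = ρ (φ' w)⁻¹ (ρ (g w)⁻¹ z) := by
    intro w z
    rw [← Module.End.mul_apply, ← Module.End.mul_apply, ← map_mul, ← map_mul]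
    congr 2
    simp only [hψdef]
    group
  have hst' : ∀ w : S, ∀ z ∈ inv (inert ⊤ W ⊓ stabilizer (GK K) (x w)) ρ,
      ρ (ψ w)⁻¹ z ∈ inv (inert ⊤ W ⊓ stabilizer (GK K) (x w)) ρ := by
    intro w z hz
    rw [hinv, hcomm]
    exact (hφ' w).stable ρ _ ((hinv w z).1 hz)
  have key := local_factor ρ (GK K ⧸ F.fixingSubgroup) (inert ⊤ W) φ hφI x (fun w : S => f w) ψ hf0
    hψ hψx hmin hcov (h.stable (ext (GK K ⧸ F.fixingSubgroup) ρ)) hst'
  have hterm : ∀ w : S, (LinearMap.charpoly ((ρ (ψ w)⁻¹).restrict (hst' w))).reverse = P w := by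
    intro w
    rw [← hP w w.2.1 w.2.2 _ (hmaxg _) (hg w) (φ' w) (hφ' w)]
    unfold eulerPoly
    congr 1
    let e : inv (inert ⊤ W ⊓ stabilizer (GK K) (x w)) ρ ≃ₗ[k]
        inv (inert F.fixingSubgroup ((g w)⁻¹ • W)) ρ :=
      { toFun := fun z => ⟨ρ (g w)⁻¹ z, (hinv w z).1 z.2⟩
        map_add' := fun a b => Subtype.ext (map_add _ _ _)
        map_smul' := fun c a => Subtype.ext (map_smul _ _ _)
        invFun := fun z => ⟨ρ (g w) z, (hinv w _).2 (by
          rw [← Module.End.mul_apply, ← map_mul, inv_mul_cancel, map_one, Module.End.one_apply]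
          exact z.2)⟩
        left_inv := fun z => Subtype.ext (by
          change ρ (g w) (ρ (g w)⁻¹ z) = z
          rw [← Module.End.mul_apply, ← map_mul, mul_inv_cancel, map_one, Module.End.one_apply])
        right_inv := fun z => Subtype.ext (by
          change ρ (g w)⁻¹ (ρ (g w) z) = z
          rw [← Module.End.mul_apply, ← map_mul, inv_mul_cancel, map_one, Module.End.one_apply]) }
    rw [← LinearEquiv.charpoly_conj e]
    congr 1
    apply LinearMap.ext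
    intro z
    obtain ⟨z, rfl⟩ := e.surjective z
    rw [LinearEquiv.conj_apply_apply, LinearEquiv.symm_apply_apply]
    exact Subtype.ext (hcomm w z)
  unfold eulerPoly
  rw [key, ← finprod_set_coe_eq_finprod_mem, finprod_eq_prod_of_fintype]
  exact Finset.prod_congr rfl fun w _ => by rw [hterm w]

end Pool.Agent.K4H36.BK
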