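import Mathlib

/-!
# Additive functionals of finite `G`-sets and relations between the numbers of fixed points
-/

set_option autoImplicit false
namespace Pool.Agent.K4H36.BK
open MulAction

/-- the number of fixed points -/
noncomputable def nfix {G : Type} [Group G] (X : Type) [MulAction G X] (g : G) : ℕ :=
  Nat.card {x : X // g • x = x}

lemma nfix_sum {G : Type} [Group G] (X Y : Type) [MulAction G X] [MulAction G Y] [Finite X]
    [Finite Y] (g : G) :
    nfix (X ⊕ Y) g = nfix X g + nfix Y g := by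
  unfold nfix
  rw [← Nat.card_sum]
  refine Nat.card_congr ?_
  refine ⟨fun p => match p with
      | ⟨Sum.inl x, h⟩ => Sum.inl ⟨x, Sum.inl.inj h⟩
      | ⟨Sum.inr y, h⟩ => Sum.inr ⟨y, Sum.inr.inj h⟩,
    fun p => match p with
      | Sum.inl x => ⟨Sum.inl x.1, congrArg Sum.inl x.2⟩
      | Sum.inr y => ⟨Sum.inr y.1, congrArg Sum.inr y.2⟩, ?_, ?_⟩
  · rintro ⟨x | y, h⟩ <;> rfl
  · rintro (x | y) <;> rfl

lemma nfix_empty {G : Type} [Group G] (X : Type) [MulAction G X] [IsEmpty X] (g : G) :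
    nfix X g = 0 := by
  unfold nfix
  exact Nat.card_of_isEmpty

/-- Additive functionals of finite `G`-sets which depend only on the numbers of fixed points respect
the relations between them. -/
theorem assemble {G : Type} [Group G] {A : Type*} [AddCommMonoid A]
    (δ : ∀ (X : Type) [MulAction G X] [Finite X], A)
    (hsum : ∀ (X Y : Type) [MulAction G X] [MulAction G Y] [Finite X] [Finite Y],
      δ (X ⊕ Y) = δ X + δ Y)
    (hcongr : ∀ (X Y : Type) [MulAction G X] [MulAction G Y] [Finite X] [Finite Y],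
      (∀ g : G, nfix X g = nfix Y g) → δ X = δ Y)
    (hempty : ∀ (X : Type) [MulAction G X] [Finite X], IsEmpty X → δ X = 0)
    {ι : Type} [Fintype ι] (X : ι → Type) [∀ i, MulAction G (X i)] [∀ i, Finite (X i)]
    (m : ℕ) (n n' : ι → ℕ) (P : Type) [MulAction G P] [Finite P] (hP : ∀ g : G, nfix P g = 1)
    (h : ∀ g : G, m + ∑ i, n i * nfix (X i) g = ∑ i, n' i * nfix (X i) g) :
    m • δ P + ∑ i, n i • δ (X i) = ∑ i, n' i • δ (X i) := by
  classical
  have h0 : ∃ (Z : Type) (_ : MulAction G Z) (_ : Finite Z), (∀ g : G, nfix Z g = 0) ∧ δ Z = 0 := by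
    letI : MulAction G Empty :=
      { smul := fun _ x => x
        one_smul := fun _ => rfl
        mul_smul := fun _ _ _ => rfl }
    exact ⟨Empty, inferInstance, inferInstance, fun g => nfix_empty Empty g,
      hempty Empty inferInstance⟩
  have hadd : ∀ (Y Z : Type) (_ : MulAction G Y) (_ : MulAction G Z) (_ : Finite Y) (_ : Finite Z),
      ∃ (U : Type) (_ : MulAction G U) (_ : Finite U),
        (∀ g : G, nfix U g = nfix Y g + nfix Z g) ∧ δ U = δ Y + δ Z := by
    intro Y Z _ _ _ _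
    exact ⟨Y ⊕ Z, inferInstance, inferInstance, fun g => nfix_sum Y Z g, hsum Y Z⟩
  have hmul : ∀ (Y : Type) (_ : MulAction G Y) (_ : Finite Y) (k : ℕ),
      ∃ (Z : Type) (_ : MulAction G Z) (_ : Finite Z),
        (∀ g : G, nfix Z g = k * nfix Y g) ∧ δ Z = k • δ Y := by
    intro Y _ _ k
    induction k with
    | zero =>
      obtain ⟨Z, i1, i2, h1, h2⟩ := h0
      exact ⟨Z, i1, i2, fun g => by rw [h1, zero_mul], by rw [h2, zero_smul]⟩
    | succ k ih =>
      obtain ⟨Z, i1, i2, h1, h2⟩ := ih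
      obtain ⟨U, j1, j2, h3, h4⟩ := hadd Z Y i1 inferInstance i2 inferInstance
      exact ⟨U, j1, j2, fun g => by rw [h3, h1]; ring, by rw [h4, h2, add_smul, one_smul]⟩
  have hfam : ∀ (k : ι → ℕ) (s : Finset ι), ∃ (Z : Type) (_ : MulAction G Z) (_ : Finite Z),
      (∀ g : G, nfix Z g = ∑ i ∈ s, k i * nfix (X i) g) ∧ δ Z = ∑ i ∈ s, k i • δ (X i) := by
    intro k s
    induction s using Finset.induction_on with
    | empty =>
      obtain ⟨Z, i1, i2, h1, h2⟩ := h0
      exact ⟨Z, i1, i2, fun g => by rw [h1, Finset.sum_empty], by rw [h2, Finset.sum_empty]⟩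
    | insert a s ha ih =>
      obtain ⟨Z, i1, i2, h1, h2⟩ := ih
      obtain ⟨Y, j1, j2, h3, h4⟩ := hmul (X a) inferInstance inferInstance (k a)
      obtain ⟨U, l1, l2, h5, h6⟩ := hadd Y Z j1 i1 j2 i2
      exact ⟨U, l1, l2, fun g => by rw [h5, h3, h1, Finset.sum_insert ha],
        by rw [h6, h4, h2, Finset.sum_insert ha]⟩
  obtain ⟨Z1, i1, i2, h1, h2⟩ := hfam n Finset.univ
  obtain ⟨Z2, j1, j2, h3, h4⟩ := hfam n' Finset.univ
  obtain ⟨Q, l1, l2, h5, h6⟩ := hmul P inferInstance inferInstance m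
  obtain ⟨U, k1, k2, h7, h8⟩ := hadd Q Z1 l1 i1 l2 i2
  rw [← h2, ← h4, ← h6, ← h8]
  refine hcongr U Z2 fun g => ?_
  rw [h7, h5, h1, h3, hP, mul_one, h]

end Pool.Agent.K4H36.BK
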