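import Mathlib
import Pool.Agent.K4H36.BK.E

/-!
# Additive functionals of finite `G`-sets
-/

set_option autoImplicit false
namespace Pool.Agent.K4H36.BK
open MulAction

/-- Additive functionals of finite `G`-sets which depend only on the numbers of fixed points respect
the relations between them. -/
theorem assemble' {G : Type} [Group G] {A : Type*} [AddCommMonoid A]
    (δ : ∀ (X : Type) [MulAction G X] [Finite X], A)
    (hsum : ∀ (X Y Z : Type) [MulAction G X] [MulAction G Y] [MulAction G Z] [Finite X] [Finite Y]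
      [Finite Z] (i : X → Z) (j : Y → Z), (∀ (g : G) x, i (g • x) = g • i x) →
      (∀ (g : G) y, j (g • y) = g • j y) → Function.Bijective (Sum.elim i j) → δ Z = δ X + δ Y)
    (hcongr : ∀ (X Y : Type) [MulAction G X] [MulAction G Y] [Finite X] [Finite Y],
      (∀ g : G, nfix X g = nfix Y g) → δ X = δ Y)
    (hempty : ∀ (X : Type) [MulAction G X] [Finite X], IsEmpty X → δ X = 0)
    {ι : Type} [Fintype ι] (X : ι → Type) [∀ i, MulAction G (X i)] [∀ i, Finite (X i)]
    (m : ℕ) (n n' : ι → ℕ) (P : Type) [MulAction G P] [Finite P] (hP : ∀ g : G, nfix P g = 1)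
    (h : ∀ g : G, m + ∑ i, n i * nfix (X i) g = ∑ i, n' i * nfix (X i) g) :
    m • δ P + ∑ i, n i • δ (X i) = ∑ i, n' i • δ (X i) := by
  classical
  have h0 : ∃ (Z : Type) (_ : MulAction G Z) (_ : Finite Z), (∀ g : G, nfix Z g = 0) ∧ δ Z = 0 := by
    letI : MulAction G Empty :=
      { smul := fun _ x => x
        one_smul := fun _ => rfl
        mul_smul := fun _ _ _ => rfl }
    exact ⟨Empty, inferInstance, inferInstance, fun g => nfix_empty Empty g,
      hempty Empty inferInstance⟩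
  have hadd : ∀ (Y Z : Type) (_ : MulAction G Y) (_ : MulAction G Z) (_ : Finite Y) (_ : Finite Z),
      ∃ (U : Type) (_ : MulAction G U) (_ : Finite U),
        (∀ g : G, nfix U g = nfix Y g + nfix Z g) ∧ δ U = δ Y + δ Z := by
    intro Y Z _ _ _ _
    exact ⟨Y ⊕ Z, inferInstance, inferInstance, fun g => nfix_sum Y Z g,
      hsum Y Z (Y ⊕ Z) Sum.inl Sum.inr (fun _ _ => rfl)
        (fun _ _ => rfl) (by rw [Sum.elim_inl_inr]; exact Function.bijective_id)⟩
  have hmul : ∀ (Y : Type) (_ : MulAction G Y) (_ : Finite Y) (k : ℕ),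
      ∃ (Z : Type) (_ : MulAction G Z) (_ : Finite Z),
        (∀ g : G, nfix Z g = k * nfix Y g) ∧ δ Z = k • δ Y := by
    intro Y _ _ k
    induction k with
    | zero =>
      obtain ⟨Z, i1, i2, h1, h2⟩ := h0
      exact ⟨Z, i1, i2, fun g => by rw [h1, zero_mul], by rw [h2, zero_smul]⟩
    | succ k ih =>
      obtain ⟨Z, i1, i2, h1, h2⟩ := ih
      obtain ⟨U, j1, j2, h3, h4⟩ := hadd Z Y i1 inferInstance i2 inferInstance
      exact ⟨U, j1, j2, fun g => by rw [h3, h1]; ring, by rw [h4, h2, add_smul, one_smul]⟩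
  have hfam : ∀ (k : ι → ℕ) (s : Finset ι), ∃ (Z : Type) (_ : MulAction G Z) (_ : Finite Z),
      (∀ g : G, nfix Z g = ∑ i ∈ s, k i * nfix (X i) g) ∧ δ Z = ∑ i ∈ s, k i • δ (X i) := by
    intro k s
    induction s using Finset.induction_on with
    | empty =>
      obtain ⟨Z, i1, i2, h1, h2⟩ := h0
      exact ⟨Z, i1, i2, fun g => by rw [h1, Finset.sum_empty], by rw [h2, Finset.sum_empty]⟩
    | insert a s ha ih =>
      obtain ⟨Z, i1, i2, h1, h2⟩ := ih
      obtain ⟨Y, j1, j2, h3, h4⟩ := hmul (X a) inferInstance inferInstance (k a)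
      obtain ⟨U, l1, l2, h5, h6⟩ := hadd Y Z j1 i1 j2 i2
      exact ⟨U, l1, l2, fun g => by rw [h5, h3, h1, Finset.sum_insert ha],
        by rw [h6, h4, h2, Finset.sum_insert ha]⟩
  obtain ⟨Z1, i1, i2, h1, h2⟩ := hfam n Finset.univ
  obtain ⟨Z2, j1, j2, h3, h4⟩ := hfam n' Finset.univ
  obtain ⟨Q, l1, l2, h5, h6⟩ := hmul P inferInstance inferInstance m
  obtain ⟨U, k1, k2, h7, h8⟩ := hadd Q Z1 l1 i1 l2 i2
  rw [← h2, ← h4, ← h6, ← h8]
  refine hcongr U Z2 fun g => ?_
  rw [h7, h5, h1, h3, hP, mul_one, h]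

end Pool.Agent.K4H36.BK
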