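import Mathlib
import Pool.Agent.K4H36.BK.Def

/-!
# The order formula
-/

set_option autoImplicit false

namespace Pool.Agent.K4H36.BK

open NumberField Polynomial IsDedekindDomain
open scoped Pointwise

/-- a family of `p`-adic representations of the absolute Galois group of `K`, one for every prime
`p` (for example the `p`-adic realisations of a Chow motive) -/
structure Fam (K : Type) [Field K] where
  /-- the spaces -/
  V : ∀ (p : ℕ) [Fact p.Prime], Type
  [grp : ∀ (p : ℕ) [Fact p.Prime], AddCommGroup (V p)]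
  [mod : ∀ (p : ℕ) [Fact p.Prime], Module ℚ_[p] (V p)]
  [fin : ∀ (p : ℕ) [Fact p.Prime], FiniteDimensional ℚ_[p] (V p)]
  /-- the actions -/
  ρ : ∀ (p : ℕ) [Fact p.Prime], Representation ℚ_[p] Gal(AlgebraicClosure K/K) (V p)

attribute [instance] Fam.grp Fam.mod Fam.fin

/-- the Euler factor `P_w(N w ^ (-s))⁻¹` -/
noncomputable def factor {F : Type} [Field F] (P : HeightOneSpectrum (𝓞 F) → ℚ[X]) (s : ℂ)
    (w : HeightOneSpectrum (𝓞 F)) : ℂ :=
  (aeval ((Nat.card (𝓞 F ⧸ w.asIdeal) : ℂ) ^ (-s)) (P w))⁻¹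

/-- **The Bloch–Kato order formula** over the field `F` for the family `V`, where the L-function is
meromorphic on `U`. -/
def OrderFormula {K : Type} [Field K] (V : Fam K) (𝔅 : ∀ (p : ℕ) [Fact p.Prime], Period K ℚ_[p])
    (F : IntermediateField K (AlgebraicClosure K)) (U : Set ℂ) : Prop :=
  ∃ P : HeightOneSpectrum (𝓞 F) → ℚ[X],
    -- the Euler polynomials are rational and independent of `ℓ`
    (∀ (w : HeightOneSpectrum (𝓞 F)) (ℓ : ℕ) [Fact ℓ.Prime], (ℓ : 𝓞 F) ∉ w.asIdeal →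
      ∀ W : Ideal (𝓞 (AlgebraicClosure K)), W.IsMaximal →
      W.comap (algebraMap (𝓞 F) (𝓞 (AlgebraicClosure K))) = w.asIdeal →
      ∀ (φ : Gal(AlgebraicClosure K/K))
        (h : IsFrob F.fixingSubgroup W (Nat.card (𝓞 F ⧸ w.asIdeal)) φ),
        eulerPoly (V.ρ ℓ) h = (P w).map (algebraMap ℚ ℚ_[ℓ])) ∧
    -- the L-function is meromorphic on `U`
    ∃ (c : ℝ) (L : ℂ → ℂ), {s : ℂ | c < s.re} ⊆ U ∧ MeromorphicOn L U ∧
      (∀ s : ℂ, c < s.re → (∀ w, factor P s w ≠ 0) ∧ HasProd (factor P s) (L s)) ∧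
      -- the order at `s = 0`
      ∀ (p : ℕ) [Fact p.Prime],
        ∃ n : ℕ, SelmerDim p F.fixingSubgroup (𝔅 p) (V.ρ p) n ∧
          meromorphicOrderAt L 0 = (((n : ℤ) - invDim F.fixingSubgroup (V.ρ p) : ℤ) : WithTop ℤ)

/-- The inertia group of the prime `W` over the field fixed by `H` acts on all `V_ℓ` with `ℓ` not in
`W` by automorphisms `u` with `(u - 1) ^ k = 0`: for `k = 1` the family has good reduction
at `W`, and for `k` the dimension it has semistable reduction at `W`. -/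
def Reduction {K : Type} [Field K] (V : Fam K) (k : ℕ) (H : Subgroup Gal(AlgebraicClosure K/K))
    (W : Ideal (𝓞 (AlgebraicClosure K))) : Prop :=
  ∀ (ℓ : ℕ) [Fact ℓ.Prime], (ℓ : 𝓞 (AlgebraicClosure K)) ∉ W → Unipotent k (inert H W) (V.ρ ℓ)

end Pool.Agent.K4H36.BK
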