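import Mathlib
import Pool.Agent.K4H36.BK.Def

/-!
# Places of a finite extension above the places of the base field
-/

set_option autoImplicit false
namespace Pool.Agent.K4H36.BK
open NumberField IsDedekindDomain

variable {K : Type} [Field K] [NumberField K] (F : IntermediateField K (Kb K))
  [FiniteDimensional K F]

/-- there are finitely many places of `F` above a place of `K` -/
theorem finite_fibre (v : HeightOneSpectrum (𝓞 K)) :
    {w : HeightOneSpectrum (𝓞 F) |
      w.asIdeal.comap (algebraMap (𝓞 K) (𝓞 F)) = v.asIdeal}.Finite := by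
  have : NumberField F := NumberField.of_module_finite K F
  have hmax : v.asIdeal.IsMaximal := v.isMaximal
  have hf := IsDedekindDomain.primesOver_finite v.asIdeal (𝓞 F)
  refine Set.Finite.of_finite_image (f := fun w : HeightOneSpectrum (𝓞 F) => w.asIdeal)
    (hf.subset ?_) ?_
  · rintro _ ⟨w, hw, rfl⟩
    exact ⟨w.isPrime, ⟨hw.symm⟩⟩
  · intro w _ w' _ h
    exact HeightOneSpectrum.ext h

/-- the factors of a convergent product over the places of `F`, grouped by the places of `K` -/
theorem euler_fibre (t : HeightOneSpectrum (𝓞 F) → ℂ) (a : ℂ) (h : HasProd t a) :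
    HasProd (fun v : HeightOneSpectrum (𝓞 K) => ∏ᶠ w ∈ {w : HeightOneSpectrum (𝓞 F) |
      w.asIdeal.comap (algebraMap (𝓞 K) (𝓞 F)) = v.asIdeal}, t w) a := by
  classical
  have : NumberField F := NumberField.of_module_finite K F
  set π : HeightOneSpectrum (𝓞 F) → HeightOneSpectrum (𝓞 K) := fun w => w.under (𝓞 K) with hπ
  have hset : ∀ v : HeightOneSpectrum (𝓞 K), {w : HeightOneSpectrum (𝓞 F) |
      w.asIdeal.comap (algebraMap (𝓞 K) (𝓞 F)) = v.asIdeal} = {w | π w = v} := by
    intro v
    ext w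
    simp only [Set.mem_setOf_eq, hπ]
    rw [HeightOneSpectrum.ext_iff]
    rfl
  have h2 : HasProd (t ∘ Equiv.sigmaFiberEquiv π) a := (Equiv.hasProd_iff _).2 h
  refine h2.sigma fun v => ?_
  have hfin : Finite {w : HeightOneSpectrum (𝓞 F) // π w = v} := by
    have h3 := finite_fibre F v
    rw [hset v] at h3
    exact h3.to_subtype
  have : Fintype {w : HeightOneSpectrum (𝓞 F) // π w = v} := Fintype.ofFinite _
  have h4 : (∏ᶠ w ∈ {w : HeightOneSpectrum (𝓞 F) |
      w.asIdeal.comap (algebraMap (𝓞 K) (𝓞 F)) = v.asIdeal}, t w) =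
      ∏ w : {w : HeightOneSpectrum (𝓞 F) // π w = v}, t w := by
    rw [hset v, ← finprod_eq_prod_of_fintype]
    exact (finprod_set_coe_eq_finprod_mem {w : HeightOneSpectrum (𝓞 F) | π w = v}).symm
  rw [h4]
  exact hasProd_fintype _

/-- the residue degree -/
theorem card_pow (w : Ideal (𝓞 F)) (hw : w.IsMaximal) : ∃ n : ℕ, n ≠ 0 ∧
    Nat.card (𝓞 F ⧸ w) = Nat.card (𝓞 K ⧸ w.comap (algebraMap (𝓞 K) (𝓞 F))) ^ n := by
  have : NumberField F := NumberField.of_module_finite K F
  set u : Ideal (𝓞 K) := w.comap (algebraMap (𝓞 K) (𝓞 F)) with hu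
  have hlies : w.LiesOver u := ⟨rfl⟩
  have hmax : u.IsMaximal := Ideal.isMaximal_comap_of_isIntegral_of_isMaximal w
  letI : Field (𝓞 K ⧸ u) := Ideal.Quotient.field u
  letI : Field (𝓞 F ⧸ w) := Ideal.Quotient.field w
  have hfin : Module.Finite (𝓞 K) (𝓞 F) := inferInstance
  have hfin2 : Module.Finite (𝓞 K ⧸ u) (𝓞 F ⧸ w) := inferInstance
  refine ⟨Module.finrank (𝓞 K ⧸ u) (𝓞 F ⧸ w), ?_, Module.natCard_eq_pow_finrank⟩
  exact Module.finrank_pos.ne'

/-- the Galois group of a finite extension is open of finite index -/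
theorem isOpen_fix : IsOpen (F.fixingSubgroup : Set (GK K)) :=
  IntermediateField.fixingSubgroup_isOpen F

theorem finite_cosets : Finite (GK K ⧸ F.fixingSubgroup) :=
  Subgroup.quotient_finite_of_isOpen _ (isOpen_fix F)

end Pool.Agent.K4H36.BK
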