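import Mathlib

/-! Finite sets with an action of a group and with the same numbers of fixed points for every element
of the group have isomorphic permutation modules over the rational numbers (author: helper3). -/

set_option autoImplicit false
namespace Pool.Agent.K4H36.BK
open Representation Module

section avg
variable {G V W : Type*} [Group G] [Fintype G] [AddCommGroup V] [Module ℚ V] [AddCommGroup W] [Module ℚ W]

/-- the average of a linear map over the group -/
noncomputable def avg (ρ : Representation ℚ G V) (σ : Representation ℚ G W) (p : V →ₗ[ℚ] W) :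
    V →ₗ[ℚ] W := (Fintype.card G : ℚ)⁻¹ • ∑ g : G, σ g⁻¹ ∘ₗ p ∘ₗ ρ g

lemma avg_apply (ρ : Representation ℚ G V) (σ : Representation ℚ G W) (p : V →ₗ[ℚ] W) (v : V) :
    avg ρ σ p v = (Fintype.card G : ℚ)⁻¹ • ∑ g : G, σ g⁻¹ (p (ρ g v)) := by
  simp [avg]

lemma avg_comm (ρ : Representation ℚ G V) (σ : Representation ℚ G W) (p : V →ₗ[ℚ] W) (a : G) (v : V) :
    avg ρ σ p (ρ a v) = σ a (avg ρ σ p v) := by
  rw [avg_apply, avg_apply, map_smul, map_sum]
  congr 1
  refine Fintype.sum_equiv (Equiv.mulRight a) _ _ (fun g => ?_)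
  simp only [Equiv.coe_mulRight, mul_inv_rev, map_mul, Module.End.mul_apply]
  rw [← Module.End.mul_apply (σ a), ← map_mul, mul_inv_cancel, map_one, Module.End.one_apply]

lemma card_inv_smul_sum (w : V) : (Fintype.card G : ℚ)⁻¹ • ∑ _g : G, w = w := by
  rw [Finset.sum_const, Finset.card_univ, ← Nat.cast_smul_eq_nsmul ℚ, smul_smul,
    inv_mul_cancel₀ (by exact_mod_cast Fintype.card_ne_zero), one_smul]

end avg

/-- representations of a finite group over the rationals with the same character are isomorphic -/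
theorem iso_of_char {G V W : Type*} [Group G] [Fintype G] [AddCommGroup V] [Module ℚ V]
    [AddCommGroup W] [Module ℚ W] [FiniteDimensional ℚ V] [FiniteDimensional ℚ W]
    (ρ : Representation ℚ G V) (σ : Representation ℚ G W) (hc : ρ.character = σ.character) :
    ∃ e : V ≃ₗ[ℚ] W, ∀ (g : G) (v : V), e (ρ g v) = σ g (e v) := by
  classical
  have hinv : Invertible (Nat.card G : ℚ) :=
    invertibleOfNonzero (by exact_mod_cast Nat.card_pos.ne')
  have hdim : finrank ℚ V = finrank ℚ W := by
    have h := congrFun hc 1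
    rw [char_one, char_one] at h
    exact_mod_cast h
  -- a map of maximal rank
  obtain ⟨n, ⟨f, hf⟩, hn⟩ : ∃ n, (∃ f : IntertwiningMap ρ σ, finrank ℚ (LinearMap.range f.toLinearMap) = n) ∧
      ∀ f : IntertwiningMap ρ σ, finrank ℚ (LinearMap.range f.toLinearMap) ≤ n := by
    have hb : ∃ n, ∀ f : IntertwiningMap ρ σ, finrank ℚ (LinearMap.range f.toLinearMap) ≤ n :=
      ⟨finrank ℚ W, fun f => Submodule.finrank_le _⟩
    have h1 := Nat.find_spec hb
    rcases Nat.eq_zero_or_pos (Nat.find hb) with h0 | h0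
    · refine ⟨0, ⟨0, ?_⟩, ?_⟩
      · have := h1 0
        omega
      · intro f
        have := h1 f
        omega
    · have h2 := Nat.find_min hb (m := Nat.find hb - 1) (by omega)
      push Not at h2
      obtain ⟨f, hf⟩ := h2
      exact ⟨Nat.find hb, ⟨f, le_antisymm (h1 f) (by omega)⟩, h1⟩
  have hfe : ∀ (g : G) (v : V), f.toLinearMap (ρ g v) = σ g (f.toLinearMap v) := fun g v =>
    IntertwiningMap.isIntertwining ρ σ f g v
  set F : V →ₗ[ℚ] W := f.toLinearMap with hF
  by_cases hK : LinearMap.ker F = ⊥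
  · refine ⟨LinearEquiv.ofInjectiveOfFinrankEq F (LinearMap.ker_eq_bot.1 hK) hdim, fun g v => ?_⟩
    exact hfe g v
  exfalso
  set K := LinearMap.ker F with hKd
  have hKi : ∀ (g : G) (v : V), v ∈ K → ρ g v ∈ K := by
    intro g v hv
    rw [hKd, LinearMap.mem_ker] at hv ⊢
    rw [hfe, hv, map_zero]
  let ρK : Representation ℚ G K :=
    { toFun := fun g => (ρ g).restrict (hKi g)
      map_one' := by ext; simp
      map_mul' := fun x y => by ext; simp }
  have hρK : ∀ (g : G) (k : K), ((ρK g k : K) : V) = ρ g k := fun g k => rfl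
  have hfin : finrank ℚ (IntertwiningMap ρK ρ) = finrank ℚ (IntertwiningMap ρK σ) := by
    have h1 := card_inv_mul_sum_char_mul_char_eq_finrank ρK ρ
    have h2 := card_inv_mul_sum_char_mul_char_eq_finrank ρK σ
    rw [hc, h2] at h1
    exact_mod_cast h1.symm
  let Φ : IntertwiningMap ρK ρ →ₗ[ℚ] IntertwiningMap ρK σ :=
    { toFun := fun h => f.comp h
      map_add' := fun a b => by
        apply IntertwiningMap.ext
        ext v
        simp
      map_smul' := fun c a => by
        apply IntertwiningMap.ext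
        ext v
        simp }
  have hninj : ¬ Function.Injective Φ := by
    intro hinj
    let ι : IntertwiningMap ρK ρ := ⟨K.subtype, fun g => by ext v; rfl⟩
    have h0 : Φ ι = Φ 0 := by
      apply IntertwiningMap.ext
      ext v
      have hv : F (v : V) = 0 := LinearMap.mem_ker.1 v.2
      change F (v : V) = F ((0 : V))
      rw [hv, map_zero]
    have h1 := hinj h0
    obtain ⟨v, hv, hv0⟩ := (Submodule.ne_bot_iff K).1 hK
    apply hv0
    have := congrArg (fun t : IntertwiningMap ρK ρ => t.toLinearMap ⟨v, hv⟩) h1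
    simpa [ι] using this
  have hnsur : ¬ Function.Surjective Φ := fun hs =>
    hninj ((LinearMap.injective_iff_surjective_of_finrank_eq_finrank hfin).2 hs)
  unfold Function.Surjective at hnsur
  push Not at hnsur
  obtain ⟨g0, hg0⟩ := hnsur
  have hge : ∀ (g : G) (v : K), g0.toLinearMap (ρK g v) = σ g (g0.toLinearMap v) := fun g v =>
    IntertwiningMap.isIntertwining ρK σ g0 g v
  -- an equivariant section over the range
  obtain ⟨s, hs⟩ : ∃ s : W →ₗ[ℚ] V, ∀ w ∈ LinearMap.range F, F (s w) = w := by
    obtain ⟨s0, hs0⟩ := F.rangeRestrict.exists_rightInverse_of_surjective F.range_rangeRestrict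
    obtain ⟨s, hs⟩ := LinearMap.exists_extend s0
    refine ⟨s, fun w hw => ?_⟩
    have h1 : s w = s0 ⟨w, hw⟩ := by rw [← hs]; rfl
    rw [h1]
    have h2 := congrArg (fun t => ((t ⟨w, hw⟩ : LinearMap.range F) : W)) hs0
    simpa using h2
  have hrange : ∀ (g : G) (w : W), w ∈ LinearMap.range F → σ g w ∈ LinearMap.range F := by
    rintro g w ⟨v, rfl⟩
    exact ⟨ρ g v, hfe g v⟩
  have hsa : ∀ w ∈ LinearMap.range F, F (avg σ ρ s w) = w := by
    intro w hw
    rw [avg_apply, map_smul, map_sum]
    have : ∀ g : G, F (ρ g⁻¹ (s (σ g w))) = w := by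
      intro g
      rw [hfe, hs _ (hrange g w hw), ← Module.End.mul_apply, ← map_mul, inv_mul_cancel, map_one,
        Module.End.one_apply]
    rw [Finset.sum_congr rfl (fun g _ => this g), card_inv_smul_sum]
  obtain ⟨k0, hk0⟩ : ∃ k0 : K, g0.toLinearMap k0 ∉ LinearMap.range F := by
    by_contra hcon
    push Not at hcon
    let h : IntertwiningMap ρK ρ := ⟨avg σ ρ s ∘ₗ g0.toLinearMap, fun g => by
      ext v
      simp only [LinearMap.comp_apply]
      rw [hge, avg_comm]⟩
    apply hg0 h
    apply IntertwiningMap.ext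
    ext v
    exact hsa _ (hcon v)
  -- an equivariant projection to the kernel
  obtain ⟨p, hp⟩ := K.subtype.exists_leftInverse_of_injective K.ker_subtype
  have hpa : ∀ k : K, avg ρ ρK p k = k := by
    intro k
    rw [avg_apply]
    have : ∀ g : G, ρK g⁻¹ (p (ρ g k)) = k := by
      intro g
      have h1 : p (ρ g k) = ρK g k := by
        have := congrArg (fun t => t (ρK g k)) hp
        exact this
      rw [h1, ← Module.End.mul_apply, ← map_mul, inv_mul_cancel, map_one, Module.End.one_apply]
    rw [Finset.sum_congr rfl (fun g _ => this g), card_inv_smul_sum]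
  set π := avg ρ ρK p with hπ
  let f' : IntertwiningMap ρ σ := ⟨F + g0.toLinearMap ∘ₗ π, fun g => by
    ext v
    simp only [LinearMap.comp_apply, LinearMap.add_apply]
    rw [hfe, hπ, avg_comm, hge, map_add]⟩
  have hlt : LinearMap.range F < LinearMap.range f'.toLinearMap := by
    rw [SetLike.lt_iff_le_and_exists]
    refine ⟨?_, g0.toLinearMap k0, ⟨(k0 : V), ?_⟩, hk0⟩
    · rintro _ ⟨v, rfl⟩
      refine ⟨v - (π v : V), ?_⟩
      change F (v - (π v : V)) + g0.toLinearMap (π (v - (π v : V))) = F v
      have h1 : F ((π v : K) : V) = 0 := LinearMap.mem_ker.1 (π v).2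
      rw [map_sub, map_sub, h1, hpa, sub_self, map_zero, sub_zero, add_zero]
    · change F (k0 : V) + g0.toLinearMap (π (k0 : V)) = g0.toLinearMap k0
      rw [hpa, LinearMap.mem_ker.1 k0.2, zero_add]
  have h1 := Submodule.finrank_lt_finrank_of_lt hlt
  have h2 := hn f'
  omega

section perm
variable {G X : Type} [Group G] [MulAction G X]

/-- the permutation module -/
noncomputable def permRep (G X : Type) [Group G] [MulAction G X] : Representation ℚ G (X → ℚ) where
  toFun g := LinearMap.funLeft ℚ ℚ (fun x => g⁻¹ • x)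
  map_one' := by
    ext f x
    simp [LinearMap.funLeft_apply]
  map_mul' a b := by
    apply LinearMap.ext
    intro f
    ext x
    simp [LinearMap.funLeft_apply, mul_smul]

lemma permRep_apply (g : G) (f : X → ℚ) (x : X) : permRep G X g f x = f (g⁻¹ • x) := rfl

lemma permRep_single [DecidableEq X] (g : G) (x : X) :
    permRep G X g (Pi.single x 1) = Pi.single (g • x) 1 := by
  ext y
  rw [permRep_apply, Pi.single_apply, Pi.single_apply]
  congr 1
  rw [inv_smul_eq_iff]

lemma permRep_char [Fintype X] [DecidableEq X] (g : G) :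
    (permRep G X).character g = (Nat.card {x : X // g • x = x} : ℚ) := by
  rw [character, LinearMap.trace_eq_matrix_trace ℚ (Pi.basisFun ℚ X), Matrix.trace]
  simp only [Matrix.diag_apply, LinearMap.toMatrix_apply, Pi.basisFun_apply, Pi.basisFun_repr]
  rw [Nat.card_eq_fintype_card, Fintype.card_subtype, Finset.card_filter]
  push_cast
  refine Finset.sum_congr rfl (fun x _ => ?_)
  rw [permRep_single, Pi.single_apply]
  congr 1
  exact propext ⟨fun h => h.symm, fun h => h.symm⟩

end perm

theorem perm_iso_fin (G : Type) [Group G] [Fintype G] (X Y : Type) [Fintype X] [Fintype Y] [DecidableEq X]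
    [DecidableEq Y] [MulAction G X] [MulAction G Y]
    (h : ∀ g : G, Nat.card {x : X // g • x = x} = Nat.card {y : Y // g • y = y}) :
    ∃ (A : Y → X → ℚ) (B : X → Y → ℚ),
      (∀ (g : G) (y : Y) (x : X), A (g • y) (g • x) = A y x) ∧
      (∀ (g : G) (x : X) (y : Y), B (g • x) (g • y) = B x y) ∧
      (∀ y y', ∑ x, A y x * B x y' = if y = y' then 1 else 0) ∧
      (∀ x x', ∑ y, B x y * A y x' = if x = x' then 1 else 0) := by
  obtain ⟨e, he⟩ := iso_of_char (permRep G X) (permRep G Y) (by
    ext g
    rw [permRep_char, permRep_char, h])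
  have he' : ∀ (g : G) (w : Y → ℚ), e.symm (permRep G Y g w) = permRep G X g (e.symm w) := by
    intro g w
    rw [LinearEquiv.symm_apply_eq, he, LinearEquiv.apply_symm_apply]
  have hexp : ∀ (f : X → ℚ) (y : Y), e f y = ∑ x, e (Pi.single x 1) y * f x := by
    intro f y
    have h1 : f = ∑ x, f x • (Pi.single x 1 : X → ℚ) := by
      ext z
      simp [Finset.sum_apply, Pi.single_apply]
    conv_lhs => rw [h1]
    rw [map_sum, Finset.sum_apply]
    refine Finset.sum_congr rfl (fun x _ => ?_)
    rw [map_smul, Pi.smul_apply, smul_eq_mul, mul_comm]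
  have hexp' : ∀ (f : Y → ℚ) (x : X), e.symm f x = ∑ y, e.symm (Pi.single y 1) x * f y := by
    intro f x
    have h1 : f = ∑ y, f y • (Pi.single y 1 : Y → ℚ) := by
      ext z
      simp [Finset.sum_apply, Pi.single_apply]
    conv_lhs => rw [h1]
    rw [map_sum, Finset.sum_apply]
    refine Finset.sum_congr rfl (fun y _ => ?_)
    rw [map_smul, Pi.smul_apply, smul_eq_mul, mul_comm]
  refine ⟨fun y x => e (Pi.single x 1) y, fun x y => e.symm (Pi.single y 1) x, ?_, ?_, ?_, ?_⟩
  · intro g y x
    simp only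
    rw [← permRep_single, he, permRep_apply, inv_smul_smul]
  · intro g x y
    simp only
    rw [← permRep_single, he', permRep_apply, inv_smul_smul]
  · intro y y'
    rw [← hexp, LinearEquiv.apply_symm_apply, Pi.single_apply]
  · intro x x'
    rw [← hexp', LinearEquiv.symm_apply_apply, Pi.single_apply]

/-- Finite `G`-sets with the same number of fixed points for every element of `G` have isomorphic
permutation modules over `ℚ`. -/
theorem perm_iso (G : Type) [Group G] (X Y : Type) [Fintype X] [Fintype Y] [DecidableEq X]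
    [DecidableEq Y] [MulAction G X] [MulAction G Y]
    (h : ∀ g : G, Nat.card {x : X // g • x = x} = Nat.card {y : Y // g • y = y}) :
    ∃ (A : Y → X → ℚ) (B : X → Y → ℚ),
      (∀ (g : G) (y : Y) (x : X), A (g • y) (g • x) = A y x) ∧
      (∀ (g : G) (x : X) (y : Y), B (g • x) (g • y) = B x y) ∧
      (∀ y y', ∑ x, A y x * B x y' = if y = y' then 1 else 0) ∧
      (∀ x x', ∑ y, B x y * A y x' = if x = x' then 1 else 0) := by
  classical
  let φ : G →* Equiv.Perm X × Equiv.Perm Y :=
    (MulAction.toPermHom G X).prod (MulAction.toPermHom G Y)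
  let H : Subgroup (Equiv.Perm X × Equiv.Perm Y) := φ.range
  let _ : Fintype H := Fintype.ofFinite H
  let _ : MulAction H X := MulAction.compHom X ((MonoidHom.fst (Equiv.Perm X) (Equiv.Perm Y)).comp H.subtype)
  let _ : MulAction H Y := MulAction.compHom Y ((MonoidHom.snd (Equiv.Perm X) (Equiv.Perm Y)).comp H.subtype)
  have hX : ∀ (g : G) (x : X), (⟨φ g, g, rfl⟩ : H) • x = g • x := fun g x => rfl
  have hY : ∀ (g : G) (y : Y), (⟨φ g, g, rfl⟩ : H) • y = g • y := fun g y => rfl
  obtain ⟨A, B, hA, hB, h1, h2⟩ := perm_iso_fin H X Y (by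
    rintro ⟨_, g, rfl⟩
    simp only [hX, hY]
    exact h g)
  refine ⟨A, B, fun g y x => ?_, fun g x y => ?_, h1, h2⟩
  · have := hA ⟨φ g, g, rfl⟩ y x
    rwa [hX, hY] at this
  · have := hB ⟨φ g, g, rfl⟩ x y
    rwa [hX, hY] at this

end Pool.Agent.K4H36.BK
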