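import Mathlib

/-!
# Two lemmas on polynomials
-/

set_option autoImplicit false
namespace Pool.Agent.K4H36.BK
open Polynomial

/-- uniqueness of the `m`-th root with constant term one -/
theorem root_unique {k : Type} [Field k] [CharZero k] {P Q : k[X]} (hP : P.coeff 0 = 1)
    (hQ : Q.coeff 0 = 1) {m : ℕ} (hm : m ≠ 0) (h : P ^ m = Q ^ m) : P = Q := by
  have h1 := (Commute.all P Q).geom_sum₂_mul m
  have h2 : (∑ i ∈ Finset.range m, P ^ i * Q ^ (m - 1 - i)) * (P - Q) = 0 := by
    rw [h1, h, sub_self]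
  rcases mul_eq_zero.1 h2 with h3 | h3
  · exfalso
    have h4 := congrArg (fun p : k[X] => p.coeff 0) h3
    simp only [finset_sum_coeff, coeff_zero] at h4
    have h5 : ∀ i ∈ Finset.range m, (P ^ i * Q ^ (m - 1 - i)).coeff 0 = 1 := by
      intro i _
      rw [mul_coeff_zero, coeff_zero_eq_eval_zero, coeff_zero_eq_eval_zero, eval_pow, eval_pow,
        ← coeff_zero_eq_eval_zero, ← coeff_zero_eq_eval_zero, hP, hQ, one_pow, one_pow, mul_one]
    rw [Finset.sum_congr rfl h5, Finset.sum_const, Finset.card_range, nsmul_eq_mul, mul_one] at h4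
    exact hm (Nat.cast_eq_zero.1 h4)
  · exact sub_eq_zero.1 h3

/-- the coefficients of an `m`-th root with constant term one of a rational polynomial are
rational -/
theorem root_rat {k : Type} [Field k] [CharZero k] {P : k[X]} (hP : P.coeff 0 = 1) {C : ℚ[X]}
    {m : ℕ} (hm : m ≠ 0) (h : P ^ m = C.map (algebraMap ℚ k)) :
    ∀ n, ∃ q : ℚ, P.coeff n = algebraMap ℚ k q := by
  intro n
  induction n using Nat.strong_induction_on with
  | _ n ih =>
  rcases Nat.eq_zero_or_pos n with rfl | hn
  · exact ⟨1, by rw [hP, map_one]⟩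
  -- the truncation
  have ih' : ∀ i, ∃ q : ℚ, i < n → P.coeff i = algebraMap ℚ k q := by
    intro i
    by_cases hi : i < n
    · obtain ⟨q, hq⟩ := ih i hi
      exact ⟨q, fun _ => hq⟩
    · exact ⟨0, fun h => absurd h hi⟩
  choose q hq using ih'
  let S₀ : ℚ[X] := ∑ i ∈ Finset.range n, monomial i (q i)
  let S : k[X] := S₀.map (algebraMap ℚ k)
  have hScoeff : ∀ i, S.coeff i = if i < n then P.coeff i else 0 := by
    intro i
    change (S₀.map (algebraMap ℚ k)).coeff i = _
    rw [coeff_map]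
    change algebraMap ℚ k ((∑ j ∈ Finset.range n, monomial j (q j)).coeff i) = _
    rw [finset_sum_coeff]
    simp only [coeff_monomial]
    rw [Finset.sum_ite_eq' (Finset.range n) i q]
    by_cases hi : i < n
    · rw [if_pos (Finset.mem_range.2 hi), if_pos hi, hq i hi]
    · rw [if_neg (fun h => hi (Finset.mem_range.1 h)), if_neg hi, map_zero]
  have hdvd : X ^ n ∣ P - S := by
    rw [X_pow_dvd_iff]
    intro d hd
    rw [coeff_sub, hScoeff, if_pos hd, sub_self]
  obtain ⟨R, hR⟩ := hdvd
  have hR0 : R.coeff 0 = P.coeff n := by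
    have h1 := congrArg (fun p : k[X] => p.coeff n) hR
    simp only [coeff_sub, hScoeff, lt_irrefl, if_false, sub_zero] at h1
    rw [h1, mul_comm, coeff_mul_X_pow']
    simp
  have hS0 : S.coeff 0 = 1 := by rw [hScoeff, if_pos hn, hP]
  have h1 := (Commute.all P S).geom_sum₂_mul m
  set T : k[X] := ∑ i ∈ Finset.range m, P ^ i * S ^ (m - 1 - i) with hT
  have hT0 : T.coeff 0 = m := by
    rw [hT, finset_sum_coeff]
    have h5 : ∀ i ∈ Finset.range m, (P ^ i * S ^ (m - 1 - i)).coeff 0 = 1 := by
      intro i _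
      rw [mul_coeff_zero, coeff_zero_eq_eval_zero, coeff_zero_eq_eval_zero, eval_pow, eval_pow,
        ← coeff_zero_eq_eval_zero, ← coeff_zero_eq_eval_zero, hP, hS0, one_pow, one_pow, mul_one]
    rw [Finset.sum_congr rfl h5, Finset.sum_const, Finset.card_range, nsmul_eq_mul, mul_one]
  have h2 : (P ^ m - S ^ m).coeff n = m * P.coeff n := by
    rw [← h1, hR, ← mul_assoc, mul_comm T, mul_assoc, mul_comm, coeff_mul_X_pow']
    simp [mul_coeff_zero, hT0, hR0]
  refine ⟨(C.coeff n - (S₀ ^ m).coeff n) / m, ?_⟩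
  have h3 : (P ^ m - S ^ m).coeff n = algebraMap ℚ k (C.coeff n - (S₀ ^ m).coeff n) := by
    rw [coeff_sub, h, coeff_map, map_sub]
    congr 1
    change ((S₀.map (algebraMap ℚ k)) ^ m).coeff n = _
    rw [← Polynomial.map_pow, coeff_map]
  have hm' : (m : k) ≠ 0 := Nat.cast_ne_zero.2 hm
  rw [map_div₀, map_natCast, ← h3, h2, mul_div_cancel_left₀ _ hm']

/-- Polynomials with constant term `1` over fields of characteristic zero whose `m`-th power is a
quotient of rational polynomials are rational, and the same over all the fields. -/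
theorem rat_root {ι : Type} [Nonempty ι] (F : ι → Type) [∀ j, Field (F j)] [∀ j, CharZero (F j)]
    (P : ∀ j, (F j)[X]) (h0 : ∀ j, (P j).coeff 0 = 1) (A B : ℚ[X]) (hA : A.coeff 0 = 1) {m : ℕ}
    (hm : m ≠ 0)
    (h : ∀ j, P j ^ m * A.map (algebraMap ℚ (F j)) = B.map (algebraMap ℚ (F j))) :
    ∃ P₀ : ℚ[X], P₀.coeff 0 = 1 ∧ (∀ j, P j = P₀.map (algebraMap ℚ (F j))) ∧ P₀ ^ m * A = B := by
  have hA0 : A ≠ 0 := by
    rintro rfl
    rw [coeff_zero] at hA
    exact zero_ne_one hA
  obtain ⟨j0⟩ := ‹Nonempty ι›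
  have hdvd : A ∣ B := by
    rw [← Polynomial.map_dvd_map' (algebraMap ℚ (F j0))]
    exact ⟨P j0 ^ m, by rw [← h j0, mul_comm]⟩
  obtain ⟨C, hC⟩ := hdvd
  have hP : ∀ j, P j ^ m = C.map (algebraMap ℚ (F j)) := by
    intro j
    have h1 := h j
    rw [hC, Polynomial.map_mul, mul_comm] at h1
    exact mul_left_cancel₀ ((Polynomial.map_ne_zero_iff (algebraMap ℚ (F j)).injective).2 hA0) h1
  -- the root over the first field
  have h2 := root_rat (h0 j0) hm (hP j0)
  choose q hq using h2
  let P₀ : ℚ[X] := ∑ i ∈ Finset.range ((P j0).natDegree + 1), monomial i (q i)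
  have hP0 : P j0 = P₀.map (algebraMap ℚ (F j0)) := by
    ext i
    rw [coeff_map]
    change _ = algebraMap ℚ (F j0) ((∑ j ∈ Finset.range ((P j0).natDegree + 1),
      monomial j (q j)).coeff i)
    rw [finset_sum_coeff]
    simp only [coeff_monomial]
    rw [Finset.sum_ite_eq' (Finset.range ((P j0).natDegree + 1)) i q]
    by_cases hi : i < (P j0).natDegree + 1
    · rw [if_pos (Finset.mem_range.2 hi), hq]
    · rw [if_neg (fun h => hi (Finset.mem_range.1 h)), map_zero,
        coeff_eq_zero_of_natDegree_lt (by omega)]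
  have hinj : Function.Injective (algebraMap ℚ (F j0)) := (algebraMap ℚ (F j0)).injective
  have hpow : P₀ ^ m = C := by
    apply Polynomial.map_injective _ hinj
    rw [Polynomial.map_pow, ← hP0, hP]
  have hc0 : P₀.coeff 0 = 1 := by
    apply hinj
    rw [← coeff_map, ← hP0, h0, map_one]
  refine ⟨P₀, hc0, fun j => ?_, by rw [hpow, hC, mul_comm]⟩
  refine root_unique (h0 j) (by rw [coeff_map, hc0, map_one]) hm ?_
  rw [hP, ← Polynomial.map_pow, hpow]

/-- the reversed characteristic polynomial `det (1 - f T)` is multiplicative and invariant under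
conjugation -/
theorem charpolyRev_prod {k : Type} [Field k] {V W U : Type} [AddCommGroup V] [Module k V]
    [AddCommGroup W] [Module k W] [AddCommGroup U] [Module k U]
    [FiniteDimensional k V] [FiniteDimensional k W] [FiniteDimensional k U]
    (f : V →ₗ[k] V) (g : W →ₗ[k] W) (u : U →ₗ[k] U) (e : U ≃ₗ[k] V × W)
    (he : ∀ x, e (u x) = (f (e x).1, g (e x).2)) :
    (LinearMap.charpoly u).reverse =
      (LinearMap.charpoly f).reverse * (LinearMap.charpoly g).reverse := by
  have h1 : e.conj u = f.prodMap g := by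
    ext x <;> simp [LinearEquiv.conj_apply, he]
  rw [← reverse_mul_of_domain, ← LinearMap.charpoly_prodMap, ← h1, LinearEquiv.charpoly_conj]

end Pool.Agent.K4H36.BK
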