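import Mathlib

/-!
Convergence of Euler products in a half plane: general index sets (helper32).
-/

set_option autoImplicit false

namespace Pool.Agent.K4H36.BK.T4G

open Polynomial Filter Topology

/-- products of factors near `1` -/
lemma prod_sub_one (x : ℝ) (hx : 0 ≤ x) (u : ℂ → ℂ) (M : Multiset ℂ) (hM : ∀ a ∈ M, ‖u a‖ ≤ x) :
    ‖(M.map (fun a => 1 - u a)).prod - 1‖ ≤ (1 + x) ^ M.card - 1 := by
  induction M using Multiset.induction with
  | empty => simp
  | cons a M ih =>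
    have h1 := ih (fun b hb => hM b (Multiset.mem_cons_of_mem hb))
    have h2 := hM a (Multiset.mem_cons_self a M)
    rw [Multiset.map_cons, Multiset.prod_cons, Multiset.card_cons]
    set p := (M.map (fun a => 1 - u a)).prod with hp
    have h3 : ‖p‖ ≤ (1 + x) ^ M.card := by
      calc ‖p‖ = ‖(p - 1) + 1‖ := by ring_nf
        _ ≤ ‖p - 1‖ + ‖(1 : ℂ)‖ := norm_add_le _ _
        _ ≤ _ := by rw [norm_one]; linarith
    calc ‖(1 - u a) * p - 1‖ = ‖(p - 1) - u a * p‖ := by ring_nf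
      _ ≤ ‖p - 1‖ + ‖u a * p‖ := norm_sub_le _ _
      _ = ‖p - 1‖ + ‖u a‖ * ‖p‖ := by rw [norm_mul]
      _ ≤ ((1 + x) ^ M.card - 1) + x * (1 + x) ^ M.card :=
        add_le_add h1 (mul_le_mul h2 h3 (norm_nonneg _) hx)
      _ = (1 + x) ^ (M.card + 1) - 1 := by ring

lemma prod_ge (x : ℝ) (_hx : 0 ≤ x) (hx1 : x ≤ 1) (u : ℂ → ℂ) (M : Multiset ℂ)
    (hM : ∀ a ∈ M, ‖u a‖ ≤ x) :
    (1 - x) ^ M.card ≤ ‖(M.map (fun a => 1 - u a)).prod‖ := by
  induction M using Multiset.induction with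
  | empty => simp
  | cons a M ih =>
    have h1 := ih (fun b hb => hM b (Multiset.mem_cons_of_mem hb))
    have h2 := hM a (Multiset.mem_cons_self a M)
    rw [Multiset.map_cons, Multiset.prod_cons, Multiset.card_cons, norm_mul, pow_succ']
    have h3 : 1 - x ≤ ‖1 - u a‖ := by
      have := norm_sub_norm_le (1 : ℂ) (u a)
      rw [norm_one] at this
      linarith
    exact mul_le_mul h3 h1 (pow_nonneg (by linarith) _) (norm_nonneg _)

lemma pow_le_lin (d : ℕ) (x : ℝ) (hx : 0 ≤ x) (hx1 : x ≤ 1) : (1 + x) ^ d ≤ 1 + x * (2 ^ d - 1) := by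
  induction d with
  | zero => simp
  | succ d ih =>
    have h2 : (1 : ℝ) ≤ 2 ^ d := one_le_pow₀ (by norm_num)
    calc (1 + x) ^ (d + 1) = (1 + x) ^ d * (1 + x) := pow_succ _ _
      _ ≤ (1 + x * (2 ^ d - 1)) * (1 + x) := mul_le_mul_of_nonneg_right ih (by linarith)
      _ = 1 + x + x * (2 ^ d - 1) + x * (x * (2 ^ d - 1)) := by ring
      _ ≤ 1 + x + x * (2 ^ d - 1) + 1 * (x * (2 ^ d - 1)) := by
        have h3 : 0 ≤ x * ((2 : ℝ) ^ d - 1) := mul_nonneg hx (by linarith)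
        nlinarith [mul_nonneg h3 (sub_nonneg.2 hx1)]
      _ = 1 + x * (2 ^ (d + 1) - 1) := by ring

lemma poly_bound (P : ℂ[X]) (d : ℕ) (R : ℝ) (hR : 0 < R) (h0 : P.coeff 0 = 1)
    (hd : P.natDegree ≤ d) (hr : ∀ z, P.IsRoot z → R ≤ ‖z‖) (z : ℂ) (x : ℝ) (hx0 : 0 ≤ x)
    (hx : x ≤ 1 / 2) (hz : ‖z‖ ≤ x * R) :
    ‖P.eval z - 1‖ ≤ 2 ^ d * x ∧ (1 / 2) ^ d ≤ ‖P.eval z‖ := by
  have hP : P ≠ 0 := by
    intro h
    rw [h] at h0
    simp at h0
  have hne : ∀ a ∈ P.roots, a ≠ 0 := by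
    intro a ha h
    have := hr a ((mem_roots hP).1 ha)
    rw [h, norm_zero] at this
    linarith
  have hs : P.Splits := IsAlgClosed.splits P
  have he : ∀ y, P.eval y = P.leadingCoeff * (P.roots.map (fun a => y - a)).prod := by
    intro y
    exact hs.eval_eq_prod_roots y
  have h1 : P.eval z = (P.roots.map (fun a => 1 - z / a)).prod := by
    have e1 : (P.roots.map (fun a => z - a)).prod =
        (P.roots.map (fun a => 0 - a)).prod * (P.roots.map (fun a => 1 - z / a)).prod := by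
      rw [← Multiset.prod_map_mul]
      congr 1
      apply Multiset.map_congr rfl
      intro a ha
      have := hne a ha
      field_simp
      ring
    have e2 : P.leadingCoeff * (P.roots.map (fun a => 0 - a)).prod = 1 := by
      rw [← he 0, ← coeff_zero_eq_eval_zero, h0]
    rw [he z, e1, ← mul_assoc, e2, one_mul]
  have hu : ∀ a ∈ P.roots, ‖z / a‖ ≤ x := by
    intro a ha
    have h2 := hr a ((mem_roots hP).1 ha)
    have h3 : 0 < ‖a‖ := hR.trans_le h2
    rw [norm_div, div_le_iff₀ h3]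
    exact hz.trans (mul_le_mul_of_nonneg_left h2 hx0)
  have hc : P.roots.card ≤ d := (card_roots' P).trans hd
  rw [h1]
  constructor
  · refine (prod_sub_one x hx0 (fun a => z / a) P.roots hu).trans ?_
    have h2 : (1 + x) ^ P.roots.card ≤ (1 + x) ^ d := pow_le_pow_right₀ (by linarith) hc
    have h3 := pow_le_lin d x hx0 (by linarith)
    nlinarith
  · have h2 := prod_ge x hx0 (by linarith) (fun a => z / a) P.roots hu
    refine le_trans ?_ h2
    calc (1 / 2 : ℝ) ^ d ≤ (1 / 2) ^ P.roots.card :=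
          pow_le_pow_of_le_one (by norm_num) (by norm_num) hc
      _ ≤ (1 - x) ^ P.roots.card := pow_le_pow_left₀ (by norm_num) (by linarith) _

section general

variable {ι : Type*} (N : ι → ℕ) (P : ι → ℂ[X]) (d : ℕ) (w : ℝ)

/-- the factor -/
noncomputable def eulG (s : ℂ) (i : ι) : ℂ := ((P i).eval ((N i : ℂ) ^ (-s)))⁻¹

variable {N P d w}

lemma factor_bound (hN : ∀ i, 2 ≤ N i) (h0 : ∀ i, (P i).coeff 0 = 1)
    (hd : ∀ i, (P i).natDegree ≤ d) (hr : ∀ i z, (P i).IsRoot z → (N i : ℝ) ^ (-w) ≤ ‖z‖)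
    (s : ℂ) (hs : w + 1 < s.re) (i : ι) :
    (P i).eval ((N i : ℂ) ^ (-s)) ≠ 0 ∧ ‖eulG N P s i - 1‖ ≤ 4 ^ d * (N i : ℝ) ^ (-(s.re - w)) := by
  have hNi : (2 : ℝ) ≤ N i := by exact_mod_cast hN i
  have hNpos : (0 : ℝ) < N i := by linarith
  set x : ℝ := (N i : ℝ) ^ (-(s.re - w)) with hx
  have hx0 : 0 < x := Real.rpow_pos_of_pos hNpos _
  have hx1 : x ≤ 1 / 2 := by
    calc x ≤ (2 : ℝ) ^ (-(s.re - w)) :=
          Real.rpow_le_rpow_of_nonpos (by norm_num) hNi (by linarith)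
      _ ≤ (2 : ℝ) ^ (-1 : ℝ) := Real.rpow_le_rpow_of_exponent_le (by norm_num) (by linarith)
      _ = 1 / 2 := by rw [Real.rpow_neg_one]; norm_num
  have hz : ‖(N i : ℂ) ^ (-s)‖ = x * (N i : ℝ) ^ (-w) := by
    rw [hx, ← Real.rpow_add hNpos]
    have h1 : ‖((N i : ℝ) : ℂ) ^ (-s)‖ = (N i : ℝ) ^ (-s).re :=
      Complex.norm_cpow_eq_rpow_re_of_pos hNpos _
    have h2 : ((N i : ℝ) : ℂ) = (N i : ℂ) := by simp
    rw [h2] at h1
    rw [h1, Complex.neg_re]
    congr 1
    ring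
  obtain ⟨hb1, hb2⟩ := poly_bound (P i) d ((N i : ℝ) ^ (-w)) (Real.rpow_pos_of_pos hNpos _) (h0 i)
    (hd i) (hr i) ((N i : ℂ) ^ (-s)) x hx0.le hx1 hz.le
  set y := (P i).eval ((N i : ℂ) ^ (-s)) with hy
  have hyp : (0 : ℝ) < ‖y‖ := lt_of_lt_of_le (by positivity) hb2
  have hy0 : y ≠ 0 := norm_pos_iff.1 hyp
  refine ⟨hy0, ?_⟩
  have e : eulG N P s i - 1 = (1 - y) / y := by
    rw [eulG, ← hy]
    field_simp
  rw [e, norm_div, div_le_iff₀ hyp]
  have h4 : (4 : ℝ) ^ d * (1 / 2) ^ d = 2 ^ d := by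
    rw [← mul_pow]
    norm_num
  calc ‖1 - y‖ = ‖y - 1‖ := norm_sub_rev _ _
    _ ≤ 2 ^ d * x := hb1
    _ = 4 ^ d * x * (1 / 2) ^ d := by rw [← h4]; ring
    _ ≤ 4 ^ d * x * ‖y‖ := mul_le_mul_of_nonneg_left hb2 (by positivity)

lemma factor_bound' (hN : ∀ i, 2 ≤ N i) (h0 : ∀ i, (P i).coeff 0 = 1)
    (hd : ∀ i, (P i).natDegree ≤ d) (hr : ∀ i z, (P i).IsRoot z → (N i : ℝ) ^ (-w) ≤ ‖z‖)
    (s : ℂ) (e : ℝ) (he : 0 < e) (hs : w + 1 + e < s.re) (i : ι) :
    ‖eulG N P s i - 1‖ ≤ 4 ^ d * (N i : ℝ) ^ (-(1 + e)) := by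
  refine (factor_bound hN h0 hd hr s (by linarith) i).2.trans ?_
  have hNi : (1 : ℝ) ≤ N i := by exact_mod_cast (by have := hN i; omega : 1 ≤ N i)
  exact mul_le_mul_of_nonneg_left
    (Real.rpow_le_rpow_of_exponent_le hNi (by linarith)) (by positivity)

theorem general (hN : ∀ i, 2 ≤ N i)
    (hsum : ∀ t : ℝ, 1 < t → Summable (fun i => (N i : ℝ) ^ (-t)))
    (h0 : ∀ i, (P i).coeff 0 = 1)
    (hd : ∀ i, (P i).natDegree ≤ d) (hr : ∀ i z, (P i).IsRoot z → (N i : ℝ) ^ (-w) ≤ ‖z‖) :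
    (∀ s : ℂ, w + 1 < s.re → Multipliable (eulG N P s)) ∧
    (∀ s : ℂ, w + 1 < s.re → ∏' v, eulG N P s v ≠ 0) ∧
    DifferentiableOn ℂ (fun s => ∏' v, eulG N P s v) {s : ℂ | w + 1 < s.re} := by
  have hS : ∀ s : ℂ, w + 1 < s.re → Summable (fun i => ‖eulG N P s i - 1‖) := by
    intro s hs
    refine Summable.of_nonneg_of_le (fun _ => norm_nonneg _)
      (fun i => (factor_bound hN h0 hd hr s hs i).2) ?_
    exact (hsum (s.re - w) (by linarith)).mul_left _
  have hadd : ∀ s : ℂ, (fun i => 1 + (eulG N P s i - 1)) = eulG N P s := by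
    intro s
    funext i
    ring
  refine ⟨fun s hs => ?_, fun s hs => ?_, ?_⟩
  · have := multipliable_one_add_of_summable (hS s hs)
    rwa [hadd s] at this
  · have h1 : ∀ i, 1 + (eulG N P s i - 1) ≠ 0 := by
      intro i
      rw [add_sub_cancel, eulG]
      exact inv_ne_zero (factor_bound hN h0 hd hr s hs i).1
    have := tprod_one_add_ne_zero_of_summable h1 (hS s hs)
    rwa [hadd s] at this
  · intro s0 hs0
    have hs0' : w + 1 < s0.re := hs0
    set e : ℝ := (s0.re - (w + 1)) / 2 with he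
    have he0 : 0 < e := by rw [he]; linarith
    set U : Set ℂ := {s : ℂ | w + 1 + e < s.re} with hU
    have hUo : IsOpen U := isOpen_lt continuous_const Complex.continuous_re
    have hs0U : s0 ∈ U := by
      show w + 1 + e < s0.re
      rw [he]
      linarith
    have hdiff : ∀ i, DifferentiableOn ℂ (fun s => eulG N P s i) U := by
      intro i s hs
      have hs' : w + 1 + e < s.re := hs
      have hNi : (N i : ℂ) ≠ 0 := by
        have := hN i
        exact_mod_cast (by omega : N i ≠ 0)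
      have h1 : DifferentiableAt ℂ (fun s : ℂ => (N i : ℂ) ^ (-s)) s :=
        (differentiableAt_id.neg).const_cpow (Or.inl hNi)
      have h2 : DifferentiableAt ℂ (fun s : ℂ => (P i).eval ((N i : ℂ) ^ (-s))) s :=
        ((P i).differentiable _).comp s h1
      exact (h2.inv (factor_bound hN h0 hd hr s (by linarith) i).1).differentiableWithinAt
    have hloc : HasProdLocallyUniformlyOn (fun i s => 1 + (eulG N P s i - 1))
        (fun s => ∏' i, (1 + (eulG N P s i - 1))) U := by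
      refine Summable.hasProdLocallyUniformlyOn_one_add hUo
        ((hsum (1 + e) (by linarith)).mul_left (4 ^ d)) ?_ ?_
      · exact Filter.Eventually.of_forall fun i s hs =>
          factor_bound' hN h0 hd hr s e he0 hs i
      · intro i
        exact ((hdiff i).sub_const 1).continuousOn
    have hloc2 : TendstoLocallyUniformlyOn (fun (T : Finset ι) s => ∏ i ∈ T, eulG N P s i)
        (fun s => ∏' i, eulG N P s i) atTop U := by
      have := hasProdLocallyUniformlyOn_iff_tendstoLocallyUniformlyOn.1 hloc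
      simpa using this
    have hD : DifferentiableOn ℂ (fun s => ∏' i, eulG N P s i) U := by
      refine hloc2.differentiableOn (Filter.Eventually.of_forall fun T => ?_) hUo
      exact DifferentiableOn.fun_finsetProd (fun i _ => hdiff i)
    exact ((hD s0 hs0U).differentiableAt (hUo.mem_nhds hs0U)).differentiableWithinAt

end general

end Pool.Agent.K4H36.BK.T4G
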