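import Mathlib
import Pool.Agent.K4H74.SC.Sum
import Pool.Agent.K4H36.BK.T4G

/-!
Convergence of Euler products over the primes of a number field in a half plane (helper32).
-/

set_option autoImplicit false

namespace Pool.Agent.K4H36.BK

open NumberField IsDedekindDomain Polynomial

variable (K : Type) [Field K] [NumberField K]

/-- the Euler factor -/
noncomputable def eul (P : HeightOneSpectrum (𝓞 K) → ℂ[X]) (s : ℂ) (v : HeightOneSpectrum (𝓞 K)) : ℂ :=
  ((P v).eval ((Ideal.absNorm v.asIdeal : ℂ) ^ (-s)))⁻¹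

/-- The Euler product converges absolutely, and locally uniformly, for `Re s > w + 1`. -/
theorem euler_prod (P : HeightOneSpectrum (𝓞 K) → ℂ[X]) (d : ℕ) (w : ℝ)
    (h0 : ∀ v, (P v).coeff 0 = 1) (hd : ∀ v, (P v).natDegree ≤ d)
    (hr : ∀ v z, (P v).IsRoot z → (Ideal.absNorm v.asIdeal : ℝ) ^ (-w) ≤ ‖z‖) :
    (∀ s : ℂ, w + 1 < s.re → Multipliable (eul K P s)) ∧
    (∀ s : ℂ, w + 1 < s.re → ∏' v, eul K P s v ≠ 0) ∧
    DifferentiableOn ℂ (fun s => ∏' v, eul K P s v) {s : ℂ | w + 1 < s.re} :=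
  T4G.general (N := fun v : HeightOneSpectrum (𝓞 K) => Ideal.absNorm v.asIdeal) (P := P) (d := d)
    (w := w) (fun v => Pool.Agent.K4H74.SC.two_le_absNorm v)
    (fun _ ht => Pool.Agent.K4H74.SC.summable_absNorm ht) h0 hd hr

end Pool.Agent.K4H36.BK
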