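import Mathlib
import Pool.Agent.K4H36.BK.Fam
import Pool.Agent.K4H36.BK.Rel
import Pool.Agent.K4H36.BK.A
import Pool.Agent.K4H36.BK.B
import Pool.Agent.K4H36.BK.C
import Pool.Agent.K4H36.BK.D
import Pool.Agent.K4H36.BK.E2
import Pool.Agent.K4H36.BK.S
import Pool.Agent.K4H36.BK.T1
import Pool.Agent.K4H36.BK.T2
import Pool.Agent.K4H36.BK.T3
import Pool.Agent.K4H36.BK.T4

/-!
# Relations between Selmer groups, invariants and Euler factors
-/

set_option autoImplicit false
set_option linter.unusedSectionVars false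

namespace Pool.Agent.K4H36.BK

open NumberField Polynomial IsDedekindDomain MulAction
open scoped Pointwise

section perm

variable {k G : Type} [Field k] [CharZero k] [Group G] {V : Type} [AddCommGroup V] [Module k V]
  (ρ : Representation k G V)

/-- `G`-sets with the same numbers of fixed points give isomorphic representations -/
lemma ext_of_nfix (X Y : Type) [MulAction G X] [MulAction G Y] [Finite X] [Finite Y]
    (h : ∀ g : G, nfix X g = nfix Y g) :
    ∃ e : (X → V) ≃ₗ[k] (Y → V), ∀ g f, e (ext X ρ g f) = ext Y ρ g (e f) := by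
  classical
  have : Fintype X := Fintype.ofFinite X
  have : Fintype Y := Fintype.ofFinite Y
  obtain ⟨A, B, hA, hB, hAB, hBA⟩ := perm_iso G X Y h
  exact ext_congr ρ X Y A B hA hB hAB hBA

end perm

section rels

variable {K : Type} [Field K] [NumberField K] {r : ℕ} (F : Fin r → IntermediateField K (Kb K))
  (n n' : Fin r → ℕ) (M : ℕ)

/-- a one-point set -/
abbrev Pt (K : Type) [Field K] : Type := GK K ⧸ (⊥ : IntermediateField K (Kb K)).fixingSubgroup

lemma pt_sub : Subsingleton (Pt K) := by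
  rw [Pt, IntermediateField.fixingSubgroup_bot]
  exact QuotientGroup.subsingleton_quotient_top

lemma pt_nfix (g : GK K) : nfix (Pt K) g = 1 := by
  have := pt_sub (K := K)
  rw [nfix, Nat.card_eq_one_iff_unique]
  exact ⟨⟨fun a b => Subtype.ext (Subsingleton.elim _ _)⟩,
    ⟨⟨((1 : GK K) : Pt K), Subsingleton.elim _ _⟩⟩⟩

/-- relations for additive functionals -/
lemma rel_of {A : Type*} [AddCommMonoid A]
    (hrel : ∀ g : GK K, M + ∑ i, n i * nco (F i) g = ∑ i, n' i * nco (F i) g)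
    (δ : ∀ (X : Type) [MulAction (GK K) X] [Finite X], A)
    (hsum : ∀ (X Y Z : Type) [MulAction (GK K) X] [MulAction (GK K) Y] [MulAction (GK K) Z]
      [Finite X] [Finite Y] [Finite Z] (i : X → Z) (j : Y → Z),
      (∀ (g : GK K) x, i (g • x) = g • i x) → (∀ (g : GK K) y, j (g • y) = g • j y) →
      Function.Bijective (Sum.elim i j) → δ Z = δ X + δ Y)
    (hcongr : ∀ (X Y : Type) [MulAction (GK K) X] [MulAction (GK K) Y] [Finite X] [Finite Y],
      (∀ g : GK K, nfix X g = nfix Y g) → δ X = δ Y)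
    (hempty : ∀ (X : Type) [MulAction (GK K) X] [Finite X], IsEmpty X → δ X = 0)
    [∀ i, Finite (GK K ⧸ (F i).fixingSubgroup)] [Finite (Pt K)] :
    M • δ (Pt K) + ∑ i, n i • δ (GK K ⧸ (F i).fixingSubgroup)
      = ∑ i, n' i • δ (GK K ⧸ (F i).fixingSubgroup) :=
  assemble' δ hsum hcongr hempty (fun i => GK K ⧸ (F i).fixingSubgroup) M n n' (Pt K) pt_nfix hrel

end rels

section dims

variable {K : Type} [Field K] [NumberField K] {r : ℕ} {F : Fin r → IntermediateField K (Kb K)}
  {n n' : Fin r → ℕ} {M : ℕ}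

/-- the relations between the Selmer groups -/
theorem rel_h1f (hF : ∀ i, FiniteDimensional K (F i))
    (hrel : ∀ g : GK K, M + ∑ i, n i * nco (F i) g = ∑ i, n' i * nco (F i) g)
    {p : ℕ} [Fact p.Prime] (𝔅 : Period K ℚ_[p]) {V : Type} [AddCommGroup V] [Module ℚ_[p] V]
    [FiniteDimensional ℚ_[p] V] (ρ : Representation ℚ_[p] (GK K) V) :
    M • Module.rank ℚ_[p] (H1f p (⊥ : IntermediateField K (Kb K)).fixingSubgroup 𝔅 ρ)
      + ∑ i, n i • Module.rank ℚ_[p] (H1f p (F i).fixingSubgroup 𝔅 ρ)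
      = ∑ i, n' i • Module.rank ℚ_[p] (H1f p (F i).fixingSubgroup 𝔅 ρ) := by
  have hfin : ∀ i, Finite (GK K ⧸ (F i).fixingSubgroup) := fun i => finite_cosets (F i)
  have hfin0 : Finite (Pt K) := finite_cosets _
  have h := rel_of F n n' M hrel
    (fun X _ _ => Module.rank ℚ_[p] (H1f p (⊤ : Subgroup (GK K)) 𝔅 (ext X ρ)))
    (fun X Y Z _ _ _ _ _ _ i j h1 h2 h3 => by
      obtain ⟨e, he⟩ := ext_sum' ρ X Y Z i j h1 h2 h3
      obtain ⟨e'⟩ := h1f_prod ⊤ 𝔅 (ext Z ρ) (ext X ρ) (ext Y ρ) e he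
      rw [e'.rank_eq, rank_prod'])
    (fun X Y _ _ _ _ h1 => by
      obtain ⟨e, he⟩ := ext_of_nfix ρ X Y h1
      obtain ⟨e'⟩ := h1f_congr ⊤ 𝔅 (ext X ρ) (ext Y ρ) e he
      exact e'.rank_eq)
    (fun X _ _ h1 => by
      have := h1f_subsingleton ⊤ 𝔅 (ext X ρ)
      exact rank_subsingleton' _ _)
  have hsh : ∀ E : IntermediateField K (Kb K), FiniteDimensional K E →
      ∀ _ : Finite (GK K ⧸ E.fixingSubgroup),
      Module.rank ℚ_[p] (H1f p (⊤ : Subgroup (GK K)) 𝔅 (ext (GK K ⧸ E.fixingSubgroup) ρ))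
        = Module.rank ℚ_[p] (H1f p E.fixingSubgroup 𝔅 ρ) := by
    intro E hE hfE
    have hst : stabilizer (GK K) ((1 : GK K) : GK K ⧸ E.fixingSubgroup) = E.fixingSubgroup := by
      ext g
      rw [mem_stabilizer_iff, MulAction.Quotient.smul_coe, QuotientGroup.eq]
      simp
    obtain ⟨e⟩ := h1f_shapiro 𝔅 ρ (GK K ⧸ E.fixingSubgroup) ((1 : GK K) : GK K ⧸ E.fixingSubgroup)
      (fun x => by
        induction x using QuotientGroup.induction_on with
        | H g => exact ⟨g, by rw [MulAction.Quotient.smul_coe, smul_eq_mul, mul_one]⟩)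
      (by rw [hst]; exact isOpen_fix E)
    rw [e.rank_eq, hst]
  simp only [hsh _ (hF _) (hfin _)] at h
  rw [hsh _ inferInstance hfin0] at h
  exact h

/-- the relations between the invariants -/
theorem rel_inv (hF : ∀ i, FiniteDimensional K (F i))
    (hrel : ∀ g : GK K, M + ∑ i, n i * nco (F i) g = ∑ i, n' i * nco (F i) g)
    {k V : Type} [Field k] [CharZero k] [AddCommGroup V] [Module k V] [FiniteDimensional k V]
    (ρ : Representation k (GK K) V) :
    M * Module.finrank k (inv (⊥ : IntermediateField K (Kb K)).fixingSubgroup ρ)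
      + ∑ i, n i * Module.finrank k (inv (F i).fixingSubgroup ρ)
      = ∑ i, n' i * Module.finrank k (inv (F i).fixingSubgroup ρ) := by
  have hfin : ∀ i, Finite (GK K ⧸ (F i).fixingSubgroup) := fun i => finite_cosets (F i)
  have hfin0 : Finite (Pt K) := finite_cosets _
  have h := rel_of F n n' M hrel
    (fun X _ _ => Module.finrank k (inv (⊤ : Subgroup (GK K)) (ext X ρ)))
    (fun X Y Z _ _ _ _ _ _ i j h1 h2 h3 => by
      obtain ⟨e, he⟩ := ext_sum' ρ X Y Z i j h1 h2 h3
      obtain ⟨e'⟩ := inv_prod (ext Z ρ) (ext X ρ) (ext Y ρ) e he ⊤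
      rw [e'.finrank_eq, Module.finrank_prod])
    (fun X Y _ _ _ _ h1 => by
      obtain ⟨e, he⟩ := ext_of_nfix ρ X Y h1
      obtain ⟨e'⟩ := inv_congr (ext X ρ) (ext Y ρ) e he ⊤
      exact e'.finrank_eq)
    (fun X _ _ h1 => by
      exact Module.finrank_zero_of_subsingleton)
  have hsh : ∀ E : IntermediateField K (Kb K), FiniteDimensional K E →
      Module.finrank k (inv (⊤ : Subgroup (GK K)) (ext (GK K ⧸ E.fixingSubgroup) ρ))
        = Module.finrank k (inv E.fixingSubgroup ρ) := by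
    intro E hE
    have hst : stabilizer (GK K) ((1 : GK K) : GK K ⧸ E.fixingSubgroup) = E.fixingSubgroup := by
      ext g
      rw [mem_stabilizer_iff, MulAction.Quotient.smul_coe, QuotientGroup.eq]
      simp
    obtain ⟨e⟩ := inv_shapiro ρ (GK K ⧸ E.fixingSubgroup) ((1 : GK K) : GK K ⧸ E.fixingSubgroup)
      (fun x => by
        induction x using QuotientGroup.induction_on with
        | H g => exact ⟨g, by rw [MulAction.Quotient.smul_coe, smul_eq_mul, mul_one]⟩)
    rw [e.finrank_eq, hst]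
  simp only [hsh _ (hF _)] at h
  rw [hsh _ inferInstance] at h
  simpa using h

/-- the relations between the Euler polynomials -/
theorem rel_euler (hF : ∀ i, FiniteDimensional K (F i))
    (hrel : ∀ g : GK K, M + ∑ i, n i * nco (F i) g = ∑ i, n' i * nco (F i) g)
    {k V : Type} [Field k] [CharZero k] [AddCommGroup V] [Module k V] [FiniteDimensional k V]
    (ρ : Representation k (GK K) V) {W : Ideal (𝓞 (Kb K))} {q : ℕ} {φ : GK K}
    (h : IsFrob ⊤ W q φ) [∀ i, Finite (GK K ⧸ (F i).fixingSubgroup)] :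
    eulerPoly ρ h ^ M * ∏ i, eulerPoly (ext (GK K ⧸ (F i).fixingSubgroup) ρ) h ^ n i
      = ∏ i, eulerPoly (ext (GK K ⧸ (F i).fixingSubgroup) ρ) h ^ n' i := by
  have hfin0 : Finite (Pt K) := finite_cosets _
  have h1 := rel_of F n n' M hrel
    (fun X _ _ => Additive.ofMul (eulerPoly (ext X ρ) h))
    (fun X Y Z _ _ _ _ _ _ i j h1 h2 h3 => by
      obtain ⟨e, he⟩ := ext_sum' ρ X Y Z i j h1 h2 h3
      rw [euler_mul (ext Z ρ) (ext X ρ) (ext Y ρ) h e he]
      rfl)
    (fun X Y _ _ _ _ h1 => by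
      obtain ⟨e, he⟩ := ext_of_nfix ρ X Y h1
      rw [euler_congr (ext X ρ) (ext Y ρ) h e he])
    (fun X _ _ h1 => by
      rw [euler_one (ext X ρ) h]
      rfl)
  have hpt : eulerPoly (ext (Pt K) ρ) h = eulerPoly ρ h := by
    have hsub := pt_sub (K := K)
    let x₀ : Pt K := ((1 : GK K) : Pt K)
    let e : (Pt K → V) ≃ₗ[k] V :=
      { toFun := fun f => f x₀
        map_add' := fun f f' => rfl
        map_smul' := fun c f => rfl
        invFun := fun v _ => v
        left_inv := fun f => by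
          funext x
          rw [Subsingleton.elim x x₀]
        right_inv := fun v => rfl }
    refine euler_congr (ext (Pt K) ρ) ρ h e fun g f => ?_
    change ρ g (f (g⁻¹ • x₀)) = ρ g (f x₀)
    rw [Subsingleton.elim (g⁻¹ • x₀) x₀]
  have h2 : Additive.ofMul (eulerPoly (ext (Pt K) ρ) h ^ M *
      ∏ i, eulerPoly (ext (GK K ⧸ (F i).fixingSubgroup) ρ) h ^ n i)
      = Additive.ofMul (∏ i, eulerPoly (ext (GK K ⧸ (F i).fixingSubgroup) ρ) h ^ n' i) := by
    rw [ofMul_mul, ofMul_prod, ofMul_prod, ofMul_pow]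
    simp only [ofMul_pow]
    exact h1
  rw [hpt] at h2
  exact Additive.ofMul.injective h2

end dims

end Pool.Agent.K4H36.BK
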