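import Mathlib
import Pool.Agent.K4H36.BK.Asm
import Pool.Agent.K4H36.BK.Ana

/-!
# Euler factors over the base field
-/

set_option autoImplicit false
set_option linter.unusedSectionVars false

namespace Pool.Agent.K4H36.BK

open NumberField Polynomial IsDedekindDomain MulAction
open scoped Pointwise

lemma eulerPoly_eq {K : Type} [Field K] {k V : Type} [Field k] [AddCommGroup V] [Module k V]
    [FiniteDimensional k V] (ρ : Representation k (GK K) V) {H H' : Subgroup (GK K)}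
    {W : Ideal (𝓞 (Kb K))} {q q' : ℕ} {φ : GK K} (h : IsFrob H W q φ) (h' : IsFrob H' W q' φ)
    (hH : H = H') (hq : q = q') : eulerPoly ρ h = eulerPoly ρ h' := by
  subst hH
  subst hq
  rfl

section idx

variable {K : Type} [Field K] [NumberField K]

/-- not both `2` and `3` lie in a proper ideal -/
lemma exists_ell {R : Type} [CommRing R] {I : Ideal R} (hI : I ≠ ⊤) :
    ∃ (ℓ : ℕ) (_ : Fact ℓ.Prime), (ℓ = 2 ∨ ℓ = 3) ∧ (ℓ : R) ∉ I := by
  by_cases h2 : ((2 : ℕ) : R) ∈ I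
  · refine ⟨3, ⟨Nat.prime_three⟩, Or.inr rfl, fun h3 => hI ((Ideal.eq_top_iff_one I).mpr ?_)⟩
    have h4 := I.sub_mem h3 h2
    push_cast at h4
    have h5 : (3 : R) - 2 = 1 := by ring
    rwa [h5] at h4
  · exact ⟨2, ⟨Nat.prime_two⟩, Or.inl rfl, h2⟩

/-- The coefficient `0` and the degree of the Euler polynomials. -/
lemma euler_facts (V : Fam K) (F : IntermediateField K (Kb K)) [FiniteDimensional K F]
    (P : HeightOneSpectrum (𝓞 F) → ℚ[X])
    (hP : ∀ (w : HeightOneSpectrum (𝓞 F)) (ℓ : ℕ) [Fact ℓ.Prime], (ℓ : 𝓞 F) ∉ w.asIdeal →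
      ∀ W : Ideal (𝓞 (Kb K)), W.IsMaximal →
      W.comap (algebraMap (𝓞 F) (𝓞 (Kb K))) = w.asIdeal →
      ∀ (φ : GK K) (h : IsFrob F.fixingSubgroup W (Nat.card (𝓞 F ⧸ w.asIdeal)) φ),
        eulerPoly (V.ρ ℓ) h = (P w).map (algebraMap ℚ ℚ_[ℓ])) :
    ∃ d : ℕ, ∀ w, (P w).coeff 0 = 1 ∧ (P w).natDegree ≤ d := by
  have : NumberField F := NumberField.of_module_finite K F
  have h2 : Fact (Nat.Prime 2) := ⟨Nat.prime_two⟩
  have h3 : Fact (Nat.Prime 3) := ⟨Nat.prime_three⟩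
  refine ⟨max (Module.finrank ℚ_[2] (V.V 2)) (Module.finrank ℚ_[3] (V.V 3)), fun w => ?_⟩
  have hwm : w.asIdeal.IsMaximal := w.isMaximal
  obtain ⟨ℓ, hℓ, hℓ2, hℓw⟩ := exists_ell hwm.ne_top
  obtain ⟨W, hW, hWw⟩ := exists_above K F w.asIdeal hwm
  obtain ⟨φ, hφ⟩ := exists_frob K F W hW
  rw [hWw] at hφ
  have h4 := hP w ℓ hℓw W hW hWw φ hφ
  have hinj : Function.Injective (algebraMap ℚ ℚ_[ℓ]) := (algebraMap ℚ ℚ_[ℓ]).injective
  constructor
  · have h5 := euler_coeff (V.ρ ℓ) hφ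
    rw [h4, coeff_map] at h5
    exact hinj (by rw [h5, map_one])
  · have h5 := euler_deg (V.ρ ℓ) hφ
    rw [h4, natDegree_map] at h5
    refine h5.trans ?_
    rcases hℓ2 with rfl | rfl
    · exact le_max_left _ _
    · exact le_max_right _ _

end idx

section roots

variable {F : Type} [Field F] [NumberField F]

lemma one_lt_card (w : HeightOneSpectrum (𝓞 F)) : 1 < Nat.card (𝓞 F ⧸ w.asIdeal) := by
  have h := Pool.Agent.K4H74.SC.two_le_absNorm w
  rw [Ideal.absNorm_apply, Submodule.cardQuot_apply] at h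
  omega

/-- the roots of the Euler polynomials, if the Euler product has no infinite factor -/
lemma root_bound (P : HeightOneSpectrum (𝓞 F) → ℚ[X]) (hP : ∀ w, (P w).coeff 0 = 1) (c : ℝ)
    (h : ∀ s : ℂ, c < s.re → ∀ w, factor P s w ≠ 0) (w : HeightOneSpectrum (𝓞 F)) (z : ℂ)
    (hz : aeval z (P w) = 0) : (Nat.card (𝓞 F ⧸ w.asIdeal) : ℝ) ^ (-c) ≤ ‖z‖ := by
  by_contra hlt
  push Not at hlt
  have hq := one_lt_card w
  have hq0 : (0 : ℝ) < Nat.card (𝓞 F ⧸ w.asIdeal) := by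
    exact_mod_cast (by omega : 0 < Nat.card (𝓞 F ⧸ w.asIdeal))
  have hlog : 0 < Real.log (Nat.card (𝓞 F ⧸ w.asIdeal)) :=
    Real.log_pos (by exact_mod_cast hq)
  have hz0 : z ≠ 0 := by
    rintro rfl
    rw [← coeff_zero_eq_aeval_zero', hP] at hz
    simp at hz
  -- the exponent
  let s : ℂ := -(Complex.log z / Real.log (Nat.card (𝓞 F ⧸ w.asIdeal)))
  have hqC : (Nat.card (𝓞 F ⧸ w.asIdeal) : ℂ) ≠ 0 := by exact_mod_cast hq0.ne'
  have hs : (Nat.card (𝓞 F ⧸ w.asIdeal) : ℂ) ^ (-s) = z := by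
    rw [Complex.cpow_def_of_ne_zero hqC]
    have h1 : Complex.log (Nat.card (𝓞 F ⧸ w.asIdeal) : ℂ)
        = (Real.log (Nat.card (𝓞 F ⧸ w.asIdeal)) : ℂ) := by
      rw [Complex.ofReal_log hq0.le, Complex.ofReal_natCast]
    rw [h1]
    have h2 : (Real.log (Nat.card (𝓞 F ⧸ w.asIdeal)) : ℂ) ≠ 0 := by exact_mod_cast hlog.ne'
    have h3 : (Real.log (Nat.card (𝓞 F ⧸ w.asIdeal)) : ℂ) * -s = Complex.log z := by
      change _ * -(-(Complex.log z / _)) = _
      rw [neg_neg]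
      field_simp
    rw [h3, Complex.exp_log hz0]
  have hre : c < s.re := by
    have h1 : s.re = -(Real.log ‖z‖ / Real.log (Nat.card (𝓞 F ⧸ w.asIdeal))) := by
      change (-(Complex.log z / (Real.log (Nat.card (𝓞 F ⧸ w.asIdeal)) : ℂ))).re = _
      rw [Complex.neg_re, Complex.div_ofReal_re, Complex.log_re]
    rw [h1]
    have h2 : Real.log ‖z‖ < -c * Real.log (Nat.card (𝓞 F ⧸ w.asIdeal)) := by
      rw [← Real.log_rpow hq0]
      exact Real.log_lt_log (norm_pos_iff.mpr hz0) hlt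
    rw [lt_neg, div_lt_iff₀ hlog]
    exact h2
  have h1 := h s hre w
  rw [factor, hs, hz, inv_zero] at h1
  exact h1 rfl

/-- the Euler product converges -/
lemma prod_conv (P : HeightOneSpectrum (𝓞 F) → ℚ[X]) {d : ℕ} {c : ℝ}
    (hP : ∀ w, (P w).coeff 0 = 1 ∧ (P w).natDegree ≤ d)
    (hr : ∀ w (z : ℂ), aeval z (P w) = 0 → (Nat.card (𝓞 F ⧸ w.asIdeal) : ℝ) ^ (-c) ≤ ‖z‖) :
    (∀ s : ℂ, c + 1 < s.re → Multipliable (factor P s)) ∧
    (∀ s : ℂ, c + 1 < s.re → ∏' w, factor P s w ≠ 0) ∧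
    DifferentiableOn ℂ (fun s => ∏' w, factor P s w) {s : ℂ | c + 1 < s.re} := by
  have hcard : ∀ w : HeightOneSpectrum (𝓞 F), Ideal.absNorm w.asIdeal
      = Nat.card (𝓞 F ⧸ w.asIdeal) := fun w => by
    rw [Ideal.absNorm_apply, Submodule.cardQuot_apply]
  have h := euler_prod F (fun w => (P w).map (algebraMap ℚ ℂ)) d c
    (fun w => by rw [coeff_map, (hP w).1, map_one])
    (fun w => by rw [natDegree_map]; exact (hP w).2)
    (fun w z hz => by
      rw [hcard]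
      refine hr w z ?_
      rwa [IsRoot.def, eval_map_algebraMap] at hz)
  have hf : ∀ s w, eul F (fun w => (P w).map (algebraMap ℚ ℂ)) s w = factor P s w := by
    intro s w
    rw [eul, factor, eval_map_algebraMap, hcard]
  have hf' : ∀ s, eul F (fun w => (P w).map (algebraMap ℚ ℂ)) s = factor P s := fun s =>
    funext (hf s)
  simp only [hf, hf'] at h
  exact h

end roots

end Pool.Agent.K4H36.BK
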