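import Mathlib
import Pool.Agent.K4H36.BK.Eul

/-!
# The Euler factors of `F` grouped by the places of `K`
-/

set_option autoImplicit false
set_option linter.unusedSectionVars false

namespace Pool.Agent.K4H36.BK

open NumberField Polynomial IsDedekindDomain MulAction
open scoped Pointwise

variable {K : Type} [Field K] [NumberField K]

/-- the places of `F` above a place of `K` -/
def above (F : IntermediateField K (Kb K)) (v : HeightOneSpectrum (𝓞 K)) :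
    Set (HeightOneSpectrum (𝓞 F)) :=
  {w | w.asIdeal.comap (algebraMap (𝓞 K) (𝓞 F)) = v.asIdeal}

/-- the product of the Euler polynomials above `v` -/
noncomputable def Qp (F : IntermediateField K (Kb K)) (P : HeightOneSpectrum (𝓞 F) → ℚ[X])
    (f : Ideal (𝓞 F) → ℕ) (v : HeightOneSpectrum (𝓞 K)) : ℚ[X] :=
  ∏ᶠ w ∈ above F v, (P w).comp (X ^ f w.asIdeal)

/-- the residue degrees -/
def IsDeg (F : IntermediateField K (Kb K)) (f : Ideal (𝓞 F) → ℕ) : Prop :=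
  ∀ w : Ideal (𝓞 F), w.IsMaximal → f w ≠ 0 ∧
    Nat.card (𝓞 F ⧸ w) = Nat.card (𝓞 K ⧸ w.comap (algebraMap (𝓞 K) (𝓞 F))) ^ f w

variable (F : IntermediateField K (Kb K)) [FiniteDimensional K F]

lemma exists_deg : ∃ f : Ideal (𝓞 F) → ℕ, IsDeg F f := by
  classical
  have h : ∀ w : Ideal (𝓞 F), ∃ n : ℕ, w.IsMaximal → n ≠ 0 ∧
      Nat.card (𝓞 F ⧸ w) = Nat.card (𝓞 K ⧸ w.comap (algebraMap (𝓞 K) (𝓞 F))) ^ n := by
    intro w
    by_cases hw : w.IsMaximal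
    · obtain ⟨n, hn, h⟩ := card_pow F w hw
      exact ⟨n, fun _ => ⟨hn, h⟩⟩
    · exact ⟨0, fun h => absurd h hw⟩
  choose f hf using h
  exact ⟨f, hf⟩

variable {F}

lemma Qp_eq (P : HeightOneSpectrum (𝓞 F) → ℚ[X]) (f : Ideal (𝓞 F) → ℕ)
    (v : HeightOneSpectrum (𝓞 K)) :
    Qp F P f v = ∏ w ∈ (finite_fibre F v).toFinset, (P w).comp (X ^ f w.asIdeal) :=
  finprod_mem_eq_finite_toFinset_prod _ (finite_fibre F v)

lemma Qp_coeff {P : HeightOneSpectrum (𝓞 F) → ℚ[X]} {f : Ideal (𝓞 F) → ℕ} (hf : IsDeg F f)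
    (hP : ∀ w, (P w).coeff 0 = 1) (v : HeightOneSpectrum (𝓞 K)) : (Qp F P f v).coeff 0 = 1 := by
  have : NumberField F := NumberField.of_module_finite K F
  rw [Qp_eq, coeff_zero_eq_eval_zero, eval_prod]
  refine Finset.prod_eq_one fun w _ => ?_
  rw [eval_comp, eval_pow, eval_X, zero_pow (hf _ w.isMaximal).1, ← coeff_zero_eq_eval_zero, hP]

lemma Qp_root {P : HeightOneSpectrum (𝓞 F) → ℚ[X]} {f : Ideal (𝓞 F) → ℕ}
    {v : HeightOneSpectrum (𝓞 K)} {z : ℂ} (h : aeval z (Qp F P f v) = 0) :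
    ∃ w ∈ above F v, aeval (z ^ f w.asIdeal) (P w) = 0 := by
  rw [Qp_eq, map_prod, Finset.prod_eq_zero_iff] at h
  obtain ⟨w, hw, h1⟩ := h
  refine ⟨w, (finite_fibre F v).mem_toFinset.mp hw, ?_⟩
  rw [aeval_comp, map_pow, aeval_X] at h1
  exact h1

/-- the factor at `v` -/
lemma Qp_factor {P : HeightOneSpectrum (𝓞 F) → ℚ[X]} {f : Ideal (𝓞 F) → ℕ} (hf : IsDeg F f)
    (v : HeightOneSpectrum (𝓞 K)) (s : ℂ) :
    factor (Qp F P f) s v = ∏ᶠ w ∈ above F v, factor P s w := by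
  have : NumberField F := NumberField.of_module_finite K F
  have h1 : ∏ᶠ w ∈ above F v, factor P s w = ∏ w ∈ (finite_fibre F v).toFinset, factor P s w :=
    finprod_mem_eq_finite_toFinset_prod _ (finite_fibre F v)
  rw [h1, factor, Qp_eq, map_prod, ← Finset.prod_inv_distrib]
  refine Finset.prod_congr rfl fun w hw => ?_
  have hw' : w.asIdeal.comap (algebraMap (𝓞 K) (𝓞 F)) = v.asIdeal :=
    (finite_fibre F v).mem_toFinset.mp hw
  rw [factor, aeval_comp, map_pow, aeval_X]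
  congr 3
  rw [(hf _ w.isMaximal).2, hw', Nat.cast_pow, ← Complex.natCast_cpow_natCast_mul]
  rw [← Complex.cpow_nat_mul]

/-- Artin formalism at `v` -/
lemma Qp_shapiro {ℓ : ℕ} [Fact ℓ.Prime] {V : Type} [AddCommGroup V] [Module ℚ_[ℓ] V]
    [FiniteDimensional ℚ_[ℓ] V] (ρ : Representation ℚ_[ℓ] (GK K) V)
    {P : HeightOneSpectrum (𝓞 F) → ℚ[X]} {f : Ideal (𝓞 F) → ℕ} (hf : IsDeg F f)
    [Finite (GK K ⧸ F.fixingSubgroup)] {v : HeightOneSpectrum (𝓞 K)} {W : Ideal (𝓞 (Kb K))}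
    (hW : W.IsMaximal) (hWv : W.comap (algebraMap (𝓞 K) (𝓞 (Kb K))) = v.asIdeal) {φ : GK K}
    (h : IsFrob ⊤ W (Nat.card (𝓞 K ⧸ v.asIdeal)) φ)
    (hP : ∀ w ∈ above F v, ∀ W : Ideal (𝓞 (Kb K)), W.IsMaximal →
      W.comap (algebraMap (𝓞 F) (𝓞 (Kb K))) = w.asIdeal →
      ∀ (φ : GK K) (h : IsFrob F.fixingSubgroup W (Nat.card (𝓞 F ⧸ w.asIdeal)) φ),
        eulerPoly ρ h = (P w).map (algebraMap ℚ ℚ_[ℓ])) :
    eulerPoly (ext (GK K ⧸ F.fixingSubgroup) ρ) h = (Qp F P f v).map (algebraMap ℚ ℚ_[ℓ]) := by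
  classical
  have : NumberField F := NumberField.of_module_finite K F
  have hne : ∀ w : Ideal (𝓞 F), w.IsMaximal → w ≠ ⊥ := fun w hw h1 =>
    Ring.ne_bot_of_isMaximal_of_not_isField hw (RingOfIntegers.not_isField F) h1
  let mk : ∀ w : Ideal (𝓞 F), w.IsMaximal → HeightOneSpectrum (𝓞 F) := fun w hw =>
    ⟨w, hw.isPrime, hne w hw⟩
  let P' : Ideal (𝓞 F) → ℚ_[ℓ][X] := fun w =>
    if hw : w.IsMaximal then (P (mk w hw)).map (algebraMap ℚ ℚ_[ℓ]) else 1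
  have hP' : ∀ w : HeightOneSpectrum (𝓞 F), P' w.asIdeal = (P w).map (algebraMap ℚ ℚ_[ℓ]) := by
    intro w
    simp only [P']
    rw [dif_pos w.isMaximal]
  have h0 : IsFrob ⊤ W (Nat.card (𝓞 K ⧸ W.comap (algebraMap (𝓞 K) (𝓞 (Kb K))))) φ := by
    rw [hWv]
    exact h
  have h1 := euler_shapiro F hW h0 ρ P' f
    (fun w hw hwv => by
      rw [(hf w hw).2, hwv])
    (fun w hw hwv W' hW' hW'w φ' h' => by
      have h2 := hP (mk w hw) (by
        change w.comap _ = _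
        rw [hwv, hWv]) W' hW' hW'w φ' h'
      rw [h2]
      exact (hP' (mk w hw)).symm)
  rw [eulerPoly_eq (ext (GK K ⧸ F.fixingSubgroup) ρ) h h0 rfl (by rw [hWv]), h1]
  have h2 : {w : Ideal (𝓞 F) | w.IsMaximal ∧ w.comap (algebraMap (𝓞 K) (𝓞 F))
      = W.comap (algebraMap (𝓞 K) (𝓞 (Kb K)))} = (fun w => w.asIdeal) '' above F v := by
    ext w
    constructor
    · rintro ⟨hw, hwv⟩
      exact ⟨mk w hw, hwv.trans hWv, rfl⟩
    · rintro ⟨w, hw, rfl⟩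
      exact ⟨w.isMaximal, by rw [hWv]; exact hw⟩
  rw [h2, finprod_mem_image (fun a _ b _ hab => HeightOneSpectrum.ext hab)]
  have h3 : ∏ᶠ w ∈ above F v, (P' w.asIdeal).comp (X ^ f w.asIdeal)
      = ∏ w ∈ (finite_fibre F v).toFinset, (P' w.asIdeal).comp (X ^ f w.asIdeal) :=
    finprod_mem_eq_finite_toFinset_prod _ (finite_fibre F v)
  rw [h3, Qp_eq, Polynomial.map_prod]
  refine Finset.prod_congr rfl fun w _ => ?_
  rw [hP', map_comp, Polynomial.map_pow, map_X]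

end Pool.Agent.K4H36.BK
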