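import Mathlib
import Pool.Agent.K4H36.BK.Grp

/-!
# The reduction of the Bloch–Kato order formula
-/

set_option autoImplicit false
set_option linter.unusedSectionVars false

namespace Pool.Agent.K4H36.BK

open NumberField Polynomial IsDedekindDomain MulAction
open scoped Pointwise

variable {K : Type} [Field K] [NumberField K]

/-- an auxiliary prime, a prime above `v` and a Frobenius automorphism -/
structure Idx (v : HeightOneSpectrum (𝓞 K)) where
  ℓ : ℕ
  hℓ : Fact ℓ.Prime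
  hv : (ℓ : 𝓞 K) ∉ v.asIdeal
  W : Ideal (𝓞 (Kb K))
  hW : W.IsMaximal
  hWv : W.comap (algebraMap (𝓞 K) (𝓞 (Kb K))) = v.asIdeal
  φ : GK K
  h : IsFrob ⊤ W (Nat.card (𝓞 K ⧸ v.asIdeal)) φ

attribute [instance] Idx.hℓ

/-- the ring of integers of the smallest intermediate field -/
noncomputable def botInt (K : Type) [Field K] : 𝓞 K ≃+* 𝓞 (⊥ : IntermediateField K (Kb K)) :=
  RingOfIntegers.mapRingEquiv (IntermediateField.botEquiv K (Kb K)).symm.toRingEquiv

lemma botInt_comp (x : 𝓞 K) : algebraMap (𝓞 (⊥ : IntermediateField K (Kb K))) (𝓞 (Kb K))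
    (botInt K x) = algebraMap (𝓞 K) (𝓞 (Kb K)) x := by
  apply RingOfIntegers.ext
  rfl

lemma comap_bot {R S : Type} [CommRing R] [CommRing S] (e : R ≃+* S) (I : Ideal S)
    (h : I.comap e.toRingHom = ⊥) : I = ⊥ := by
  rw [eq_bot_iff]
  intro x hx
  obtain ⟨y, rfl⟩ := e.surjective x
  have h1 : y ∈ I.comap e.toRingHom := hx
  rw [h, Ideal.mem_bot] at h1
  rw [h1, map_zero]
  exact zero_mem _

/-- the places of the smallest intermediate field -/
noncomputable def botPl : HeightOneSpectrum (𝓞 (⊥ : IntermediateField K (Kb K))) ≃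
    HeightOneSpectrum (𝓞 K) where
  toFun w := ⟨w.asIdeal.comap (botInt K).toRingHom, Ideal.IsPrime.comap _,
    fun h => w.ne_bot (comap_bot (botInt K) _ h)⟩
  invFun v := ⟨v.asIdeal.comap (botInt K).symm.toRingHom, Ideal.IsPrime.comap _,
    fun h => v.ne_bot (comap_bot (botInt K).symm _ h)⟩
  left_inv w := by
    apply HeightOneSpectrum.ext
    ext x
    change (botInt K) ((botInt K).symm x) ∈ w.asIdeal ↔ _
    rw [RingEquiv.apply_symm_apply]
  right_inv v := by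
    apply HeightOneSpectrum.ext
    ext x
    change (botInt K).symm ((botInt K) x) ∈ v.asIdeal ↔ _
    rw [RingEquiv.symm_apply_apply]

lemma mem_botPl {w : HeightOneSpectrum (𝓞 (⊥ : IntermediateField K (Kb K)))} {x : 𝓞 K} :
    x ∈ (botPl w).asIdeal ↔ botInt K x ∈ w.asIdeal := Iff.rfl

lemma card_quot {R S : Type} [CommRing R] [CommRing S] (e : R ≃+* S) (I : Ideal R) (J : Ideal S)
    (h : ∀ x, x ∈ I ↔ e x ∈ J) : Nat.card (S ⧸ J) = Nat.card (R ⧸ I) := by
  symm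
  refine Nat.card_congr (Ideal.quotientEquiv I J e ?_).toEquiv
  apply le_antisymm
  · intro x hx
    obtain ⟨y, rfl⟩ := e.surjective x
    exact Ideal.mem_map_of_mem (e : R →+* S) ((h y).mpr hx)
  · rw [Ideal.map_le_iff_le_comap]
    intro x hx
    exact (h x).mp hx

lemma botPl_card (w : HeightOneSpectrum (𝓞 (⊥ : IntermediateField K (Kb K)))) :
    Nat.card (𝓞 (⊥ : IntermediateField K (Kb K)) ⧸ w.asIdeal)
      = Nat.card (𝓞 K ⧸ (botPl w).asIdeal) :=
  card_quot (botInt K) _ _ (fun _ => mem_botPl)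

lemma botPl_over (w : HeightOneSpectrum (𝓞 (⊥ : IntermediateField K (Kb K))))
    {W : Ideal (𝓞 (Kb K))}
    (h : W.comap (algebraMap (𝓞 (⊥ : IntermediateField K (Kb K))) (𝓞 (Kb K))) = w.asIdeal) :
    W.comap (algebraMap (𝓞 K) (𝓞 (Kb K))) = (botPl w).asIdeal := by
  ext x
  rw [mem_botPl, ← h, Ideal.mem_comap, Ideal.mem_comap, botInt_comp]

instance (v : HeightOneSpectrum (𝓞 K)) : Nonempty (Idx v) := by
  obtain ⟨ℓ, hℓ, hℓ2, hℓw⟩ := exists_ell v.isMaximal.ne_top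
  let w := botPl.symm v
  have hN : NumberField (⊥ : IntermediateField K (Kb K)) := NumberField.of_module_finite K _
  obtain ⟨W, hW, hWw⟩ := exists_above K ⊥ w.asIdeal w.isMaximal
  obtain ⟨φ, hφ⟩ := exists_frob K ⊥ W hW
  have hWv := botPl_over w hWw
  rw [Equiv.apply_symm_apply] at hWv
  refine ⟨⟨ℓ, hℓ, hℓw, W, hW, hWv, φ, ?_⟩⟩
  rw [hWw, IntermediateField.fixingSubgroup_bot, botPl_card, Equiv.apply_symm_apply] at hφ
  exact hφ

/-- **The order formula over the members of a relation implies the order formula over `K`.** -/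
theorem reduction_rel {r : ℕ} {F : Fin r → IntermediateField K (Kb K)} {n n' : Fin r → ℕ} {M : ℕ}
    (hM : M ≠ 0) (hF1 : ∀ i, FiniteDimensional K (F i))
    (hrel : ∀ g : GK K, M + ∑ i, n i * nco (F i) g = ∑ i, n' i * nco (F i) g)
    (V : Fam K) (𝔅 : ∀ (p : ℕ) [Fact p.Prime], Period K ℚ_[p])
    (hyp : ∀ i, ∃ a < (0 : ℝ), OrderFormula V 𝔅 (F i) {s | a < s.re}) :
    ∃ U : Set ℂ, IsOpen U ∧ IsConnected U ∧ (0 : ℂ) ∈ U ∧ OrderFormula V 𝔅 ⊥ U := by
  classical
  have hFN : ∀ i, NumberField (F i) := fun i => NumberField.of_module_finite K (F i)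
  have hco : ∀ i, Finite (GK K ⧸ (F i).fixingSubgroup) := fun i => finite_cosets (F i)
  choose a ha P hP c Lf hcU hmer hconv hord' using hyp
  have hord : ∀ i, ∀ (p : ℕ) [Fact p.Prime],
      FiniteDimensional ℚ_[p] (H1f p (F i).fixingSubgroup (𝔅 p) (V.ρ p)) ∧
      meromorphicOrderAt (Lf i) 0 =
        (((Module.finrank ℚ_[p] (H1f p (F i).fixingSubgroup (𝔅 p) (V.ρ p)) : ℤ) -
          Module.finrank ℚ_[p] (inv (F i).fixingSubgroup (V.ρ p)) : ℤ) : WithTop ℤ) := by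
    intro i p _
    obtain ⟨k, hk, h3⟩ := hord' i p
    obtain ⟨h1, h2⟩ := (selmerDim_iff p _ _ _ _).mp hk
    exact ⟨h1, by rw [h3, ← h2]; rfl⟩
  have hf := fun i => exists_deg (F i)
  choose f hf using hf
  have hPf := fun i => euler_facts V (F i) (P i) (hP i)
  choose d hd using hPf
  -- the polynomials over `K`
  have hv : ∀ v : HeightOneSpectrum (𝓞 K), ∃ P₀ : ℚ[X], P₀.coeff 0 = 1 ∧
      (∀ j : Idx v, eulerPoly (V.ρ j.ℓ) j.h = P₀.map (algebraMap ℚ ℚ_[j.ℓ])) ∧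
      P₀ ^ M * ∏ i, Qp (F i) (P i) (f i) v ^ n i = ∏ i, Qp (F i) (P i) (f i) v ^ n' i := by
    intro v
    refine rat_root (fun j : Idx v => ℚ_[j.ℓ]) (fun j => eulerPoly (V.ρ j.ℓ) j.h)
      (fun j => euler_coeff (V.ρ j.ℓ) j.h) _ _ ?_ hM ?_
    · rw [coeff_zero_eq_eval_zero, eval_prod]
      refine Finset.prod_eq_one fun i _ => ?_
      rw [eval_pow, ← coeff_zero_eq_eval_zero, Qp_coeff (hf i) (fun w => (hd i w).1), one_pow]
    · intro j
      have h1 := rel_euler (n := n) (n' := n') (M := M) hF1 hrel (V.ρ j.ℓ) j.h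
      have h2 : ∀ i, eulerPoly (ext (GK K ⧸ (F i).fixingSubgroup) (V.ρ j.ℓ)) j.h
          = (Qp (F i) (P i) (f i) v).map (algebraMap ℚ ℚ_[j.ℓ]) := by
        intro i
        refine Qp_shapiro (V.ρ j.ℓ) (hf i) j.hW j.hWv j.h fun w hw W hW hWw φ h => ?_
        refine hP i w j.ℓ (fun h3 => j.hv ?_) W hW hWw φ h
        have h4 : w.asIdeal.comap (algebraMap (𝓞 K) (𝓞 (F i))) = v.asIdeal := hw
        rw [← h4, Ideal.mem_comap, map_natCast]
        exact h3
      simp only [h2] at h1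
      rw [Polynomial.map_prod, Polynomial.map_prod]
      simp only [Polynomial.map_pow]
      exact h1
  choose P₀ hP0 hP1 hP2 using hv
  -- the bound of the degrees
  have hdeg : ∃ d₀ : ℕ, ∀ v, (P₀ v).natDegree ≤ d₀ := by
    have h2 : Fact (Nat.Prime 2) := ⟨Nat.prime_two⟩
    have h3 : Fact (Nat.Prime 3) := ⟨Nat.prime_three⟩
    obtain ⟨B, hB⟩ : ∃ B : ℕ, ∀ v, (P₀ v ^ M).natDegree ≤ B ∨ True := ⟨0, fun v => Or.inr trivial⟩
    refine ⟨max (Module.finrank ℚ_[2] (V.V 2)) (Module.finrank ℚ_[3] (V.V 3)), fun v => ?_⟩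
    obtain ⟨ℓ, hℓ, hℓ2, hℓw⟩ := exists_ell v.isMaximal.ne_top
    obtain ⟨j⟩ : Nonempty (Idx v) := inferInstance
    have h5 := euler_deg (V.ρ ℓ) j.h
    have h6 := hP1 v ⟨ℓ, hℓ, hℓw, j.W, j.hW, j.hWv, j.φ, j.h⟩
    simp only at h6
    rw [h6, natDegree_map] at h5
    refine h5.trans ?_
    rcases hℓ2 with rfl | rfl
    · exact le_max_left _ _
    · exact le_max_right _ _
  obtain ⟨d₀, hd₀⟩ := hdeg
  -- a common abscissa
  obtain ⟨c₀, hc₀1, hc₀⟩ : ∃ c₀ : ℝ, 0 < c₀ ∧ ∀ i, c i ≤ c₀ := by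
    refine ⟨1 + ∑ i, |c i|, by positivity, fun i => ?_⟩
    have h1 : |c i| ≤ ∑ i, |c i| := Finset.single_le_sum (f := fun i => |c i|)
      (fun j _ => abs_nonneg _) (Finset.mem_univ i)
    have h2 := le_abs_self (c i)
    linarith
  have hbi : ∀ i, ∀ w (z : ℂ), aeval z (P i w) = 0 →
      (Nat.card (𝓞 (F i) ⧸ w.asIdeal) : ℝ) ^ (-c₀) ≤ ‖z‖ := fun i w z hz =>
    root_bound (P i) (fun w => (hd i w).1) c₀
      (fun s hs w => (hconv i s (lt_of_le_of_lt (hc₀ i) hs)).1 w) w z hz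
  have hb0 : ∀ v (z : ℂ), aeval z (P₀ v) = 0 → (Nat.card (𝓞 K ⧸ v.asIdeal) : ℝ) ^ (-c₀) ≤ ‖z‖ := by
    intro v z hz
    have h1 := congrArg (aeval z) (hP2 v)
    rw [map_mul, map_pow, hz, zero_pow hM, zero_mul, map_prod] at h1
    obtain ⟨i, -, hi⟩ := Finset.prod_eq_zero_iff.mp h1.symm
    rw [map_pow] at hi
    obtain ⟨w, hw, hwz⟩ := Qp_root (eq_zero_of_pow_eq_zero hi)
    have h2 := hbi i w _ hwz
    have hfw := hf i w.asIdeal w.isMaximal
    have hw' : w.asIdeal.comap (algebraMap (𝓞 K) (𝓞 (F i))) = v.asIdeal := hw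
    rw [hfw.2, hw', norm_pow, Nat.cast_pow, ← Real.rpow_natCast, ← Real.rpow_mul (Nat.cast_nonneg _),
      mul_comm, Real.rpow_mul (Nat.cast_nonneg _), Real.rpow_natCast] at h2
    exact le_of_pow_le_pow_left₀ hfw.1 (norm_nonneg _) h2
  obtain ⟨hm0, hn0, hdiff⟩ := prod_conv P₀ (fun v => ⟨hP0 v, hd₀ v⟩) hb0
  have hi := fun i => prod_conv (P i) (hd i) (hbi i)
  have hLne : ∀ i, ∀ s : ℂ, c₀ + 1 < s.re → Lf i s ≠ 0 := by
    intro i s hs
    have h1 := (hconv i s (by linarith [hc₀ i])).2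
    rw [← h1.tprod_eq]
    exact (hi i).2.1 s hs
  have hfac0 : ∀ (s : ℂ), c₀ < s.re → ∀ v, factor P₀ s v ≠ 0 := by
    intro s hs v h0
    rw [factor, inv_eq_zero] at h0
    have h1 := hb0 v _ h0
    have hq := one_lt_card v
    have hq0 : 0 < Nat.card (𝓞 K ⧸ v.asIdeal) := by omega
    rw [Complex.norm_natCast_cpow_of_pos hq0, Complex.neg_re] at h1
    have h2 := Real.rpow_lt_rpow_of_exponent_lt (x := (Nat.card (𝓞 K ⧸ v.asIdeal) : ℝ))
      (by exact_mod_cast hq) (neg_lt_neg hs)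
    linarith
  -- the identity between the L-functions
  have hpow : ∀ s : ℂ, c₀ + 1 < s.re →
      (∏' v, factor P₀ s v) ^ M * ∏ i, Lf i s ^ n i = ∏ i, Lf i s ^ n' i := by
    intro s hs
    have h1 : ∀ i, HasProd (fun v => factor (Qp (F i) (P i) (f i)) s v) (Lf i s) := by
      intro i
      have h2 := euler_fibre (F i) _ _ (hconv i s (by linarith [hc₀ i])).2
      have h3 : (fun v => factor (Qp (F i) (P i) (f i)) s v)
          = fun v => ∏ᶠ w ∈ above (F i) v, factor (P i) s w :=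
        funext fun v => Qp_factor (hf i) v s
      rw [h3]
      exact h2
    have h2 := (hm0 s hs).hasProd
    have h3 : HasProd (fun v => factor P₀ s v ^ M * ∏ i, factor (Qp (F i) (P i) (f i)) s v ^ n i)
        ((∏' v, factor P₀ s v) ^ M * ∏ i, Lf i s ^ n i) :=
      (h2.pow M).mul (hasProd_prod fun i _ => (h1 i).pow (n i))
    have h4 : HasProd (fun v => ∏ i, factor (Qp (F i) (P i) (f i)) s v ^ n' i)
        (∏ i, Lf i s ^ n' i) := hasProd_prod fun i _ => (h1 i).pow (n' i)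
    have h5 : (fun v => factor P₀ s v ^ M * ∏ i, factor (Qp (F i) (P i) (f i)) s v ^ n i)
        = fun v => ∏ i, factor (Qp (F i) (P i) (f i)) s v ^ n' i := by
      funext v
      have h6 := congrArg (aeval ((Nat.card (𝓞 K ⧸ v.asIdeal) : ℂ) ^ (-s))) (hP2 v)
      rw [map_mul, map_pow, map_prod, map_prod] at h6
      simp only [map_pow] at h6
      have h7 := congrArg (fun z => z⁻¹) h6
      simp only [mul_inv, ← inv_pow, ← Finset.prod_inv_distrib] at h7
      exact h7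
    rw [h5] at h3
    exact h3.unique h4
  -- the dimensions
  have hdim : ∀ (p : ℕ) [Fact p.Prime],
      FiniteDimensional ℚ_[p]
        (H1f p (⊥ : IntermediateField K (Kb K)).fixingSubgroup (𝔅 p) (V.ρ p)) ∧
      M * Module.finrank ℚ_[p]
          (H1f p (⊥ : IntermediateField K (Kb K)).fixingSubgroup (𝔅 p) (V.ρ p))
        + ∑ i, n i * Module.finrank ℚ_[p] (H1f p (F i).fixingSubgroup (𝔅 p) (V.ρ p))
        = ∑ i, n' i * Module.finrank ℚ_[p] (H1f p (F i).fixingSubgroup (𝔅 p) (V.ρ p)) := by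
    intro p _
    have h1 := rel_h1f (n := n) (n' := n') (M := M) hF1 hrel (𝔅 p) (V.ρ p)
    have h2 : ∀ i, Module.rank ℚ_[p] (H1f p (F i).fixingSubgroup (𝔅 p) (V.ρ p))
        = ((Module.finrank ℚ_[p] (H1f p (F i).fixingSubgroup (𝔅 p) (V.ρ p)) : ℕ) : Cardinal) := by
      intro i
      have := (hord i p).1
      exact (Module.finrank_eq_rank _ _).symm
    simp only [h2, nsmul_eq_mul, ← Nat.cast_mul, ← Nat.cast_sum] at h1
    have h3 : Module.rank ℚ_[p]
        (H1f p (⊥ : IntermediateField K (Kb K)).fixingSubgroup (𝔅 p) (V.ρ p)) < Cardinal.aleph0 := by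
      refine lt_of_le_of_lt ?_ (Cardinal.natCast_lt_aleph0 (n := ∑ i, n' i *
        Module.finrank ℚ_[p] (H1f p (F i).fixingSubgroup (𝔅 p) (V.ρ p))))
      rw [← h1]
      refine le_trans ?_ (self_le_add_right _ _)
      exact le_mul_of_one_le_left bot_le (by exact_mod_cast Nat.one_le_iff_ne_zero.mpr hM)
    have h4 : FiniteDimensional ℚ_[p]
        (H1f p (⊥ : IntermediateField K (Kb K)).fixingSubgroup (𝔅 p) (V.ρ p)) :=
      Module.rank_lt_aleph0_iff.mp h3
    refine ⟨h4, ?_⟩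
    rw [← Module.finrank_eq_rank] at h1
    exact_mod_cast h1
  have hinv : ∀ (p : ℕ) [Fact p.Prime],
      M * Module.finrank ℚ_[p] (inv (⊥ : IntermediateField K (Kb K)).fixingSubgroup (V.ρ p))
        + ∑ i, n i * Module.finrank ℚ_[p] (inv (F i).fixingSubgroup (V.ρ p))
        = ∑ i, n' i * Module.finrank ℚ_[p] (inv (F i).fixingSubgroup (V.ρ p)) := fun p _ =>
    rel_inv (n := n) (n' := n') (M := M) hF1 hrel (V.ρ p)
  -- the order
  let e : ∀ (p : ℕ) [Fact p.Prime], Fin r → ℤ := fun p _ i =>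
    (Module.finrank ℚ_[p] (H1f p (F i).fixingSubgroup (𝔅 p) (V.ρ p)) : ℤ) -
      Module.finrank ℚ_[p] (inv (F i).fixingSubgroup (V.ρ p))
  let k : ∀ (p : ℕ) [Fact p.Prime], ℤ := fun p _ =>
    (Module.finrank ℚ_[p] (H1f p (⊥ : IntermediateField K (Kb K)).fixingSubgroup (𝔅 p) (V.ρ p)) : ℤ)
      - Module.finrank ℚ_[p] (inv (⊥ : IntermediateField K (Kb K)).fixingSubgroup (V.ρ p))
  have hk : ∀ (p : ℕ) [Fact p.Prime],
      (M : ℤ) * k p + ∑ i, (n i : ℤ) * e p i = ∑ i, (n' i : ℤ) * e p i := by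
    intro p _
    have h1 := (hdim p).2
    have h2 := hinv p
    zify at h1 h2
    simp only [e, k, mul_sub, Finset.sum_sub_distrib]
    linarith
  have h2p : Fact (Nat.Prime 2) := ⟨Nat.prime_two⟩
  have hep : ∀ (p : ℕ) [Fact p.Prime] (i : Fin r), e p i = e 2 i := by
    intro p _ i
    have h1 := (hord i p).2
    have h2 := (hord i 2).2
    rw [h1] at h2
    exact WithTop.coe_injective h2
  have hkp : ∀ (p : ℕ) [Fact p.Prime], k p = k 2 := by
    intro p _
    have h1 := hk p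
    simp only [hep p] at h1
    have h2 := hk 2
    have h3 : (M : ℤ) * k p = M * k 2 := by linarith
    exact mul_left_cancel₀ (by exact_mod_cast hM) h3
  obtain ⟨U, g, hU1, hU2, hU3, hU4, hg1, hg2, hg3⟩ := ana n n' hM a ha (c₀ + 1) (by linarith) Lf
    hmer (fun s => ∏' v, factor P₀ s v) hdiff hn0 hLne hpow (e 2) (k 2) (fun i => (hord i 2).2)
    (hk 2)
  refine ⟨U, hU1, hU2, hU3, fun w => P₀ (botPl w), ?_, c₀ + 1, g, hU4, hg1, ?_, ?_⟩
  · intro w ℓ _ hℓ W hW hWw φ h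
    have hWv := botPl_over w hWw
    have h1 : IsFrob ⊤ W (Nat.card (𝓞 K ⧸ (botPl w).asIdeal)) φ := by
      rw [IntermediateField.fixingSubgroup_bot, botPl_card] at h
      exact h
    have h2 := hP1 (botPl w) ⟨ℓ, inferInstance, (fun h3 => hℓ (by
      have h4 : botInt K (ℓ : 𝓞 K) ∈ w.asIdeal := mem_botPl.mp h3
      rwa [map_natCast] at h4)), W, hW, hWv, φ, h1⟩
    simp only at h2
    rw [← h2]
    exact eulerPoly_eq (V.ρ ℓ) h h1 IntermediateField.fixingSubgroup_bot (botPl_card w)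
  · intro s hs
    have hfb : ∀ w, factor (fun w => P₀ (botPl w)) s w = factor P₀ s (botPl w) := by
      intro w
      rw [factor, factor, botPl_card]
    refine ⟨fun w => ?_, ?_⟩
    · rw [hfb]
      exact hfac0 s (by linarith) _
    · have h1 : factor (fun w => P₀ (botPl w)) s = factor P₀ s ∘ botPl := funext hfb
      rw [h1, Equiv.hasProd_iff, hg2 s hs]
      exact (hm0 s hs).hasProd
  · intro p _
    refine ⟨_, (selmerDim_iff p _ _ _ _).mpr ⟨(hdim p).1, rfl⟩, ?_⟩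
    rw [hg3, ← hkp p]
    rfl

end Pool.Agent.K4H36.BK
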