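import Mathlib
import Pool.Agent.K4H36.BK.Fin

/-!
# Reduction types over nearly good fields, and the necessity of one exceptional place
-/

set_option autoImplicit false
set_option linter.unusedSectionVars false

namespace Pool.Agent.K4H36.BK

open NumberField
open scoped Pointwise

variable {K : Type} [Field K] [NumberField K]

/-- nearly good fields and the reduction type -/
theorem reduction_nearlyGood {L F : IntermediateField K (Kb K)} {m : ℕ} (hF : NearlyGood L F m)
    (V : Fam K) (k : ℕ)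
    (hL : ∀ W : Ideal (𝓞 (Kb K)), W.IsMaximal → Reduction V k L.fixingSubgroup W)
    (hK : ∀ W : Ideal (𝓞 (Kb K)), W.IsMaximal → (m : 𝓞 (Kb K)) ∉ W → Reduction V k ⊤ W) :
    ∃ v : Ideal (𝓞 F), ∀ W : Ideal (𝓞 (Kb K)), W.IsMaximal →
      W.comap (algebraMap (𝓞 F) (𝓞 (Kb K))) ≠ v → Reduction V k F.fixingSubgroup W := by
  obtain ⟨-, v, hv⟩ := hF
  refine ⟨v, fun W hW hWv ℓ _ hℓ g hg => ?_⟩
  by_cases hm : (m : 𝓞 (Kb K)) ∈ W
  · have h1 := ((hv W hW).1 hWv).2 hm g hg.1 (inert_smul ⟨Subgroup.mem_top g, hg.2⟩)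
    refine hL W hW ℓ hℓ g ⟨?_, hg.2⟩
    rw [IntermediateField.mem_fixingSubgroup_iff]
    exact h1
  · exact hK W hW hm ℓ hℓ g ⟨Subgroup.mem_top g, hg.2⟩

/-- without an exceptional place there is no relation -/
theorem no_rel {L : IntermediateField K (Kb K)} [IsGalois K L] {m : ℕ}
    {W : Ideal (𝓞 (Kb K))} (hW : W.IsMaximal) (hm : (m : 𝓞 (Kb K)) ∈ W) {g : GK K}
    (hg : g • W = W) {x : Kb K} (hx : x ∈ L) (hgx : g x ≠ x) {r : ℕ}
    {F : Fin r → IntermediateField K (Kb K)}
    (hF : ∀ i, ∀ W : Ideal (𝓞 (Kb K)), W.IsMaximal → (m : 𝓞 (Kb K)) ∈ W →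
      ∀ g ∈ (F i).fixingSubgroup, g • W = W → ∀ x ∈ L, g x = x)
    {c : Fin r → ℤ} {n : ℤ} (h : ∀ g : GK K, ∑ i, c i * (nco (F i) g : ℤ) = n) : n = 0 := by
  have h0 : ∀ i, nco (F i) g = 0 := by
    intro i
    have he : IsEmpty {y : GK K ⧸ (F i).fixingSubgroup // g • y = y} := by
      refine ⟨fun y => ?_⟩
      obtain ⟨y, hy⟩ := y
      induction y using QuotientGroup.induction_on with
      | H a =>
        have h1 : a⁻¹ * (g * a) ∈ (F i).fixingSubgroup := by
          have h2 : ((g * a : GK K) : GK K ⧸ (F i).fixingSubgroup) = (a : GK K) := hy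
          exact QuotientGroup.eq.mp h2.symm
        have hmax : (a⁻¹ • W).IsMaximal := by
          have h3 : a⁻¹ • W = W.comap (MulSemiringAction.toRingHom (GK K) (𝓞 (Kb K)) a) := by
            ext z
            rw [Ideal.mem_inv_pointwise_smul_iff, Ideal.mem_comap]
            rfl
          rw [h3]
          exact Ideal.comap_isMaximal_of_surjective _ (MulAction.surjective a)
        have hmem : (m : 𝓞 (Kb K)) ∈ a⁻¹ • W := by
          rw [Ideal.mem_inv_pointwise_smul_iff]
          have h4 : a • (m : 𝓞 (Kb K)) = m := map_natCast (MulSemiringAction.toRingHom (GK K)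
            (𝓞 (Kb K)) a) m
          rwa [h4]
        have h5 : (a⁻¹ * (g * a)) • (a⁻¹ • W) = a⁻¹ • W := by
          rw [mul_smul, mul_smul, smul_inv_smul, hg]
        have hax : a⁻¹ x ∈ L := by
          have h6 := (IntermediateField.normal_iff_forall_map_le'.mp (inferInstance :
            Normal K L)) a⁻¹
          exact h6 ⟨x, hx, rfl⟩
        have h7 := hF i _ hmax hmem _ h1 h5 _ hax
        apply hgx
        have h8 := congrArg a h7
        rw [AlgEquiv.mul_apply, AlgEquiv.mul_apply, ← AlgEquiv.mul_apply a a⁻¹ (g (a (a⁻¹ x))),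
          mul_inv_cancel, ← AlgEquiv.mul_apply a a⁻¹ x, mul_inv_cancel] at h8
        exact h8
    rw [nco]
    exact Nat.card_of_isEmpty
  rw [← h g]
  simp [h0]

end Pool.Agent.K4H36.BK
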