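import Mathlib
import Pool.Agent.K4H36.BK.Ext
import Pool.Agent.K4H83.TR.ValR
import Pool.Agent.K4H36.TR.Loc

/-!
# The relation with totally real fields

If `L₀` is totally real, then the trivial character is a combination of permutation characters of
totally real nearly good fields. If `K₀` is totally real, then `L₀` can be replaced by a totally real
field with the same local behaviour.
-/

set_option autoImplicit false
set_option linter.unusedSectionVars false

namespace Pool.Agent.K4H36.BK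

open NumberField Pool.Agent.R389 Pool.Agent.K4H74.ST Pool.Agent.K4H77.SL Pool.Agent.K4H36.ST
open Pool.Agent.K4H36.TR.M (VanR val_zero_real)
open scoped Pointwise

variable {K₀ : Type} [Field K₀] [NumberField K₀] (L₀ : IntermediateField K₀ (Kb K₀)) (m : ℕ)

/-- the span of the permutation characters of the totally real nearly good fields -/
noncomputable def spnR : Submodule ℚ (GK K₀ → ℂ) :=
  Submodule.span ℚ {f | ∃ F : IntermediateField K₀ (Kb K₀), (FiniteDimensional K₀ F ∧
    IsTotallyReal F) ∧ NearlyGood L₀ F m ∧ f = fun g => (nco F g : ℂ)}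

/-- the number of embeddings fixed by `g`, modulo the totally real nearly good fields, satisfies the Brauer
relations -/
noncomputable def binvR : BInv K₀ ((GK K₀ → ℂ) ⧸ spnR L₀ m) where
  val K _ _ i := Submodule.Quotient.mk (fun g => (nem (Ω := Kb K₀) i g : ℂ))
  iso K K' _ _ _ _ i e := by
    congr 1
    funext g
    congr 1
    refine Nat.card_congr ⟨fun σ => ⟨⟨σ.1.1.comp (e : K →+* K'), ?_⟩, ?_⟩,
      fun σ => ⟨⟨σ.1.1.comp (e.symm : K' →+* K), ?_⟩, ?_⟩, ?_, ?_⟩
    · exact Eq.trans rfl σ.1.2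
    · ext x
      exact RingHom.congr_fun σ.2 (e x)
    · refine Eq.trans ?_ σ.1.2
      ext x
      simp
    · ext x
      exact RingHom.congr_fun σ.2 (e.symm x)
    · intro σ
      apply Subtype.ext
      apply Subtype.ext
      ext x
      simp
    · intro σ
      apply Subtype.ext
      apply Subtype.ext
      ext x
      simp
  rel K N _ _ _ _ _ _ i n h := by
    have h1 : (n.sum fun H k => k • (fun g => (nem (Ω := Kb K₀)
        ((algebraMap K (IntermediateField.fixedField H)).comp i) g : ℂ) : GK K₀ → ℂ)) = 0 := by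
      funext g
      have h2 := nem_rel (Ω := Kb K₀) i g n h
      rw [Finsupp.sum] at h2 ⊢
      rw [Finset.sum_apply]
      simpa using h2
    have h3 := congrArg (Submodule.mkQ (spnR L₀ m)) h1
    rw [map_zero, Finsupp.sum, map_sum] at h3
    rw [Finsupp.sum]
    rw [← h3]
    refine Finset.sum_congr rfl fun H _ => ?_
    exact (map_zsmul (Submodule.mkQ (spnR L₀ m)) _ _).symm

variable {m}

/-- the generalised Artin induction theorem -/
theorem one_mem_spnR [FiniteDimensional K₀ L₀] [IsGalois K₀ L₀] [IsTotallyReal L₀] (hm : m ≠ 0) :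
    (fun _ => (1 : ℂ)) ∈ spnR L₀ m := by
  have hL₀ : NumberField L₀ := NumberField.of_module_finite K₀ L₀
  have htf : ∀ (x : (GK K₀ → ℂ) ⧸ spnR L₀ m) (n : ℕ), n ≠ 0 → n • x = 0 → x = 0 := by
    intro x n hn h
    have h1 : (n : ℚ) • x = 0 := by
      rw [← h]
      exact Nat.cast_smul_eq_nsmul ℚ n x
    exact (smul_eq_zero.mp h1).resolve_left (by exact_mod_cast hn)
  have hvan : VanR (binvR L₀ m) L₀ m := by
    intro K L _ _ _ _ _ _ _ i j hc hcyc v h1 h2 h3
    obtain ⟨τ, hτ, hgood⟩ := nearlyGood_img L₀ hc hcyc v h1 h2 h3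
    change Submodule.Quotient.mk _ = _
    rw [Submodule.Quotient.mk_eq_zero]
    have hreal : IsTotallyReal (img τ hτ) := by
      have h4 : FiniteDimensional K L := Module.Finite.of_restrictScalars_finite ℚ K L
      have h5 : IsTotallyReal K := IsTotallyReal.of_algebra K L
      refine IsTotallyReal.ofRingEquiv (RingEquiv.ofBijective
        ({ toFun := fun x => (⟨τ x, ⟨x, rfl⟩⟩ : img τ hτ)
           map_one' := Subtype.ext (map_one τ)
           map_mul' := fun x y => Subtype.ext (map_mul τ x y)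
           map_zero' := Subtype.ext (map_zero τ)
           map_add' := fun x y => Subtype.ext (map_add τ x y) } : K →+* img τ hτ) ⟨?_, ?_⟩)
      · intro x y hxy
        exact τ.injective (congrArg Subtype.val hxy)
      · rintro ⟨_, x, rfl⟩
        exact ⟨x, rfl⟩
    refine Submodule.subset_span ⟨img τ hτ, ⟨?_, hreal⟩, hgood, ?_⟩
    · -- finite degree
      let _ : Algebra K₀ K := i.toAlgebra
      have hfin : FiniteDimensional K₀ K := Module.Finite.of_restrictScalars_finite ℚ K₀ K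
      let f : K →ₐ[K₀] Kb K₀ := { τ with commutes' := fun x => RingHom.congr_fun hτ x }
      have hsurj : Function.Surjective (fun x : K => (⟨f x, ⟨x, rfl⟩⟩ : img τ hτ)) := by
        rintro ⟨_, x, rfl⟩
        exact ⟨x, rfl⟩
      let f' : K →ₗ[K₀] img τ hτ :=
        { toFun := fun x => (⟨f x, ⟨x, rfl⟩⟩ : img τ hτ)
          map_add' := fun x y => Subtype.ext (map_add f x y)
          map_smul' := fun c x => Subtype.ext (f.toLinearMap.map_smul c x) }
      exact Module.Finite.of_surjective f' hsurj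
    · funext g
      rw [nem_img hτ g]
      rfl
  have hc : Cmp K₀ L₀ K₀ L₀ (RingHom.id K₀) (RingHom.id L₀) := ⟨rfl, fun g hg => by
    ext x
    exact congrArg _ (hg x)⟩
  have h := val_zero_real hm hvan htf K₀ L₀ hc
  change Submodule.Quotient.mk _ = _ at h
  rw [Submodule.Quotient.mk_eq_zero] at h
  have h1 : (fun g => (nem (Ω := Kb K₀) (RingHom.id K₀) g : ℂ)) = fun _ => (1 : ℂ) := by
    funext g
    have h2 : nem (Ω := Kb K₀) (RingHom.id K₀) g = 1 := by
      rw [nem, Nat.card_eq_one_iff_unique]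
      refine ⟨⟨fun a b => ?_⟩, ⟨⟨⟨algebraMap K₀ (Kb K₀), rfl⟩, ?_⟩⟩⟩
      · apply Subtype.ext
        apply Subtype.ext
        exact a.1.2.trans b.1.2.symm
      · ext x
        simp
    rw [h2, Nat.cast_one]
  rwa [h1] at h

/-- **The trivial character is a rational combination of permutation characters of totally real
nearly good fields.** -/
theorem exists_relR [FiniteDimensional K₀ L₀] [IsGalois K₀ L₀] [IsTotallyReal L₀] (hm : m ≠ 0) :
    ∃ (r : ℕ) (F : Fin r → IntermediateField K₀ (Kb K₀)) (n n' : Fin r → ℕ) (M : ℕ), M ≠ 0 ∧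
      (∀ i, FiniteDimensional K₀ (F i) ∧ NearlyGood L₀ (F i) m) ∧ (∀ i, IsTotallyReal (F i)) ∧
      ∀ g : GK K₀, M + ∑ i, n i * nco (F i) g = ∑ i, n' i * nco (F i) g := by
  classical
  have h := one_mem_spnR L₀ hm
  rw [spnR, Submodule.mem_span_iff_exists_finset_subset] at h
  obtain ⟨q, t, ht, hq, hsum⟩ := h
  have hF : ∀ x : t, ∃ F : IntermediateField K₀ (Kb K₀), (FiniteDimensional K₀ F ∧
      IsTotallyReal F) ∧ NearlyGood L₀ F m ∧ (x : GK K₀ → ℂ) = fun g => (nco F g : ℂ) := fun x => ht x.2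
  choose F hF1 hF2 hF3 using hF
  -- a common denominator
  obtain ⟨M, hM, a, ha⟩ : ∃ (M : ℕ), M ≠ 0 ∧ ∃ a : t → ℤ, ∀ x : t, (M : ℚ) * q x = a x := by
    refine ⟨∏ x : t, (q x).den, ?_, ?_⟩
    · rw [Finset.prod_ne_zero_iff]
      intro x _
      exact (q x).den_ne_zero
    · have h1 : ∀ x : t, ∃ a : ℤ, ((∏ x : t, (q x).den : ℕ) : ℚ) * q x = a := by
        intro x
        obtain ⟨k, hk⟩ := Finset.dvd_prod_of_mem (fun x : t => (q x).den) (Finset.mem_univ x)
        refine ⟨k * (q x).num, ?_⟩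
        rw [hk]
        push_cast
        have h2 : ((q x).den : ℚ) * q x = (q x).num := by
          rw [mul_comm]
          exact Rat.mul_den_eq_num _
        calc ((q x).den : ℚ) * k * q x = k * (((q x).den : ℚ) * q x) := by ring
          _ = _ := by rw [h2]
      choose a ha using h1
      exact ⟨a, ha⟩
  let e := t.equivFin
  refine ⟨t.card, fun i => F (e.symm i), fun i => (-(a (e.symm i))).toNat,
    fun i => (a (e.symm i)).toNat, M, hM, fun i => ⟨(hF1 _).1, hF2 _⟩, fun i => (hF1 _).2,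
    fun g => ?_⟩
  have h1 : (M : ℂ) = ∑ x : t, (a x : ℂ) * (nco (F x) g : ℂ) := by
    have h2 := congrFun hsum g
    rw [Finset.sum_apply] at h2
    have h3 : ∑ x : t, (q x : ℂ) * (nco (F x) g : ℂ) = 1 := by
      rw [← h2, ← Finset.sum_coe_sort t]
      refine Finset.sum_congr rfl fun x _ => ?_
      rw [Pi.smul_apply, congrFun (hF3 x) g, Rat.smul_def]
    calc (M : ℂ) = M * ∑ x : t, (q x : ℂ) * (nco (F x) g : ℂ) := by rw [h3, mul_one]
      _ = ∑ x : t, ((M : ℂ) * (q x : ℂ)) * (nco (F x) g : ℂ) := by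
        rw [Finset.mul_sum]
        refine Finset.sum_congr rfl fun x _ => ?_
        ring
      _ = _ := by
        refine Finset.sum_congr rfl fun x _ => ?_
        congr 1
        have h4 := ha x
        exact_mod_cast congrArg (fun z : ℚ => (z : ℂ)) h4
  have h2 : (M : ℤ) = ∑ x : t, a x * (nco (F x) g : ℤ) := by exact_mod_cast h1
  have h3 : ∀ z : ℤ, z = (z.toNat : ℤ) - ((-z).toNat : ℤ) := by intro z; omega
  have h4 : (M : ℤ) + ∑ x : t, ((-(a x)).toNat : ℤ) * (nco (F x) g : ℤ)
      = ∑ x : t, ((a x).toNat : ℤ) * (nco (F x) g : ℤ) := by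
    rw [h2, ← Finset.sum_add_distrib]
    refine Finset.sum_congr rfl fun x _ => ?_
    have h5 := h3 (a x)
    calc a x * (nco (F x) g : ℤ) + ((-(a x)).toNat : ℤ) * (nco (F x) g : ℤ)
        = (a x + ((-(a x)).toNat : ℤ)) * (nco (F x) g : ℤ) := by ring
      _ = _ := by
        congr 1
        omega
  have h5 : M + ∑ x : t, (-(a x)).toNat * nco (F x) g = ∑ x : t, (a x).toNat * nco (F x) g := by
    exact_mod_cast h4
  rw [← e.symm.sum_comp, ← e.symm.sum_comp] at h5
  exact h5

/-- **Totally real fields with the same local behaviour.** -/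
theorem exists_real_sub [IsTotallyReal K₀] [FiniteDimensional K₀ L₀] [IsGalois K₀ L₀] (hm : m ≠ 0) :
    ∃ L' : IntermediateField K₀ (Kb K₀), FiniteDimensional K₀ L' ∧ IsGalois K₀ L' ∧
      IsTotallyReal L' ∧ ∀ W : Ideal (𝓞 (Kb K₀)), W.IsMaximal → (m : 𝓞 (Kb K₀)) ∈ W →
        ∀ g : GK K₀, g • W = W → (∀ x ∈ L', g x = x) → ∀ x ∈ L₀, g x = x := by
  have hL₀ : NumberField L₀ := NumberField.of_module_finite K₀ L₀
  obtain ⟨N, j1, j2, j3, j4, j5, hN⟩ := Pool.Agent.K4H36.TR.exists_real_local K₀ L₀ hm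
  have hfinN : FiniteDimensional K₀ N := Module.Finite.of_restrictScalars_finite ℚ K₀ N
  let f : N →ₐ[K₀] Kb K₀ := IsAlgClosed.lift
  have hfin' : FiniteDimensional K₀ f.fieldRange :=
    Module.Finite.of_surjective (f.rangeRestrict.toLinearMap) f.rangeRestrict_surjective
  have hnor : Normal K₀ f.fieldRange := Normal.of_algEquiv (AlgEquiv.ofInjectiveField f)
  have hgal : IsGalois K₀ f.fieldRange := ⟨⟩
  have hreal : IsTotallyReal f.fieldRange :=
    IsTotallyReal.ofRingEquiv (AlgEquiv.ofInjectiveField f).toRingEquiv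
  refine ⟨f.fieldRange, hfin', hgal, hreal, fun W hW hmW g hgW hg => ?_⟩
  -- the compositum
  have hle1 : L₀ ≤ L₀ ⊔ f.fieldRange := le_sup_left
  have hle2 : f.fieldRange ≤ L₀ ⊔ f.fieldRange := le_sup_right
  have hMfin : FiniteDimensional K₀ (L₀ ⊔ f.fieldRange : IntermediateField K₀ (Kb K₀)) :=
    IntermediateField.finiteDimensional_sup L₀ f.fieldRange
  have hMnor : Normal K₀ (L₀ ⊔ f.fieldRange : IntermediateField K₀ (Kb K₀)) := inferInstance
  generalize hMdef : (L₀ ⊔ f.fieldRange : IntermediateField K₀ (Kb K₀)) = M at hle1 hle2 hMfin hMnor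
  have hMnf : NumberField M := NumberField.of_module_finite K₀ M
  let _ : Algebra L₀ M := (IntermediateField.inclusion hle1).toRingHom.toAlgebra
  let fN : N →ₐ[K₀] M := AlgHom.codRestrict f M.toSubalgebra (fun x => hle2 ⟨x, rfl⟩)
  let _ : Algebra N M := fN.toRingHom.toAlgebra
  have hst1 : IsScalarTower K₀ L₀ M := IsScalarTower.of_algebraMap_eq fun x => rfl
  have hst2 : IsScalarTower K₀ N M := IsScalarTower.of_algebraMap_eq fun x => (fN.commutes x).symm
  let ε : M →+* Kb K₀ := algebraMap M (Kb K₀)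
  let σ : M ≃ₐ[K₀] M := g.restrictNormal M
  have hσ : ∀ x : M, g (ε x) = ε (σ x) := fun x => (AlgEquiv.restrictNormal_commutes g M x).symm
  have hmax : (W.comap (intEmb ε)).IsMaximal := by
    have h4 : (W.comap (algebraMap ℤ (𝓞 (Kb K₀)))).IsMaximal :=
      Ideal.isMaximal_comap_of_isIntegral_of_isMaximal W
    have hp : (W.comap (intEmb ε)).IsPrime := Ideal.IsPrime.comap _
    refine hp.isMaximal fun h5 => ?_
    have h6 : (W.comap (algebraMap ℤ (𝓞 (Kb K₀)))) = ⊥ := by
      rw [eq_bot_iff]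
      intro z hz
      have h7 : algebraMap ℤ (𝓞 M) z ∈ W.comap (intEmb ε) := by
        rw [Ideal.mem_comap] at hz ⊢
        have h8 : intEmb ε (algebraMap ℤ (𝓞 M) z) = algebraMap ℤ (𝓞 (Kb K₀)) z := by simp
        rw [h8]
        exact hz
      rw [h5, Ideal.mem_bot] at h7
      have h9 : Function.Injective (algebraMap ℤ (𝓞 M)) := FaithfulSMul.algebraMap_injective _ _
      rw [Ideal.mem_bot]
      exact h9 (by rw [h7, map_zero])
    exact Ring.ne_bot_of_isMaximal_of_not_isField h4 Int.not_isField h6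
  have hact : ∀ x : 𝓞 M, g • intEmb ε x = intEmb ε (gi σ x) := by
    intro x
    apply RingOfIntegers.ext
    exact hσ (x : M)
  have hdec : σ ∈ decomp K₀ (W.comap (intEmb ε)) := by
    intro x
    rw [Ideal.mem_comap, Ideal.mem_comap, ← hact]
    conv_lhs => rw [← hgW]
    exact Ideal.smul_mem_pointwise_smul_iff
  intro x hx
  have h1 := hN M σ (W.comap (intEmb ε)) hmax (by rw [Ideal.mem_comap, map_natCast]; exact hmW)
    hdec (fun y => by
      apply ε.injective
      rw [← hσ]
      exact hg _ ⟨y, rfl⟩) ⟨x, hx⟩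
  have h2 := congrArg ε h1
  rw [← hσ] at h2
  exact h2

/-- the relation; with totally real fields if `L₀` is totally real -/
theorem exists_rel_all [FiniteDimensional K₀ L₀] [IsGalois K₀ L₀] (hm : m ≠ 0) :
    ∃ (r : ℕ) (F : Fin r → IntermediateField K₀ (Kb K₀)) (n n' : Fin r → ℕ) (M : ℕ), M ≠ 0 ∧
      (∀ i, FiniteDimensional K₀ (F i) ∧ NearlyGood L₀ (F i) m) ∧
      (IsTotallyReal L₀ → ∀ i, IsTotallyReal (F i)) ∧
      ∀ g : GK K₀, M + ∑ i, n i * nco (F i) g = ∑ i, n' i * nco (F i) g := by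
  by_cases h : IsTotallyReal L₀
  · obtain ⟨r, F, n, n', M, hM, hF, hreal, hrel⟩ := exists_relR L₀ hm
    exact ⟨r, F, n, n', M, hM, hF, fun _ => hreal, hrel⟩
  · obtain ⟨r, F, n, n', M, hM, hF, hrel⟩ := exists_rel L₀ hm
    exact ⟨r, F, n, n', M, hM, hF, fun h' => absurd h' h, hrel⟩

/-- over a totally real field the reduction type can be achieved over a totally real field -/
theorem exists_real_reduction [IsTotallyReal K₀] [FiniteDimensional K₀ L₀] [IsGalois K₀ L₀]
    (hm : m ≠ 0) :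
    ∃ L' : IntermediateField K₀ (Kb K₀), FiniteDimensional K₀ L' ∧ IsGalois K₀ L' ∧
      IsTotallyReal L' ∧ ∀ (V : Fam K₀) (k : ℕ),
        (∀ W : Ideal (𝓞 (Kb K₀)), W.IsMaximal → Reduction V k L₀.fixingSubgroup W) →
        (∀ W : Ideal (𝓞 (Kb K₀)), W.IsMaximal → (m : 𝓞 (Kb K₀)) ∉ W → Reduction V k ⊤ W) →
        ∀ W : Ideal (𝓞 (Kb K₀)), W.IsMaximal → Reduction V k L'.fixingSubgroup W := by
  obtain ⟨L', h1, h2, h3, h4⟩ := exists_real_sub L₀ hm
  refine ⟨L', h1, h2, h3, fun V k hL hK W hW ℓ _ hℓ g hg => ?_⟩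
  by_cases hmW : (m : 𝓞 (Kb K₀)) ∈ W
  · refine hL W hW ℓ hℓ g ⟨?_, hg.2⟩
    rw [IntermediateField.mem_fixingSubgroup_iff]
    refine h4 W hW hmW g (inert_smul ⟨Subgroup.mem_top g, hg.2⟩) ?_
    exact (IntermediateField.mem_fixingSubgroup_iff _ _).mp hg.1
  · exact hK W hW hmW ℓ hℓ g ⟨Subgroup.mem_top g, hg.2⟩

end Pool.Agent.K4H36.BK
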